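import Pool.Agent.Lib.MP_5591bc_ag.M.Tay

/-! The Taylor series of the normalised fundamental matrix in several variables. -/

namespace Pool.Agent.Lib.MP_5591bc_ag.M

open Matrix Filter Topology MvPowerSeries Finset

noncomputable section

variable {σ K S ν : Type*} [Fintype ν] [DecidableEq ν]

section
variable [CommRing S]

theorem serG_mul {A α β γ : Type*} [CommRing A] [Algebra S A] [Fintype β] (D : Derivation S A A)
    (Y : Matrix α β A) (Z : Matrix β γ A) : (Y * Z).map D = Y.map D * Z + Y * Z.map D := by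
  ext1 i j
  simp only [map_apply, mul_apply, map_sum, Derivation.leibniz, smul_eq_mul, Matrix.add_apply,
    ← sum_add_distrib]
  exact sum_congr rfl fun l _ => by ring

theorem serG_smul {A α β : Type*} [CommRing A] [Algebra S A] (D : Derivation S A A) (a : A)
    (Z : Matrix α β A) : (a • Z).map D = D a • Z + a • Z.map D := by
  ext1 i j
  simp only [map_apply, Matrix.smul_apply, Derivation.leibniz, smul_eq_mul, Matrix.add_apply]
  ring

/-- iterated formal derivative along a word -/
def dS (w : List σ) (F : MvPowerSeries σ S) : MvPowerSeries σ S :=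
  w.foldr (fun l G => pderiv S l G) F

theorem τm_pderiv (x : σ → S) (l : σ) (q : MvPolynomial σ S) :
    τm x (MvPolynomial.pderiv l q) = pderiv S l (τm x q) := by
  classical
  induction q using MvPolynomial.induction_on with
  | C a => simp [τm]
  | add a b ha hb => simp only [map_add, ha, hb]
  | mul_X a m ha =>
    have e : τm x (MvPolynomial.X m) = X m + C (x m) := by simp [τm]
    simp only [Derivation.leibniz, smul_eq_mul, map_add, map_mul, ha, e, pderiv_C, add_zero]
    by_cases h : m = l
    · subst h; simp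
    · simp [h]

theorem τm_const (x : σ → S) (q : MvPolynomial σ S) :
    constantCoeff (τm x q) = MvPolynomial.eval x q := by
  induction q using MvPolynomial.induction_on with
  | C a => simp [τm]
  | add a b ha hb => simp only [map_add, ha, hb]
  | mul_X a m ha => simp only [map_mul, ha]; simp [τm]

theorem coeff_dS [Fintype σ] [DecidableEq σ] (w : List σ) (F : MvPowerSeries σ S) (κ : σ →₀ ℕ) :
    (∏ l, ((κ l).factorial : S)) * coeff κ (dS w F) =
      (∏ l, ((κ l + w.count l).factorial : S)) *
        coeff (κ + Multiset.toFinsupp (w : Multiset σ)) F := by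
  induction w generalizing κ with
  | nil => simp [dS]
  | cons m w ih =>
    have e : ∏ l, (((κ + Finsupp.single m 1 : σ →₀ ℕ) l).factorial : S) =
        (κ m + 1) * ∏ l, ((κ l).factorial : S) := by
      rw [← Finset.mul_prod_erase _ _ (Finset.mem_univ m),
        ← Finset.mul_prod_erase _ (fun m => ((κ m).factorial : S)) (Finset.mem_univ m),
        Finset.prod_congr rfl (g := fun m => ((κ m).factorial : S)) fun l hl => by
          simp [(Finset.ne_of_mem_erase hl).symm]]
      simp [Nat.factorial_succ, mul_assoc]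
    have h := ih (κ + Finsupp.single m 1)
    have e1 : κ + Multiset.toFinsupp ((m :: w : List σ) : Multiset σ) =
        κ + Finsupp.single m 1 + Multiset.toFinsupp (w : Multiset σ) := by
      ext l
      simp only [Finsupp.add_apply, Multiset.toFinsupp_apply, Multiset.coe_count, List.count_cons,
        Finsupp.single_apply, beq_iff_eq]
      omega
    have e2 : ∀ l, κ l + (m :: w).count l = (κ + Finsupp.single m 1 : σ →₀ ℕ) l + w.count l := by
      intro l
      simp only [Finsupp.add_apply, List.count_cons, Finsupp.single_apply, beq_iff_eq]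
      omega
    simp only [e1, e2]
    rw [← h, e, show dS (m :: w) F = pderiv S m (dS w F) from rfl, coeff_pderiv]
    ring

theorem const_dS [Fintype σ] [DecidableEq σ] (κ : σ →₀ ℕ) (F : MvPowerSeries σ S) :
    constantCoeff (dS κ.toMultiset.toList F) = (∏ l, ((κ l).factorial : S)) * coeff κ F := by
  have := coeff_dS κ.toMultiset.toList F 0
  have e : ∀ l, κ.toMultiset.toList.count l = κ l := fun l => by
    rw [← Multiset.coe_count, Multiset.coe_toList, Finsupp.count_toMultiset]
  simpa [e] using this

variable [CommRing K] {T : MvPolynomial σ K} {B : σ → Matrix ν ν (MvPolynomial σ K)}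

theorem serG_iter {τ : MvPolynomial σ K →+* MvPowerSeries σ S}
    (hτ : ∀ l p, τ (MvPolynomial.pderiv l p) = pderiv S l (τ p))
    {Y : Matrix ν ν (MvPowerSeries σ S)}
    (h : ∀ l, τ T • Y.map (pderiv S l) = (B l).map τ * Y) (w : List σ) :
    τ T ^ w.length • Y.map (dS w) = (iterM T B w).map τ * Y := by
  induction w with
  | nil =>
    have : Y.map (dS ([] : List σ)) = Y := rfl
    simp [iterM, Matrix.map_one, this]
  | cons l w ih =>
    have h1 := congrArg (fun M => τ T • M.map (pderiv S l)) ih
    have e1 : (Y.map (dS w)).map (pderiv S l) = Y.map (dS (l :: w)) := rfl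
    have e2 : τ T * pderiv S l (τ T ^ w.length) =
        (w.length * pderiv S l (τ T)) * τ T ^ w.length := by
      rw [Derivation.leibniz_pow]
      rcases w.length with _ | m
      · simp
      · simp only [add_tsub_cancel_right, smul_eq_mul, nsmul_eq_mul, pow_succ]
        ring
    have e3 : (iterM T B (l :: w)).map τ = τ T • ((iterM T B w).map τ).map (pderiv S l) -
        (w.length * pderiv S l (τ T)) • (iterM T B w).map τ +
          (iterM T B w).map τ * (B l).map τ := by
      ext1 i j
      simp [iterM, hτ, mul_apply]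
    simp only [serG_mul, serG_smul, e1, smul_add, smul_smul, e2] at h1
    rw [mul_smul, ih, ← pow_succ', ← Matrix.mul_smul (Matrix.map (iterM T B w) τ) (τ T),
      h] at h1
    rw [e3, List.length_cons, eq_sub_of_add_eq' h1, Matrix.add_mul, Matrix.sub_mul,
      Matrix.smul_mul, Matrix.smul_mul, Matrix.mul_assoc]
    abel
end

theorem serG_coeff [Fintype σ] [DecidableEq σ] [CommRing K] [Field S] [CharZero S]
    {T : MvPolynomial σ K} {B : σ → Matrix ν ν (MvPolynomial σ K)}
    {τ : MvPolynomial σ K →+* MvPowerSeries σ S}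
    (hτ : ∀ l p, τ (MvPolynomial.pderiv l p) = pderiv S l (τ p)) (h0 : constantCoeff (τ T) ≠ 0)
    {Y : Matrix ν ν (MvPowerSeries σ S)} (h : ∀ l, τ T • Y.map (pderiv S l) = (B l).map τ * Y)
    (h1 : Y.map constantCoeff = 1) (κ : σ →₀ ℕ) (i j : ν) : coeff κ (Y i j) =
      constantCoeff (τ (iterM T B κ.toMultiset.toList i j)) /
        (constantCoeff (τ T) ^ κ.degree * ∏ l, ((κ l).factorial : S)) := by
  have h2 := congrArg (fun M => M.map constantCoeff) (serG_iter hτ h κ.toMultiset.toList)
  simp only [Matrix.map_mul, h1, Matrix.mul_one] at h2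
  have h3 := congrFun₂ h2 i j
  have e : κ.toMultiset.toList.length = κ.degree := by
    rw [Multiset.length_toList, Finsupp.card_toMultiset]; rfl
  simp only [map_apply, Matrix.smul_apply, smul_eq_mul, map_mul, map_pow, const_dS, e] at h3
  rw [eq_div_iff (mul_ne_zero (pow_ne_zero _ h0) (prod_ne_zero_iff.2 fun l _ =>
    Nat.cast_ne_zero.2 (κ l).factorial_ne_zero)), ← h3]
  ring

variable [Fintype σ] [DecidableEq σ] [Field K]
  {T : MvPolynomial σ K} {B : σ → Matrix ν ν (MvPolynomial σ K)}

theorem coeff_GbM (T : MvPolynomial σ K) (B : σ → Matrix ν ν (MvPolynomial σ K)) (x : σ → K)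
    (i j : ν) (κ : σ →₀ ℕ) : coeff κ (GbM T B x i j) =
      MvPolynomial.eval x (iterM T B κ.toMultiset.toList i j) /
        (MvPolynomial.eval x T ^ κ.degree * ∏ l, ((κ l).factorial : K)) := rfl

theorem GbM_zero (T : MvPolynomial σ K) (B : σ → Matrix ν ν (MvPolynomial σ K)) (x : σ → K) :
    (GbM T B x).map constantCoeff = 1 := by
  ext i j
  rw [map_apply, ← coeff_zero_eq_constantCoeff_apply, coeff_GbM]
  simp [iterM, one_apply, apply_ite]

variable [Algebra K ℂ] {U : Set (σ → ℂ)} {P : (σ → ℂ) → Matrix ν ν ℂ}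

omit [Fintype σ] [DecidableEq σ] in
theorem mpM_pderiv (l : σ) (F : MvPowerSeries σ K) :
    mpM K (pderiv K l F) = pderiv ℂ l (mpM K F) := by
  ext κ; simp [coeff_pderiv]

omit [Fintype σ] [DecidableEq σ] in
theorem mpM_inj : Function.Injective (mpM K : MvPowerSeries σ K → MvPowerSeries σ ℂ) := by
  intro F G e
  ext κ
  simpa using congrArg (coeff κ) e

theorem serG_ana (hP : FundM T B U P) (M : Matrix ν ν ℂ) {s : σ → ℂ} (hs : s ∈ U) (i j : ν) :
    AnalyticAt ℂ (fun t => (P t * M) i j) s :=
  Finset.analyticAt_fun_sum _ fun a _ => ((hP s hs).2 i a).1.fun_mul analyticAt_const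

/-- The Taylor matrix of `P` solves the system. -/
theorem tayX_ode (ho : IsOpen U) (hP : FundM T B U P) {s : σ → ℂ} (hs : s ∈ U) (l : σ) :
    tayM (fun z => MvPolynomial.aeval z T) s • (tayX P s).map (pderiv ℂ l) =
      (B l).map (fun q => tayM (fun z => MvPolynomial.aeval z q) s) * tayX P s := by
  have ha := fun i j => ((hP s hs).2 i j).1
  ext1 i j
  simp only [Matrix.smul_apply, map_apply, tayX, of_apply, smul_eq_mul, mul_apply]
  have hb : AnalyticAt ℂ (fun z => fderiv ℂ (fun z => P z i j) z (Pi.single l 1)) s :=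
    pd_ana (ha i j) l
  rw [← tayM_pd (ha i j), ← tayM_mul (aeval_ana T) hb,
    ← Finset.sum_congr rfl fun a _ => tayM_mul (aeval_ana (B l i a)) (ha a j),
    ← tayM_sum _ fun a _ => (aeval_ana _).fun_mul (ha a j)]
  exact tayM_congr (mem_of_superset (ho.mem_nhds hs) fun t ht => ((hP t ht).2 i j).2 l)

theorem tayX_mul (hP : FundM T B U P) (M : Matrix ν ν ℂ) {s : σ → ℂ} (hs : s ∈ U) :
    tayX (fun t => P t * M) s = tayX P s * M.map C := by
  have ha := fun i j => ((hP s hs).2 i j).1
  ext1 i j
  simp only [tayX, of_apply, mul_apply, map_apply]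
  rw [tayM_sum _ fun a _ => (ha i a).fun_mul analyticAt_const]
  exact Finset.sum_congr rfl fun a _ => by rw [tayM_mul (ha i a) analyticAt_const, tayM_const]

theorem tayX_const (hP : FundM T B U P) {s : σ → ℂ} (hs : s ∈ U) :
    (tayX P s).map constantCoeff = P s := by
  ext i j
  exact constantCoeff_tayM ((hP s hs).2 i j).1

theorem tayX_ode_pc (ho : IsOpen U) (hP : FundM T B U P) {x : σ → K} (hx : pc x ∈ U)
    (M : Matrix ν ν ℂ) (l : σ) :
    ((mpM K).comp (τm x)) T • (tayX (fun t => P t * M) (pc x)).map (pderiv ℂ l) =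
      (B l).map ((mpM K).comp (τm x)) * tayX (fun t => P t * M) (pc x) := by
  have h := tayX_ode ho hP hx l
  simp only [tayM_aeval_pc] at h
  have e : (M.map C : Matrix ν ν (MvPowerSeries σ ℂ)).map (pderiv ℂ l) = 0 := by
    ext1 i j; simp
  rw [tayX_mul hP M hx, serG_mul, e, Matrix.mul_zero, add_zero, ← Matrix.smul_mul,
    ← Matrix.mul_assoc]
  exact congrArg (· * _) h

theorem tayX_G (ho : IsOpen U) (hP : FundM T B U P) {x : σ → K} (hx : pc x ∈ U)
    (hT : MvPolynomial.eval x T ≠ 0) :
    tayX (fun t => P t * (P (pc x))⁻¹) (pc x) = (GbM T B x).map (mpM K) := by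
  have h0 : ∀ p, constantCoeff (((mpM K).comp (τm x)) p) =
      algebraMap K ℂ (MvPolynomial.eval x p) := fun p => by
    rw [RingHom.comp_apply, constantCoeff_map, τm_const]
  ext i j κ
  refine (serG_coeff (T := T) (B := B) (τ := (mpM K).comp (τm x)) (fun l p => ?_) ?_
    (tayX_ode_pc ho hP hx _) ?_ κ i j).trans ?_
  · rw [RingHom.comp_apply, RingHom.comp_apply, τm_pderiv, mpM_pderiv]
  · rw [h0]; simpa using hT
  · rw [tayX_mul hP _ hx, Matrix.map_mul, tayX_const hP hx, Matrix.map_map]
    have : (P (pc x))⁻¹.map (constantCoeff ∘ (C : ℂ → MvPowerSeries σ ℂ)) = (P (pc x))⁻¹ := by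
      ext i j; simp
    rw [this, mul_nonsing_inv _ (hP _ hx).1.isUnit]
  · simp only [h0, map_apply, coeff_map, coeff_GbM, map_div₀, map_mul, map_pow, map_prod,
      map_natCast]

theorem tayM_G (ho : IsOpen U) (hP : FundM T B U P) {x : σ → K} (hx : pc x ∈ U)
    (hT : MvPolynomial.eval x T ≠ 0) (i j : ν) :
    tayM (fun t => (P t * (P (pc x))⁻¹) i j) (pc x) = mpM K (GbM T B x i j) :=
  congrFun₂ (tayX_G ho hP hx hT) i j

/-- The formal solution solves the system as soon as an analytic solution exists. -/
theorem GbM_ode (ho : IsOpen U) (hP : FundM T B U P) {x : σ → K} (hx : pc x ∈ U)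
    (hT : MvPolynomial.eval x T ≠ 0) (l : σ) :
    τm x T • (GbM T B x).map (pderiv K l) = (B l).map (τm x) * GbM T B x := by
  have h := tayX_ode_pc ho hP hx (P (pc x))⁻¹ l
  rw [tayX_G ho hP hx hT] at h
  ext1 i j
  apply mpM_inj
  have := congrFun₂ h i j
  simpa only [Matrix.smul_apply, map_apply, smul_eq_mul, mul_apply, map_mul, map_sum,
    RingHom.comp_apply, mpM_pderiv] using this

end

end Pool.Agent.Lib.MP_5591bc_ag.M
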