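import Mathlib

/-! Systems in several variables, the condition of Galochkin, the degree `δ` property. -/

namespace Pool.Agent.Lib.MP_5591bc_ag.M

open MvPolynomial Filter Topology

noncomputable section

/-- For the system `T ∂_l Y = B l * Y` and a word `w` in the variables, the matrix with
`T ^ |w| ∂_w Y = iterM T B w * Y`. -/
def iterM {R σ ν : Type*} [CommRing R] [Fintype ν] [DecidableEq ν] (T : MvPolynomial σ R)
    (B : σ → Matrix ν ν (MvPolynomial σ R)) : List σ → Matrix ν ν (MvPolynomial σ R)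
  | [] => 1
  | l :: w => T • (iterM T B w).map (pderiv l) -
      ((w.length : MvPolynomial σ R) * pderiv l T) • iterM T B w + iterM T B w * B l

/-- Galochkin's condition: the matrices `iterM T B w / ∏ l, (count l w)!`, `|w| ≤ m`, have a common
denominator of at most exponential size. -/
def GalM {K σ ν : Type*} [Field K] [Fintype σ] [DecidableEq σ] [Fintype ν] [DecidableEq ν]
    (T : MvPolynomial σ K) (B : σ → Matrix ν ν (MvPolynomial σ K)) : Prop :=
  ∃ C : ℝ, ∀ m : ℕ, ∃ d : ℕ, 0 < d ∧ (d : ℝ) ≤ C ^ (m + 1) ∧ ∀ w : List σ, w.length ≤ m → ∀ i j κ,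
    IsIntegral ℤ ((d : K) * coeff κ (iterM T B w i j) / ∏ l, ((w.count l).factorial : K))

/-- `P` is an invertible holomorphic solution of `T ∂_l P = B l * P` (all `l`) on `U`. -/
def FundM {K σ ν : Type*} [Field K] [Algebra K ℂ] [Fintype σ] [DecidableEq σ] [Fintype ν]
    [DecidableEq ν] (T : MvPolynomial σ K) (B : σ → Matrix ν ν (MvPolynomial σ K))
    (U : Set (σ → ℂ)) (P : (σ → ℂ) → Matrix ν ν ℂ) : Prop :=
  ∀ t ∈ U, (P t).det ≠ 0 ∧ ∀ i j, AnalyticAt ℂ (fun z => P z i j) t ∧ ∀ l,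
    aeval t T * fderiv ℂ (fun z => P z i j) t (Pi.single l 1) = ∑ a, aeval t (B l i a) * P t a j

/-- the value `q(t, P t)` -/
def valM {σ ν : Type*} (P : (σ → ℂ) → Matrix ν ν ℂ) (q : MvPolynomial (ν × ν) (MvPolynomial σ ℂ))
    (t : σ → ℂ) : ℂ :=
  eval₂ (eval t) (fun a => P t a.1 a.2) q

/-- `ℂ(t)` is algebraically closed in the field generated over it by the entries of `P`. -/
def ConnM {σ ν : Type*} (U : Set (σ → ℂ)) (P : (σ → ℂ) → Matrix ν ν ℂ) : Prop :=
  ∀ (u v : MvPolynomial (ν × ν) (MvPolynomial σ ℂ)) (n : ℕ) (p : ℕ → MvPolynomial σ ℂ),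
    (∃ t ∈ U, valM P v t ≠ 0) → (∃ j ≤ n, p j ≠ 0) →
    (∀ t ∈ U, ∑ j ∈ Finset.range (n + 1),
      eval t (p j) * valM P u t ^ j * valM P v t ^ (n - j) = 0) →
    ∃ a b : MvPolynomial σ ℂ, b ≠ 0 ∧ ∀ t ∈ U, eval t b * valM P u t = eval t a * valM P v t

/-- analytic continuations of `P₀` on `U₀` along chains of domains -/
inductive ContM {σ ν : Type*} [Fintype σ] (U₀ : Set (σ → ℂ)) (P₀ : (σ → ℂ) → Matrix ν ν ℂ) :
    Set (σ → ℂ) → ((σ → ℂ) → Matrix ν ν ℂ) → Prop
  | base : ContM U₀ P₀ U₀ P₀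
  | step (U U' : Set (σ → ℂ)) (P P' : (σ → ℂ) → Matrix ν ν ℂ) (s : σ → ℂ) :
      ContM U₀ P₀ U P → IsOpen U' → IsPreconnected U' →
      (∀ i j, AnalyticOnNhd ℂ (fun t => P' t i j) U') → s ∈ U → s ∈ U' →
      (∀ᶠ t in 𝓝 s, P t = P' t) → ContM U₀ P₀ U' P'

/-- The degree `δ` property at `x`: every polynomial `F` over `K` of degree at most `δ` vanishing at
`P x` is the specialisation at `t = x` of a polynomial `H(t, X)` over `K` vanishing on the graph of
the multivalued function obtained from `P` on `U` by analytic continuation. -/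
def GoodV {K σ ν : Type*} [Field K] [Algebra K ℂ] [Fintype σ] (U : Set (σ → ℂ))
    (P : (σ → ℂ) → Matrix ν ν ℂ) (δ : ℕ) (x : σ → K) : Prop :=
  ∀ F : MvPolynomial (ν × ν) K, F.totalDegree ≤ δ →
    aeval (fun a => P (fun l => algebraMap K ℂ (x l)) a.1 a.2) F = 0 →
    ∃ H : MvPolynomial (σ ⊕ ν × ν) K,
      (∀ U' P', ContM U P U' P' → ∀ t ∈ U', aeval (Sum.elim t fun a => P' t a.1 a.2) H = 0) ∧
      aeval (Sum.elim (fun l => C (x l)) X) H = F

end

end Pool.Agent.Lib.MP_5591bc_ag.M
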