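import Pool.Agent.Lib.MP_5591bc_ag.W.Set
import Pool.Agent.Lib.MP_5591bc_ag.M.Defs

/-! Shared notation for the counting theorem in several variables. -/

namespace Pool.Agent.Lib.MP_5591bc_ag.M

open Matrix Filter Topology MvPowerSeries G R W Metric

noncomputable section

variable {σ : Type*}

/-- expansion of a polynomial at a point -/
def τm {R : Type*} [CommRing R] (x : σ → R) : MvPolynomial σ R →+* MvPowerSeries σ R :=
  MvPolynomial.coeToMvPowerSeries.ringHom.comp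
    (MvPolynomial.aeval fun l => MvPolynomial.X l + MvPolynomial.C (x l) :
      MvPolynomial σ R →ₐ[R] MvPolynomial σ R).toRingHom

/-- vanishing to order `n` -/
def On {R : Type*} [CommRing R] (n : ℕ) (f : MvPowerSeries σ R) : Prop :=
  ∀ κ : σ →₀ ℕ, κ.degree < n → coeff κ f = 0

/-- restriction of a series to the line `u ↦ u • v` -/
def dir {R : Type*} [CommRing R] [Fintype σ] (v : σ → R) : MvPowerSeries σ R →+* PowerSeries R :=
  (rename (R := R) fun _ : σ => ()).toRingHom.comp (rescale v)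

/-- the Taylor series of a function of several variables -/
def tayM [Fintype σ] (g : (σ → ℂ) → ℂ) (p : σ → ℂ) : MvPowerSeries σ ℂ :=
  Classical.epsilon fun F => ∀ v, dir v F = tay (fun u : ℂ => g (p + u • v)) 0

/-- `Φ` solves the system -/
def IsM {k S ι : Type*} [CommRing k] [CommRing S] [Fintype ι]
    (τ : MvPolynomial σ k →+* MvPowerSeries σ S) (T : MvPolynomial σ k)
    (B : σ → Matrix ι ι (MvPolynomial σ k)) (Φ : ι → MvPowerSeries σ S) : Prop :=
  ∀ l μ, τ T * pderiv S l (Φ μ) = ∑ η, τ (B l μ η) * Φ η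

/-- the action of the connection on rows -/
def Dm {k ι : Type*} [CommRing k] [Fintype ι] (T : MvPolynomial σ k)
    (B : σ → Matrix ι ι (MvPolynomial σ k)) (l : σ) (φ : ι → MvPolynomial σ k) :
    ι → MvPolynomial σ k :=
  T • (fun i => MvPolynomial.pderiv l (φ i)) + φ ᵥ* B l

/-- the pairing of a row with a vector of series -/
def prm {k S ι : Type*} [CommRing k] [CommRing S] [Fintype ι]
    (τ : MvPolynomial σ k →+* MvPowerSeries σ S) (Φ : ι → MvPowerSeries σ S)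
    (φ : ι → MvPolynomial σ k) : MvPowerSeries σ S :=
  ∑ i, τ (φ i) * Φ i

/-- `S` lies on a hypersurface of degree at most `n` -/
def Hyp {L : Type*} [CommRing L] (S : Set (σ → L)) (n : ℕ) : Prop :=
  ∃ Q : MvPolynomial σ L, Q ≠ 0 ∧ Q.totalDegree ≤ n ∧ ∀ x ∈ S, MvPolynomial.eval x Q = 0

/-- the monomial `(t - s) ^ e` -/
def mns {R : Type*} [CommRing R] [Fintype σ] (s : σ → R) (e : σ → ℕ) : MvPolynomial σ R :=
  ∏ l, (MvPolynomial.X l - MvPolynomial.C (s l)) ^ e l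

/-- the series `W` at `s` converges geometrically on the rays towards the points near `x`, and its
sum is `g` -/
structure Rad [Fintype σ] (q S ρ : ℝ) (s x : σ → ℂ) (W : MvPowerSeries σ ℂ) (g : (σ → ℂ) → ℂ) :
    Prop where
  an : AnalyticAt ℂ g x
  bd : ∀ y, ‖y - x‖ ≤ ρ → ∀ n, ‖PowerSeries.coeff n (dir (y - s) W)‖ ≤ S / q ^ n
  sum : ∀ᶠ y in 𝓝 x, HasSum (fun n => PowerSeries.coeff n (dir (y - s) W)) (g y)

/-- the discs with centre `s` through the points near `x` avoid the zeros of `T` -/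
def Near [Fintype σ] {K : Type*} [CommRing K] [Algebra K ℂ] (T : MvPolynomial σ K) (ρ : ℝ)
    (s x : σ → ℂ) : Prop :=
  ∀ y, ‖y - x‖ ≤ ρ → ∀ u : ℂ, ‖u‖ ≤ 17 → MvPolynomial.aeval (s + u • (y - s)) T ≠ 0

/-- series over a number field with geometric growth of conjugates and denominators -/
def GKm {F α : Type*} [Field F] (h : ℕ) (g : α → MvPowerSeries σ F) : Prop :=
  ∃ C : ℕ, 0 < C ∧ ∀ t, (∀ x (φ : F →+* ℂ) (κ : σ →₀ ℕ), κ.degree ≤ t →
    ‖φ (coeff κ (g x))‖ ≤ C * h ^ t) ∧ ∃ d : ℕ, 0 < d ∧ d ≤ C * h ^ t ∧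
      ∀ x (κ : σ →₀ ℕ), κ.degree ≤ t → IsIntegral ℤ ((d : F) * coeff κ (g x))

/-- a point `x` near the centre `s`, a solution with expansion `Φ` at `x` and `μ W` at `s` -/
structure DatM [Fintype σ] {K L A : Type*} [Field K] [Field L] [CharZero L] [Algebra K L]
    [Fintype A] (ι : L →+* ℂ) (Λ : ℕ) (s : σ → K) (T : MvPolynomial σ L)
    (B : σ → Matrix A A (MvPolynomial σ L)) (W : A → A → MvPowerSeries σ K) (x : σ → L)
    (Φ : A → MvPowerSeries σ L) (μ : A → ℂ) : Prop where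
  ne : MvPolynomial.eval x T ≠ 0
  ode : IsM (τm x) T B Φ
  fld : ∃ F : IntermediateField ℚ L, Module.finrank ℚ F ≤ Λ ∧ (∀ y : K, algebraMap K L y ∈ F) ∧
    (∀ l, x l ∈ F) ∧ ∀ α κ, coeff κ (Φ α) ∈ F
  gk : GKm (2 ^ Λ) Φ
  den : ∃ d : ℕ, 0 < d ∧ d ≤ 2 ^ Λ ∧ ∀ l, IsIntegral ℤ ((d : L) * (x l - algebraMap K L (s l)))
  hou : ∀ l (φ : L →+* ℂ), ‖φ (x l - algebraMap K L (s l))‖ ≤ 2 ^ Λ
  ana : ∃ (g : A → (σ → ℂ) → ℂ) (S : ℝ), ∀ α,
    Rad 16 S (2 ^ Λ)⁻¹ (fun l => ι (algebraMap K L (s l))) (fun l => ι (x l))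
      (∑ β, C (μ β) * map (ι.comp (algebraMap K L)) (W β α)) (g α) ∧
    tayM (g α) (fun l => ι (x l)) = map ι (Φ α)

/-- the complex point of a point over `K` -/
abbrev pc {K : Type*} [Field K] [Algebra K ℂ] (x : σ → K) : σ → ℂ := fun l => algebraMap K ℂ (x l)

/-- series over `K` as complex series -/
abbrev mpM (K : Type*) [Field K] [Algebra K ℂ] : MvPowerSeries σ K →+* MvPowerSeries σ ℂ :=
  map (algebraMap K ℂ)

/-- a polynomial over a larger field -/
abbrev TM {K0 : Type*} [Field K0] (K : Type*) [Field K] [Algebra K0 K] (T : MvPolynomial σ K0) :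
    MvPolynomial σ K :=
  MvPolynomial.map (algebraMap K0 K) T

/-- a family of matrices over a larger field -/
abbrev BM {K0 ν : Type*} [Field K0] (K : Type*) [Field K] [Algebra K0 K]
    (B : σ → Matrix ν ν (MvPolynomial σ K0)) : σ → Matrix ν ν (MvPolynomial σ K) :=
  fun l => (B l).map (MvPolynomial.map (algebraMap K0 K))

variable {K ν : Type*} [Field K] [Fintype ν] [DecidableEq ν]

/-- the formal solution at `x` with value `1` -/
def GbM [Fintype σ] [DecidableEq σ] (T : MvPolynomial σ K) (B : σ → Matrix ν ν (MvPolynomial σ K))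
    (x : σ → K) : Matrix ν ν (MvPowerSeries σ K) :=
  of fun i j κ => MvPolynomial.eval x (iterM T B κ.toMultiset.toList i j) /
    (MvPolynomial.eval x T ^ κ.degree * ∏ l, ((κ l).factorial : K))

/-- the series at `x` of the horizontal covector with value `F` at `x` -/
def LserM [Fintype σ] [DecidableEq σ] (T : MvPolynomial σ K)
    (B : σ → Matrix ν ν (MvPolynomial σ K)) (δ : ℕ) (x : σ → K) (F : Mo δ ν → K) :
    Mo δ ν → MvPowerSeries σ K :=
  (fun μ => C (F μ)) ᵥ* Adj δ (GbM T B x)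

/-- the system of the horizontal covectors -/
def Bd {S : Type*} [CommRing S] (δ : ℕ) (b : Matrix ν ν S) : Matrix (Mo δ ν) (Mo δ ν) S :=
  ((δ : S) * b.trace) • 1 - (tB (Fin δ) (exg 0 b))ᵀ

variable [Algebra K ℂ] [Fintype σ] [DecidableEq σ]

/-- the matrix of Taylor series -/
def tayX {α β : Type*} (Y : (σ → ℂ) → Matrix α β ℂ) (p : σ → ℂ) : Matrix α β (MvPowerSeries σ ℂ) :=
  of fun i j => tayM (fun t => Y t i j) p

/-- `Q` is the value at `t = s` of a complex polynomial `H(t, X)` vanishing on the graph of `Y`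
near `s` -/
def InFibM {ν : Type*} (Y : (σ → ℂ) → Matrix ν ν ℂ) (s : σ → ℂ) (Q : MvPolynomial (ν × ν) ℂ) :
    Prop :=
  ∃ H : MvPolynomial (σ ⊕ ν × ν) ℂ,
    (∀ᶠ t in 𝓝 s, MvPolynomial.aeval (Sum.elim t fun a => Y t a.1 a.2) H = 0) ∧
    MvPolynomial.aeval (Sum.elim (fun l => MvPolynomial.C (s l)) MvPolynomial.X) H = Q

/-- the fibre at `s` of the closure of the graph of `Y` is irreducible -/
def IrrM {ν : Type*} (Y : (σ → ℂ) → Matrix ν ν ℂ) (s : σ → ℂ) : Prop :=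
  ∀ Q Q', InFibM Y s (Q * Q') → InFibM Y s Q ∨ InFibM Y s Q'

/-- linear form of the degree `δ` property, on `U` -/
def LGM (U : Set (σ → ℂ)) (P : (σ → ℂ) → Matrix ν ν ℂ) (δ : ℕ) (x : σ → K) (F : Mo δ ν → K) :
    Prop :=
  ∃ h : Mo δ ν → MvPolynomial σ K, (∀ μ, MvPolynomial.eval x (h μ) = F μ) ∧
    ∀ t ∈ U, (fun μ => MvPolynomial.aeval t (h μ)) ⬝ᵥ mono δ (P t) = 0

/-- the horizontal covector with value `F` at `x` -/
def lamM (P : (σ → ℂ) → Matrix ν ν ℂ) (δ : ℕ) (x : σ → K) (F : Mo δ ν → K) (t : σ → ℂ) :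
    Mo δ ν → ℂ :=
  (fun μ => algebraMap K ℂ (F μ)) ᵥ* Adj δ (P t * (P (pc x))⁻¹)

/-- substitution of series for the entries -/
def evGM {A : Type*} (x : σ → ℂ) (G : Matrix A A (MvPowerSeries σ ℂ)) :
    MvPolynomial (A × A) (MvPolynomial σ ℂ) →+* MvPowerSeries σ ℂ :=
  MvPolynomial.eval₂Hom (τm x) fun p => G p.1 p.2

/-- quotients of elements of `𝒜` that are algebraic over `ℂ(t)` are rational -/
def ConnSM (x : σ → ℂ) (𝒜 : Set (MvPowerSeries σ ℂ)) : Prop :=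
  ∀ u ∈ 𝒜, ∀ v ∈ 𝒜, ∀ (n : ℕ) (p : ℕ → MvPolynomial σ ℂ), v ≠ 0 → (∃ j ≤ n, p j ≠ 0) →
    ∑ j ∈ Finset.range (n + 1), τm x (p j) * u ^ j * v ^ (n - j) = 0 →
    ∃ a b : MvPolynomial σ ℂ, b ≠ 0 ∧ τm x b * u = τm x a * v

end

end Pool.Agent.Lib.MP_5591bc_ag.M
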