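import Pool.Agent.Lib.MP_5591bc_ag.GFib
import Pool.Agent.Lib.MP_5591bc_ag.M.Set

/-! Frames of connection-stable modules in several variables. -/

namespace Pool.Agent.Lib.MP_5591bc_ag.M

open Matrix MvPowerSeries Finset

noncomputable section

variable {σ k : Type*} [Field k]

/-- series without terms of degree less than `n` -/
def frI (σ k : Type*) [Field k] (n : ℕ) : Ideal (MvPowerSeries σ k) where
  carrier := {f | (n : ℕ∞) ≤ f.order}
  zero_mem' := by simp
  add_mem' ha hb := (le_min ha hb).trans min_order_le_add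
  smul_mem' c f hf := hf.trans (le_add_self.trans (le_order_mul (f := c) (g := f)))

theorem frI_iff {n : ℕ} {f : MvPowerSeries σ k} :
    f ∈ frI σ k n ↔ ∀ d : σ →₀ ℕ, d.degree < n → coeff d f = 0 :=
  ⟨fun h _ hd => coeff_of_lt_order (lt_of_lt_of_le (by exact_mod_cast hd) h), nat_le_order⟩

theorem frI_succ [CharZero k] {n : ℕ} {f : MvPowerSeries σ k} (h0 : constantCoeff f = 0)
    (h : ∀ l, pderiv k l f ∈ frI σ k n) : f ∈ frI σ k (n + 1) := by
  refine frI_iff.2 fun d hd => ?_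
  by_cases e : d = 0
  · rw [e, coeff_zero_eq_constantCoeff_apply, h0]
  · obtain ⟨l, hl⟩ : ∃ l, d l ≠ 0 := by
      by_contra! h1
      exact e (Finsupp.ext h1)
    have h1 : d - Finsupp.single l 1 + Finsupp.single l 1 = d :=
      tsub_add_cancel_of_le (Finsupp.single_le_iff.2 (Nat.pos_of_ne_zero hl))
    have h2 := frI_iff.1 (h l) (d - Finsupp.single l 1) (by
      rw [← h1, map_add, Finsupp.degree_single] at hd
      omega)
    rw [coeff_pderiv, h1] at h2
    exact (mul_eq_zero.1 h2).resolve_right (Nat.cast_add_one_ne_zero _)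

theorem frI_pderiv {n : ℕ} {f : MvPowerSeries σ k} (h : f ∈ frI σ k (n + 1)) (l : σ) :
    pderiv k l f ∈ frI σ k n := frI_iff.2 fun d hd => by
  rw [coeff_pderiv, frI_iff.1 h _ (by rw [map_add, Finsupp.degree_single]; omega), zero_mul]

theorem frI_mono {m n : ℕ} (h : m ≤ n) : frI σ k n ≤ frI σ k m := fun _ hf =>
  frI_iff.2 fun d hd => frI_iff.1 hf d (hd.trans_le h)

theorem frI_one {f : MvPowerSeries σ k} : f ∈ frI σ k 1 ↔ constantCoeff f = 0 := by
  rw [← one_le_order_iff_constCoeff_eq_zero]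
  exact Iff.rfl

theorem frI_zero {f : MvPowerSeries σ k} (h : ∀ n, f ∈ frI σ k n) : f = 0 :=
  MvPowerSeries.ext fun d => frI_iff.1 (h _) d (Nat.lt_succ_self _)

/-- a family of non units that is stable under the derivations vanishes -/
theorem zero_famM [CharZero k] {t : MvPowerSeries σ k} (ht : IsUnit t)
    {F : Set (MvPowerSeries σ k)} (h0 : ∀ g ∈ F, ¬ IsUnit g)
    (hd : ∀ g ∈ F, ∀ l, t * pderiv k l g ∈ F) : ∀ g ∈ F, g = 0 := by
  have key : ∀ n, ∀ g ∈ F, g ∈ frI σ k n := fun n => by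
    induction n with
    | zero => exact fun g _ => frI_iff.2 fun _ h => absurd h (Nat.not_lt_zero _)
    | succ n ih =>
      refine fun g hg => frI_succ ?_ fun l => (Ideal.unit_mul_mem_iff_mem _ ht).1 (ih _ (hd g hg l))
      have := h0 g hg
      rwa [isUnit_iff_constantCoeff, isUnit_iff_ne_zero, not_not] at this
  exact fun g hg => frI_zero fun n => key n g hg

variable {R ι : Type*} [CommRing R] [Fintype ι]

/-- the leading term of a row supported on `I` is the value of one of its derivatives -/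
theorem leadA [CharZero k] (τ : R →+* MvPowerSeries σ k) (hτ : Function.Injective τ)
    {t : MvPowerSeries σ k} (ht : IsUnit t) (δ : σ → R → R)
    (hδ : ∀ l a, τ (δ l a) = t * pderiv k l (τ a)) (B : σ → Matrix ι ι R) (Rel : Set (ι → R))
    (hD : ∀ l, ∀ y ∈ Rel, (fun i => δ l (y i)) + B l *ᵥ y ∈ Rel) (I : Set ι) {φ : ι → R}
    (hφ : φ ∈ Rel) (φ0 : φ ≠ 0) (hI : ∀ α ∉ I, φ α = 0) :
    ∃ ψ ∈ Rel, (∀ α ∉ I, constantCoeff (τ (ψ α)) = 0) ∧ ∃ α, constantCoeff (τ (ψ α)) ≠ 0 := by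
  classical
  have key : ∀ j, ∀ y ∈ Rel, (∀ α, τ (y α) ∈ frI σ k j) → (∀ α ∉ I, τ (y α) ∈ frI σ k (j + 1)) →
      (∃ α, τ (y α) ∉ frI σ k (j + 1)) →
      ∃ ψ ∈ Rel, (∀ α ∉ I, constantCoeff (τ (ψ α)) = 0) ∧ ∃ α, constantCoeff (τ (ψ α)) ≠ 0 := by
    intro j
    induction j with
    | zero =>
      exact fun y hy _ h2 h3 => ⟨y, hy, fun α hα => frI_one.1 (h2 α hα),
        h3.imp fun α h e => h (frI_one.2 e)⟩
    | succ j ih =>
      rintro y hy h1 h2 ⟨α, h3⟩
      obtain ⟨l, hl⟩ := not_forall.1 fun h =>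
        h3 (frI_succ (frI_one.1 (frI_mono (by omega) (h1 α))) h)
      have hB : ∀ i, τ ((B l *ᵥ y) i) ∈ frI σ k (j + 1) := fun i =>
        (sum_mem fun m _ => Ideal.mul_mem_left _ _ (h1 m) : _ ∈ (frI σ k (j + 1)).comap τ)
      refine ih _ (hD l y hy) (fun β => ?_) (fun β hβ => ?_) ⟨α, fun h => hl ?_⟩
      · rw [Pi.add_apply, map_add, hδ]
        exact add_mem (Ideal.mul_mem_left _ _ (frI_pderiv (h1 β) l)) (frI_mono j.le_succ (hB β))
      · rw [Pi.add_apply, map_add, hδ]
        exact add_mem (Ideal.mul_mem_left _ _ (frI_pderiv (h2 β hβ) l)) (hB β)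
      · rw [Pi.add_apply, map_add, hδ] at h
        exact (Ideal.unit_mul_mem_iff_mem _ ht).1 ((add_mem_cancel_right (hB α)).1 h)
  have ex : ∃ j, ∃ α, τ (φ α) ∉ frI σ k j := by
    by_contra! h
    exact φ0 (funext fun α => hτ ((frI_zero fun n => h n α).trans (map_zero τ).symm))
  obtain ⟨j, hj⟩ : ∃ j, Nat.find ex = j + 1 := Nat.exists_eq_succ_of_ne_zero fun e => by
    obtain ⟨α, h⟩ := Nat.find_spec ex
    exact h (frI_iff.2 fun _ hd => absurd (e ▸ hd) (Nat.not_lt_zero _))
  refine key j φ hφ (fun α => by_contra fun h => Nat.find_min ex (m := j) (by omega) ⟨α, h⟩)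
    (fun α hα => by rw [hI α hα, map_zero]; exact zero_mem _) (hj ▸ Nat.find_spec ex)

/-- a frame of a module that is stable under a connection, over a ring of series -/
theorem frameA [CharZero k] (τ : R →+* MvPowerSeries σ k) (hτ : Function.Injective τ) (κ : k → R)
    (hκ : ∀ a, τ (κ a) = C a) {t : MvPowerSeries σ k} (ht : IsUnit t) (δ : σ → R → R)
    (hδ : ∀ l a, τ (δ l a) = t * pderiv k l (τ a)) (S : Submodule R (ι → R))
    (B : σ → Matrix ι ι R) (hD : ∀ l, ∀ y ∈ S, (fun i => δ l (y i)) + B l *ᵥ y ∈ S) :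
    ∃ (r : ℕ) (x : Fin r → ι → R) (η : Fin r → ι → k) (M : Matrix (Fin r) (Fin r) R),
      (∀ i, x i ∈ S) ∧ (∀ i j, M i j = x i ⬝ᵥ fun a => κ (η j a)) ∧
      M.map (fun a => constantCoeff (τ a)) = 1 ∧ constantCoeff (τ M.det) = 1 ∧
      ∀ y ∈ S, M.det • y =
        ∑ i, ((fun j => y ⬝ᵥ fun a => κ (η j a)) ᵥ* M.adjugate) i • x i := by
  classical
  let e : R →+* k := (constantCoeff : MvPowerSeries σ k →+* k).comp τ
  obtain ⟨r, x, η, h1, h2⟩ := G.exists_frame fun (y : S) i => e (y.1 i)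
  let E : Fin r → ι → R := fun j i => κ (η j i)
  have hE : ∀ (y : ι → R) j, e (y ⬝ᵥ E j) = (fun i => e (y i)) ⬝ᵥ η j := fun y j => by
    simp [dotProduct, E, e, hκ]
  obtain ⟨M, hM0⟩ : ∃ M : Matrix (Fin r) (Fin r) R, ∀ i j, M i j = (x i).1 ⬝ᵥ E j :=
    ⟨of fun i j => (x i).1 ⬝ᵥ E j, fun _ _ => rfl⟩
  have hM : e.mapMatrix M = 1 := by
    ext i j
    rw [RingHom.mapMatrix_apply, map_apply, hM0, hE, h1, one_apply]
  have hd : e M.det = 1 := by rw [RingHom.map_det, hM, det_one]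
  have hu : IsUnit (τ M.det) := isUnit_iff_constantCoeff.2 (hd ▸ isUnit_one : IsUnit (e M.det))
  obtain ⟨fl, hfl⟩ : ∃ fl : (ι → R) → ι → R, ∀ y, fl y =
      M.det • y - ∑ i, ((fun j => y ⬝ᵥ E j) ᵥ* M.adjugate) i • (x i).1 := ⟨_, fun _ => rfl⟩
  have fl1 : ∀ y ∈ S, fl y ∈ S := fun y hy => hfl y ▸
    S.sub_mem (S.smul_mem _ hy) (S.sum_mem fun i _ => S.smul_mem _ (x i).2)
  have fl2 : ∀ y j, fl y ⬝ᵥ E j = 0 := fun y j => by
    have : ((fun j => y ⬝ᵥ E j) ᵥ* M.adjugate ᵥ* M) j = M.det * (y ⬝ᵥ E j) := by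
      rw [vecMul_vecMul, adjugate_mul, vecMul_smul, vecMul_one]; rfl
    simp only [hfl, sub_dotProduct, smul_dotProduct, sum_dotProduct, smul_eq_mul]
    rw [← this, sub_eq_zero]
    simp only [← hM0]
    rfl
  have van : ∀ y ∈ S, (∀ j, y ⬝ᵥ E j = 0) → ∀ i, e (y i) = 0 := fun y hy h i => by
    have := congrFun (h2 ⟨y, hy⟩) i
    simp only [← hE, h] at this
    simpa using this
  have key : ∀ n, ∀ y ∈ S, (∀ j, y ⬝ᵥ E j = 0) → ∀ i, y i ∈ (frI σ k n).comap τ := by
    intro n
    induction n with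
    | zero => exact fun _ _ _ _ => frI_iff.2 fun _ h => absurd h (Nat.not_lt_zero _)
    | succ n ih =>
      refine fun y hy h i => frI_succ (van y hy h i) fun l => ?_
      have hB : ∀ i, (B l *ᵥ y) i ∈ (frI σ k n).comap τ := fun i =>
        sum_mem fun j _ => Ideal.mul_mem_left _ _ (ih y hy h j)
      have h3 : ∀ j, ((fun i => δ l (y i)) + B l *ᵥ y) ⬝ᵥ E j ∈ (frI σ k n).comap τ := fun j => by
        have : (fun i => δ l (y i)) ⬝ᵥ E j = 0 := hτ (by
          have := congrArg (fun a => t * pderiv k l (τ a)) (h j)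
          simp only [dotProduct, map_sum, map_mul, E, hκ, Derivation.leibniz, pderiv_C,
            zero_add, smul_eq_mul, map_zero, mul_zero, mul_sum] at this
          simp only [dotProduct, map_sum, map_mul, E, hκ, hδ, map_zero]
          exact (sum_congr rfl fun i _ => by ring).trans this)
        rw [add_dotProduct, this, zero_add]
        exact sum_mem fun i _ => Ideal.mul_mem_right _ _ (hB i)
      have h4 := ih _ (fl1 _ (hD l y hy)) (fl2 _) i
      have h5 : M.det * δ l (y i) ∈ (frI σ k n).comap τ := by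
        have e : M.det * δ l (y i) = fl ((fun i => δ l (y i)) + B l *ᵥ y) i -
            M.det * (B l *ᵥ y) i + ∑ m, ((fun j => ((fun i => δ l (y i)) + B l *ᵥ y) ⬝ᵥ E j) ᵥ*
              M.adjugate) m * (x m).1 i := by
          simp only [hfl, Pi.sub_apply, Pi.smul_apply, Finset.sum_apply, smul_eq_mul, Pi.add_apply]
          ring
        rw [e]
        refine add_mem (sub_mem h4 (Ideal.mul_mem_left _ _ (hB i))) (sum_mem fun m _ => ?_)
        refine Ideal.mul_mem_right _ _ ?_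
        simp only [vecMul]
        rw [dotProduct]
        exact sum_mem fun j _ => Ideal.mul_mem_right _ _ (h3 j)
      rw [Ideal.mem_comap, map_mul, hδ] at h5
      exact (Ideal.unit_mul_mem_iff_mem _ ht).1 ((Ideal.unit_mul_mem_iff_mem _ hu).1 h5)
  refine ⟨r, fun i => (x i).1, η, M, fun i => (x i).2, hM0, hM, hd, fun y hy => ?_⟩
  rw [← sub_eq_zero, ← hfl]
  exact funext fun i => hτ ((frI_zero fun n => key n _ (fl1 y hy) (fl2 y) i).trans
    (map_zero τ).symm)

/-- the fibre lemma over a ring of series -/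
theorem fibreA [CharZero k] (τ : R →+* MvPowerSeries σ k) (hτ : Function.Injective τ) (κ : k → R)
    (hκ : ∀ a, τ (κ a) = C a) {t : MvPowerSeries σ k} (ht : IsUnit t) (δ : σ → R → R)
    (hδ : ∀ l a, τ (δ l a) = t * pderiv k l (τ a)) (S : Submodule R (ι → R))
    (B : σ → Matrix ι ι R) (hD : ∀ l, ∀ y ∈ S, (fun i => δ l (y i)) + B l *ᵥ y ∈ S) {F : ι → k}
    (hF : ∀ y ∈ S, (fun i => constantCoeff (τ (y i))) ⬝ᵥ F = 0) :
    ∃ H : ι → R, (∀ y ∈ S, y ⬝ᵥ H = 0) ∧ ∀ i, constantCoeff (τ (H i)) = F i := by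
  obtain ⟨r, x, η, M, hS, hM0, -, hd, h0⟩ := frameA τ hτ κ hκ ht δ hδ S B hD
  have : NoZeroDivisors R := hτ.noZeroDivisors _ (map_zero _) (map_mul _)
  let Fc : ι → R := fun i => κ (F i)
  let w : Fin r → R := M.adjugate *ᵥ fun i => x i ⬝ᵥ Fc
  have hx : ∀ i, x i ⬝ᵥ (M.det • Fc - ∑ j, w j • fun a => κ (η j a)) = 0 := fun i => by
    have : (M *ᵥ w) i = M.det * (x i ⬝ᵥ Fc) := by
      simp only [w]; rw [mulVec_mulVec, mul_adjugate, smul_mulVec, one_mulVec]; rfl
    simp only [dotProduct_sub, dotProduct_smul, dotProduct_sum, smul_eq_mul]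
    rw [← this, sub_eq_zero]
    simp only [← hM0, mul_comm (w _)]
    rfl
  refine ⟨M.det • Fc - ∑ j, w j • fun a => κ (η j a), fun y hy => ?_, fun i => ?_⟩
  · have := congrArg (· ⬝ᵥ (M.det • Fc - ∑ j, w j • fun a => κ (η j a))) (h0 y hy)
    simp only [smul_dotProduct, sum_dotProduct, hx, smul_zero, Finset.sum_const_zero] at this
    exact (mul_eq_zero.1 this).resolve_left fun h => by simp [h] at hd
  · have hw : ∀ j, constantCoeff (τ (w j)) = 0 := fun j => by
      have : ∀ i, constantCoeff (τ (x i ⬝ᵥ Fc)) = 0 := fun i => by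
        rw [← hF _ (hS i)]
        simp [dotProduct, Fc, hκ]
      simp only [w, mulVec]
      rw [dotProduct]
      simp only [map_sum, map_mul, this, mul_zero, sum_const_zero]
    simp [hd, Fc, hw, hκ]

theorem frT_C (s : σ → k) (a : k) : τm s (MvPolynomial.C a) = C a := by
  simp [τm]

theorem frT_X (s : σ → k) (i : σ) : τm s (MvPolynomial.X i) = X i + C (s i) := by
  simp [τm]

theorem frT_const (s : σ → k) (p : MvPolynomial σ k) :
    constantCoeff (τm s p) = MvPolynomial.eval s p := by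
  refine DFunLike.congr_fun (?_ : constantCoeff.comp (τm s) = MvPolynomial.eval s) p
  exact MvPolynomial.ringHom_ext (fun a => by simp [frT_C]) fun i => by simp [frT_X]

theorem frT_inj (s : σ → k) : Function.Injective (τm s) := by
  have h2 : ∀ g : MvPolynomial σ k,
      MvPolynomial.aeval (fun i => (MvPolynomial.X i - MvPolynomial.C (s i) : MvPolynomial σ k))
        (MvPolynomial.aeval
          (fun i => (MvPolynomial.X i + MvPolynomial.C (s i) : MvPolynomial σ k)) g) = g := by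
    intro g
    rw [← AlgHom.comp_apply]
    refine DFunLike.congr_fun (?_ : _ = AlgHom.id k _) g
    ext i : 1
    simp
  intro p q h
  rw [← h2 p, ← h2 q]
  exact congrArg _ (MvPolynomial.coe_injective σ k h)

theorem frT_pderiv (s : σ → k) (l : σ) (p : MvPolynomial σ k) :
    τm s (MvPolynomial.pderiv l p) = pderiv k l (τm s p) := by
  classical
  induction p using MvPolynomial.induction_on with
  | C a => rw [frT_C, pderiv_C, MvPolynomial.pderiv_C, map_zero]
  | add p q hp hq => simp only [map_add, hp, hq]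
  | mul_X p j hp =>
    simp only [map_mul, Derivation.leibniz, hp, smul_eq_mul, map_add, frT_X, pderiv_C]
    rw [← MvPolynomial.coe_X, pderiv_coe]
    simp [MvPolynomial.pderiv_X, Pi.single_apply, apply_ite]

theorem frI_On {n : ℕ} {f : MvPowerSeries σ k} : f ∈ frI σ k n ↔ On n f := frI_iff

/-- the leading term of a row supported on `I` is the value of one of its derivatives -/
theorem leadM [CharZero k] {T : MvPolynomial σ k} (B : σ → Matrix ι ι (MvPolynomial σ k))
    (Rel : Set (ι → MvPolynomial σ k)) (hD : ∀ l, ∀ y ∈ Rel, Dm T B l y ∈ Rel) {s : σ → k}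
    (hT : MvPolynomial.eval s T ≠ 0) (I : Set ι) {φ : ι → MvPolynomial σ k} (hφ : φ ∈ Rel)
    (φ0 : φ ≠ 0) (hI : ∀ α ∉ I, φ α = 0) : ∃ ψ ∈ Rel, (∀ α ∉ I, MvPolynomial.eval s (ψ α) = 0) ∧
      ∃ α, MvPolynomial.eval s (ψ α) ≠ 0 := by
  have := leadA (τm s) (frT_inj s) (t := τm s T)
    (isUnit_iff_constantCoeff.2 (by rw [frT_const]; exact hT.isUnit))
    (fun l a => T * MvPolynomial.pderiv l a) (fun l a => by rw [map_mul, frT_pderiv])
    (fun l => (B l)ᵀ) Rel (fun l y hy => by rw [mulVec_transpose]; exact hD l y hy) I hφ φ0 hI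
  simpa only [frT_const] using this

/-- a frame of a module of polynomial vectors that is stable under a connection -/
theorem frameM [CharZero k] (S : Submodule (MvPolynomial σ k) (ι → MvPolynomial σ k))
    {T : MvPolynomial σ k} (B : σ → Matrix ι ι (MvPolynomial σ k))
    (hD : ∀ l, ∀ y ∈ S, Dm T B l y ∈ S) {s : σ → k}
    (hT : MvPolynomial.eval s T ≠ 0) :
    ∃ (r : ℕ) (x : Fin r → ι → MvPolynomial σ k) (η : Fin r → ι → k)
      (M : Matrix (Fin r) (Fin r) (MvPolynomial σ k)),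
      (∀ i, x i ∈ S) ∧ (∀ i j, M i j = x i ⬝ᵥ fun a => MvPolynomial.C (η j a)) ∧
      M.map (MvPolynomial.eval s) = 1 ∧ MvPolynomial.eval s M.det = 1 ∧
      ∀ y ∈ S, M.det • y =
        ∑ i, ((fun j => y ⬝ᵥ fun a => MvPolynomial.C (η j a)) ᵥ* M.adjugate) i • x i := by
  have := frameA (τm s) (frT_inj s) MvPolynomial.C (frT_C s) (t := τm s T)
    (isUnit_iff_constantCoeff.2 (by rw [frT_const]; exact hT.isUnit))
    (fun l a => T * MvPolynomial.pderiv l a) (fun l a => by rw [map_mul, frT_pderiv]) S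
    (fun l => (B l)ᵀ) (fun l y hy => by rw [mulVec_transpose]; exact hD l y hy)
  simpa only [frT_const] using this

/-- the fibre lemma in several variables -/
theorem fibreM [CharZero k] (S : Submodule (MvPolynomial σ k) (ι → MvPolynomial σ k))
    {T : MvPolynomial σ k} (B : σ → Matrix ι ι (MvPolynomial σ k))
    (hD : ∀ l, ∀ y ∈ S, Dm T B l y ∈ S) {s : σ → k}
    (hT : MvPolynomial.eval s T ≠ 0) {F : ι → k}
    (hF : ∀ y ∈ S, (fun i => MvPolynomial.eval s (y i)) ⬝ᵥ F = 0) :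
    ∃ H : ι → MvPolynomial σ k, (∀ y ∈ S, y ⬝ᵥ H = 0) ∧
      ∀ i, MvPolynomial.eval s (H i) = F i := by
  have := fibreA (τm s) (frT_inj s) MvPolynomial.C (frT_C s) (t := τm s T)
    (isUnit_iff_constantCoeff.2 (by rw [frT_const]; exact hT.isUnit))
    (fun l a => T * MvPolynomial.pderiv l a) (fun l a => by rw [map_mul, frT_pderiv]) S
    (fun l => (B l)ᵀ) (fun l y hy => by rw [mulVec_transpose]; exact hD l y hy)
    (F := F) (by simpa only [frT_const] using hF)
  simpa only [frT_const] using this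

end

end Pool.Agent.Lib.MP_5591bc_ag.M
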