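import Pool.Agent.Lib.MP_5591bc_ag.W.Set

/-! Majorants for formal solutions on lines, and summation along a segment. -/

namespace Pool.Agent.Lib.MP_5591bc_ag.M

open Filter Topology PowerSeries G Metric Finset

variable {ι : Type*} [Fintype ι]

theorem maj (ι : Type*) [Fintype ι] (c : ℝ) : ∃ M : ℝ, ∀ (a : ι → ι → ℂ⟦X⟧) (g : ι → ℂ⟦X⟧) (m : ℝ),
    0 ≤ m → (∀ i j n, ‖coeff n (a i j)‖ ≤ c / 17 ^ n) → (∀ i, d⁄dX ℂ (g i) = ∑ j, a i j * g j) →
    (∀ i, ‖coeff 0 (g i)‖ ≤ m) → ∀ n i, ‖coeff n (g i)‖ ≤ M * m / 16 ^ n := by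
  obtain ⟨K, hK⟩ := exists_nat_ge (Fintype.card ι * |c| * 272 + 1)
  have K1 : (1 : ℝ) ≤ K := le_trans (le_add_of_nonneg_left (by positivity)) hK
  refine ⟨K ^ K, fun a g m m0 ha ode h0 => ?_⟩
  have key : ∀ N, ∀ n ≤ N, ∀ i, ‖coeff n (g i)‖ ≤ K ^ min N K * m / 16 ^ n := fun N => by
    induction N with
    | zero => intro n hn i; rw [Nat.le_zero.1 hn]; simpa using h0 i
    | succ N ih =>
      intro n hn i
      rcases hn.lt_or_eq with h | rfl
      · exact (ih n (by omega) i).trans (by gcongr; omega)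
      obtain ⟨Z, hZ⟩ : ∃ Z, Z = (K : ℝ) ^ min N K * m := ⟨_, rfl⟩
      have Z0 : 0 ≤ Z := by rw [hZ]; positivity
      have e1 : ‖coeff (N + 1) (g i)‖ * (N + 1) ≤ K * Z / 16 ^ (N + 1) := by
        have e := congrArg (fun f => ‖coeff N f‖) (ode i)
        simp only [coeff_derivative, norm_mul, map_sum, coeff_mul] at e
        rw [show ‖(N : ℂ) + 1‖ = N + 1 by exact_mod_cast Complex.norm_natCast (N + 1)] at e
        rw [e]
        refine (norm_sum_le _ _).trans ((sum_le_card_nsmul _ _ (|c| * Z / 16 ^ N * 17)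
          fun j _ => (norm_sum_le _ _).trans ?_).trans ?_)
        · calc _ ≤ ∑ p ∈ antidiagonal N, |c| * Z / 16 ^ N * (16 / 17) ^ p.1 :=
                sum_le_sum fun p hp => by
                  have := mem_antidiagonal.1 hp
                  rw [norm_mul]
                  refine (mul_le_mul ((ha _ _ _).trans (div_le_div_of_nonneg_right (le_abs_self c)
                    (by positivity))) (hZ ▸ ih p.2 (by omega) j) (norm_nonneg _)
                    (by positivity)).trans (le_of_eq ?_)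
                  rw [← this, pow_add, div_pow]
                  field_simp
            _ ≤ _ := by
              rw [← mul_sum, Nat.sum_antidiagonal_eq_sum_range_succ fun i _ => (16 / 17 : ℝ) ^ i]
              refine mul_le_mul_of_nonneg_left ?_ (by positivity)
              refine ((summable_geometric_of_lt_one (by norm_num) (by norm_num)).sum_le_tsum _
                fun _ _ => by positivity).trans ?_
              rw [tsum_geometric_of_lt_one (by norm_num) (by norm_num)]
              norm_num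
        · rw [card_univ, nsmul_eq_mul, pow_succ, le_div_iff₀ (by positivity)]
          calc _ = (Fintype.card ι * |c| * 272) * Z := by field_simp; ring
            _ ≤ _ := mul_le_mul_of_nonneg_right (by linarith) Z0
      rcases lt_or_ge N K with h | h
      · rw [min_eq_left h, pow_succ' (K : ℝ), mul_assoc, ← min_eq_left h.le]
        rw [min_eq_left h.le] at hZ ⊢
        rw [← hZ]
        exact (le_mul_of_one_le_right (norm_nonneg _) (by linarith [N.cast_nonneg (α := ℝ)])).trans e1
      · rw [min_eq_right (by omega), ← min_eq_right h]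
        rw [min_eq_right h] at hZ ⊢
        rw [← hZ]
        refine le_of_mul_le_mul_right (e1.trans ?_) (Nat.cast_add_one_pos N)
        rw [mul_div_assoc, mul_comm]
        have : (K : ℝ) ≤ N + 1 := by exact_mod_cast h.trans N.le_succ
        gcongr
  exact fun n i => (key n n le_rfl i).trans (by gcongr; exact min_le_right _ _)

theorem maj_fam {Y : Type*} [TopologicalSpace Y] {J : Set Y} (hJ : IsCompact J) {τ : Y → ℂ → ℂ}
    {b : ι → ι → Y → ℂ → ℂ} (cτ : Continuous fun p : Y × ℂ => τ p.1 p.2)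
    (cb : ∀ i j, Continuous fun p : Y × ℂ => b i j p.1 p.2) (dτ : ∀ y, Differentiable ℂ (τ y))
    (db : ∀ i j y, Differentiable ℂ (b i j y)) (h0 : ∀ y ∈ J, ∀ u : ℂ, ‖u‖ ≤ 17 → τ y u ≠ 0)
    {g : Y → ι → ℂ⟦X⟧}
    (ode : ∀ y ∈ J, ∀ i, tay (τ y) 0 * d⁄dX ℂ (g y i) = ∑ j, tay (b i j y) 0 * g y j) {m : ℝ}
    (m0 : 0 ≤ m) (hm : ∀ y ∈ J, ∀ i, ‖coeff 0 (g y i)‖ ≤ m) :
    ∃ S : ℝ, ∀ y ∈ J, ∀ n i, ‖coeff n (g y i)‖ ≤ S / 16 ^ n := by
  obtain ⟨c, hc⟩ := (hJ.prod (isCompact_closedBall (0 : ℂ) 17)).exists_bound_of_continuousOn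
    (f := fun p (q : ι × ι) => b q.1 q.2 p.1 p.2 / τ p.1 p.2)
    (continuousOn_pi.2 fun q => (cb _ _).continuousOn.div cτ.continuousOn fun p hp =>
      h0 _ hp.1 _ (mem_closedBall_zero_iff.1 hp.2))
  obtain ⟨M, hM⟩ := maj ι c
  refine ⟨M * m, fun y hy => hM (fun i j => tay (fun u => b i j y u / τ y u) 0) _ m m0
    (fun i j n => ?_) (fun i => ?_) (hm y hy)⟩
  · have := Complex.norm_iteratedDeriv_le_of_forall_mem_sphere_norm_le n (by norm_num : (0 : ℝ) < 17)
      (f := fun u => b i j y u / τ y u) (c := 0) (C := c)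
      (DifferentiableOn.diffContOnCl fun u hu => (((db i j y) u).div (dτ y u) (h0 y hy u
        (mem_closedBall_zero_iff.1 (closure_ball_subset_closedBall hu)))).differentiableWithinAt)
      fun u hu => (norm_le_pi_norm (fun q : ι × ι => b q.1 q.2 y u / τ y u) (i, j)).trans
        (hc (y, u) ⟨hy, sphere_subset_closedBall hu⟩)
    rw [coeff_tay, norm_div, Complex.norm_natCast, div_le_iff₀ (by positivity)]
    exact this.trans (le_of_eq (by ring))
  · have t0 := h0 y hy 0 (by simp)
    have a1 := (dτ y).analyticAt 0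
    refine mul_left_cancel₀ (a := tay (τ y) 0) (fun e => t0 (by
      rw [← constantCoeff_tay (g := τ y), e, map_zero])) ?_
    rw [ode y hy, mul_sum]
    refine sum_congr rfl fun j _ => ?_
    rw [← mul_assoc, ← tay_mul a1 (((db i j y).analyticAt 0).fun_div a1 t0)]
    refine congrArg (· * _) (tay_congr ((a1.continuousAt.eventually_ne t0).mono fun u hu => ?_))
    field_simp

theorem seg_sum {V : Set ℂ} (ho : IsOpen V) (hc : Convex ℝ V) (h0 : 0 ∈ V) (h1 : 1 ∈ V)
    {f : ℂ → ℂ} (hf : DifferentiableOn ℂ f V) {S : ℝ}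
    (hS : ∀ n, ‖coeff n (tay f 0)‖ ≤ S / 16 ^ n) : HasSum (fun n => coeff n (tay f 0)) (f 1) := by
  have S0 : 0 ≤ S := by simpa using (norm_nonneg _).trans (hS 0)
  have sm : Summable fun n : ℕ => S * (1 / 8) ^ n :=
    (summable_geometric_of_lt_one (by norm_num) (by norm_num)).mul_left S
  have bd : ∀ n, ∀ u ∈ ball (0 : ℂ) 2, ‖coeff n (tay f 0) * u ^ n‖ ≤ S * (1 / 8) ^ n :=
    fun n u hu => by
      rw [norm_mul, norm_pow]
      refine (mul_le_mul (hS n) (pow_le_pow_left₀ (norm_nonneg _) (mem_ball_zero_iff.1 hu).le n)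
        (by positivity) (by positivity)).trans (le_of_eq ?_)
      rw [show (1 / 8 : ℝ) = 2 / 16 by norm_num, div_pow]
      ring
  have m1 : (1 : ℂ) ∈ ball (0 : ℂ) 2 := by simp
  obtain ⟨r, r0, hr⟩ := Metric.isOpen_iff.1 ho 0 h0
  have := ident (ho.inter isOpen_ball) (hc.inter (convex_ball 0 2)).isPreconnected
    ((Complex.differentiableOn_tsum_of_summable_norm sm (fun n => by fun_prop) isOpen_ball
      bd).mono Set.inter_subset_right) (hf.mono Set.inter_subset_left) ⟨h0, by simp⟩
    (by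
      filter_upwards [ball_mem_nhds 0 r0] with u hu
      refine HasSum.tsum_eq ?_
      convert Complex.hasSum_taylorSeries_on_ball (hf.mono hr) hu using 2 with n
      rw [coeff_tay, sub_zero, smul_eq_mul, smul_eq_mul]
      ring) ⟨h1, m1⟩
  rw [← this]
  simpa using (Summable.of_norm_bounded sm fun n => bd n 1 m1).hasSum

end Pool.Agent.Lib.MP_5591bc_ag.M
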