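import Pool.Agent.Lib.MP_5591bc_ag.M.Tay
import Pool.Agent.Lib.MP_5591bc_ag.M.Maj

/-! Convergence of the expansion at the centre on the rays towards a point. -/

namespace Pool.Agent.Lib.MP_5591bc_ag.M

open Filter Topology G Metric Finset

variable {σ ι : Type*} [Fintype σ] [DecidableEq σ] [Fintype ι]

theorem rad_bd {T : MvPolynomial σ ℂ} {B : σ → Matrix ι ι (MvPolynomial σ ℂ)} {s x : σ → ℂ} {ρ : ℝ}
    (hN : Near T ρ s x) {W : ι → MvPowerSeries σ ℂ} (ode : IsM (τm s) T B W) : ∃ S : ℝ, ∀ i y,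
      ‖y - x‖ ≤ ρ → ∀ n, ‖PowerSeries.coeff n (dir (y - s) (W i))‖ ≤ S / 16 ^ n := by
  have cp : ∀ p : MvPolynomial σ ℂ, Continuous fun q : (σ → ℂ) × ℂ =>
      MvPolynomial.eval (s + q.2 • (q.1 - s)) p := fun p =>
    (MvPolynomial.continuous_eval p).comp (by fun_prop)
  have ap : ∀ (p : MvPolynomial σ ℂ) z, AnalyticAt ℂ (fun t : σ → ℂ => MvPolynomial.eval t p) z :=
    fun p z => aeval_ana (K := ℂ) p
  have dp : ∀ (p : MvPolynomial σ ℂ) (y : σ → ℂ), Differentiable ℂ fun u : ℂ =>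
      MvPolynomial.eval (s + u • (y - s)) p := fun p y u =>
    (ap p _).differentiableAt.comp u (by fun_prop)
  have tp : ∀ (p : MvPolynomial σ ℂ) (y : σ → ℂ), tay (fun u : ℂ =>
      MvPolynomial.eval (s + u • (y - s)) p) 0 = dir (y - s) (τm s p) := fun p y => by
    rw [← tayM_eval, dir_tayM (ap p s)]
  obtain ⟨S, hS⟩ := maj_fam (isCompact_closedBall x ρ)
    (τ := fun y u => MvPolynomial.eval (s + u • (y - s)) T)
    (b := fun i j y u => ∑ l, (y - s) l * MvPolynomial.eval (s + u • (y - s)) (B l i j)) (cp T)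
    (fun i j => continuous_finsetSum _ fun l _ => Continuous.mul (by fun_prop) (cp _)) (dp T)
    (fun i j y => Differentiable.fun_sum fun l _ => (dp _ y).const_mul _)
    (fun y hy => hN y (mem_closedBall_iff_norm.1 hy)) (g := fun y i => dir (y - s) (W i))
    (fun y _ i => by
      rw [dir_deriv, tp, mul_sum]
      simp only [mul_left_comm (dir (y - s) (τm s T)), ← map_mul, ode _ i, map_sum, mul_sum]
      rw [sum_comm]
      refine sum_congr rfl fun j _ => ?_
      rw [tay_sum _ fun l _ => ((dp _ y).const_mul _).analyticAt 0, sum_mul]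
      refine sum_congr rfl fun l _ => ?_
      rw [tay_cmul ((dp _ y).analyticAt 0), tp, map_mul, mul_assoc])
    (m := ∑ i, ‖MvPowerSeries.coeff 0 (W i)‖) (by positivity) fun y _ i => by
      rw [coeff_zero_dir]
      exact single_le_sum (f := fun i => ‖MvPowerSeries.coeff 0 (W i)‖) (fun _ _ => norm_nonneg _)
        (mem_univ i)
  exact ⟨S, fun i y hy n => hS y (mem_closedBall_iff_norm.2 hy) n i⟩

theorem rad_sum {U : Set (σ → ℂ)} (ho : IsOpen U) (hc : Convex ℝ U) {g : (σ → ℂ) → ℂ}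
    (hg : AnalyticOnNhd ℂ g U) {s y : σ → ℂ} (hs : s ∈ U) (hy : y ∈ U) {S : ℝ}
    (hS : ∀ n, ‖PowerSeries.coeff n (dir (y - s) (tayM g s))‖ ≤ S / 16 ^ n) :
    HasSum (fun n => PowerSeries.coeff n (dir (y - s) (tayM g s))) (g y) := by
  rw [dir_tayM (hg s hs)] at hS ⊢
  have := seg_sum (V := (fun u : ℂ => s + u • (y - s)) ⁻¹' U) (f := fun u => g (s + u • (y - s)))
    (ho.preimage (by fun_prop))
    (fun a ha b hb p q p0 q0 e => by
      have := hc ha hb p0 q0 e
      rwa [show p • (s + a • (y - s)) + q • (s + b • (y - s)) = s + (p • a + q • b) • (y - s) by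
        rw [smul_add, smul_add, add_add_add_comm, ← add_smul, e, one_smul, add_smul, smul_assoc,
          smul_assoc]] at this) (by simpa using hs) (by simpa using hy)
    (fun u hu => ((hg _ hu).differentiableAt.comp u (by fun_prop)).differentiableWithinAt) hS
  simpa using this

theorem rad_of {T : MvPolynomial σ ℂ} {B : σ → Matrix ι ι (MvPolynomial σ ℂ)} {U : Set (σ → ℂ)}
    (ho : IsOpen U) (hc : Convex ℝ U) {g : ι → (σ → ℂ) → ℂ} (hg : ∀ i, AnalyticOnNhd ℂ (g i) U)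
    {s x : σ → ℂ} (hs : s ∈ U) (hx : x ∈ U) {ρ : ℝ} (ρ0 : 0 < ρ) (hN : Near T ρ s x)
    (ode : IsM (τm s) T B fun i => tayM (g i) s) :
    ∃ S : ℝ, ∀ i, Rad 16 S ρ s x (tayM (g i) s) (g i) := by
  obtain ⟨S, hS⟩ := rad_bd hN ode
  refine ⟨S, fun i => ⟨hg i x hx, hS i, ?_⟩⟩
  filter_upwards [ho.mem_nhds hx, closedBall_mem_nhds x ρ0] with y h1 h2
  exact rad_sum ho hc (hg i) hs h1 (hS i y (mem_closedBall_iff_norm.1 h2))

end Pool.Agent.Lib.MP_5591bc_ag.M
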