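import Mathlib

/-! A polynomial bounded on the unit torus has bounded coefficients. -/

namespace Pool.Agent.Lib.MP_5591bc_ag.M

open MvPolynomial

lemma tor_geom {N : ℕ} {z : ℂ} (hz : IsPrimitiveRoot z N) {m d : ℕ} (hm : m < N) (hd : d < N) :
    ∑ j : Fin N, (z ^ (j : ℕ)) ^ (m + (N - d)) = if m = d then (N : ℂ) else 0 := by
  have e : ∀ j : Fin N, (z ^ (j : ℕ)) ^ (m + (N - d)) = (z ^ (m + (N - d))) ^ (j : ℕ) := by
    intro j; rw [← pow_mul, ← pow_mul, mul_comm]
  simp only [e]
  rw [Fin.sum_univ_eq_sum_range (fun j => (z ^ (m + (N - d))) ^ j) N]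
  split_ifs with h
  · subst h
    have : m + (N - m) = N := by omega
    simp [this, hz.pow_eq_one]
  · have h1 : z ^ (m + (N - d)) ≠ 1 := by
      intro h1
      obtain ⟨c, hc⟩ := (hz.pow_eq_one_iff_dvd _).1 h1
      have c0 : c ≠ 0 := by rintro rfl; omega
      have c2 : c < 2 := by
        by_contra hh
        have : N * 2 ≤ N * c := Nat.mul_le_mul_left _ (by omega)
        omega
      have : c = 1 := by omega
      subst this; omega
    rw [geom_sum_eq h1, ← pow_mul, mul_comm, pow_mul, hz.pow_eq_one]; simp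

theorem tor {σ : Type*} [Fintype σ] (f : MvPolynomial σ ℂ) (M : ℝ)
    (h : ∀ η : σ → ℂ, (∀ l, ‖η l‖ = 1) → ‖eval η f‖ ≤ M) (d : σ →₀ ℕ) : ‖coeff d f‖ ≤ M := by
  classical
  obtain ⟨N, N0, hNd, hNf⟩ : ∃ N : ℕ, 0 < N ∧ (∀ l, d l < N) ∧ ∀ m ∈ f.support, ∀ l, m l < N := by
    refine ⟨(∑ l, d l) + (∑ m ∈ f.support, ∑ l, m l) + 1, by omega, fun l => ?_, fun m hm l => ?_⟩
    · have := Finset.single_le_sum (f := fun l => d l) (fun _ _ => Nat.zero_le _) (Finset.mem_univ l)
      omega
    · have h1 := Finset.single_le_sum (f := fun l => m l) (fun _ _ => Nat.zero_le _)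
        (Finset.mem_univ l)
      have h2 := Finset.single_le_sum (f := fun m : σ →₀ ℕ => ∑ l, m l)
        (fun _ _ => Nat.zero_le _) hm
      omega
  have hz := Complex.isPrimitiveRoot_exp N N0.ne'
  set z := Complex.exp (2 * Real.pi * Complex.I / N)
  have nz : ‖z‖ = 1 := hz.norm'_eq_one N0.ne'
  have key : ∑ a : σ → Fin N, (∏ l, (z ^ (a l : ℕ)) ^ (N - d l)) *
      eval (fun l => z ^ (a l : ℕ)) f = (N : ℂ) ^ Fintype.card σ * coeff d f := by
    simp only [eval_eq', Finset.mul_sum]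
    rw [Finset.sum_comm]
    have e : ∀ m ∈ f.support, ∑ a : σ → Fin N, (∏ l, (z ^ (a l : ℕ)) ^ (N - d l)) *
        (coeff m f * ∏ l, (z ^ (a l : ℕ)) ^ m l) =
        if m = d then (N : ℂ) ^ Fintype.card σ * coeff m f else 0 := by
      intro m hm
      have e1 : ∀ a : σ → Fin N, (∏ l, (z ^ (a l : ℕ)) ^ (N - d l)) *
          (coeff m f * ∏ l, (z ^ (a l : ℕ)) ^ m l) =
          coeff m f * ∏ l, (z ^ (a l : ℕ)) ^ (m l + (N - d l)) := by
        intro a; simp only [pow_add, Finset.prod_mul_distrib]; ring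
      simp only [e1]
      rw [← Finset.mul_sum, ← Fintype.piFinset_univ,
        ← Finset.prod_univ_sum (fun _ => Finset.univ)
          (fun l (j : Fin N) => (z ^ (j : ℕ)) ^ (m l + (N - d l)))]
      simp only [tor_geom hz (hNf m hm _) (hNd _)]
      split_ifs with hmd
      · subst hmd; simp [mul_comm]
      · obtain ⟨l, hl⟩ : ∃ l, m l ≠ d l := by
          by_contra hh
          push Not at hh
          exact hmd (Finsupp.ext hh)
        rw [Finset.prod_eq_zero (Finset.mem_univ l) (by simp [hl]), mul_zero]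
    rw [Finset.sum_congr rfl e, Finset.sum_ite_eq']
    split_ifs with hd
    · rfl
    · simp [notMem_support_iff.1 hd]
  have bd : ‖(N : ℂ) ^ Fintype.card σ * coeff d f‖ ≤ (N : ℝ) ^ Fintype.card σ * M := by
    rw [← key]
    refine (norm_sum_le _ _).trans ?_
    refine (Finset.sum_le_card_nsmul _ _ M fun a _ => ?_).trans ?_
    · rw [norm_mul, norm_prod]
      simp only [norm_pow, nz, one_pow, Finset.prod_const_one, one_mul]
      exact h _ fun l => by simp [nz]
    · simp
  rw [norm_mul, norm_pow, Complex.norm_natCast] at bd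
  exact le_of_mul_le_mul_left bd (by positivity)

end Pool.Agent.Lib.MP_5591bc_ag.M
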