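import Pool.Agent.Lib.MP_5591bc_ag.M.TayA

/-! The Taylor series in several variables is a ring morphism on germs. -/

namespace Pool.Agent.Lib.MP_5591bc_ag.M

open Filter Topology G

noncomputable section

variable {σ : Type*} [Fintype σ] [DecidableEq σ] {g h : (σ → ℂ) → ℂ} {p : σ → ℂ}

omit [DecidableEq σ] in
lemma tayM_congr (e : g =ᶠ[𝓝 p] h) : tayM g p = tayM h p := by
  have : ∀ v : σ → ℂ, tay (fun u : ℂ => g (p + u • v)) 0 = tay (fun u : ℂ => h (p + u • v)) 0 := by
    intro v
    have hc : Tendsto (fun u : ℂ => p + u • v) (𝓝 0) (𝓝 p) := by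
      have : Continuous fun u : ℂ => p + u • v := by fun_prop
      simpa using this.tendsto 0
    exact tay_congr (hc.eventually e)
  simp only [tayM, this]

lemma constantCoeff_tayM (hg : AnalyticAt ℂ g p) :
    MvPowerSeries.constantCoeff (tayM g p) = g p := by rw [tayM_eq hg, constantCoeff_tayS]

lemma coeff_zero_tayM (hg : AnalyticAt ℂ g p) : MvPowerSeries.coeff 0 (tayM g p) = g p := by
  rw [tayM_eq hg, coeff_zero_tayS]

lemma coeff_tayM_word (hg : AnalyticAt ℂ g p) (w : List σ) (κ : σ →₀ ℕ)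
    (hw : ∀ l, w.count l = κ l) : MvPowerSeries.coeff κ (tayM g p) =
    dw w g p / ∏ l, ((κ l).factorial : ℂ) := by rw [tayM_eq hg, coeff_tayS_word hg w κ hw]

lemma tayM_pd (hg : AnalyticAt ℂ g p) (l : σ) :
    tayM (fun z => fderiv ℂ g z (Pi.single l 1)) p = MvPowerSeries.pderiv ℂ l (tayM g p) := by
  rw [tayM_eq hg, ← tayS_pd hg]; exact tayM_eq (pd_ana hg l)

lemma tayM_add (hg : AnalyticAt ℂ g p) (hh : AnalyticAt ℂ h p) :
    tayM (fun t => g t + h t) p = tayM g p + tayM h p := by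
  rw [tayM_eq (hg.fun_add hh), tayM_eq hg, tayM_eq hh, tayS_add hg hh]

lemma tayM_mul (hg : AnalyticAt ℂ g p) (hh : AnalyticAt ℂ h p) :
    tayM (fun t => g t * h t) p = tayM g p * tayM h p := by
  rw [tayM_eq (hg.fun_mul hh), tayM_eq hg, tayM_eq hh, tayS_mul hg hh]

lemma tayM_const (c : ℂ) : tayM (fun _ => c) p = (MvPowerSeries.C c : MvPowerSeries σ ℂ) := by
  rw [tayM_eq analyticAt_const, tayS_const]

lemma tayM_zero : tayM (fun _ => 0) p = (0 : MvPowerSeries σ ℂ) := by
  rw [tayM_const, map_zero]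

lemma tayM_coord (m : σ) :
    tayM (fun z => z m) p = MvPowerSeries.X m + MvPowerSeries.C (p m) := by
  rw [tayM_eq (coord_ana m), tayS_coord]

lemma tayM_sub (hg : AnalyticAt ℂ g p) (hh : AnalyticAt ℂ h p) :
    tayM (fun t => g t - h t) p = tayM g p - tayM h p := by
  rw [tayM_eq (hg.fun_sub hh), tayM_eq hg, tayM_eq hh, tayS_sub hg hh]

lemma tayM_cmul (hg : AnalyticAt ℂ g p) (c : ℂ) :
    tayM (fun t => c * g t) p = MvPowerSeries.C c * tayM g p := by
  rw [tayM_mul analyticAt_const hg, tayM_const]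

lemma tayM_sum {ι : Type*} (s : Finset ι) {G : ι → (σ → ℂ) → ℂ}
    (hG : ∀ i ∈ s, AnalyticAt ℂ (G i) p) :
    tayM (fun t => ∑ i ∈ s, G i t) p = ∑ i ∈ s, tayM (G i) p := by
  rw [tayM_eq (Finset.analyticAt_fun_sum s hG), tayS_sum s hG]
  exact Finset.sum_congr rfl fun i hi => (tayM_eq (hG i hi)).symm

lemma tayM_prod {ι : Type*} (s : Finset ι) {G : ι → (σ → ℂ) → ℂ}
    (hG : ∀ i ∈ s, AnalyticAt ℂ (G i) p) :
    tayM (fun t => ∏ i ∈ s, G i t) p = ∏ i ∈ s, tayM (G i) p := by
  rw [tayM_eq (Finset.analyticAt_fun_prod s hG), tayS_prod s hG]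
  exact Finset.prod_congr rfl fun i hi => (tayM_eq (hG i hi)).symm

lemma tayM_pow (hg : AnalyticAt ℂ g p) (n : ℕ) :
    tayM (fun t => g t ^ n) p = tayM g p ^ n := by
  rw [tayM_eq (hg.fun_pow n), tayM_eq hg, tayS_pow hg]

omit [Fintype σ] [DecidableEq σ] in
lemma τm_eq {R : Type*} [CommRing R] (x : σ → R) (q : MvPolynomial σ R) :
    τm x q = MvPolynomial.aeval
      (fun m => (MvPowerSeries.X m + MvPowerSeries.C (x m) : MvPowerSeries σ R)) q := by
  induction q using MvPolynomial.induction_on with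
  | C a => simp [τm, MvPowerSeries.algebraMap_apply]
  | add a b ha hb => simp only [map_add, ha, hb]
  | mul_X a m ha => simp only [map_mul, ha]; simp [τm]

lemma tayM_eval (q : MvPolynomial σ ℂ) : tayM (fun z => MvPolynomial.eval z q) p = τm p q := by
  have := tayS_aeval (p := p) q
  rw [← tayM_eq (aeval_ana q), ← τm_eq] at this
  exact this

lemma tayM_aeval {K : Type*} [Field K] [Algebra K ℂ] (q : MvPolynomial σ K) :
    tayM (fun z => MvPolynomial.aeval z q) p = τm p (TM ℂ q) := by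
  rw [← tayM_eval]
  simp only [TM, MvPolynomial.eval_map, MvPolynomial.aeval_def]

lemma tayM_aeval_pc {K : Type*} [Field K] [Algebra K ℂ] (x : σ → K) (q : MvPolynomial σ K) :
    tayM (fun z => MvPolynomial.aeval z q) (pc x) = mpM K (τm x q) := by
  rw [tayM_eq (aeval_ana q), tayS_aeval, τm_eq]
  induction q using MvPolynomial.induction_on with
  | C a => simp [MvPowerSeries.algebraMap_apply]
  | add a b ha hb => simp only [map_add, ha, hb]
  | mul_X a m ha => simp only [map_mul, ha]; simp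

/-- An analytic germ with zero Taylor series is zero. -/
theorem eventually_zero_of_tayM (hg : AnalyticAt ℂ g p) (h0 : tayM g p = 0) :
    ∀ᶠ t in 𝓝 p, g t = 0 := by
  obtain ⟨r, r0, hr⟩ := Metric.eventually_nhds_iff_ball.1 hg.eventually_analyticAt
  filter_upwards [Metric.ball_mem_nhds p r0] with t ht
  have e := dir_tayM hg (t - p)
  rw [h0, map_zero] at e
  have e0 := eventually_zero_of_tay (line_ana hg (t - p)) e.symm
  have hl : Continuous fun u : ℂ => p + u • (t - p) := by fun_prop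
  let V : Set ℂ := (fun u : ℂ => p + u • (t - p)) ⁻¹' Metric.ball p r
  have hV : Convex ℝ V := by
    intro a ha b hb c d hc hd hcd
    have := convex_ball p r ha hb hc hd hcd
    have e1 : p + (c • a + d • b) • (t - p) = c • (p + a • (t - p)) + d • (p + b • (t - p)) := by
      rw [smul_add, smul_add, add_add_add_comm, ← add_smul, hcd, one_smul, add_smul, smul_assoc,
        smul_assoc]
    change p + (c • a + d • b) • (t - p) ∈ Metric.ball p r
    rwa [e1]
  have hA : AnalyticOnNhd ℂ (fun u : ℂ => g (p + u • (t - p))) V := fun u hu =>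
    AnalyticAt.comp (g := g) (f := fun u : ℂ => p + u • (t - p)) (hr _ hu) (by fun_prop)
  have := hA.eqOn_zero_of_preconnected_of_eventuallyEq_zero hV.isPreconnected
    (z₀ := 0) (by simp [V, r0]) e0 (x := 1) (by simpa [V] using ht)
  simpa using this

theorem tayM_eq_zero_iff (hg : AnalyticAt ℂ g p) : tayM g p = 0 ↔ ∀ᶠ t in 𝓝 p, g t = 0 :=
  ⟨eventually_zero_of_tayM hg, fun e => by rw [tayM_congr (h := fun _ => 0) e, tayM_zero]⟩

theorem tayM_inj (hg : AnalyticAt ℂ g p) (hh : AnalyticAt ℂ h p) (e : tayM g p = tayM h p) :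
    g =ᶠ[𝓝 p] h := by
  have := eventually_zero_of_tayM (hg.fun_sub hh) (by rw [tayM_sub hg hh, e, sub_self])
  filter_upwards [this] with t ht using sub_eq_zero.1 ht

end

end Pool.Agent.Lib.MP_5591bc_ag.M
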