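import Pool.Agent.Lib.MP_5591bc_ag.M.Gal
import Pool.Agent.Lib.MP_5591bc_ag.M.Tay

/-! A connected differential Galois group gives irreducible fibres. -/

namespace Pool.Agent.Lib.MP_5591bc_ag.M

open Matrix Filter Topology MvPowerSeries G R W Metric

noncomputable section

variable {σ ν : Type*} [Fintype σ] [DecidableEq σ] {U : Set (σ → ℂ)}
  {P Y : (σ → ℂ) → Matrix ν ν ℂ} {s : σ → ℂ}

omit [DecidableEq σ] in
theorem irr_an (q : MvPolynomial σ ℂ) (p : σ → ℂ) :
    AnalyticAt ℂ (fun t : σ → ℂ => MvPolynomial.eval t q) p := aeval_ana q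

theorem irr_val (hP : ∀ i j, AnalyticAt ℂ (P · i j) s)
    (q : MvPolynomial (ν × ν) (MvPolynomial σ ℂ)) :
    AnalyticAt ℂ (valM P q) s ∧ tayM (valM P q) s = evGM s (tayX P s) q := by
  induction q using MvPolynomial.induction_on with
  | C p =>
    have : valM P (MvPolynomial.C p) = fun t => MvPolynomial.eval t p := by ext t; simp [valM]
    rw [this, tayM_eval]
    exact ⟨irr_an p s, by simp [evGM]⟩
  | add p q hp hq =>
    have : valM P (p + q) = fun t => valM P p t + valM P q t := by ext t; simp [valM]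
    rw [this, tayM_add hp.1 hq.1, hp.2, hq.2, map_add]
    exact ⟨hp.1.fun_add hq.1, rfl⟩
  | mul_X p a hp =>
    have : valM P (p * MvPolynomial.X a) = fun t => valM P p t * P t a.1 a.2 := by
      ext t; simp [valM]
    rw [this, tayM_mul hp.1 (hP _ _), hp.2, map_mul]
    exact ⟨hp.1.fun_mul (hP _ _), by simp [evGM, tayX]⟩

/-- the fibre ideal in formal terms -/
theorem inFibM_iff (hY : ∀ i j, AnalyticAt ℂ (Y · i j) s) (Q : MvPolynomial (ν × ν) ℂ) :
    InFibM Y s Q ↔ ∃ q, evGM s (tayX Y s) q = 0 ∧ MvPolynomial.map (MvPolynomial.eval s) q = Q := by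
  let e : MvPolynomial (σ ⊕ ν × ν) ℂ ≃ₐ[ℂ] MvPolynomial (ν × ν) (MvPolynomial σ ℂ) :=
    (MvPolynomial.renameEquiv ℂ (Equiv.sumComm _ _)).trans (MvPolynomial.sumAlgEquiv ℂ _ _)
  have eC : ∀ c, e (MvPolynomial.C c) = MvPolynomial.C (MvPolynomial.C c) := fun c => e.commutes c
  have e1 : ∀ l, e (MvPolynomial.X (.inl l)) = MvPolynomial.C (MvPolynomial.X l) := fun l => by
    simp [e]
  have e2 : ∀ a, e (MvPolynomial.X (.inr a)) = MvPolynomial.X a := fun a => by
    simp [e]
  have k1 : ∀ H t, valM Y (e H) t = MvPolynomial.aeval (Sum.elim t fun a => Y t a.1 a.2) H :=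
    fun H t => by
      induction H using MvPolynomial.induction_on with
      | C c => simp [valM, eC]
      | add p q hp hq => simp only [map_add, ← hp, ← hq, valM, MvPolynomial.eval₂_add]
      | mul_X p a hp =>
        simp only [map_mul, ← hp, valM, MvPolynomial.eval₂_mul]
        cases a <;> simp [e1, e2]
  have k2 : ∀ H, MvPolynomial.map (MvPolynomial.eval s) (e H) =
      MvPolynomial.aeval (Sum.elim (fun l => MvPolynomial.C (s l)) MvPolynomial.X) H := fun H => by
    induction H using MvPolynomial.induction_on with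
    | C c => simp [eC]
    | add p q hp hq => simp only [map_add, hp, hq]
    | mul_X p a hp =>
      simp only [map_mul, hp]
      cases a <;> simp [e1, e2]
  have k3 : ∀ H, (∀ᶠ t in 𝓝 s, MvPolynomial.aeval (Sum.elim t fun a => Y t a.1 a.2) H = 0) ↔
      evGM s (tayX Y s) (e H) = 0 := fun H => by
    rw [← (irr_val hY _).2, tayM_eq_zero_iff (irr_val hY _).1]
    simp only [k1]
  constructor
  · rintro ⟨H, h1, h2⟩
    exact ⟨e H, (k3 H).1 h1, (k2 H).trans h2⟩
  · rintro ⟨q, h1, h2⟩
    obtain ⟨H, rfl⟩ := e.surjective q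
    exact ⟨H, (k3 H).2 h1, (k2 H).symm.trans h2⟩

theorem connSM_of (ho : IsOpen U) (hc : IsPreconnected U)
    (a1 : ∀ t ∈ U, ∀ i j, AnalyticAt ℂ (P · i j) t) (hs : s ∈ U) (h : ConnM U P) :
    ConnSM s (Set.range (evGM s (tayX P s))) := by
  have K : ∀ q, (∀ t ∈ U, valM P q t = 0) ↔ evGM s (tayX P s) q = 0 := fun q => by
    rw [← (irr_val (a1 s hs) q).2, tayM_eq_zero_iff (irr_val (a1 s hs) q).1]
    exact ⟨fun h => mem_of_superset (ho.mem_nhds hs) h, fun h =>
      AnalyticOnNhd.eqOn_zero_of_preconnected_of_eventuallyEq_zero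
        (fun t ht => (irr_val (a1 t ht) q).1) hc hs h⟩
  rintro _ ⟨u, rfl⟩ _ ⟨v, rfl⟩ n p hv hp e
  obtain ⟨a, b, hb, r⟩ := h u v n p (by
    by_contra c
    exact hv ((K v).1 fun t ht => by_contra fun d => c ⟨t, ht, d⟩)) hp (by
      have := K (∑ j ∈ Finset.range (n + 1), MvPolynomial.C (p j) * u ^ j * v ^ (n - j))
      simp only [map_sum, map_mul, map_pow] at this
      simpa [valM, MvPolynomial.eval₂_sum] using this.2 (by simpa [evGM] using e))
  refine ⟨a, b, hb, ?_⟩
  have := K (MvPolynomial.C b * u - MvPolynomial.C a * v)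
  simp only [map_sub, map_mul] at this
  simpa [evGM, sub_eq_zero] using this.1 (by simpa [valM, sub_eq_zero] using r)

omit [Fintype σ] [DecidableEq σ] in
theorem range_evGM {ν' : Type*} {G : Matrix ν ν (MvPowerSeries σ ℂ)}
    {G' : Matrix ν' ν' (MvPowerSeries σ ℂ)} (h : ∀ i j, G' i j ∈ (evGM s G).range) :
    Set.range (evGM s G') ⊆ Set.range (evGM s G) := by
  rintro _ ⟨q, rfl⟩
  change evGM s G' q ∈ (evGM s G).range
  induction q using MvPolynomial.induction_on with
  | C p => exact ⟨MvPolynomial.C p, by simp [evGM]⟩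
  | add p q hp hq => exact map_add (evGM s G') p q ▸ add_mem hp hq
  | mul_X p a hp =>
    rw [map_mul]
    exact mul_mem hp (by simpa [evGM] using h a.1 a.2)

variable {K : Type*} [Field K] [Algebra K ℂ] [Fintype ν] [DecidableEq ν] {T : MvPolynomial σ K}
  {B : σ → Matrix ν ν (MvPolynomial σ K)}

theorem irr_ode (ho : IsOpen U) (hP : FundM T B U P) (hs : s ∈ U) (l : σ) :
    τm s (TM ℂ T) • (tayX P s).map (pderiv ℂ l) = (BM ℂ B l).map (τm s) * tayX P s := by
  ext1 i j
  have a := fun i j => ((hP s hs).2 i j).1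
  have := tayM_congr (p := s) ((ho.eventually_mem hs).mono fun t ht => ((hP t ht).2 i j).2 l)
  rw [tayM_mul (h := fun t => fderiv ℂ (P · i j) t (Pi.single l 1)) (aeval_ana T)
    (pd_ana (a i j) l), tayM_pd (a i j), tayM_aeval,
    tayM_sum _ fun k _ => (aeval_ana _).fun_mul (a k j)] at this
  refine this.trans (Finset.sum_congr rfl fun k _ => ?_)
  rw [tayM_mul (aeval_ana _) (a k j), tayM_aeval]
  rfl

theorem irr_of_connM (ho : IsOpen U) (hc : IsPreconnected U) (hP : FundM T B U P) (hC : ConnM U P)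
    {s : σ → ℂ} (hs : s ∈ U) (hT : MvPolynomial.aeval s T ≠ 0) :
    IrrM (fun t => P t * (P s)⁻¹) s := by
  have a := fun t ht i j => ((hP t ht).2 i j).1
  have b : ∀ i j, AnalyticAt ℂ (fun t => (P t * (P s)⁻¹) i j) s := fun i j =>
    Finset.analyticAt_fun_sum _ fun k _ => (a s hs i k).fun_mul analyticAt_const
  have e : tayX (fun t => P t * (P s)⁻¹) s = tayX P s * (P s)⁻¹.map C := by
    ext1 i j
    refine (tayM_sum _ fun k _ => (a s hs i k).fun_mul analyticAt_const).trans
      (Finset.sum_congr rfl fun k _ => ?_)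
    rw [tayM_mul (a s hs i k) analyticAt_const, tayM_const]
    rfl
  obtain ⟨I, hI, h⟩ := gal_primeM (x := s) (T := TM ℂ T) (B := BM ℂ B)
    (Y := tayX (fun t => P t * (P s)⁻¹) s) (by rwa [MvPolynomial.eval_map]) (by
      rw [← mul_nonsing_inv _ (hP s hs).1.isUnit]
      ext i j
      exact constantCoeff_tayM (b i j)) (fun l => by
      rw [e, ← Matrix.mul_assoc, ← irr_ode ho hP hs, Matrix.smul_mul]
      congr 1
      ext1 i j
      simp [mul_apply, mul_comm])
    fun u hu v hv => by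
      have := range_evGM (s := s) (G := tayX P s) (G' := tayX (fun t => P t * (P s)⁻¹) s)
        fun i j => ⟨∑ k, MvPolynomial.X (i, k) * MvPolynomial.C (MvPolynomial.C ((P s)⁻¹ k j)), by
          simp [e, evGM, mul_apply, frT_C]⟩
      exact connSM_of ho hc a hs hC u (this hu) v (this hv)
  intro Q Q' hQ
  simp only [inFibM_iff b, ← h] at hQ ⊢
  exact hI.mem_or_mem hQ

end

end Pool.Agent.Lib.MP_5591bc_ag.M
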