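import Pool.Agent.Lib.MP_5591bc_ag.M.SerG
import Pool.Agent.Lib.MP_5591bc_ag.M.FrA

/-! Formal series in several variables. -/

namespace Pool.Agent.Lib.MP_5591bc_ag.M

open Matrix Filter Topology MvPowerSeries G R W Metric

noncomputable section

variable {σ R S : Type*} [CommRing R] [CommRing S] {n m : ℕ} {f g : MvPowerSeries σ R}

theorem τm_map (φ : R →+* S) (x : σ → R) (p : MvPolynomial σ R) :
    map φ (τm x p) = τm (fun l => φ (x l)) (MvPolynomial.map φ p) := by
  induction p using MvPolynomial.induction_on with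
  | C a => simp [τm]
  | add a b ha hb => simp only [map_add, ha, hb]
  | mul_X a l ha => simp only [map_mul, ha]; simp [τm]

theorem coeff_τm (x : σ → R) (p : MvPolynomial σ R) (κ : σ →₀ ℕ) : coeff κ (τm x p) =
    MvPolynomial.coeff κ
      (MvPolynomial.aeval (fun l => MvPolynomial.X l + MvPolynomial.C (x l)) p) := by
  exact MvPolynomial.coeff_coe _ _

theorem map_pderiv (φ : R →+* S) (l : σ) (f : MvPowerSeries σ R) :
    map φ (pderiv R l f) = pderiv S l (map φ f) := by
  ext κ; simp [coeff_pderiv]

theorem map_inj {φ : R →+* S} (h : Function.Injective φ) :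
    Function.Injective (map (σ := σ) φ) := by
  intro F G e
  ext κ
  exact h (by simpa using congrArg (coeff κ) e)

theorem on_zero (f : MvPowerSeries σ R) : On 0 f := by
  exact fun _ h => absurd h (Nat.not_lt_zero _)

theorem on_one : On 1 f ↔ constantCoeff f = 0 := by
  refine ⟨fun h => by simpa using h 0 (by simp), fun h κ hκ => ?_⟩
  have : κ = 0 := (Finsupp.degree_eq_zero_iff κ).1 (by omega)
  simpa [this] using h

theorem On.mono (h : On n f) (e : m ≤ n) : On m f := by
  exact fun κ hκ => h κ (hκ.trans_le e)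

theorem On.add (h : On n f) (h' : On n g) : On n (f + g) := by
  exact fun κ hκ => by rw [map_add, h κ hκ, h' κ hκ, add_zero]

theorem On.sub (h : On n f) (h' : On n g) : On n (f - g) := by
  exact fun κ hκ => by rw [map_sub, h κ hκ, h' κ hκ, sub_zero]

theorem On.mul (h : On n f) (h' : On m g) : On (n + m) (f * g) := by
  classical
  intro κ hκ
  rw [coeff_mul]
  refine Finset.sum_eq_zero fun p hp => ?_
  have e := congrArg Finsupp.degree (Finset.HasAntidiagonal.mem_antidiagonal.1 hp)
  rw [map_add] at e
  by_cases h1 : p.1.degree < n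
  · rw [h _ h1, zero_mul]
  · rw [h' _ (by omega), mul_zero]

theorem On.left (h : On n f) (g : MvPowerSeries σ R) : On n (g * f) := by
  simpa using (on_zero g).mul h

theorem On.sum {α : Type*} {s : Finset α} {F : α → MvPowerSeries σ R} (h : ∀ a ∈ s, On n (F a)) :
    On n (∑ a ∈ s, F a) := by
  exact fun κ hκ => by rw [map_sum]; exact Finset.sum_eq_zero fun a ha => h a ha κ hκ

theorem On.pderiv (h : On (n + 1) f) (l : σ) : On n (pderiv R l f) := by
  intro κ hκ
  rw [coeff_pderiv, h _ (by rw [map_add, Finsupp.degree_single]; omega), zero_mul]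

theorem On.unit [NoZeroDivisors R] (h : On n (g * f)) (hg : constantCoeff g ≠ 0) : On n f := by
  classical
  induction n with
  | zero => exact on_zero f
  | succ n ih =>
    have h1 := ih (h.mono n.le_succ)
    intro κ hκ
    have h2 := h κ hκ
    rw [coeff_mul, Finset.sum_eq_single (0, κ)] at h2
    · exact (mul_eq_zero.1 h2).resolve_left (by simpa using hg)
    · intro p hp hne
      have e0 := Finset.HasAntidiagonal.mem_antidiagonal.1 hp
      have e := congrArg Finsupp.degree e0
      rw [map_add] at e
      have : p.1.degree ≠ 0 := fun h0 => by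
        have h3 : p.1 = 0 := (Finsupp.degree_eq_zero_iff _).1 h0
        exact hne (Prod.ext h3 (by simpa [h3] using e0))
      rw [h1 _ (by omega), mul_zero]
    · simp

theorem on_all (h : ∀ n, On n f) : f = 0 := by
  ext κ; exact h _ κ (Nat.lt_succ_self _)

/-- the order drops under some derivation -/
theorem On.lower [NoZeroDivisors R] [CharZero R] (h : On (n + 1) f)
    (h' : ∀ l, On (n + 1) (MvPowerSeries.pderiv R l f)) : On (n + 2) f := by
  classical
  intro κ hκ
  by_cases e : κ = 0
  · exact h κ (by simp [e])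
  obtain ⟨l, hl⟩ : ∃ l, κ l ≠ 0 := by
    by_contra! h1
    exact e (Finsupp.ext h1)
  have le : Finsupp.single l 1 ≤ κ := Finsupp.single_le_iff.2 (by omega)
  have e1 := tsub_add_cancel_of_le le
  have e2 := congrArg Finsupp.degree e1
  rw [map_add, Finsupp.degree_single] at e2
  have := h' l (κ - Finsupp.single l 1) (by omega)
  rw [coeff_pderiv, e1] at this
  exact (mul_eq_zero.1 this).resolve_right (Nat.cast_add_one_ne_zero _)

theorem prm_Dm {ι : Type*} [Fintype ι] {τ : MvPolynomial σ R →+* MvPowerSeries σ S}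
    (hτ : ∀ l p, τ (MvPolynomial.pderiv l p) = pderiv S l (τ p)) {T : MvPolynomial σ R}
    {B : σ → Matrix ι ι (MvPolynomial σ R)} {Φ : ι → MvPowerSeries σ S} (h : IsM τ T B Φ) (l : σ)
    (φ : ι → MvPolynomial σ R) : prm τ Φ (Dm T B l φ) = τ T * pderiv S l (prm τ Φ φ) := by
  simp only [prm, Dm, Pi.add_apply, Pi.smul_apply, smul_eq_mul, map_add, map_mul, hτ, vecMul,
    dotProduct, map_sum, Derivation.leibniz, add_mul, mul_add, Finset.mul_sum, Finset.sum_mul,
    Finset.sum_add_distrib]
  rw [add_comm, Finset.sum_comm]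
  congr 1
  · refine Finset.sum_congr rfl fun i _ => ?_
    rw [mul_left_comm, h l i, Finset.mul_sum]
    exact Finset.sum_congr rfl fun _ _ => mul_assoc _ _ _
  · exact Finset.sum_congr rfl fun i _ => by ring

theorem kit_prod {A L : Type*} [CommRing A] [Algebra S A] (D : Derivation S A A) [DecidableEq L]
    (g : L → A) (s : Finset L) :
    D (∏ l ∈ s, g l) = ∑ l ∈ s, (∏ j ∈ s.erase l, g j) * D (g l) := by
  induction s using Finset.induction_on with
  | empty => simp
  | insert x s hx ih =>
    rw [Finset.prod_insert hx, Finset.sum_insert hx, Derivation.leibniz, ih, Finset.erase_insert hx,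
      smul_eq_mul, smul_eq_mul, add_comm, Finset.mul_sum]
    refine congrArg _ (Finset.sum_congr rfl fun l hl => ?_)
    rw [Finset.erase_insert_of_ne (ne_of_mem_of_not_mem hl hx).symm,
      Finset.prod_insert fun h => hx (Finset.mem_of_mem_erase h), mul_assoc]

theorem IsM.tens {ι : Type*} [Fintype ι] [DecidableEq ι]
    {τ : MvPolynomial σ R →+* MvPowerSeries σ S} {T : MvPolynomial σ R}
    {B : σ → Matrix ι ι (MvPolynomial σ R)} {Φ : ι → MvPowerSeries σ S} (h : IsM τ T B Φ) (a : ℕ) :
    IsM τ T (fun l => tB (Fin a) (B l)) (tens fun _ => Φ) := by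
  intro l μ
  have := congrFun (tB_mulVec ((B l).map τ) fun _ : Fin a => Φ) μ
  rw [← tB_map, Finset.sum_apply] at this
  refine Eq.trans ?_ this.symm
  rw [G.tens, kit_prod, Finset.mul_sum]
  refine Finset.sum_congr rfl fun j _ => ?_
  rw [tens_update, mul_left_comm, h]
  rfl

end

end Pool.Agent.Lib.MP_5591bc_ag.M
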