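import Pool.Agent.Lib.MP_5591bc_ag.W.Ser
import Pool.Agent.Lib.MP_5591bc_ag.M.SerG

/-! The system of the horizontal covectors in several variables, and their Taylor series. -/

namespace Pool.Agent.Lib.MP_5591bc_ag.M

open Matrix Filter Topology MvPowerSeries Finset G R W Function

noncomputable section

variable {σ K ν : Type*} [Fintype ν] [DecidableEq ν]

section
variable {S A : Type*} [CommRing S] [CommRing A] [Algebra S A] (D : Derivation S A A)

theorem der_prod {L : Type*} [DecidableEq L] (g : L → A) (s : Finset L) :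
    D (∏ l ∈ s, g l) = ∑ l ∈ s, (∏ j ∈ s.erase l, g j) * D (g l) := by
  induction s using Finset.induction_on with
  | empty => simp
  | insert x s hx ih =>
    rw [prod_insert hx, sum_insert hx, Derivation.leibniz, ih, erase_insert hx, smul_eq_mul,
      smul_eq_mul, add_comm, mul_sum]
    refine congrArg _ (sum_congr rfl fun l hl => ?_)
    rw [erase_insert_of_ne (ne_of_mem_of_not_mem hl hx).symm,
      prod_insert fun h => hx (mem_of_mem_erase h), mul_assoc]

variable {D} {t : A} {b G : Matrix ν ν A}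

theorem der_det (h : t • G.map D = b * G) : t * D G.det = b.trace * G.det := by
  have e1 : ∀ i, (G.updateRow i ((b * G) i)).det = b i i * G.det := fun i => by
    have : (b * G) i = ∑ k, b i k • G k := by
      ext1 j
      simp [mul_apply]
    rw [this, det_updateRow_sum, smul_eq_mul]
  have e2 : ∀ M : Matrix ν ν A,
      M.det = ∑ π : Equiv.Perm ν, ((Equiv.Perm.sign π : ℤ) : A) * ∏ i, M i (π i) := fun M => by
    rw [← det_transpose, det_apply']
    rfl
  rw [trace, sum_mul]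
  simp only [Matrix.diag, ← e1]
  simp only [← h, e2]
  rw [sum_comm, map_sum, mul_sum]
  refine sum_congr rfl fun π _ => ?_
  rw [Derivation.leibniz, der_prod, Derivation.map_intCast, smul_zero, add_zero, smul_eq_mul,
    mul_left_comm, mul_sum, mul_sum]
  refine sum_congr rfl fun l _ => congrArg _ ?_
  rw [← prod_erase_mul _ _ (mem_univ l), updateRow_self, mul_left_comm]
  exact congrArg₂ _ (prod_congr rfl fun j hj => by
    rw [updateRow_ne (ne_of_mem_erase hj)]) rfl

theorem der_adj (h : t • G.map D = b * G) (hG : IsUnit G.det) :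
    t • G.adjugate.map D = G.adjugate * (b.trace • 1 - b) := by
  have e1 : t • (G.det • (1 : Matrix ν ν A)).map D = (b.trace * G.det) • 1 := by
    ext1 i j
    simp only [Matrix.smul_apply, map_apply, one_apply, smul_eq_mul, ← der_det h]
    split_ifs <;> simp
  rw [← adjugate_mul, serG_mul, smul_add, ← Matrix.mul_smul G.adjugate, h, mul_smul,
    ← adjugate_mul] at e1
  refine (isUnit_iff_isUnit_det G).2 hG |>.mul_right_cancel ?_
  rw [Matrix.smul_mul, eq_sub_of_add_eq e1, Matrix.mul_sub, Matrix.sub_mul, Matrix.mul_smul,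
    Matrix.mul_one, Matrix.smul_mul, Matrix.mul_assoc]

theorem der_exg (h : t • G.map D = b * G) (hG : IsUnit G.det) :
    t • (exg G.det G.adjugate).map D = exg G.det G.adjugate * exg b.trace (b.trace • 1 - b) := by
  rw [exg_map _ (map_zero _), exg_smul, der_det h, der_adj h hG, exg_mul, mul_comm]

theorem der_piM {L α : Type*} [Fintype L] [DecidableEq L] [Fintype α] [DecidableEq α]
    {M N : Matrix α α A} (h : t • M.map D = M * N) :
    t • (piM fun _ : L => M).map D = (piM fun _ => M) * tB L N := by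
  rw [tB, Finset.mul_sum]
  simp only [piM_mul]
  ext1 μ μ'
  simp only [Matrix.smul_apply, map_apply, piM, of_apply, der_prod, smul_eq_mul, mul_sum,
    Matrix.sum_apply]
  refine sum_congr rfl fun l _ => ?_
  rw [← prod_erase_mul _ _ (mem_univ l), update_self, ← h, mul_left_comm]
  exact congrArg₂ _ (prod_congr rfl fun j hj => by simp [ne_of_mem_erase hj]) rfl

theorem Bd_transpose (δ : ℕ) (b : Matrix ν ν A) :
    (Bd δ b)ᵀ = tB (Fin δ) (exg b.trace (b.trace • 1 - b)) := by
  have e : exg b.trace (b.trace • 1 - b) = b.trace • 1 - exg 0 b := by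
    ext (_ | ⟨p, q⟩) (_ | ⟨p', q'⟩) <;> simp [exg, one_apply, ite_and]
    split_ifs <;> simp
  have e1 : ∀ μ μ' : Mo δ ν, ∀ l, (∏ j ∈ univ.erase l, if μ j = μ' j then (1 : A) else 0) *
      (if μ l = μ' l then 1 else 0) = if μ = μ' then 1 else 0 := fun μ μ' l => by
    rw [prod_erase_mul _ (fun j => if μ j = μ' j then (1 : A) else 0) (mem_univ l), prod_boole]
    simp [funext_iff]
  rw [e, Bd, transpose_sub, transpose_transpose, transpose_smul, transpose_one]
  ext μ μ'
  simp only [Matrix.sub_apply, Matrix.smul_apply, tB_apply, one_apply, smul_eq_mul, mul_sub,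
    sum_sub_distrib, mul_left_comm _ b.trace, e1]
  simp

theorem der_Adj (h : t • G.map D = b * G) (hG : IsUnit G.det) (δ : ℕ) :
    t • (Adj δ G).map D = Adj δ G * (Bd δ b)ᵀ := by
  rw [Bd_transpose]; exact der_piM (der_exg h hG)

theorem Bd_map {A' : Type*} [CommRing A'] (φ : A →+* A') (δ : ℕ) (b : Matrix ν ν A) :
    (Bd δ b).map φ = Bd δ (b.map φ) := by
  have e := tB_map (L := Fin δ) φ (exg 0 b)
  rw [exg_map _ (map_zero φ), map_zero] at e
  ext μ μ'
  simp only [Bd, ← e, map_apply, Matrix.sub_apply, Matrix.smul_apply, transpose_apply, one_apply,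
    smul_eq_mul, map_sub, map_mul, map_natCast, trace, map_sum, Matrix.diag, apply_ite φ, map_one,
    map_zero]
end

variable [Fintype σ] [DecidableEq σ] [Field K]
  {T : MvPolynomial σ K} {B : σ → Matrix ν ν (MvPolynomial σ K)}

theorem GbM_unit (T : MvPolynomial σ K) (B : σ → Matrix ν ν (MvPolynomial σ K)) (x : σ → K) :
    IsUnit (GbM T B x).det := by
  rw [isUnit_iff_constantCoeff, RingHom.map_det, RingHom.mapMatrix_apply, GbM_zero, det_one]
  exact isUnit_one

/-- The rows of `Adj` of a formal solution solve the system `Bd`. -/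
theorem Adj_isM {x : σ → K}
    (h : ∀ l, τm x T • (GbM T B x).map (pderiv K l) = (B l).map (τm x) * GbM T B x) (δ : ℕ)
    (α : Mo δ ν) : IsM (τm x) T (fun l => Bd δ (B l)) (Adj δ (GbM T B x) α) := fun l μ => by
  have := congrFun₂ (der_Adj (h l) (GbM_unit T B x) δ) α μ
  rw [← Bd_map, mul_apply] at this
  exact this.trans (sum_congr rfl fun _ _ => mul_comm _ _)

theorem LserM_isM {x : σ → K}
    (h : ∀ l, τm x T • (GbM T B x).map (pderiv K l) = (B l).map (τm x) * GbM T B x) (δ : ℕ)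
    (F : Mo δ ν → K) : IsM (τm x) T (fun l => Bd δ (B l)) (LserM T B δ x F) := fun l μ => by
  simp only [LserM, vecMul, dotProduct, map_sum, Derivation.leibniz, pderiv_C, smul_eq_mul,
    mul_zero, add_zero, mul_sum]
  rw [sum_comm]
  refine sum_congr rfl fun α _ => ?_
  rw [mul_left_comm, Adj_isM h δ α l μ, mul_sum]
  exact sum_congr rfl fun _ _ => mul_left_comm _ _ _

variable [Algebra K ℂ] {U : Set (σ → ℂ)} {P : (σ → ℂ) → Matrix ν ν ℂ}

theorem LserM_ode (ho : IsOpen U) (hP : FundM T B U P) {x : σ → K} (hx : pc x ∈ U)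
    (hT : MvPolynomial.eval x T ≠ 0) (δ : ℕ) (F : Mo δ ν → K) :
    IsM (τm x) T (fun l => Bd δ (B l)) (LserM T B δ x F) :=
  LserM_isM (GbM_ode ho hP hx hT) δ F

/-- functions analytic at a point -/
def anaO (p : σ → ℂ) : Subring ((σ → ℂ) → ℂ) where
  carrier := {g | AnalyticAt ℂ g p}
  mul_mem' := fun ha hb => ha.mul hb
  one_mem' := analyticAt_const
  add_mem' := fun ha hb => ha.add hb
  zero_mem' := analyticAt_const
  neg_mem' := fun ha => ha.neg

/-- the Taylor series as a ring homomorphism -/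
def anaT (p : σ → ℂ) : anaO p →+* MvPowerSeries σ ℂ where
  toFun g := tayM g.1 p
  map_one' := (tayM_const 1).trans (map_one _)
  map_mul' a b := tayM_mul a.2 b.2
  map_zero' := tayM_zero
  map_add' a b := tayM_add a.2 b.2

theorem serM_adj {Y : (σ → ℂ) → Matrix ν ν ℂ} {p : σ → ℂ} (h : ∀ i j, AnalyticAt ℂ (Y · i j) p)
    (δ : ℕ) (β α : Mo δ ν) : AnalyticAt ℂ (fun t => Adj δ (Y t) β α) p ∧
      tayM (fun t => Adj δ (Y t) β α) p = Adj δ (tayX Y p) β α := by
  have e : (Adj δ (of fun i j => (⟨_, h i j⟩ : anaO p)) β α).1 = fun t => Adj δ (Y t) β α :=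
    funext fun t => congrFun₂ (Adj_map ((Pi.evalRingHom (fun _ => ℂ) t).comp (anaO p).subtype) δ
      (of fun i j => (⟨_, h i j⟩ : anaO p))) β α
  rw [← e]
  exact ⟨(Adj δ (of fun i j => (⟨_, h i j⟩ : anaO p)) β α).2,
    congrFun₂ (Adj_map (anaT p) δ (of fun i j => (⟨_, h i j⟩ : anaO p))) β α⟩

omit [Fintype σ] [DecidableEq σ] in
theorem lamM_self {δ : ℕ} {x : σ → K} (hx : (P (pc x)).det ≠ 0) (F : Mo δ ν → K) :
    lamM P δ x F (pc x) = fun μ => algebraMap K ℂ (F μ) := by
  rw [lamM, mul_nonsing_inv _ hx.isUnit, Adj_one, vecMul_one]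

omit [Fintype σ] [DecidableEq σ] in
theorem lamM_base {δ : ℕ} (x : σ → K) (F : Mo δ ν → K) {s : σ → ℂ} (hs : (P s).det ≠ 0)
    (t : σ → ℂ) : lamM P δ x F t = lamM P δ x F s ᵥ* Adj δ (P t * (P s)⁻¹) := by
  rw [lamM, lamM, vecMul_vecMul, ← Adj_mul, Matrix.mul_assoc,
    nonsing_inv_mul_cancel_left _ _ hs.isUnit]

omit [Fintype σ] [DecidableEq σ] in
theorem lamM_dot {δ : ℕ} {x : σ → K} (hx : (P (pc x)).det ≠ 0) {F : Mo δ ν → K}
    (hF : (fun μ => algebraMap K ℂ (F μ)) ⬝ᵥ mono δ (P (pc x)) = 0) (t : σ → ℂ) :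
    lamM P δ x F t ⬝ᵥ mono δ (P t) = 0 := by
  have e := Adj_mono δ (P t * (P (pc x))⁻¹) (P (pc x))
  rw [nonsing_inv_mul_cancel_right _ _ hx.isUnit] at e
  rw [lamM, ← dotProduct_mulVec, e, dotProduct_smul, hF, smul_zero]

theorem covM_ana (hP : FundM T B U P) (M : Matrix ν ν ℂ) {δ : ℕ} (u : Mo δ ν → ℂ) (μ : Mo δ ν)
    {t : σ → ℂ} (ht : t ∈ U) : AnalyticAt ℂ (fun z => (u ᵥ* Adj δ (P z * M)) μ) t :=
  Finset.analyticAt_fun_sum _ fun β _ =>
    analyticAt_const.fun_mul (serM_adj (serG_ana hP M ht) δ β μ).1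

theorem lamM_ana (hP : FundM T B U P) {δ : ℕ} (x : σ → K) (F : Mo δ ν → K) (μ : Mo δ ν)
    {t : σ → ℂ} (ht : t ∈ U) : AnalyticAt ℂ (fun z => lamM P δ x F z μ) t :=
  covM_ana hP _ _ μ ht

theorem tayM_base (ho : IsOpen U) (hP : FundM T B U P) {δ : ℕ} {s : σ → K} (hs : pc s ∈ U)
    (hT : MvPolynomial.eval s T ≠ 0) (u : Mo δ ν → ℂ) (μ : Mo δ ν) :
    tayM (fun t => (u ᵥ* Adj δ (P t * (P (pc s))⁻¹)) μ) (pc s) =
      ∑ β, C (u β) * mpM K (Adj δ (GbM T B s) β μ) := by
  have h := serM_adj (serG_ana hP (P (pc s))⁻¹ hs) δ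
  refine (tayM_sum _ fun β _ => analyticAt_const.fun_mul (h β μ).1).trans
    (Finset.sum_congr rfl fun β _ => (tayM_cmul (h β μ).1 _).trans ?_)
  rw [(h β μ).2, tayX_G ho hP hs hT]
  exact congrArg _ (congrFun₂ (Adj_map (mpM K) δ (GbM T B s)) β μ).symm

theorem tayM_self (ho : IsOpen U) (hP : FundM T B U P) {δ : ℕ} {x : σ → K} (hx : pc x ∈ U)
    (hT : MvPolynomial.eval x T ≠ 0) (F : Mo δ ν → K) (μ : Mo δ ν) :
    tayM (fun t => lamM P δ x F t μ) (pc x) = mpM K (LserM T B δ x F μ) := by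
  refine (tayM_base ho hP hx hT _ μ).trans ?_
  simp [LserM, vecMul, dotProduct]

end

end Pool.Agent.Lib.MP_5591bc_ag.M
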