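import Pool.Agent.Lib.MP_5591bc_ag.M.SerG

/-! Polynomial expressions in analytic functions and the identity theorem. -/

namespace Pool.Agent.Lib.MP_5591bc_ag.M

open Matrix Filter Topology MvPowerSeries G R W Metric

noncomputable section

variable {σ : Type*} [Fintype σ] [DecidableEq σ] {g : (σ → ℂ) → ℂ} {p : σ → ℂ}

theorem an_eval (q : MvPolynomial σ ℂ) (p : σ → ℂ) :
    AnalyticAt ℂ (fun t : σ → ℂ => MvPolynomial.eval t q) p := by
  exact aeval_ana q

/-- polynomial expressions in analytic functions -/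
theorem tayM_mv {α : Type*} {f : α → (σ → ℂ) → ℂ} (hf : ∀ o, AnalyticAt ℂ (f o) p)
    (H : MvPolynomial α ℂ) : AnalyticAt ℂ (fun t => MvPolynomial.aeval (f · t) H) p ∧
      tayM (fun t => MvPolynomial.aeval (f · t) H) p =
        MvPolynomial.aeval (fun o => tayM (f o) p) H := by
  induction H using MvPolynomial.induction_on with
  | C a => exact ⟨by simpa using analyticAt_const,
      by simpa [MvPowerSeries.algebraMap_apply] using tayM_const a⟩
  | add p q hp hq =>
    simp only [map_add]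
    exact ⟨hp.1.fun_add hq.1, by rw [tayM_add hp.1 hq.1, hp.2, hq.2]⟩
  | mul_X p o hp =>
    simp only [map_mul, MvPolynomial.aeval_X]
    exact ⟨hp.1.fun_mul (hf o), by rw [tayM_mul hp.1 (hf o), hp.2]⟩

/-- the identity theorem -/
theorem identM {U : Set (σ → ℂ)} (ho : IsOpen U) (hc : IsPreconnected U)
    (hg : AnalyticOnNhd ℂ g U) (hp : p ∈ U) : (∀ t ∈ U, g t = 0) ↔ tayM g p = 0 := by
  rw [tayM_eq_zero_iff (hg p hp)]
  exact ⟨fun h => mem_of_superset (ho.mem_nhds hp) h, fun h t ht =>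
    hg.eqOn_zero_of_preconnected_of_eventuallyEq_zero hc hp h ht⟩

variable {K ν : Type*} [Field K] [Algebra K ℂ] [Fintype ν] [DecidableEq ν]
  {T : MvPolynomial σ K} {B : σ → Matrix ν ν (MvPolynomial σ K)} {U : Set (σ → ℂ)}
  {P : (σ → ℂ) → Matrix ν ν ℂ}

theorem FundM.mul (hP : FundM T B U P) {c : Matrix ν ν ℂ} (hc : c.det ≠ 0) :
    FundM T B U fun t => P t * c := by
  intro t ht
  refine ⟨by rw [det_mul]; exact mul_ne_zero (hP t ht).1 hc, fun i j => ⟨serG_ana hP c ht i j,
    fun l => ?_⟩⟩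
  have ha := fun a => ((hP t ht).2 i a).1.differentiableAt
  simp only [mul_apply]
  rw [fderiv_fun_sum fun a _ => (ha a).mul_const _]
  simp only [fderiv_mul_const (ha _), _root_.sum_apply, _root_.smul_apply,
    smul_eq_mul, Finset.mul_sum]
  rw [Finset.sum_comm]
  refine Finset.sum_congr rfl fun a _ => ?_
  rw [mul_left_comm, ((hP t ht).2 i a).2 l, Finset.mul_sum]
  exact Finset.sum_congr rfl fun b _ => by ring

theorem FundM.inv (hP : FundM T B U P) {s : σ → ℂ} (hs : s ∈ U) :
    FundM T B U fun t => P t * (P s)⁻¹ := by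
  refine hP.mul ?_
  rw [det_nonsing_inv, Ring.inverse_eq_inv']
  exact inv_ne_zero (hP s hs).1

/-- the formal system at a point -/
theorem FundM.ode (ho : IsOpen U) (hP : FundM T B U P) {s : σ → ℂ} (hs : s ∈ U) (l : σ) :
    τm s (TM ℂ T) • (tayX P s).map (pderiv ℂ l) = (BM ℂ B l).map (τm s) * tayX P s := by
  have h := tayX_ode ho hP hs l
  simp only [tayM_aeval] at h
  exact h

end

end Pool.Agent.Lib.MP_5591bc_ag.M
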