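import Pool.Agent.Lib.MP_5591bc_ag.M.Set

/-! Sets lying on a hypersurface. -/

namespace Pool.Agent.Lib.MP_5591bc_ag.M

open Matrix Filter Topology MvPowerSeries G R W Metric

noncomputable section

variable {σ R S : Type*} [CommRing R] [CommRing S] {n m : ℕ}

theorem hyp_empty [Nontrivial R] : Hyp (∅ : Set (σ → R)) 0 := by
  exact ⟨1, one_ne_zero, by simp, by simp⟩

theorem Hyp.mono {A A' : Set (σ → R)} (h : Hyp A n) (e : A' ⊆ A) (e' : n ≤ m) : Hyp A' m := by
  obtain ⟨Q, h0, h1, h2⟩ := h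
  exact ⟨Q, h0, h1.trans e', fun x hx => h2 x (e hx)⟩

theorem Hyp.union [NoZeroDivisors R] {A A' : Set (σ → R)} (h : Hyp A n) (h' : Hyp A' m) :
    Hyp (A ∪ A') (n + m) := by
  obtain ⟨Q, h0, h1, h2⟩ := h
  obtain ⟨Q', g0, g1, g2⟩ := h'
  refine ⟨Q * Q', mul_ne_zero h0 g0, (MvPolynomial.totalDegree_mul _ _).trans (add_le_add h1 g1),
    fun x hx => ?_⟩
  rcases hx with hx | hx
  · rw [map_mul, h2 x hx, zero_mul]
  · rw [map_mul, g2 x hx, mul_zero]

theorem Hyp.cover [IsDomain R] [DecidableEq (σ → R)] {A : Set (σ → R)}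
    {Cs : Finset (Finset (σ → R))} (h : ∀ c ∈ Cs, Hyp (c : Set (σ → R)) n)
    (e : ∀ x ∈ A, ∃ c ∈ Cs, x ∈ c) : Hyp A (Cs.card * n) := by
  classical
  induction Cs using Finset.induction_on generalizing A with
  | empty => exact hyp_empty.mono (fun x hx => by simpa using e x hx) (by simp)
  | insert c Cs hc ih =>
    have h1 := ih (A := {x | ∃ c ∈ Cs, x ∈ c}) (fun d hd => h d (by simp [hd])) fun x hx => hx
    refine ((h c (by simp)).union h1).mono (fun x hx => ?_)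
      (by rw [Finset.card_insert_of_notMem hc]; exact le_of_eq (by ring))
    obtain ⟨d, hd, hx⟩ := e x hx
    rcases Finset.mem_insert.1 hd with rfl | hd
    · exact Or.inl hx
    · exact Or.inr ⟨d, hd, hx⟩

theorem Hyp.map {φ : R →+* S} (hφ : Function.Injective φ) {A : Set (σ → R)} (h : Hyp A n) :
    Hyp ((fun x l => φ (x l)) '' A) n := by
  obtain ⟨Q, h0, h1, h2⟩ := h
  refine ⟨MvPolynomial.map φ Q, fun e => h0 (MvPolynomial.map_injective φ hφ (by simpa using e)),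
    (Finset.sup_mono (MvPolynomial.support_map_subset _ _)).trans h1, ?_⟩
  rintro _ ⟨x, hx, rfl⟩
  have := MvPolynomial.map_eval φ x Q
  rw [h2 x hx, map_zero] at this
  exact this.symm

theorem hyp_of_finset {L : Type*} [Field L] [Finite σ] {A : Set (σ → L)}
    (h : ∀ c : Finset (σ → L), (c : Set (σ → L)) ⊆ A → Hyp (c : Set (σ → L)) n) : Hyp A n := by
  classical
  by_contra hn
  let V := MvPolynomial.restrictTotalDegree σ L n
  let Kf : Finset (σ → L) → Submodule L V := fun c =>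
    ⨅ x ∈ c, LinearMap.ker ((MvPolynomial.aeval x).toLinearMap ∘ₗ V.subtype)
  have mem : ∀ c (Q : V), Q ∈ Kf c ↔ ∀ x ∈ c, MvPolynomial.eval x Q.1 = 0 := fun c Q => by
    simp [Kf, Submodule.mem_iInf, MvPolynomial.aeval_eq_eval]
  have ex : ∃ r, ∃ c : Finset (σ → L), (c : Set (σ → L)) ⊆ A ∧ Module.finrank L (Kf c) = r :=
    ⟨_, ∅, by simp, rfl⟩
  obtain ⟨c, hc, hr⟩ := Nat.find_spec ex
  obtain ⟨Q, h0, h1, h2⟩ := h c hc
  have hQ : Q ∈ V := (MvPolynomial.mem_restrictTotalDegree _ _ _).2 h1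
  obtain ⟨x, hx, hxQ⟩ : ∃ x ∈ A, MvPolynomial.eval x Q ≠ 0 := by
    by_contra! h3
    exact hn ⟨Q, h0, h1, h3⟩
  have lt : Kf (insert x c) < Kf c := by
    refine lt_of_le_of_ne (fun q hq => (mem _ _).2 fun y hy => (mem _ _).1 hq y (by simp [hy]))
      fun e => hxQ ?_
    have : (⟨Q, hQ⟩ : V) ∈ Kf (insert x c) := e ▸ (mem _ _).2 h2
    exact (mem _ _).1 this x (by simp)
  exact Nat.find_min ex (hr ▸ Submodule.finrank_lt_finrank_of_lt lt)
    ⟨insert x c, by simp [Set.insert_subset_iff, hx, hc], rfl⟩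

end

end Pool.Agent.Lib.MP_5591bc_ag.M
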