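import Mathlib

/-! The antidiagonal of an exponent vector. -/

namespace Pool.Agent.Lib.MP_5591bc_ag.M

open Finset

variable {σ : Type*}

theorem card_anti [DecidableEq σ] (κ : σ →₀ ℕ) : #(antidiagonal κ) ≤ 2 ^ κ.degree := by
  refine (card_le_card_of_injOn (t := Iic κ) Prod.fst (fun p hp => ?_) fun p hp q hq e => ?_).trans ?_
  · exact mem_Iic.2 (mem_antidiagonal.1 hp ▸ le_self_add)
  · refine Prod.ext e (add_left_cancel (a := p.1) ?_)
    rw [mem_antidiagonal.1 hp, e, mem_antidiagonal.1 hq]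
  · rw [Finsupp.card_Iic, Finsupp.degree_apply, ← prod_pow_eq_pow_sum]
    exact prod_le_prod' fun i _ => by rw [Nat.card_Iic]; exact Nat.lt_two_pow_self

theorem anti_deg [DecidableEq σ] {κ : σ →₀ ℕ} {p : (σ →₀ ℕ) × (σ →₀ ℕ)} (hp : p ∈ antidiagonal κ)
    {t : ℕ} (ht : κ.degree ≤ t) : p.1.degree ≤ t ∧ p.2.degree ≤ t := by
  rw [← mem_antidiagonal.1 hp, map_add] at ht
  omega

end Pool.Agent.Lib.MP_5591bc_ag.M
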