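import Pool.Agent.Lib.MP_5591bc_ag.M.Set
import Pool.Agent.Lib.MP_5591bc_ag.M.GKa
import Pool.Agent.Lib.MP_5591bc_ag.W.GF

set_option linter.unusedSectionVars false

/-! Closure properties of the series with geometric growth. -/

namespace Pool.Agent.Lib.MP_5591bc_ag.M

open Finset MvPowerSeries NumberField G R W
open scoped Matrix

noncomputable section

variable {σ F α β : Type*} [Fintype σ] [Field F] {h h' : ℕ} {g : α → MvPowerSeries σ F}
  {g' : β → MvPowerSeries σ F}

theorem GKm.pos (hg : GKm h g) : 0 < h := by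
  obtain ⟨C, -, k⟩ := hg
  obtain ⟨-, d, d0, d1, -⟩ := k 1
  rw [pow_one] at d1
  exact Nat.pos_of_mul_pos_left (d0.trans_le d1)

theorem GKm.mono (hg : GKm h g) (hh : h ≤ h') : GKm h' g :=
  let ⟨C, C0, k⟩ := hg
  ⟨C, C0, fun t => let ⟨h0, d, d0, d1, d2⟩ := k t
    ⟨fun x φ κ hκ => (h0 x φ κ hκ).trans (by gcongr), d, d0, d1.trans (by gcongr), d2⟩⟩

theorem GKm.comp (hg : GKm h g) (f : β → α) : GKm h fun y => g (f y) :=
  let ⟨C, C0, k⟩ := hg
  ⟨C, C0, fun t => let ⟨h0, d, d0, d1, d2⟩ := k t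
    ⟨fun _ => h0 _, d, d0, d1, fun _ => d2 _⟩⟩

theorem GKm.of (hg : GKm h g) (k : ∀ y, ∃ x, g' y = g x) : GKm h g' := by
  choose f hf using k
  exact (funext hf : g' = _) ▸ hg.comp f

theorem GKm.mul (hg : GKm h g) (hg' : GKm h' g') :
    GKm (2 * h * h') fun q : α × β => g q.1 * g' q.2 := by
  classical
  obtain ⟨C, C0, k⟩ := hg
  obtain ⟨C', C0', k'⟩ := hg'
  refine ⟨C * C', by positivity, fun t => ⟨fun x φ κ hκ => ?_, ?_⟩⟩
  · simp only [coeff_mul, map_sum, map_mul]
    refine (norm_sum_le _ _).trans ((sum_le_card_nsmul _ _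
      ((C * (h : ℝ) ^ t) * (C' * (h' : ℝ) ^ t)) fun p hp => ?_).trans ?_)
    · rw [norm_mul]
      exact mul_le_mul ((k t).1 _ φ _ (anti_deg hp hκ).1) ((k' t).1 _ φ _ (anti_deg hp hκ).2)
        (norm_nonneg _) (by positivity)
    · have e : (#(antidiagonal κ) : ℝ) ≤ 2 ^ t := by
        exact_mod_cast (card_anti κ).trans (Nat.pow_le_pow_right two_pos hκ)
      rw [nsmul_eq_mul]
      push_cast
      refine (mul_le_mul_of_nonneg_right e (by positivity)).trans (le_of_eq ?_)
      rw [mul_pow, mul_pow]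
      ring
  · obtain ⟨-, d, d0, d1, d2⟩ := k t
    obtain ⟨-, e, e0, e1, e2⟩ := k' t
    refine ⟨d * e, by positivity, (Nat.mul_le_mul d1 e1).trans ?_, fun x κ hκ => ?_⟩
    · rw [mul_mul_mul_comm, ← mul_pow]
      gcongr
      omega
    · rw [coeff_mul, mul_sum]
      refine IsIntegral.sum _ fun p hp => ?_
      rw [Nat.cast_mul, mul_mul_mul_comm]
      exact (d2 _ p.1 (anti_deg hp hκ).1).mul (e2 _ p.2 (anti_deg hp hκ).2)

theorem GKm.opt (hg : GKm h g) : GKm h fun o : Option α => o.elim 1 g := by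
  classical
  have a1 : (1 : ℝ) ≤ h := by exact_mod_cast hg.pos
  obtain ⟨C, C0, k⟩ := hg
  have c1 : (1 : ℝ) ≤ C := by exact_mod_cast C0
  refine ⟨C, C0, fun t => ?_⟩
  obtain ⟨h0, d, d0, d1, d2⟩ := k t
  refine ⟨?_, d, d0, d1, ?_⟩
  · rintro (_ | x) φ κ hκ
    · have := one_le_mul_of_one_le_of_one_le c1 (one_le_pow₀ (n := t) a1)
      simp only [Option.elim, coeff_one]
      split_ifs
      · rwa [map_one, norm_one]
      · rw [map_zero, norm_zero]; positivity
    · exact h0 x φ κ hκ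
  · rintro (_ | x) κ hκ
    · simp only [Option.elim, coeff_one]
      split_ifs
      · rw [mul_one]; exact isIntegral_natCast d
      · rw [mul_zero]; exact isIntegral_zero
    · exact d2 x κ hκ

theorem GKm.map {L : Type*} [Field L] (f : F →+* L) (hg : GKm h g) :
    GKm h fun x => MvPowerSeries.map f (g x) :=
  let ⟨C, C0, k⟩ := hg
  ⟨C, C0, fun t => let ⟨h0, d, d0, d1, d2⟩ := k t
    ⟨fun x φ => h0 x (φ.comp f), d, d0, d1, fun x κ hκ => by
      rw [coeff_map, ← map_natCast f, ← map_mul]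
      exact (d2 x κ hκ).map f.toIntAlgHom⟩⟩

theorem GKm.mon (hg : GKm h g) (δ : ℕ) : GKm ((2 * h) ^ δ)
    fun s : {s : α →₀ ℕ // s.sum (fun _ e => e) ≤ δ} => s.1.prod fun i e => g i ^ e := by
  classical
  have z : ∀ s : α →₀ ℕ, s.sum (fun _ e => e) ≤ 0 → s = 0 := fun s hs => by
    ext i
    by_contra k
    have := Finset.single_le_sum (f := fun i => s i) (fun _ _ => Nat.zero_le _)
      (Finsupp.mem_support_iff.2 k)
    exact k (Nat.le_zero.1 (this.trans hs))
  induction δ with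
  | zero =>
    refine ⟨1, one_pos, fun t => ⟨fun s φ κ _ => ?_, 1, one_pos, by simp, fun s κ _ => ?_⟩⟩ <;>
      simp only [z s.1 s.2, Finsupp.prod_zero_index, coeff_one] <;> split_ifs <;>
      simp [isIntegral_one, isIntegral_zero]
  | succ δ ih =>
    refine ((hg.opt.mul ih).mono (le_of_eq (by ring))).of fun s => ?_
    by_cases s0 : s.1 = 0
    · exact ⟨(none, ⟨0, by simp⟩), by simp [s0]⟩
    · obtain ⟨i, hi⟩ := Finsupp.ne_iff.1 s0
      have e : s.1 = Finsupp.single i 1 + (s.1 - Finsupp.single i 1) :=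
        (add_tsub_cancel_of_le (Finsupp.single_le_iff.2 (Nat.one_le_iff_ne_zero.2 hi))).symm
      refine ⟨(some i, ⟨s.1 - Finsupp.single i 1, ?_⟩), ?_⟩
      · have := s.2
        rw [e, Finsupp.sum_add_index' (fun _ => rfl) (fun _ _ _ => rfl),
          Finsupp.sum_single_index rfl] at this
        omega
      · conv_lhs => rw [e]
        rw [Finsupp.prod_add_index' (fun _ => pow_zero _) (fun _ _ _ => pow_add _ _ _),
          Finsupp.prod_single_index (h := fun i e => g i ^ e) (pow_zero _), pow_one]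
        rfl

/-- linear combinations with arbitrary coefficients -/
theorem GKm.lin [NumberField F] [Finite β] {I : β → Type*} (hg : GKm h g) (s : ∀ y, Finset (I y)) (c : ∀ y, I y → F)
    (f : ∀ y, I y → α) : GKm h fun y => ∑ i ∈ s y, C (c y i) * g (f y i) := by
  classical
  have := Fintype.ofFinite β
  obtain ⟨C, C0, k⟩ := hg
  obtain ⟨q, q0, hq⟩ := gf_cden (univ.biUnion fun y => (s y).image (c y))
  obtain ⟨M, hM⟩ := exists_nat_ge (∑ y, ∑ i ∈ s y, house (c y i))
  refine ⟨(M + q) * C, by positivity, fun t => ?_⟩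
  obtain ⟨h0, d, d0, d1, d2⟩ := k t
  refine ⟨fun y φ κ hκ => ?_, q * d, by positivity, ?_, fun y κ hκ => ?_⟩
  · simp only [map_sum, coeff_C_mul, map_mul]
    refine (norm_sum_le _ _).trans ((sum_le_sum fun i _ => (norm_mul_le _ _).trans (mul_le_mul
      (norm_embedding_le_house _ φ) (h0 _ φ κ hκ) (norm_nonneg _) (house_nonneg _))).trans ?_)
    rw [← sum_mul, Nat.cast_mul, mul_assoc]
    refine mul_le_mul_of_nonneg_right (((single_le_sum (f := fun y => ∑ i ∈ s y, house (c y i))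
      (fun _ _ => sum_nonneg fun _ _ => house_nonneg _) (mem_univ y)).trans hM).trans ?_)
      (by positivity)
    exact_mod_cast Nat.le_add_right _ _
  · rw [mul_assoc]
    exact Nat.mul_le_mul (Nat.le_add_left _ _) d1
  · rw [map_sum, mul_sum]
    refine IsIntegral.sum _ fun i hi => ?_
    rw [coeff_C_mul, Nat.cast_mul, mul_mul_mul_comm]
    exact (hq _ (mem_biUnion.2 ⟨y, mem_univ y, mem_image_of_mem _ hi⟩)).mul (d2 _ κ hκ)

/-- polynomials of bounded degree with arbitrary coefficients -/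
theorem GKm.poly [NumberField F] [Finite β] (hg : GKm h g) {δ : ℕ} (q : β → MvPolynomial α F)
    (hq : ∀ y, (q y).totalDegree ≤ δ) :
    GKm ((2 * h) ^ δ) fun y => MvPolynomial.aeval g (q y) := by
  have := (hg.mon δ).lin (I := fun y => (q y).support) (fun _ => univ)
    (fun y s => (q y).coeff s.1) fun y s => ⟨s.1, (MvPolynomial.le_totalDegree s.2).trans (hq y)⟩
  refine this.of fun y => ⟨y, ?_⟩
  rw [MvPolynomial.aeval_def, MvPolynomial.eval₂_eq, ← sum_coe_sort]
  rfl

theorem gk_det {ν τ S : Type*} [Fintype ν] [DecidableEq ν] [CommRing S]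
    {M : Matrix ν ν (MvPolynomial τ S)} (hM : ∀ i j, (M i j).totalDegree ≤ 1) :
    M.det.totalDegree ≤ Fintype.card ν := by
  rw [Matrix.det_apply']
  refine MvPolynomial.totalDegree_finsetSum_le fun π _ => (MvPolynomial.totalDegree_mul _ _).trans ?_
  rw [← map_intCast (MvPolynomial.C : S →+* MvPolynomial τ S), MvPolynomial.totalDegree_C, zero_add]
  exact (MvPolynomial.totalDegree_finsetProd univ _).trans
    ((sum_le_card_nsmul univ _ 1 fun l _ => hM _ _).trans (by simp))

/-- the adjoint tensor of a matrix of series, and its rows -/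
theorem GKm.adj [NumberField F] {ν : Type*} [Fintype ν] [DecidableEq ν]
    {Y : Matrix ν ν (MvPowerSeries σ F)} (hY : GKm h fun p : ν × ν => Y p.1 p.2) (δ : ℕ) :
    (GKm ((2 * h) ^ (Fintype.card ν * δ)) fun p : Mo δ ν × Mo δ ν => Adj δ Y p.1 p.2) ∧
      ∀ c : Mo δ ν → F, GKm ((2 * h) ^ (Fintype.card ν * δ)) ((fun μ => C (c μ)) ᵥ* Adj δ Y) := by
  obtain ⟨M, hM⟩ : ∃ M : Matrix ν ν (MvPolynomial (ν × ν) ℤ),
      M = Matrix.of fun i j => MvPolynomial.X (i, j) := ⟨_, rfl⟩
  have h1 : ∀ i j, (M i j).totalDegree ≤ 1 := fun i j => by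
    rw [hM, Matrix.of_apply, MvPolynomial.totalDegree_X]
  have hD : ∀ o o', (exg M.det M.adjugate o o').totalDegree ≤ Fintype.card ν := by
    rintro (_ | x) (_ | y)
    · exact gk_det h1
    · exact Nat.zero_le _
    · exact Nat.zero_le _
    · change (if x.2 = y.2 then M.adjugate x.1 y.1 else 0).totalDegree ≤ _
      split_ifs
      · rw [Matrix.adjugate_apply]
        refine gk_det fun i j => ?_
        rw [Matrix.updateRow_apply, Pi.single_apply]
        split_ifs
        exacts [by simp, by simp, h1 i j]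
      · exact Nat.zero_le _
  have hq : ∀ p : Mo δ ν × Mo δ ν, (Adj δ M p.1 p.2).totalDegree ≤ Fintype.card ν * δ := fun p =>
    (MvPolynomial.totalDegree_finsetProd univ _).trans ((sum_le_card_nsmul univ _ _ fun l _ =>
      hD (p.1 l) (p.2 l)).trans (by simp [mul_comm]))
  have k1 := hY.poly (fun p : Mo δ ν × Mo δ ν => MvPolynomial.map (algebraMap ℤ F) (Adj δ M p.1 p.2))
    fun p => (sup_mono (MvPolynomial.support_map_subset _ _)).trans (hq p)
  have k2 : GKm ((2 * h) ^ (Fintype.card ν * δ)) fun p : Mo δ ν × Mo δ ν => Adj δ Y p.1 p.2 := by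
    refine k1.of fun p => ⟨p, ?_⟩
    have := congrFun₂ (gf_adj_map (MvPolynomial.aeval (R := ℤ)
      fun p : ν × ν => Y p.1 p.2).toRingHom δ M) p.1 p.2
    rw [MvPolynomial.aeval_map_algebraMap]
    refine Eq.trans ?_ this.symm
    congr 1
    ext1 i j
    simp [hM]
  exact ⟨k2, fun c => k2.lin (I := fun _ => Mo δ ν) (fun _ => univ) (fun _ => c)
    fun μ η => (η, μ)⟩

end

end Pool.Agent.Lib.MP_5591bc_ag.M
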