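import Pool.Agent.Lib.MP_5591bc_ag.M.Tay
import Pool.Agent.Lib.MP_5591bc_ag.V.Rep

/-! From the linear form of the degree property to the degree property. -/

namespace Pool.Agent.Lib.MP_5591bc_ag.M

open Matrix Filter Topology MvPowerSeries G R W Metric

noncomputable section

section aux
variable {σ : Type*} [Fintype σ] {K : Type*} [Field K] [Algebra K ℂ] {U : Set (σ → ℂ)}

/-- the identity theorem -/
theorem goodV_id (hc : IsPreconnected U) {g : (σ → ℂ) → ℂ} (hg : ∀ t ∈ U, AnalyticAt ℂ g t)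
    {s : σ → ℂ} (hs : s ∈ U) (h : ∀ᶠ t in 𝓝 s, g t = 0) : ∀ t ∈ U, g t = 0 :=
  AnalyticOnNhd.eqOn_zero_of_preconnected_of_eventuallyEq_zero hg hc hs h

theorem goodV_ana {ν : Type*} {P : (σ → ℂ) → Matrix ν ν ℂ} {t : σ → ℂ}
    (hP : ∀ i j, AnalyticAt ℂ (fun z => P z i j) t) (H : MvPolynomial (σ ⊕ ν × ν) K) :
    AnalyticAt ℂ (fun z => MvPolynomial.aeval (Sum.elim z fun a => P z a.1 a.2) H) t := by
  induction H using MvPolynomial.induction_on with
  | C a => simpa using analyticAt_const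
  | add p q hp hq => simpa using hp.fun_add hq
  | mul_X p i hp =>
    simp only [map_mul, MvPolynomial.aeval_X]
    rcases i with i | i
    exacts [hp.fun_mul ((ContinuousLinearMap.proj (R := ℂ) (φ := fun _ : σ => ℂ) i).analyticAt t),
      hp.fun_mul (hP i.1 i.2)]

theorem goodV_van {ν : Type*} {P : (σ → ℂ) → Matrix ν ν ℂ} (hc : IsPreconnected U)
    (hP : ∀ i j, AnalyticOnNhd ℂ (fun t => P t i j) U) (H : MvPolynomial (σ ⊕ ν × ν) K)
    {s : σ → ℂ} (hs : s ∈ U)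
    (h : ∀ᶠ t in 𝓝 s, MvPolynomial.aeval (Sum.elim t fun a => P t a.1 a.2) H = 0) :
    ∀ t ∈ U, MvPolynomial.aeval (Sum.elim t fun a => P t a.1 a.2) H = 0 :=
  goodV_id hc (fun t ht => goodV_ana (fun i j => hP i j t ht) H) hs h

/-- relations pass to all analytic continuations -/
theorem goodV_cont {ν : Type*} {P : (σ → ℂ) → Matrix ν ν ℂ} (ho : IsOpen U)
    (H : MvPolynomial (σ ⊕ ν × ν) K)
    (h : ∀ t ∈ U, MvPolynomial.aeval (Sum.elim t fun a => P t a.1 a.2) H = 0) {U' : Set (σ → ℂ)}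
    {P' : (σ → ℂ) → Matrix ν ν ℂ} (hU : ContM U P U' P') :
    IsOpen U' ∧ ∀ t ∈ U', MvPolynomial.aeval (Sum.elim t fun a => P' t a.1 a.2) H = 0 := by
  induction hU with
  | base => exact ⟨ho, h⟩
  | step U1 U2 P1 P2 s' _ o2 c2 d2 s1 s2 e ih =>
    refine ⟨o2, goodV_van c2 d2 H s2 ?_⟩
    filter_upwards [e, ih.1.mem_nhds s1] with t h3 h4
    rw [← h3]
    exact ih.2 t h4

end aux

theorem goodV_of {σ K ν : Type*} [Fintype σ] [DecidableEq σ] [Field K] [Algebra K ℂ] [Fintype ν]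
    [DecidableEq ν] {U : Set (σ → ℂ)} {P : (σ → ℂ) → Matrix ν ν ℂ} (ho : IsOpen U) {δ : ℕ}
    {x : σ → K} (h : ∀ F : Mo δ ν → K,
      (fun μ => algebraMap K ℂ (F μ)) ⬝ᵥ mono δ (P (pc x)) = 0 → LGM U P δ x F) :
    GoodV U P δ x := by
  intro F hF hF0
  obtain ⟨c, rfl⟩ := V.rep hF
  obtain ⟨g, g1, g2⟩ := h c ((V.rep_eval c (algebraMap K ℂ) _).symm.trans hF0)
  refine ⟨∑ μ, MvPolynomial.rename Sum.inl (g μ) *
    ∏ l, (μ l).elim 1 fun y => MvPolynomial.X (Sum.inr y), fun U' P' hU => ?_, ?_⟩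
  · generalize hH : (∑ μ, MvPolynomial.rename Sum.inl (g μ) *
      ∏ l, (μ l).elim 1 fun y => MvPolynomial.X (Sum.inr y) : MvPolynomial (σ ⊕ ν × ν) K) = H
    have hp : ∀ (t : σ → ℂ) (Y : Matrix ν ν ℂ),
        MvPolynomial.aeval (Sum.elim t fun a => Y a.1 a.2) H =
          (fun μ => MvPolynomial.aeval t (g μ)) ⬝ᵥ mono δ Y := fun t Y => by
      rw [← hH, map_sum]
      refine Finset.sum_congr rfl fun μ _ => ?_
      rw [map_mul, MvPolynomial.aeval_rename, map_prod]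
      exact congrArg₂ _ rfl (Finset.prod_congr rfl fun l _ => by cases e : μ l <;> simp [hatg])
    exact (goodV_cont ho H (fun t ht => (hp t _).trans (g2 t ht)) hU).2
  · rw [map_sum]
    refine Finset.sum_congr rfl fun μ _ => ?_
    rw [map_mul, MvPolynomial.aeval_rename, map_prod]
    refine congrArg₂ _ ?_ (Finset.prod_congr rfl fun l _ => by cases e : μ l <;> simp [hatg])
    beta_reduce
    rw [← g1, Sum.elim_comp_inl]
    exact MvPolynomial.aeval_algebraMap_apply (MvPolynomial (ν × ν) K) x (g μ)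

end

end Pool.Agent.Lib.MP_5591bc_ag.M
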