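import Pool.Agent.Lib.MP_5591bc_ag.M.CovA

/-! The cover adapted to a hyperplane arrangement. -/

namespace Pool.Agent.Lib.MP_5591bc_ag.M

open Finset MvPolynomial

variable {σ : Type*} [Fintype σ]

theorem cvb_pow (p : MvPolynomial σ ℂ) : ∃ c : ℕ, ∀ Λ : ℕ, 0 < Λ → ∀ x : σ → ℂ, ‖x‖ ≤ 2 ^ Λ →
    ‖eval x p‖ < 2 ^ (c * Λ) := by
  obtain ⟨A, A1, h⟩ := cva_poly p
  obtain ⟨u, hu⟩ := pow_unbounded_of_one_lt A (one_lt_two (α := ℝ))
  refine ⟨u + p.totalDegree, fun Λ Λ0 x hx =>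
    (h _ (one_le_pow₀ one_le_two) x x hx hx).1.trans_lt ?_⟩
  calc A * (2 ^ Λ) ^ p.totalDegree < 2 ^ u * (2 ^ Λ) ^ p.totalDegree := by gcongr
    _ = 2 ^ (u + p.totalDegree * Λ) := by rw [← pow_mul, ← pow_add, mul_comm]
    _ ≤ _ := pow_le_pow_right₀ one_le_two (by nlinarith)

/-- from the value of a polynomial to the distance from its zeros -/
theorem cvb_dist (p : MvPolynomial σ ℂ) {ε : ℝ} (ε0 : 0 < ε) : ∃ η : ℝ, 0 < η ∧ ∀ x : σ → ℂ,
    ε * (1 + ‖x‖) ^ p.totalDegree ≤ ‖eval x p‖ → ∀ z, eval z p = 0 → η * (1 + ‖x‖) ≤ ‖x - z‖ := by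
  obtain ⟨A, A1, h⟩ := cva_poly p
  set n := p.totalDegree
  refine ⟨min 1 (ε / (A * 2 ^ n)), by positivity, fun x hx z hz => ?_⟩
  have x0 := norm_nonneg x
  rcases le_total (1 + ‖x‖) ‖x - z‖ with h1 | h1
  · exact (mul_le_of_le_one_left (by positivity) (min_le_left _ _)).trans h1
  have hz' : ‖z‖ ≤ 2 * (1 + ‖x‖) := by
    have := norm_sub_le x (x - z)
    rw [sub_sub_cancel] at this
    linarith
  have k := (h (2 * (1 + ‖x‖)) (by linarith) x z (by linarith) hz').2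
  rw [hz, sub_zero, mul_pow] at k
  refine (mul_le_mul_of_nonneg_right (min_le_right _ _) (by positivity)).trans ?_
  rw [div_mul_eq_mul_div, div_le_iff₀ (by positivity)]
  have p0 : 0 < (1 + ‖x‖) ^ n := by positivity
  refine le_of_mul_le_mul_right ?_ p0
  nlinarith [mul_le_mul_of_nonneg_right hx (show 0 ≤ 1 + ‖x‖ by positivity),
    mul_nonneg (norm_nonneg (eval x p)) (show 0 ≤ 1 + ‖x‖ by positivity)]

/-- polylogarithmically many cells, the points of a cell see each other -/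
theorem cvb_main {ι : Type*} [Fintype ι] (T0 : MvPolynomial σ ℂ) (l : ι → MvPolynomial σ ℂ)
    (hl : ∀ i, (l i).totalDegree ≤ 1) {ε : ℝ} (ε0 : 0 < ε) : ∃ c : ℕ, 0 < c ∧ ∀ Λ : ℕ, 0 < Λ →
    ∀ S : Set (σ → ℂ), (∀ x ∈ S, ‖x‖ ≤ 2 ^ Λ ∧ (∀ z, eval z T0 = 0 → ε * (1 + ‖x‖) ≤ ‖x - z‖) ∧
      (2 ^ Λ)⁻¹ ≤ ‖eval x (T0 * ∏ i, l i)‖) →
    ∃ (t : Finset (ι ⊕ σ → ℕ × ℤ × ℤ)) (e : (σ → ℂ) → ι ⊕ σ → ℕ × ℤ × ℤ),
      t.card ≤ (c * Λ) ^ (Fintype.card ι + Fintype.card σ) ∧ (∀ x ∈ S, e x ∈ t) ∧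
      ∀ x, ∀ s ∈ S, e x = e s → ∀ y, ‖y - x‖ ≤ (2 ^ (c * Λ))⁻¹ → ∀ u : ℂ, ‖u‖ ≤ 17 →
        eval (s + u • (y - s)) (T0 * ∏ i, l i) ≠ 0 := by
  classical
  choose L hL using fun i => cva_aff (hl i)
  choose a ha using fun i => cvb_pow (l i)
  choose b hb using fun i => cvb_pow (T0 * ∏ j ∈ univ.erase i, l j)
  obtain ⟨m, hm⟩ := exists_nat_gt (max 34 (34 / ε))
  have m1 : (34 : ℝ) < m := (le_max_left _ _).trans_lt hm
  have m2 : 34 < m * ε := (div_lt_iff₀ ε0).1 ((le_max_right _ _).trans_lt hm)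
  have m0 : 0 < m := by exact_mod_cast (by linarith : (0 : ℝ) < m)
  obtain ⟨w, hw⟩ := pow_unbounded_of_one_lt (m * (1 + ∑ i, ‖L i‖)) (one_lt_two (α := ℝ))
  obtain ⟨c1, hc1⟩ : ∃ c1, c1 = univ.sup a + univ.sup b + 2 := ⟨_, rfl⟩
  refine ⟨2 * c1 * (8 * m + 1) ^ 2 + (c1 + w), by rw [hc1]; positivity, fun Λ Λ0 S hS => ?_⟩
  have lo : ∀ x ∈ S, ∀ i, (2 ^ (c1 * Λ))⁻¹ ≤ ‖eval x (l i)‖ := fun x hx i => by
    obtain ⟨h1, -, h3⟩ := hS x hx
    rw [← mul_prod_erase univ l (mem_univ i), mul_left_comm, map_mul, norm_mul] at h3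
    have h4 : (2 : ℝ) ^ Λ * 2 ^ (b i * Λ) ≤ 2 ^ (c1 * Λ) := by
      rw [← pow_add]
      refine pow_le_pow_right₀ one_le_two ?_
      have := le_sup (f := b) (mem_univ i)
      rw [hc1]; nlinarith [Nat.zero_le (univ.sup a * Λ)]
    rw [inv_le_iff_one_le_mul₀' (by positivity)] at h3 ⊢
    calc 1 ≤ _ := h3
      _ ≤ 2 ^ Λ * (‖eval x (l i)‖ * 2 ^ (b i * Λ)) := by gcongr; exact (hb i Λ Λ0 x h1).le
      _ = 2 ^ Λ * 2 ^ (b i * Λ) * ‖eval x (l i)‖ := by ring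
      _ ≤ _ := by gcongr
  have e0 : (2 : ℝ) ^ (2 * c1 * Λ) * (2 ^ (c1 * Λ))⁻¹ = 2 ^ (c1 * Λ) := by
    rw [mul_assoc, two_mul, pow_add, mul_inv_cancel_right₀ (by positivity)]
  obtain ⟨t, e, h1, h2, h3⟩ := cva_pi (S := S) (ι := ι ⊕ σ)
    (Sum.elim (fun i x => eval x (l i)) fun j x => x j)
    (Sum.elim (fun i x => ‖eval x (l i)‖) fun _ x => 1 + ‖x‖) (lo := (2 ^ (c1 * Λ))⁻¹)
    (by positivity) m0 (2 * c1 * Λ) (by
      rintro x hx (i | j)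
      · refine ⟨lo x hx i, ?_, le_rfl⟩
        rw [e0]
        refine (ha i Λ Λ0 x (hS x hx).1).trans_le (pow_le_pow_right₀ one_le_two ?_)
        exact Nat.mul_le_mul_right _ ((le_sup (f := a) (mem_univ i)).trans (by omega))
      · refine ⟨(inv_le_one_of_one_le₀ (one_le_pow₀ one_le_two)).trans
          (le_add_of_nonneg_right (norm_nonneg x)), ?_,
          (norm_le_pi_norm x j).trans (le_add_of_nonneg_left zero_le_one)⟩
        rw [e0]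
        have k1 : (2 : ℝ) ^ (Λ + 1) ≤ 2 ^ (c1 * Λ) := pow_le_pow_right₀ one_le_two (by
          rw [hc1]; nlinarith [Nat.zero_le (univ.sup a * Λ), Nat.zero_le (univ.sup b * Λ)])
        have k2 : (1 : ℝ) < 2 ^ Λ := one_lt_pow₀ one_lt_two Λ0.ne'
        rw [pow_succ] at k1
        change 1 + ‖x‖ < _
        linarith [(hS x hx).1])
  refine ⟨t, e, h1.trans ?_, h2, fun x s hs he y hy u hu => ?_⟩
  · rw [Fintype.card_sum]
    exact Nat.pow_le_pow_left (by nlinarith [Nat.zero_le ((c1 + w) * Λ)]) _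
  have mp : (0 : ℝ) < m := by linarith
  have L0 : 0 ≤ ∑ i, ‖L i‖ := sum_nonneg fun _ _ => norm_nonneg _
  have hρ : ‖y - x‖ * (m * (1 + ∑ i, ‖L i‖)) ≤ (2 ^ (c1 * Λ))⁻¹ := by
    refine (mul_le_mul hy hw.le (by positivity) (by positivity)).trans ?_
    rw [inv_mul_le_iff₀ (by positivity), le_mul_inv_iff₀ (by positivity), ← pow_add]
    exact pow_le_pow_right₀ one_le_two
      (by nlinarith [Nat.zero_le (2 * c1 * (8 * m + 1) ^ 2 * Λ)])
  have y0 := norm_nonneg (y - x)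
  have s0 := norm_nonneg s
  rw [map_mul, map_prod]
  refine mul_ne_zero (fun h => ?_) (prod_ne_zero_iff.2 fun i _ h => ?_)
  · have k1 := (hS s hs).2.1 _ h
    rw [sub_add_cancel_left, norm_neg, norm_smul] at k1
    have k2 : ‖x - s‖ < (1 + ‖s‖) / m :=
      (pi_norm_lt_iff (by positivity)).2 fun j => h3 x s hs he (.inr j)
    have k3 : ‖y - s‖ ≤ ‖y - x‖ + ‖x - s‖ := norm_sub_le_norm_sub_add_norm_sub y x s
    have k4 : ‖y - x‖ * m ≤ 1 := by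
      have := hρ.trans (inv_le_one_of_one_le₀ (one_le_pow₀ one_le_two))
      nlinarith [mul_nonneg (mul_nonneg y0 mp.le) L0]
    rw [lt_div_iff₀ mp] at k2
    have k5 : ‖u‖ * ‖y - s‖ ≤ 17 * (‖y - x‖ + ‖x - s‖) := by gcongr
    nlinarith [mul_le_mul_of_nonneg_right (k1.trans k5) mp.le]
  · have k1 : ‖eval x (l i) - eval s (l i)‖ < ‖eval s (l i)‖ / m := h3 x s hs he (.inl i)
    have k2 : eval x (l i) - eval s (l i) = L i (x - s) := by
      rw [sub_eq_iff_eq_add', ← hL, add_sub_cancel]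
    have k3 : eval s (l i) = -(u * (L i (y - x) + L i (x - s))) := by
      rw [hL, map_smul, smul_eq_mul] at h
      rw [← map_add, sub_add_sub_cancel]
      linear_combination h
    have k4 : ‖L i (y - x)‖ * m ≤ ‖eval s (l i)‖ := by
      refine le_trans ?_ (hρ.trans (lo s hs i))
      have := (L i).le_opNorm (y - x)
      have k : ‖L i‖ ≤ ∑ i, ‖L i‖ :=
        single_le_sum (f := fun i => ‖L i‖) (fun _ _ => norm_nonneg _) (mem_univ i)
      nlinarith [mul_le_mul_of_nonneg_right this mp.le, mul_nonneg y0 mp.le,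
        mul_le_mul_of_nonneg_left k (mul_nonneg y0 mp.le)]
    rw [k2, lt_div_iff₀ mp] at k1
    have k5 : ‖eval s (l i)‖ ≤ 17 * (‖L i (y - x)‖ + ‖L i (x - s)‖) := by
      conv_lhs => rw [k3, norm_neg, norm_mul]
      exact mul_le_mul hu (norm_add_le _ _) (norm_nonneg _) (by norm_num)
    nlinarith [mul_le_mul_of_nonneg_right k5 mp.le, norm_nonneg (eval s (l i))]

end Pool.Agent.Lib.MP_5591bc_ag.M
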