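import Pool.Agent.Lib.MP_5591bc_ag.M.Set

/-! Taylor series of analytic germs in several variables, and restriction to lines. -/

namespace Pool.Agent.Lib.MP_5591bc_ag.M

open Filter Topology G

set_option linter.unusedSectionVars false

noncomputable section

variable {σ : Type*} [Fintype σ] [DecidableEq σ]

/-- The partial derivative in the direction `l`. -/
def pd (l : σ) (g : (σ → ℂ) → ℂ) : (σ → ℂ) → ℂ := fun z => fderiv ℂ g z (Pi.single l 1)

/-- Iterated partial derivative along a word; the last letter acts first. -/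
def dw (w : List σ) (g : (σ → ℂ) → ℂ) : (σ → ℂ) → ℂ := w.foldr pd g

/-- The Taylor series of `g` at `p`. -/
def tayS (g : (σ → ℂ) → ℂ) (p : σ → ℂ) : MvPowerSeries σ ℂ :=
  fun κ => dw κ.toMultiset.toList g p / ∏ l, ((κ l).factorial : ℂ)

variable {g h : (σ → ℂ) → ℂ} {p : σ → ℂ}

lemma pd_ana (hg : AnalyticAt ℂ g p) (l : σ) : AnalyticAt ℂ (pd l g) p :=
  ((ContinuousLinearMap.apply ℂ ℂ (Pi.single l (1 : ℂ) : σ → ℂ)).analyticAt _).comp hg.fderiv

lemma dw_ana (hg : AnalyticAt ℂ g p) (w : List σ) : AnalyticAt ℂ (dw w g) p := by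
  induction w with
  | nil => exact hg
  | cons l w ih => exact pd_ana ih l

lemma pd_congr (e : g =ᶠ[𝓝 p] h) (l : σ) : pd l g =ᶠ[𝓝 p] pd l h := by
  filter_upwards [e.fderiv (𝕜 := ℂ)] with z hz
  simp only [pd, hz]

lemma dw_congr (e : g =ᶠ[𝓝 p] h) (w : List σ) : dw w g =ᶠ[𝓝 p] dw w h := by
  induction w with
  | nil => exact e
  | cons l w ih => exact pd_congr ih l

lemma pd_pd (hg : AnalyticAt ℂ g p) (l m : σ) :
    pd l (pd m g) p = fderiv ℂ (fderiv ℂ g) p (Pi.single l 1) (Pi.single m 1) := by
  have := ((ContinuousLinearMap.apply ℂ ℂ (Pi.single m (1 : ℂ) : σ → ℂ)).hasFDerivAt.comp p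
    hg.fderiv.differentiableAt.hasFDerivAt).fderiv
  exact congrArg (fun L => L (Pi.single l 1)) this

lemma pd_comm (hg : AnalyticAt ℂ g p) (l m : σ) : pd l (pd m g) =ᶠ[𝓝 p] pd m (pd l g) := by
  filter_upwards [hg.eventually_analyticAt] with z hz
  rw [pd_pd hz, pd_pd hz]
  exact hz.contDiffAt.isSymmSndFDerivAt_of_omega _ _

lemma dw_perm (hg : AnalyticAt ℂ g p) {w w' : List σ} (hw : w.Perm w') :
    dw w g =ᶠ[𝓝 p] dw w' g := by
  induction hw with
  | nil => rfl
  | cons l _ ih => exact pd_congr ih l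
  | swap l m w => exact pd_comm (dw_ana hg w) m l
  | trans _ _ ih1 ih2 => exact ih1.trans ih2

lemma coeff_tayS (κ : σ →₀ ℕ) : MvPowerSeries.coeff κ (tayS g p) =
    dw κ.toMultiset.toList g p / ∏ l, ((κ l).factorial : ℂ) := rfl

/-- The coefficient through any word with the right letters. -/
lemma coeff_tayS_word (hg : AnalyticAt ℂ g p) (w : List σ) (κ : σ →₀ ℕ)
    (hw : ∀ l, w.count l = κ l) : MvPowerSeries.coeff κ (tayS g p) =
    dw w g p / ∏ l, ((κ l).factorial : ℂ) := by
  have : κ.toMultiset.toList.Perm w := by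
    rw [List.perm_iff_count]
    intro l
    rw [hw, ← Multiset.coe_count, Multiset.coe_toList, Finsupp.count_toMultiset]
  rw [coeff_tayS, (dw_perm hg this).eq_of_nhds]

@[simp] lemma constantCoeff_tayS : MvPowerSeries.constantCoeff (tayS g p) = g p := by
  rw [← MvPowerSeries.coeff_zero_eq_constantCoeff_apply, coeff_tayS]
  simp [dw]

@[simp] lemma coeff_zero_tayS : MvPowerSeries.coeff 0 (tayS g p) = g p := by
  rw [MvPowerSeries.coeff_zero_eq_constantCoeff_apply, constantCoeff_tayS]

lemma tayS_congr (e : g =ᶠ[𝓝 p] h) : tayS g p = tayS h p := by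
  ext κ; rw [coeff_tayS, coeff_tayS, (dw_congr e _).eq_of_nhds]

lemma tayS_pd (hg : AnalyticAt ℂ g p) (l : σ) :
    tayS (pd l g) p = MvPowerSeries.pderiv ℂ l (tayS g p) := by
  ext κ
  rw [MvPowerSeries.coeff_pderiv, coeff_tayS,
    coeff_tayS_word hg (κ.toMultiset.toList ++ [l]) (κ + Finsupp.single l 1)]
  · have e : ∏ m, (((κ + Finsupp.single l 1 : σ →₀ ℕ) m).factorial : ℂ) =
        (κ l + 1) * ∏ m, ((κ m).factorial : ℂ) := by
      rw [← Finset.mul_prod_erase _ _ (Finset.mem_univ l),
        ← Finset.mul_prod_erase _ (fun m => ((κ m).factorial : ℂ)) (Finset.mem_univ l),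
        Finset.prod_congr rfl (g := fun m => ((κ m).factorial : ℂ)) fun m hm => by
          simp [(Finset.ne_of_mem_erase hm).symm]]
      simp [Nat.factorial_succ, mul_assoc]
    have h1 : ∏ m, ((κ m).factorial : ℂ) ≠ 0 :=
      Finset.prod_ne_zero_iff.2 fun m _ => by exact_mod_cast (κ m).factorial_ne_zero
    have h2 : ((κ l : ℂ) + 1) ≠ 0 := by exact_mod_cast (κ l).succ_ne_zero
    rw [e]
    simp only [dw, List.foldr_append, List.foldr_cons, List.foldr_nil]
    field_simp
  · intro m
    rw [List.count_append, ← Multiset.coe_count, Multiset.coe_toList, Finsupp.count_toMultiset]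
    simp [Finsupp.single_apply, List.count_singleton]

omit [DecidableEq σ] in
/-- Induction over multi-indices, one letter at a time. -/
lemma idx_ind {P : (σ →₀ ℕ) → Prop} (h0 : P 0) (hs : ∀ κ l, P κ → P (κ + Finsupp.single l 1))
    (κ : σ →₀ ℕ) : P κ := by
  classical
  induction hn : ∑ l, κ l generalizing κ with
  | zero =>
    have : κ = 0 := Finsupp.ext fun l => (Finset.sum_eq_zero_iff.1 hn) l (Finset.mem_univ l)
    rwa [this]
  | succ n ih =>
    obtain ⟨l, -, hl⟩ := Finset.exists_ne_zero_of_sum_ne_zero (s := Finset.univ)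
      (f := fun l => κ l) (by omega)
    have le : Finsupp.single l 1 ≤ κ := Finsupp.single_le_iff.2 (by omega)
    have e := tsub_add_cancel_of_le le
    rw [← e]
    refine hs _ _ (ih _ ?_)
    have := congrArg (fun κ : σ →₀ ℕ => ∑ m, κ m) e
    simp only [Finsupp.add_apply, Finset.sum_add_distrib, Finsupp.single_apply,
      Finset.sum_ite_eq, Finset.mem_univ, if_true] at this
    omega

omit [Fintype σ] [DecidableEq σ] in
lemma coeff_succ_eq {A B : MvPowerSeries σ ℂ} {κ : σ →₀ ℕ} {l : σ}
    (e : MvPowerSeries.coeff κ (MvPowerSeries.pderiv ℂ l A) =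
      MvPowerSeries.coeff κ (MvPowerSeries.pderiv ℂ l B)) :
    MvPowerSeries.coeff (κ + Finsupp.single l 1) A =
      MvPowerSeries.coeff (κ + Finsupp.single l 1) B := by
  rw [MvPowerSeries.coeff_pderiv, MvPowerSeries.coeff_pderiv] at e
  exact mul_right_cancel₀ (by exact_mod_cast (κ l).succ_ne_zero) e

lemma pd_add (hg : AnalyticAt ℂ g p) (hh : AnalyticAt ℂ h p) (l : σ) :
    pd l (fun t => g t + h t) =ᶠ[𝓝 p] fun t => pd l g t + pd l h t := by
  filter_upwards [hg.eventually_analyticAt, hh.eventually_analyticAt] with z h1 h2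
  simp only [pd]
  rw [fderiv_fun_add h1.differentiableAt h2.differentiableAt]; rfl

lemma pd_mul (hg : AnalyticAt ℂ g p) (hh : AnalyticAt ℂ h p) (l : σ) :
    pd l (fun t => g t * h t) =ᶠ[𝓝 p] fun t => g t * pd l h t + h t * pd l g t := by
  filter_upwards [hg.eventually_analyticAt, hh.eventually_analyticAt] with z h1 h2
  simp only [pd]
  rw [fderiv_fun_mul h1.differentiableAt h2.differentiableAt]; rfl

lemma pd_const (c : ℂ) (l : σ) : pd l (fun _ => c) = fun _ => 0 := by
  ext z; simp [pd]

lemma pd_coord (m l : σ) : pd l (fun z => z m) = fun _ => if m = l then 1 else 0 := by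
  ext z
  have := (ContinuousLinearMap.proj (R := ℂ) (φ := fun _ : σ => ℂ) m).fderiv (x := z)
  have e := congrArg (fun L => L (Pi.single l 1)) this
  simp only [ContinuousLinearMap.proj_apply, Pi.single_apply] at e
  exact e

lemma tayS_add (hg : AnalyticAt ℂ g p) (hh : AnalyticAt ℂ h p) :
    tayS (fun t => g t + h t) p = tayS g p + tayS h p := by
  ext κ
  induction κ using idx_ind generalizing g h with
  | h0 => simp
  | hs κ l ih =>
    apply coeff_succ_eq
    rw [← tayS_pd (hg.fun_add hh), tayS_congr (pd_add hg hh l), ih (pd_ana hg l) (pd_ana hh l),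
      tayS_pd hg, tayS_pd hh, map_add (MvPowerSeries.pderiv ℂ l)]

lemma tayS_mul (hg : AnalyticAt ℂ g p) (hh : AnalyticAt ℂ h p) :
    tayS (fun t => g t * h t) p = tayS g p * tayS h p := by
  ext κ
  induction κ using idx_ind generalizing g h with
  | h0 => simp
  | hs κ l ih =>
    apply coeff_succ_eq
    rw [← tayS_pd (hg.fun_mul hh), tayS_congr (pd_mul hg hh l),
      tayS_add (hg.fun_mul (pd_ana hh l)) (hh.fun_mul (pd_ana hg l)), map_add,
      ih hg (pd_ana hh l), ih hh (pd_ana hg l), tayS_pd hg, tayS_pd hh, Derivation.leibniz,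
      map_add, smul_eq_mul, smul_eq_mul]

lemma tayS_zero : tayS (fun _ => 0) p = (0 : MvPowerSeries σ ℂ) := by
  have := tayS_add (p := p) (g := fun _ => 0) (h := fun _ => 0) analyticAt_const analyticAt_const
  simpa using this

lemma tayS_const (c : ℂ) : tayS (fun _ => c) p = (MvPowerSeries.C c : MvPowerSeries σ ℂ) := by
  apply MvPowerSeries.pderiv.ext
  · intro l
    rw [← tayS_pd analyticAt_const, pd_const, tayS_zero, MvPowerSeries.pderiv_C]
  · simp

lemma coord_ana (m : σ) : AnalyticAt ℂ (fun z : σ → ℂ => z m) p :=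
  (ContinuousLinearMap.proj (R := ℂ) (φ := fun _ : σ => ℂ) m).analyticAt p

lemma tayS_coord (m : σ) :
    tayS (fun z => z m) p = MvPowerSeries.X m + MvPowerSeries.C (p m) := by
  apply MvPowerSeries.pderiv.ext
  · intro l
    rw [← tayS_pd (coord_ana m), pd_coord, tayS_const, map_add, MvPowerSeries.pderiv_C, add_zero]
    split_ifs with hm
    · subst hm; simp
    · simp [hm]
  · simp

lemma tayS_sum {ι : Type*} (s : Finset ι) {G : ι → (σ → ℂ) → ℂ}
    (hG : ∀ i ∈ s, AnalyticAt ℂ (G i) p) :
    tayS (fun t => ∑ i ∈ s, G i t) p = ∑ i ∈ s, tayS (G i) p := by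
  classical
  induction s using Finset.induction_on with
  | empty => simpa using tayS_zero (p := p)
  | insert a s ha ih =>
    simp only [Finset.sum_insert ha]
    rw [tayS_add (hG a (by simp)) (Finset.analyticAt_fun_sum s fun i hi => hG i (by simp [hi])),
      ih fun i hi => hG i (by simp [hi])]

lemma tayS_prod {ι : Type*} (s : Finset ι) {G : ι → (σ → ℂ) → ℂ}
    (hG : ∀ i ∈ s, AnalyticAt ℂ (G i) p) :
    tayS (fun t => ∏ i ∈ s, G i t) p = ∏ i ∈ s, tayS (G i) p := by
  classical
  induction s using Finset.induction_on with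
  | empty => simpa using tayS_const (p := p) 1
  | insert a s ha ih =>
    simp only [Finset.prod_insert ha]
    rw [tayS_mul (hG a (by simp)) (Finset.analyticAt_fun_prod s fun i hi => hG i (by simp [hi])),
      ih fun i hi => hG i (by simp [hi])]

lemma tayS_pow (hg : AnalyticAt ℂ g p) (n : ℕ) :
    tayS (fun t => g t ^ n) p = tayS g p ^ n := by
  have := tayS_prod (p := p) (Finset.range n) (G := fun _ => g) fun _ _ => hg
  simpa using this

lemma tayS_cmul (hg : AnalyticAt ℂ g p) (c : ℂ) :
    tayS (fun t => c * g t) p = MvPowerSeries.C c * tayS g p := by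
  rw [tayS_mul analyticAt_const hg, tayS_const]

lemma tayS_sub (hg : AnalyticAt ℂ g p) (hh : AnalyticAt ℂ h p) :
    tayS (fun t => g t - h t) p = tayS g p - tayS h p := by
  have := tayS_add (hg.fun_sub hh) hh
  simp only [sub_add_cancel] at this
  rw [eq_sub_iff_add_eq, ← this]

omit [DecidableEq σ] in
lemma aeval_ana {K : Type*} [CommSemiring K] [Algebra K ℂ] (q : MvPolynomial σ K) :
    AnalyticAt ℂ (fun z : σ → ℂ => MvPolynomial.aeval z q) p := by
  classical
  induction q using MvPolynomial.induction_on with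
  | C a => simpa using analyticAt_const
  | add a b ha hb => simpa using ha.fun_add hb
  | mul_X a m ha => simpa using ha.fun_mul (coord_ana m)

/-- The Taylor series of a polynomial is the shifted polynomial. -/
lemma tayS_aeval {K : Type*} [CommSemiring K] [Algebra K ℂ] (q : MvPolynomial σ K) :
    tayS (fun z => MvPolynomial.aeval z q) p = MvPolynomial.aeval
      (fun m => (MvPowerSeries.X m + MvPowerSeries.C (p m) : MvPowerSeries σ ℂ)) q := by
  induction q using MvPolynomial.induction_on with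
  | C a => simp only [MvPolynomial.aeval_C]; rw [tayS_const, MvPowerSeries.algebraMap_apply]
  | add a b ha hb => simp only [map_add]; rw [tayS_add (aeval_ana a) (aeval_ana b), ha, hb]
  | mul_X a m ha =>
    simp only [map_mul, MvPolynomial.aeval_X]
    rw [tayS_mul (aeval_ana a) (coord_ana m), ha, tayS_coord]

/-- The homogeneous part of degree `n`, as a polynomial. -/
def homP {R : Type*} [CommSemiring R] (n : ℕ) (F : MvPowerSeries σ R) : MvPolynomial σ R :=
  ∑ κ ∈ Finset.finsuppAntidiag Finset.univ n,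
    MvPolynomial.monomial κ (MvPowerSeries.coeff κ F)

section
variable {R : Type*} [CommRing R]

lemma coeff_homP (n : ℕ) (F : MvPowerSeries σ R) (κ : σ →₀ ℕ) :
    MvPolynomial.coeff κ (homP n F) = if ∑ l, κ l = n then MvPowerSeries.coeff κ F else 0 := by
  simp [homP, MvPolynomial.coeff_sum, MvPolynomial.coeff_monomial]

lemma homP_hom (n : ℕ) (F : MvPowerSeries σ R) : (homP n F).IsHomogeneous n := by
  refine MvPolynomial.IsHomogeneous.sum _ _ _ fun κ hκ => MvPolynomial.isHomogeneous_monomial _ ?_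
  rw [Finsupp.degree_eq_sum]
  exact (Finset.mem_finsuppAntidiag.1 hκ).1

lemma pderiv_homP (n : ℕ) (F : MvPowerSeries σ R) (l : σ) :
    MvPolynomial.pderiv l (homP (n + 1) F) = homP n (MvPowerSeries.pderiv R l F) := by
  ext κ
  rw [MvPolynomial.coeff_pderiv, coeff_homP, coeff_homP, MvPowerSeries.coeff_pderiv]
  simp [Finset.sum_add_distrib, Finsupp.single_apply]

lemma coeff_dir_sum (v : σ → R) (F : MvPowerSeries σ R) (n : ℕ) :
    PowerSeries.coeff n (dir v F) = ∑ κ ∈ Finset.finsuppAntidiag Finset.univ n,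
      MvPowerSeries.coeff κ F * ∏ l, v l ^ κ l := by
  change MvPowerSeries.coeff (Finsupp.single () n)
    (MvPowerSeries.rename (fun _ : σ => ()) (MvPowerSeries.rescale v F)) = _
  rw [MvPowerSeries.coeff_rename]
  refine Finset.sum_congr ?_ fun κ _ => ?_
  · ext κ
    have e : Finsupp.mapDomain (fun _ : σ => ()) κ = Finsupp.single () (∑ l, κ l) := by
      rw [Finsupp.mapDomain, Finsupp.sum_fintype _ _ (by simp), Finsupp.single_finsetSum]
    simp [e]
  · rw [MvPowerSeries.coeff_rescale, Finsupp.prod_fintype _ _ (by simp), mul_comm]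

lemma coeff_dir (v : σ → R) (F : MvPowerSeries σ R) (n : ℕ) :
    PowerSeries.coeff n (dir v F) = MvPolynomial.eval v (homP n F) := by
  rw [coeff_dir_sum, homP, map_sum]
  refine Finset.sum_congr rfl fun κ _ => ?_
  rw [MvPolynomial.eval_monomial, Finsupp.prod_fintype _ _ (by simp)]

lemma coeff_zero_dir (v : σ → R) (F : MvPowerSeries σ R) :
    PowerSeries.coeff 0 (dir v F) = MvPowerSeries.coeff 0 F := by
  rw [coeff_dir_sum]; simp

/-- Chain rule along a line. -/
lemma dir_deriv (v : σ → R) (F : MvPowerSeries σ R) : PowerSeries.derivative R (dir v F) =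
    ∑ l, PowerSeries.C (v l) * dir v (MvPowerSeries.pderiv R l F) := by
  ext n
  have e := congrArg (MvPolynomial.eval v) (homP_hom (n + 1) F).sum_X_mul_pderiv
  simp only [map_sum, map_mul, MvPolynomial.eval_X, pderiv_homP, map_nsmul] at e
  rw [PowerSeries.coeff_derivative, coeff_dir, map_sum]
  simp only [PowerSeries.coeff_C_mul, coeff_dir]
  rw [e, nsmul_eq_mul, mul_comm]; push_cast; rfl
end

lemma line_ana (hg : AnalyticAt ℂ g p) (v : σ → ℂ) :
    AnalyticAt ℂ (fun u : ℂ => g (p + u • v)) 0 := by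
  have h1 : AnalyticAt ℂ (fun u : ℂ => p + u • v) 0 := by fun_prop
  exact AnalyticAt.comp (g := g) (by simpa using hg) h1

lemma line_deriv (hg : AnalyticAt ℂ g p) (v : σ → ℂ) :
    deriv (fun u : ℂ => g (p + u • v)) =ᶠ[𝓝 0] fun u => ∑ l, v l * pd l g (p + u • v) := by
  have hc : Tendsto (fun u : ℂ => p + u • v) (𝓝 0) (𝓝 p) := by
    have : Continuous fun u : ℂ => p + u • v := by fun_prop
    simpa using this.tendsto 0
  filter_upwards [hc.eventually hg.eventually_analyticAt] with u hu
  have h1 : HasDerivAt (fun u : ℂ => p + u • v) v u := by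
    simpa using ((hasDerivAt_id u).smul_const v).const_add p
  have h2 := (hu.differentiableAt.hasFDerivAt.comp_hasDerivAt u h1).deriv
  rw [show (fun u : ℂ => g (p + u • v)) = g ∘ fun u : ℂ => p + u • v from rfl, h2]
  generalize p + u • v = z
  conv_lhs => rw [← Finset.univ_sum_single v]
  rw [map_sum]
  refine Finset.sum_congr rfl fun l _ => ?_
  rw [pd, ← smul_eq_mul, ← map_smul, ← Pi.single_smul, smul_eq_mul, mul_one]

/-- The restriction of the Taylor series to a line is the Taylor series of the restriction. -/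
theorem dir_tayS (hg : AnalyticAt ℂ g p) (v : σ → ℂ) :
    dir v (tayS g p) = tay (fun u : ℂ => g (p + u • v)) 0 := by
  ext n
  induction n generalizing g with
  | zero => simp [coeff_zero_dir]
  | succ n ih =>
    refine mul_right_cancel₀ (b := (n : ℂ) + 1) (by exact_mod_cast n.succ_ne_zero) ?_
    rw [← PowerSeries.coeff_derivative, ← PowerSeries.coeff_derivative, dir_deriv, ← tay_deriv,
      tay_congr (line_deriv hg v), tay_sum _ fun l _ =>
        analyticAt_const.fun_mul (line_ana (pd_ana hg l) v), map_sum, map_sum]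
    refine Finset.sum_congr rfl fun l _ => ?_
    rw [tay_cmul (line_ana (pd_ana hg l) v), PowerSeries.coeff_C_mul, PowerSeries.coeff_C_mul,
      ← tayS_pd hg, ih (pd_ana hg l)]

/-- A series over an infinite domain is determined by its restrictions to lines. -/
theorem dir_ext {R : Type*} [CommRing R] [IsDomain R] [Infinite R] {F G : MvPowerSeries σ R}
    (e : ∀ v, dir v F = dir v G) : F = G := by
  ext κ
  have : homP (∑ l, κ l) F = homP (∑ l, κ l) G :=
    MvPolynomial.funext fun v => by rw [← coeff_dir, ← coeff_dir, e]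
  simpa [coeff_homP] using congrArg (MvPolynomial.coeff κ) this

theorem dir_tayM (hg : AnalyticAt ℂ g p) (v : σ → ℂ) :
    dir v (tayM g p) = tay (fun u : ℂ => g (p + u • v)) 0 :=
  Classical.epsilon_spec (p := fun F => ∀ v, dir v F = tay (fun u : ℂ => g (p + u • v)) 0)
    ⟨tayS g p, dir_tayS hg⟩ v

theorem tayM_eq (hg : AnalyticAt ℂ g p) : tayM g p = tayS g p :=
  dir_ext fun v => by rw [dir_tayM hg, dir_tayS hg]

end

end Pool.Agent.Lib.MP_5591bc_ag.M
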