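import Pool.Agent.Lib.MP_5591bc_ag.M.FrA

/-! Descent of a relation from one point to another, on series. -/

namespace Pool.Agent.Lib.MP_5591bc_ag.M

open Matrix Filter Topology MvPowerSeries G R W Metric

noncomputable section

section

variable {σ F A : Type*} [Field F] [Fintype A]

theorem da_Dm {S : Type*} [Field S] {τ : MvPolynomial σ F →+* MvPowerSeries σ S}
    (hτ : ∀ l p, τ (MvPolynomial.pderiv l p) = pderiv S l (τ p)) {T : MvPolynomial σ F}
    {B : σ → Matrix A A (MvPolynomial σ F)} {Φ : A → MvPowerSeries σ S} (h : IsM τ T B Φ) (l : σ)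
    (ρ : A → MvPolynomial σ F) : prm τ Φ (Dm T B l ρ) = τ T * pderiv S l (prm τ Φ ρ) := by
  simp only [prm, Dm, Pi.add_apply, Pi.smul_apply, smul_eq_mul, map_add, map_mul, hτ, add_mul,
    map_sum, Derivation.leibniz, Finset.mul_sum, mul_add, Finset.sum_add_distrib, vecMul,
    dotProduct, Finset.sum_mul]
  rw [add_comm, Finset.sum_comm]
  refine congrArg₂ _ (Finset.sum_congr rfl fun μ _ => ?_) (Finset.sum_congr rfl fun μ _ => by ring)
  rw [mul_left_comm, h l μ, Finset.mul_sum]
  exact Finset.sum_congr rfl fun _ _ => by ring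

theorem da_sh (x : σ → F) (p : MvPolynomial σ F) : τm x (MvPolynomial.aeval
    (fun l => MvPolynomial.X l - MvPolynomial.C (x l) : σ → MvPolynomial σ F) p) = p := by
  induction p using MvPolynomial.induction_on with
  | C a => simp [frT_C]
  | add p q hp hq => simp only [map_add, hp, hq, MvPolynomial.coe_add]
  | mul_X p o hp => rw [map_mul, map_mul, hp]; simp [frT_C, frT_X]

variable [Algebra F ℂ]

theorem da_map (x : σ → F) (p : MvPolynomial σ F) : τm (pc x) (TM ℂ p) = mpM F (τm x p) := by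
  induction p using MvPolynomial.induction_on with
  | C a => simp [frT_C]
  | add p q hp hq => simp only [map_add, hp, hq]
  | mul_X p o hp => simp [hp, frT_X]

theorem da_pi (π : Module.Dual F ℂ) (x : σ → F) (r : MvPolynomial σ ℂ) :
    ∃ p : MvPolynomial σ F, ∀ n, coeff n (τm x p) = π (coeff n (τm (pc x) r)) := by
  classical
  obtain ⟨r', h⟩ : ∃ r' : MvPolynomial σ ℂ, τm (pc x) r = r' := ⟨_, rfl⟩
  refine ⟨_, fun n => by
    rw [da_sh x (∑ n ∈ r'.support, MvPolynomial.monomial n (π (r'.coeff n))), h,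
      MvPolynomial.coeff_coe, MvPolynomial.coeff_coe, MvPolynomial.coeff_sum,
      Finset.sum_eq_single n (fun m _ h => by rw [MvPolynomial.coeff_monomial, if_neg h])
      fun h => by simp [MvPolynomial.notMem_support_iff.1 h], MvPolynomial.coeff_monomial,
      if_pos rfl]⟩

/-- a vector orthogonal to the relations over `F` is orthogonal to the complex relations -/
theorem da_perp {x : σ → F} {Φ : A → MvPowerSeries σ F} {h : A → MvPolynomial σ F}
    (hh : ∀ ρ, prm (τm x) Φ ρ = 0 → ρ ⬝ᵥ h = 0) {q : A → MvPolynomial σ ℂ}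
    (hq : prm (τm (pc x)) (fun a => mpM F (Φ a)) q = 0) : ∑ a, q a * TM ℂ (h a) = 0 := by
  classical
  refine frT_inj (pc x) ?_
  rw [map_zero]
  ext n
  refine (Module.forall_dual_apply_eq_zero_iff F _).1 fun π => ?_
  choose p hp using fun a => da_pi π x (q a)
  have key : ∀ (Ψ : A → MvPowerSeries σ F) m, coeff m (prm (τm x) Ψ p) =
      π (coeff m (prm (τm (pc x)) (fun a => mpM F (Ψ a)) q)) := fun Ψ m => by
    simp only [prm, map_sum, coeff_mul, hp, coeff_map]
    refine Finset.sum_congr rfl fun a _ => Finset.sum_congr rfl fun i _ => ?_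
    rw [mul_comm (coeff _ _), ← Algebra.smul_def, map_smul, smul_eq_mul, mul_comm]
  have a1 := congrArg (fun z => coeff n (τm x z)) (hh p (MvPowerSeries.ext fun m => by
    rw [key, hq, map_zero, map_zero, map_zero]))
  have a2 := key (fun a => τm x (h a)) n
  simp only [prm, dotProduct, map_sum, map_mul, map_zero, da_map] at a1 a2 ⊢
  exact a2.symm.trans a1

end

theorem desc_absM {σ F A : Type*} [Field F] [Algebra F ℂ] [Fintype A] [DecidableEq A]
    {T : MvPolynomial σ F} {τ : σ → MvPolynomial σ F} {B : σ → Matrix A A (MvPolynomial σ F)}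
    {x : σ → F} (hx : MvPolynomial.eval x T ≠ 0) {s : σ → ℂ}
    (hs : MvPolynomial.aeval s T ≠ 0) {Φ : A → MvPowerSeries σ F}
    (hΦ : IsM (τm x) T (fun l => τ l • 1 - (B l)ᵀ) Φ) {y : A → MvPowerSeries σ ℂ}
    (hy : IsM (τm s) (TM ℂ T) (BM ℂ B) y) {q : A → MvPolynomial σ ℂ}
    (hq : prm (τm (pc x)) (fun a => mpM F (Φ a)) q = 0)
    (hq0 : ∀ a, MvPolynomial.eval s (q a) = constantCoeff (y a)) :
    ∃ h : A → MvPolynomial σ F, (∀ a, MvPolynomial.eval x (h a) = constantCoeff (Φ a)) ∧
      prm (τm s) y (fun a => TM ℂ (h a)) = 0 := by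
  have : CharZero F := RingHom.charZero (algebraMap F ℂ)
  let S : Submodule (MvPolynomial σ F) (A → MvPolynomial σ F) :=
    { carrier := {ρ | prm (τm x) Φ ρ = 0}
      add_mem' := fun {a b} ha hb => by
        simp only [Set.mem_ofPred_eq, prm, Pi.add_apply, map_add, add_mul,
          Finset.sum_add_distrib] at *
        rw [ha, hb, add_zero]
      zero_mem' := by simp [prm]
      smul_mem' := fun c a ha => by
        simp only [Set.mem_ofPred_eq, prm, Pi.smul_apply, smul_eq_mul, map_mul, mul_assoc,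
          ← Finset.mul_sum] at *
        rw [ha, mul_zero] }
  have hS : ∀ l, ∀ ρ ∈ S, Dm T (fun l => τ l • 1 - (B l)ᵀ) l ρ ∈ S := fun l ρ h => by
    change prm _ _ _ = 0 at h ⊢
    rw [da_Dm (frT_pderiv x) hΦ, h, map_zero, mul_zero]
  obtain ⟨h, h1, h2⟩ := fibreM S _ hS hx (F := fun a => constantCoeff (Φ a)) fun ρ h => by
    have := congrArg constantCoeff (show prm (τm x) Φ ρ = 0 from h)
    simpa [prm, dotProduct, frT_const] using this
  refine ⟨h, h2, zero_famM (t := τm s (TM ℂ T))
    (F := (fun h : A → MvPolynomial σ F => prm (τm s) y fun a => TM ℂ (h a)) ''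
      {h | ∀ ρ ∈ S, ρ ⬝ᵥ h = 0}) ?_ ?_ ?_ _ ⟨h, h1, rfl⟩⟩
  · rw [isUnit_iff_constantCoeff, frT_const]
    rw [MvPolynomial.eval_map]
    exact hs.isUnit
  · rintro _ ⟨h, hh, rfl⟩
    have := congrArg (MvPolynomial.eval s) (da_perp hh hq)
    rw [isUnit_iff_constantCoeff, isUnit_iff_ne_zero, not_not]
    simpa only [prm, map_sum, map_mul, hq0, map_zero, mul_comm, frT_const] using this
  · rintro _ ⟨h, hh, rfl⟩ l
    refine ⟨Dm T B l h, fun ρ hρ => ?_, ?_⟩
    · have b1 := hh _ (hS l ρ hρ)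
      have b2 := congrArg (MvPolynomial.pderiv l) (hh ρ hρ)
      have b3 : MvPolynomial.pderiv l (ρ ⬝ᵥ h) = (fun a => MvPolynomial.pderiv l (ρ a)) ⬝ᵥ h +
          ρ ⬝ᵥ fun a => MvPolynomial.pderiv l (h a) := by
        simp [dotProduct, Finset.sum_add_distrib, mul_comm]
      rw [b3, map_zero] at b2
      rw [Dm, vecMul_sub, vecMul_smul, vecMul_one, vecMul_transpose, add_dotProduct,
        sub_dotProduct, smul_dotProduct, smul_dotProduct, hh ρ hρ, smul_zero, smul_eq_mul,
        dotProduct_comm (B l *ᵥ ρ), dotProduct_mulVec] at b1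
      rw [Dm, dotProduct_add, dotProduct_smul, smul_eq_mul, dotProduct_comm ρ (h ᵥ* B l)]
      linear_combination T * b2 - b1
    · rw [← da_Dm (frT_pderiv s) hy]
      refine congrArg _ (funext fun a => ?_)
      simp [Dm, vecMul, dotProduct, MvPolynomial.pderiv_map]

end

end Pool.Agent.Lib.MP_5591bc_ag.M
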