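import Pool.Agent.Lib.MP_5591bc_ag.M.FrA

/-! Modules of series stable under a connection are saturated at an ordinary point. -/

namespace Pool.Agent.Lib.MP_5591bc_ag.M

open Matrix Filter Topology MvPowerSeries G R W Metric

noncomputable section

variable {σ k R : Type*} [Field k] [CommRing R]

section
variable [Algebra R (MvPowerSeries σ k)] {t : MvPowerSeries σ k} {δ : σ → R → R}

/-- stability under all `t ∂_l` -/
def DSt (t : MvPowerSeries σ k) (N : Submodule R (MvPowerSeries σ k)) : Prop :=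
  ∀ l, ∀ a ∈ N, t * pderiv k l a ∈ N

variable (hδ : ∀ l a, algebraMap R (MvPowerSeries σ k) (δ l a) =
  t * pderiv k l (algebraMap R (MvPowerSeries σ k) a))
include hδ

theorem db_der (l : σ) (p : R) (a : MvPowerSeries σ k) :
    t * pderiv k l (p • a) = p • (t * pderiv k l a) + δ l p • a := by
  simp only [Algebra.smul_def, Derivation.leibniz, hδ, Algebra.algebraMap_self, RingHom.id_apply]
  ring

theorem DSt.span {α : Type*} {Φ : α → MvPowerSeries σ k}
    (h : ∀ l a, t * pderiv k l (Φ a) ∈ Submodule.span R (Set.range Φ)) :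
    DSt t (Submodule.span R (Set.range Φ)) := fun l a ha => by
  induction ha using Submodule.span_induction with
  | mem y hy =>
    obtain ⟨i, rfl⟩ := hy
    exact h l i
  | zero => simp
  | add x y _ _ hx hy => rw [map_add, mul_add]; exact add_mem hx hy
  | smul p x hx0 hx =>
    rw [db_der hδ]
    exact add_mem (Submodule.smul_mem _ _ hx) (Submodule.smul_mem _ _ hx0)

omit hδ in
theorem DSt.sup {N N' : Submodule R (MvPowerSeries σ k)} (s : DSt t N) (s' : DSt t N') :
    DSt t (N ⊔ N') := fun l a ha => by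
  obtain ⟨y, hy, z, hz, rfl⟩ := Submodule.mem_sup.1 ha
  rw [map_add, mul_add]
  exact Submodule.add_mem_sup (s l y hy) (s' l z hz)

omit hδ in
theorem DSt.mul {N N' : Submodule R (MvPowerSeries σ k)} (s : DSt t N) (s' : DSt t N') :
    DSt t (N * N') := fun l a ha => by
  refine Submodule.mul_induction_on ha (fun y hy z hz => ?_) fun y z hy hz => ?_
  · convert add_mem (Submodule.mul_mem_mul hy (s' l z hz))
      (Submodule.mul_mem_mul (s l y hy) hz) using 1
    rw [Derivation.leibniz]
    simp only [smul_eq_mul]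
    ring
  · rw [map_add, mul_add]; exact add_mem hy hz

/-- series lying in a finitely generated stable module -/
def DZs : Subring (MvPowerSeries σ k) where
  carrier := {a | ∃ N : Submodule R (MvPowerSeries σ k), N.FG ∧ DSt t N ∧ a ∈ N}
  add_mem' := fun ⟨N, f, s, m⟩ ⟨N', f', s', m'⟩ =>
    ⟨N ⊔ N', f.sup f', s.sup s', Submodule.add_mem_sup m m'⟩
  mul_mem' := fun ⟨N, f, s, m⟩ ⟨N', f', s', m'⟩ =>
    ⟨N * N', f.mul f', s.mul s', Submodule.mul_mem_mul m m'⟩
  one_mem' := ⟨_, Submodule.fg_span (Set.finite_range _),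
    DSt.span hδ (Φ := fun _ : Unit => 1) (by simp), Submodule.subset_span ⟨(), rfl⟩⟩
  zero_mem' := ⟨⊥, Submodule.fg_bot, fun l a ha => by simp_all, Submodule.zero_mem _⟩
  neg_mem' := fun ⟨N, f, s, m⟩ => ⟨N, f, s, N.neg_mem m⟩

theorem DZs.alg (p : R) : algebraMap R (MvPowerSeries σ k) p ∈ DZs hδ :=
  let ⟨N, f, s, m⟩ := (DZs hδ).one_mem
  ⟨N, f, s, by simpa [Algebra.smul_def] using N.smul_mem p m⟩

/-- series lying in `I • N` with `N` finitely generated and stable -/
def DZi (t : MvPowerSeries σ k) (I : Ideal R) (a : MvPowerSeries σ k) : Prop :=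
  ∃ N : Submodule R (MvPowerSeries σ k), N.FG ∧ DSt t N ∧ a ∈ I • N

theorem db_aeval {ρ : Type*} {I : Ideal R} (hC : ∀ a, C a ∈ DZs hδ) {v w : ρ → MvPowerSeries σ k}
    (hw : ∀ o, w o ∈ DZs hδ) (hv : ∀ o, DZi t I (v o - w o)) (H : MvPolynomial ρ k) :
    MvPolynomial.aeval w H ∈ DZs hδ ∧
      DZi t I (MvPolynomial.aeval v H - MvPolynomial.aeval w H) := by
  have add : ∀ {a b}, DZi t I a → DZi t I b → DZi t I (a + b) :=
    fun ⟨N, f, s, m⟩ ⟨N', f', s', m'⟩ => ⟨N ⊔ N', f.sup f', s.sup s', add_mem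
      (Submodule.smul_mono le_rfl le_sup_left m) (Submodule.smul_mono le_rfl le_sup_right m')⟩
  have mul : ∀ {a b}, DZi t I a → b ∈ DZs hδ → DZi t I (a * b) :=
    fun ⟨N, f, s, m⟩ ⟨N', f', s', m'⟩ => ⟨N * N', f.mul f', s.mul s', by
      refine Submodule.smul_induction_on m (fun r hr n hn => ?_) fun x y hx hy => ?_
      · rw [smul_mul_assoc]
        exact Submodule.smul_mem_smul hr (Submodule.mul_mem_mul hn m')
      · rw [add_mul]
        exact add_mem hx hy⟩
  induction H using MvPolynomial.induction_on with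
  | C a => exact ⟨by simpa [MvPowerSeries.algebraMap_apply] using hC a, ⊥, Submodule.fg_bot,
      fun l a ha => by simp_all, by simp⟩
  | add p q hp hq =>
    rw [map_add, map_add, add_sub_add_comm]
    exact ⟨add_mem hp.1 hq.1, add hp.2 hq.2⟩
  | mul_X p o hp =>
    obtain ⟨N, f, s, m⟩ := hv o
    have b4 : v o ∈ DZs hδ := by
      simpa using add_mem (hw o) (⟨N, f, s, Submodule.smul_le_right m⟩ : v o - w o ∈ DZs hδ)
    simp only [map_mul, MvPolynomial.aeval_X]
    refine ⟨mul_mem hp.1 (hw o), ?_⟩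
    convert add (mul hp.2 b4) (mul (hv o) hp.1) using 1
    ring

theorem db_sat [CharZero k] (hτ : Function.Injective (algebraMap R (MvPowerSeries σ k)))
    {κ : k → R} (hκ : ∀ a, algebraMap R (MvPowerSeries σ k) (κ a) = C a) (ht : IsUnit t)
    {A : Type*} [Fintype A] {g : A → MvPowerSeries σ k}
    (hN : DSt t (Submodule.span R (Set.range g))) {I : Ideal R} {a : MvPowerSeries σ k}
    (ha : DZi t I a) (h : a ∈ Submodule.span R (Set.range g)) :
    ∃ (d : R) (p : A → R), constantCoeff (algebraMap R (MvPowerSeries σ k) d) = 1 ∧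
      (∀ a, p a ∈ I) ∧ d • a = ∑ a, p a • g a := by
  obtain ⟨N, f, s', m⟩ := ha
  obtain ⟨r, n, rfl⟩ := Submodule.fg_iff_exists_fin_generating_family.1 f
  choose B hB using fun l j => (Submodule.mem_span_range_iff_exists_fun _).1
    (s' l _ (Submodule.subset_span ⟨j, rfl⟩))
  obtain ⟨y, hy, e⟩ := (Submodule.mem_ideal_smul_span_iff_exists_sum I n a).1 m
  rw [Finsupp.sum_fintype _ _ (by simp), ← Fintype.linearCombination_apply] at e
  obtain ⟨r', x, η, M, h1, -, -, h2, h3⟩ := frameA _ hτ κ hκ ht δ hδ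
    ((Submodule.span R (Set.range g)).comap (Fintype.linearCombination R n))
    (fun l => (of (B l))ᵀ) fun l φ hφ => by
      have := hN l _ hφ
      rw [Fintype.linearCombination_apply, map_sum, Finset.mul_sum] at this
      rw [Submodule.mem_comap, Fintype.linearCombination_apply]
      convert this using 1
      simp only [db_der hδ, ← hB, Pi.add_apply, add_smul, mulVec, transpose_apply, mul_comm (B _ _ _),
        dotProduct, Finset.sum_smul, Finset.sum_add_distrib, Finset.smul_sum, smul_smul, of_apply]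
      rw [add_comm, Finset.sum_comm]
  have c2 := h3 y (by rw [Submodule.mem_comap, e]; exact h)
  choose p hp using fun i => (Submodule.mem_span_range_iff_exists_fun _).1 (h1 i)
  refine ⟨_, fun a => ∑ i, ((fun j => y ⬝ᵥ fun a => κ (η j a)) ᵥ* M.adjugate) i * p i a, h2,
    fun a => sum_mem fun i _ => I.mul_mem_right _ (by
      simp only [vecMul, dotProduct]
      exact sum_mem fun j _ => I.mul_mem_right _
        (sum_mem fun l _ => I.mul_mem_right _ (hy l))), ?_⟩
  rw [← e, ← map_smul, c2, map_sum]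
  simp only [map_smul, ← hp, Finset.smul_sum, smul_smul, Finset.sum_smul]
  exact Finset.sum_comm

end

/-- a linear form which is the value at the origin of a relation is the value of a linear
relation -/
theorem db_lin [CharZero k] (τ : R →+* MvPowerSeries σ k) (hτ : Function.Injective τ) (κ : k → R)
    (hκ : ∀ a, τ (κ a) = C a) {t : MvPowerSeries σ k} (ht : IsUnit t) (δ : σ → R → R)
    (hδ : ∀ l a, τ (δ l a) = t * pderiv k l (τ a)) {ρ A ι : Type*} [Fintype ρ] [Fintype A]
    {Y : ρ → MvPowerSeries σ k} {B : σ → Matrix ρ ρ R}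
    (oY : ∀ l a, t * pderiv k l (Y a) = ∑ b, τ (B l a b) * Y b) {g : A → MvPowerSeries σ k}
    {B' : σ → Matrix A A R} (og : ∀ l a, t * pderiv k l (g a) = ∑ b, τ (B' l a b) * g b)
    (z : ι → R) {H : MvPolynomial (ι ⊕ ρ) k} {m : A → k}
    (h1 : MvPolynomial.aeval (Sum.elim (fun i => τ (z i)) Y) H = 0)
    (h2 : MvPolynomial.aeval (Sum.elim (fun i => C (constantCoeff (τ (z i)))) Y) H =
      ∑ a, C (m a) * g a) :
    ∃ q : A → R, (∀ a, constantCoeff (τ (q a)) = m a) ∧ ∑ a, τ (q a) * g a = 0 := by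
  classical
  let _ := τ.toAlgebra
  have sm : ∀ (p : R) (a : MvPowerSeries σ k), p • a = τ p * a := fun _ _ => rfl
  have e := (db_aeval (R := R) hδ (I := RingHom.ker (constantCoeff.comp τ))
    (fun a => hκ a ▸ DZs.alg hδ (κ a)) (v := Sum.elim (fun i => τ (z i)) Y)
    (w := Sum.elim (fun i => C (constantCoeff (τ (z i)))) Y) (by
      rintro (i | a)
      · rw [Sum.elim_inl, ← hκ]
        exact DZs.alg hδ _
      · exact ⟨_, Submodule.fg_span (Set.finite_range _), DSt.span hδ fun l a => oY l a ▸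
          sum_mem fun b _ => Submodule.smul_mem _ _ (Submodule.subset_span ⟨b, rfl⟩),
          Submodule.subset_span ⟨a, rfl⟩⟩) (by
      rintro (i | a)
      · obtain ⟨N, f, s, m⟩ := (DZs (R := R) (σ := σ) (k := k) hδ).one_mem
        refine ⟨N, f, s, ?_⟩
        simpa [sm, hκ] using Submodule.smul_mem_smul (I := RingHom.ker (constantCoeff.comp τ))
          (r := z i - κ (constantCoeff (τ (z i)))) (by simp [hκ]) m
      · exact ⟨⊥, Submodule.fg_bot, fun l a ha => by simp_all, by simp⟩) H).2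
  rw [h1, h2] at e
  obtain ⟨d, p, d1, p0, hp⟩ := db_sat (R := R) (g := g) hδ hτ hκ ht (DSt.span hδ fun l a => og l a ▸
    sum_mem fun b _ => Submodule.smul_mem _ _ (Submodule.subset_span ⟨b, rfl⟩)) e (by
      rw [zero_sub]
      exact neg_mem (sum_mem fun a _ => hκ (m a) ▸
        Submodule.smul_mem _ _ (Submodule.subset_span ⟨a, rfl⟩)))
  replace d1 : constantCoeff (τ d) = 1 := d1
  replace p0 : ∀ a, constantCoeff (τ (p a)) = 0 := p0
  refine ⟨fun a => d * κ (m a) + p a, fun a => by simp [d1, p0, hκ], ?_⟩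
  simp only [sm, zero_sub, mul_neg] at hp
  simp only [map_add, map_mul, hκ, add_mul, mul_assoc, Finset.sum_add_distrib, ← Finset.mul_sum,
    ← hp, add_neg_cancel]

theorem desc_linM {σ ν A : Type*} [Fintype ν] [DecidableEq ν] [Fintype A] {s : σ → ℂ}
    {T : MvPolynomial σ ℂ} (hT : MvPolynomial.eval s T ≠ 0)
    {B : σ → Matrix ν ν (MvPolynomial σ ℂ)} {Y : Matrix ν ν (MvPowerSeries σ ℂ)}
    (hY : ∀ l, τm s T • Y.map (pderiv ℂ l) = (B l).map (τm s) * Y)
    {B' : σ → Matrix A A (MvPolynomial σ ℂ)} {Φ : A → MvPowerSeries σ ℂ} (hΦ : IsM (τm s) T B' Φ)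
    {H : MvPolynomial (σ ⊕ ν × ν) ℂ} {m : A → ℂ}
    (h1 : MvPolynomial.aeval (Sum.elim (fun l => X l + C (s l)) fun a => Y a.1 a.2) H = 0)
    (h2 : MvPolynomial.aeval (Sum.elim (fun l => C (s l)) fun a => Y a.1 a.2) H =
      ∑ a, C (m a) * Φ a) :
    ∃ q : A → MvPolynomial σ ℂ, prm (τm s) Φ q = 0 ∧ ∀ a, MvPolynomial.eval s (q a) = m a := by
  obtain ⟨q, q1, q2⟩ := db_lin (τm s) (frT_inj s) MvPolynomial.C (frT_C s) (t := τm s T)
    (by rw [isUnit_iff_constantCoeff, frT_const]; exact hT.isUnit)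
    (fun l p => T * MvPolynomial.pderiv l p) (fun l p => by rw [map_mul, frT_pderiv])
    (Y := fun a : ν × ν => Y a.1 a.2)
    (B := fun l => of fun a b => if a.2 = b.2 then B l a.1 b.1 else 0) (fun l a => by
      simpa [Fintype.sum_prod_type, apply_ite (τm s), mul_apply] using congrFun₂ (hY l) a.1 a.2)
    hΦ MvPolynomial.X (H := H) (m := m) (by simpa only [frT_X] using h1)
    (by simpa only [frT_const, MvPolynomial.eval_X] using h2)
  exact ⟨q, q2, fun a => (frT_const _ _).symm.trans (q1 a)⟩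

end

end Pool.Agent.Lib.MP_5591bc_ag.M
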