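import Pool.Agent.Lib.MP_5591bc_ag.M.SerO
import Pool.Agent.Lib.MP_5591bc_ag.M.DescA
import Pool.Agent.Lib.MP_5591bc_ag.M.DescB

/-! From the fibre ideal to the degree property. -/

namespace Pool.Agent.Lib.MP_5591bc_ag.M

open Matrix Filter Topology MvPowerSeries G R W Metric

noncomputable section

theorem dc_mono {k S ν : Type*} [CommRing k] [CommRing S] [Algebra k S] [Fintype ν] [DecidableEq ν]
    {D : Derivation k S S} {a : S} {b Y : Matrix ν ν S} (h : a • Y.map D = b * Y) (δ : ℕ)
    (μ : Mo δ ν) : a * D (mono δ Y μ) = ∑ η, tB (Fin δ) (exg 0 b) μ η * mono δ Y η := by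
  have e : ∀ o, a * D (hatg Y o) = (exg 0 b *ᵥ hatg Y) o := by
    rintro (_ | ⟨p, q⟩)
    · simp [exg, hatg, mulVec, dotProduct, Fintype.sum_option]
    · simpa [exg, hatg, mulVec, dotProduct, Fintype.sum_option, Fintype.sum_prod_type, mul_apply]
        using congrFun₂ h p q
  refine Eq.trans ?_ (congrFun (tB_mulVec (exg 0 b) fun _ : Fin δ => hatg Y) μ).symm
  rw [mono, tens, der_prod, Finset.mul_sum, Finset.sum_apply]
  exact Finset.sum_congr rfl fun l _ => by rw [tens_update, ← e, mul_left_comm]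

theorem dc_mv {σ α : Type*} [Fintype σ] [DecidableEq σ] {p : σ → ℂ} {f : α → (σ → ℂ) → ℂ}
    (hf : ∀ o, AnalyticAt ℂ (f o) p) (H : MvPolynomial α ℂ) :
    AnalyticAt ℂ (fun t => MvPolynomial.aeval (f · t) H) p ∧
      tayM (fun t => MvPolynomial.aeval (f · t) H) p =
        MvPolynomial.aeval (fun o => tayM (f o) p) H := by
  induction H using MvPolynomial.induction_on with
  | C a => exact ⟨by simpa using analyticAt_const, by
      simpa [MvPowerSeries.algebraMap_apply] using tayM_const a⟩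
  | add p q hp hq =>
    simp only [map_add]
    exact ⟨hp.1.fun_add hq.1, by rw [tayM_add hp.1 hq.1, hp.2, hq.2]⟩
  | mul_X p o hp =>
    simp only [map_mul, MvPolynomial.aeval_X]
    exact ⟨hp.1.fun_mul (hf o), by rw [tayM_mul hp.1 (hf o), hp.2]⟩

theorem dc_prm {σ α : Type*} [Fintype σ] [DecidableEq σ] [Fintype α] {p : σ → ℂ}
    {f : α → (σ → ℂ) → ℂ} (hf : ∀ o, AnalyticAt ℂ (f o) p) (q : α → MvPolynomial σ ℂ) :
    AnalyticAt ℂ (fun t => ∑ a, MvPolynomial.eval t (q a) * f a t) p ∧
      tayM (fun t => ∑ a, MvPolynomial.eval t (q a) * f a t) p =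
        prm (τm p) (fun a => tayM (f a) p) q := by
  have e : ∀ a, AnalyticAt ℂ (fun t => MvPolynomial.eval t (q a)) p := fun a =>
    AnalyticOnNhd.eval_mvPolynomial _ p trivial
  refine ⟨Finset.analyticAt_fun_sum _ fun a _ => (e a).fun_mul (hf a), ?_⟩
  rw [tayM_sum _ fun a _ => (e a).fun_mul (hf a)]
  exact Finset.sum_congr rfl fun a _ => by rw [tayM_mul (e a) (hf a), tayM_eval]

theorem descM {σ K ν : Type*} [Fintype σ] [DecidableEq σ] [Field K] [Algebra K ℂ] [Fintype ν]
    [DecidableEq ν] {T : MvPolynomial σ K} {B : σ → Matrix ν ν (MvPolynomial σ K)}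
    {U : Set (σ → ℂ)} {P : (σ → ℂ) → Matrix ν ν ℂ} (ho : IsOpen U) (hc : IsPreconnected U)
    (hP : FundM T B U P) {s : σ → ℂ} (hs : s ∈ U) (hT : MvPolynomial.aeval s T ≠ 0) {δ : ℕ}
    {x : σ → K} (hx : pc x ∈ U) (hT' : MvPolynomial.eval x T ≠ 0) {F : Mo δ ν → K}
    (h : InFibM (fun t => P t * (P s)⁻¹) s
      (pX δ (lamM P δ x F s) ⬝ᵥ fun μ => MvPolynomial.C (mono δ (P s) μ))) : LGM U P δ x F := by
  obtain ⟨H, h1, h2⟩ := h
  have id : ∀ {f : Mo δ ν → (σ → ℂ) → ℂ}, (∀ t ∈ U, ∀ a, AnalyticAt ℂ (f a) t) → ∀ q,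
      prm (τm s) (fun a => tayM (f a) s) q = 0 → ∀ t ∈ U,
      ∑ a, MvPolynomial.eval t (q a) * f a t = 0 := fun hf q e t ht =>
    AnalyticOnNhd.eqOn_zero_of_preconnected_of_eventuallyEq_zero
      (fun z hz => (dc_prm (hf z hz) q).1) hc hs
      (eventually_zero_of_tayM (dc_prm (hf s hs) q).1 ((dc_prm (hf s hs) q).2.trans e)) ht
  have oP : ∀ l, τm s (TM ℂ T) • (tayX P s).map (pderiv ℂ l) =
      (BM ℂ B l).map (τm s) * tayX P s := fun l => by
    simpa only [tayM_aeval, Matrix.map_map, Function.comp_def] using tayX_ode ho hP hs l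
  have oY : ∀ l, τm s (TM ℂ T) • (tayX (fun t => P t * (P s)⁻¹) s).map (pderiv ℂ l) =
      (BM ℂ B l).map (τm s) * tayX (fun t => P t * (P s)⁻¹) s := fun l => by
    have : ((P s)⁻¹.map (C : ℂ → MvPowerSeries σ ℂ)).map (pderiv ℂ l) = 0 := by
      ext1 i j
      simp
    rw [tayX_mul hP _ hs, serG_mul, this, Matrix.mul_zero, add_zero, ← Matrix.smul_mul, oP,
      Matrix.mul_assoc]
  have uY : IsUnit (tayX (fun t => P t * (P s)⁻¹) s).det := by
    rw [isUnit_iff_constantCoeff, RingHom.map_det, RingHom.mapMatrix_apply, tayX_mul hP _ hs,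
      Matrix.map_mul, tayX_const hP hs, Matrix.map_map,
      show constantCoeff ∘ (C : ℂ → MvPowerSeries σ ℂ) = _root_.id from funext constantCoeff_C,
      Matrix.map_id, mul_nonsing_inv _ (hP s hs).1.isUnit, det_one]
    exact isUnit_one
  have eg : ∀ μ, tayM (fun t => lamM P δ x F t μ) s =
      ∑ β, C (lamM P δ x F s β) * Adj δ (tayX (fun t => P t * (P s)⁻¹) s) β μ := fun μ => by
    have a1 := fun β => serM_adj (fun i j => serG_ana hP (P s)⁻¹ hs i j) δ β μ
    simp only [← (a1 _).2, ← tayM_cmul (a1 _).1]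
    rw [← tayM_sum _ fun β _ => analyticAt_const.fun_mul (a1 β).1]
    exact congrArg (tayM · s) (funext fun t => congrFun (lamM_base x F (hP s hs).1 t) μ)
  have hT1 : MvPolynomial.eval s (TM ℂ T) ≠ 0 := by rwa [MvPolynomial.eval_map]
  have ag := fun t (ht : t ∈ U) μ => lamM_ana hP x F μ ht (δ := δ)
  obtain ⟨q, q1, q2⟩ := desc_linM hT1 oY (B' := fun l => Bd δ (BM ℂ B l))
    (Φ := fun μ => tayM (fun t => lamM P δ x F t μ) s) (H := H) (m := mono δ (P s))
    (fun l μ => by
      have a1 := fun β => congrFun₂ (der_Adj (oY l) uY δ) β μ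
      rw [← Bd_map] at a1
      simp only [Matrix.smul_apply, map_apply, mul_apply, transpose_apply, smul_eq_mul] at a1
      simp only [eg, map_sum, Derivation.leibniz, pderiv_C, smul_eq_mul, mul_zero, add_zero,
        Finset.mul_sum, mul_left_comm (τm s _), a1]
      rw [Finset.sum_comm]
      exact Finset.sum_congr rfl fun _ _ => Finset.sum_congr rfl fun _ _ => by ring) (by
      have a1 := tayM_congr h1
      rw [(dc_mv (f := fun o t => Sum.elim t (fun a => (P t * (P s)⁻¹) a.1 a.2) o) (by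
        rintro (l | a)
        exacts [(ContinuousLinearMap.proj (R := ℂ) (φ := fun _ : σ => ℂ) l).analyticAt s,
          serG_ana hP _ hs _ _]) H).2, tayM_zero] at a1
      refine (congrArg (MvPolynomial.aeval · H) (funext ?_)).trans a1
      rintro (l | a)
      exacts [(tayM_coord l).symm, rfl]) (by
      have a1 : ∀ t, MvPolynomial.aeval (fun o => Sum.elim s (fun a => (P t * (P s)⁻¹) a.1 a.2) o)
          H = ∑ μ, mono δ (P s) μ * lamM P δ x F t μ := fun t => by
        have e := congrArg (MvPolynomial.aeval fun a : ν × ν => (P t * (P s)⁻¹) a.1 a.2) h2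
        rw [← AlgHom.comp_apply, MvPolynomial.comp_aeval] at e
        refine (congrArg (MvPolynomial.aeval · H) (funext ?_)).trans (e.trans ?_)
        · rintro (_ | a) <;> simp
        have e2 := Adj_map (MvPolynomial.aeval fun a : ν × ν => (P t * (P s)⁻¹) a.1 a.2 :
          _ →ₐ[ℂ] ℂ).toRingHom δ (Xm ν)
        rw [show (Xm ν).map _ = P t * (P s)⁻¹ from by ext i j; simp [Xm]] at e2
        rw [lamM_base x F (hP s hs).1 t, ← e2]
        simp [pX, dotProduct, vecMul, mul_comm]
      have a2 := (dc_mv (p := s) (f := fun o t => Sum.elim s (fun a => (P t * (P s)⁻¹) a.1 a.2) o) (by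
        rintro (l | a)
        exacts [analyticAt_const, serG_ana hP _ hs _ _]) H).2
      simp only [a1] at a2
      rw [tayM_sum _ fun μ _ => analyticAt_const.fun_mul (ag s hs μ)] at a2
      simp only [tayM_cmul (ag s hs _)] at a2
      refine (congrArg (MvPolynomial.aeval · H) (funext ?_)).trans a2.symm
      rintro (l | a)
      exacts [(tayM_const _).symm, rfl])
  have am : ∀ t ∈ U, ∀ μ, AnalyticAt ℂ (fun z => mono δ (P z) μ) t ∧
      tayM (fun z => mono δ (P z) μ) t = mono δ (tayX P t) μ := fun t ht μ => by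
    have a1 : ∀ o, AnalyticAt ℂ (fun z => hatg (P z) o) t := by
      rintro (_ | a)
      exacts [analyticAt_const, ((hP t ht).2 _ _).1]
    simp only [mono, tens]
    refine ⟨Finset.analyticAt_fun_prod _ fun l _ => a1 _,
      (tayM_prod _ fun l _ => a1 _).trans (Finset.prod_congr rfl fun l _ => ?_)⟩
    rcases μ l with _ | a
    exacts [(tayM_const 1).trans (map_one _), rfl]
  obtain ⟨g, g1, g2⟩ := desc_absM (τ := fun l => (δ : MvPolynomial σ K) * (B l).trace)
    (B := fun l => tB (Fin δ) (exg 0 (B l))) hT' hT (LserM_ode ho hP hx hT' δ F)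
    (y := fun μ => tayM (fun z => mono δ (P z) μ) s) (q := q) (fun l μ => by
      simp only [(am s hs _).2, dc_mono (oP l)]
      refine Finset.sum_congr rfl fun η _ => congrArg (· * _) ?_
      simp only [BM]
      rw [tB_map, exg_map _ (map_zero _), ← map_apply (f := τm s), tB_map,
        exg_map _ (map_zero _), map_zero, map_zero]) (by
      simp only [← tayM_self ho hP hx hT' F]
      rw [← (dc_prm (ag _ hx) q).2, ← tayM_zero (p := pc x)]
      exact tayM_congr (mem_of_superset (ho.mem_nhds hx) (id ag q q1)))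
    fun μ => (q2 μ).trans (constantCoeff_tayM (am s hs μ).1).symm
  refine ⟨g, fun μ => (g1 μ).trans ((algebraMap K ℂ).injective ?_), fun t ht => ?_⟩
  · have := congrArg constantCoeff (tayM_self ho hP hx hT' F μ)
    rw [constantCoeff_tayM (ag _ hx μ), lamM_self (hP _ hx).1, constantCoeff_map] at this
    exact this.symm
  · simpa only [MvPolynomial.eval_map, dotProduct, MvPolynomial.aeval_def] using
      id (fun t ht μ => (am t ht μ).1) _ g2 t ht

end

end Pool.Agent.Lib.MP_5591bc_ag.M
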