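import Pool.Agent.Lib.MP_5591bc_ag.M.SerO

/-! The system of the adjoint tensor. -/

namespace Pool.Agent.Lib.MP_5591bc_ag.M

open Matrix Filter Topology MvPowerSeries G R W Metric

noncomputable section

theorem adj_ode {k S ν : Type*} [CommRing k] [CommRing S] [Algebra k S] [Fintype ν] [DecidableEq ν]
    (D : Derivation k S S) {a : S} {b Y : Matrix ν ν S} (h : a • Y.map D = b * Y)
    (hu : IsUnit Y.det) (δ : ℕ) (α μ : Mo δ ν) :
    a * D (Adj δ Y α μ) = ∑ η, Bd δ b μ η * Adj δ Y α η := by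
  have := congrFun₂ (der_Adj h hu δ) α μ
  rw [mul_apply] at this
  exact this.trans (Finset.sum_congr rfl fun _ _ => mul_comm _ _)

theorem mono_ode {k S ν : Type*} [CommRing k] [CommRing S] [Algebra k S] [Fintype ν] [DecidableEq ν]
    (D : Derivation k S S) {a : S} {b Y : Matrix ν ν S} (h : a • Y.map D = b * Y) (δ : ℕ)
    (μ : Mo δ ν) : a * D (mono δ Y μ) = ∑ η, tB (Fin δ) (exg 0 b) μ η * mono δ Y η := by
  have e : ∀ o, a * D (hatg Y o) = (exg 0 b *ᵥ hatg Y) o := by
    rintro (_ | ⟨p, q⟩)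
    · simp [exg, hatg, mulVec, dotProduct, Fintype.sum_option]
    · have := congrFun₂ h p q
      simp only [Matrix.smul_apply, map_apply, smul_eq_mul, mul_apply] at this
      simp [exg, hatg, mulVec, dotProduct, Fintype.sum_option, Fintype.sum_prod_type, this]
  have := congrFun (tB_mulVec (exg 0 b) fun _ : Fin δ => hatg Y) μ
  rw [Finset.sum_apply] at this
  refine Eq.trans ?_ this.symm
  rw [mono, tens, der_prod, Finset.mul_sum]
  refine Finset.sum_congr rfl fun j _ => ?_
  rw [tens_update, mul_left_comm, e]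

theorem mono_map {S S' ν : Type*} [CommRing S] [CommRing S'] (φ : S →+* S') (δ : ℕ)
    (Y : Matrix ν ν S) (μ : Mo δ ν) : φ (mono δ Y μ) = mono δ (Y.map φ) μ := by
  simp only [mono, tens, map_prod]
  exact Finset.prod_congr rfl fun l _ => by cases μ l <;> simp [hatg]

end

end Pool.Agent.Lib.MP_5591bc_ag.M
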