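import Pool.Agent.Lib.MP_5591bc_ag.M.Good
import Pool.Agent.Lib.MP_5591bc_ag.M.SerO
import Pool.Agent.Lib.MP_5591bc_ag.W.Spec

/-! Specialisation of relations and the fibre ring. -/

namespace Pool.Agent.Lib.MP_5591bc_ag.M

open Matrix Filter Topology MvPowerSeries G R W Metric

noncomputable section

section aux
variable {σ K ν : Type*} [Fintype σ] [DecidableEq σ] [Field K] [Algebra K ℂ] [Fintype ν]
  [DecidableEq ν] {U : Set (σ → ℂ)} {P : (σ → ℂ) → Matrix ν ν ℂ}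

/-- a relation between the series at `x` is a relation near `x` -/
theorem spcM_near {a δ : ℕ} {x : σ → K} {F : Mo δ ν → K} {L : Mo δ ν → MvPowerSeries σ K}
    (an : ∀ μ, AnalyticAt ℂ (fun t => lamM P δ x F t μ) (pc x))
    (hL : ∀ μ, tayM (fun t => lamM P δ x F t μ) (pc x) = mpM K (L μ))
    {φ : (Fin a → Mo δ ν) → MvPolynomial σ K} (h : ∑ α, τm x (φ α) * ∏ l, L (α l) = 0) :
    ∀ᶠ t in 𝓝 (pc x), ∑ α, MvPolynomial.aeval t (φ α) * ∏ l, lamM P δ x F t (α l) = 0 := by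
  have a1 : ∀ α : Fin a → Mo δ ν, AnalyticAt ℂ (fun t => ∏ l, lamM P δ x F t (α l)) (pc x) :=
    fun α => Finset.analyticAt_fun_prod _ fun l _ => an _
  have a2 : ∀ α : Fin a → Mo δ ν, AnalyticAt ℂ (fun t => MvPolynomial.aeval t (φ α) *
      ∏ l, lamM P δ x F t (α l)) (pc x) := fun α => (aeval_ana _).fun_mul (a1 α)
  refine eventually_zero_of_tayM (Finset.analyticAt_fun_sum _ fun α _ => a2 α) ?_
  rw [tayM_sum _ fun α _ => a2 α, ← map_zero (mpM K), ← h, map_sum]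
  refine Finset.sum_congr rfl fun α _ => ?_
  rw [tayM_mul (aeval_ana _) (a1 α), tayM_aeval_pc, tayM_prod _ fun l _ => an _, map_mul, map_prod]
  simp only [hL]

omit [Fintype σ] [DecidableEq σ] in
/-- a relation near `s` gives an element of the ideal of the fibre at `s` -/
theorem spcM_fib {a δ : ℕ} {x : σ → K} {F : Mo δ ν → K} {s : σ → ℂ} (hs : (P s).det ≠ 0)
    {φ : (Fin a → Mo δ ν) → MvPolynomial σ K}
    (h2 : ∀ᶠ t in 𝓝 s, ∑ α, MvPolynomial.aeval t (φ α) * ∏ l, lamM P δ x F t (α l) = 0) :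
    InFibM (fun t => P t * (P s)⁻¹) s (∑ α, MvPolynomial.C (MvPolynomial.aeval s (φ α)) *
      tens (fun _ => pX δ (lamM P δ x F s)) α) := by
  refine ⟨∑ α, MvPolynomial.rename Sum.inl (TM ℂ (φ α)) *
    ∏ l, MvPolynomial.rename Sum.inr (pX δ (lamM P δ x F s) (α l)), ?_, ?_⟩
  · filter_upwards [h2] with t ht
    refine Eq.trans ?_ ht
    simp only [map_sum, map_mul, map_prod, MvPolynomial.aeval_rename, Sum.elim_comp_inl,
      Sum.elim_comp_inr]
    simp only [MvPolynomial.aeval_map_algebraMap, spc_pX, MvPolynomial.aeval_X,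
      lamM_base x F hs t]
    rfl
  · simp only [map_sum, map_mul, map_prod, MvPolynomial.aeval_rename, Sum.elim_comp_inl,
      Sum.elim_comp_inr]
    refine Finset.sum_congr rfl fun α _ => ?_
    rw [tens, ← MvPolynomial.aeval_map_algebraMap ℂ s (φ α)]
    exact congrArg₂ _ (MvPolynomial.aeval_algebraMap_apply (MvPolynomial (ν × ν) ℂ) s _)
      (Finset.prod_congr rfl fun l _ => MvPolynomial.aeval_X_left_apply _)

/-- specialisation of a relation at `x` to the fibre at `s` -/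
theorem spcM_of (ho : IsOpen U) (hc : IsPreconnected U) {s : σ → ℂ} (hs : s ∈ U) (hd : (P s).det ≠ 0) {a δ : ℕ}
    {x : σ → K} (hx : pc x ∈ U) {F : Mo δ ν → K} {L : Mo δ ν → MvPowerSeries σ K}
    (an : ∀ t ∈ U, ∀ μ, AnalyticAt ℂ (fun t => lamM P δ x F t μ) t)
    (hL : ∀ μ, tayM (fun t => lamM P δ x F t μ) (pc x) = mpM K (L μ))
    {φ : (Fin a → Mo δ ν) → MvPolynomial σ K} (h : ∑ α, τm x (φ α) * ∏ l, L (α l) = 0) :
    InFibM (fun t => P t * (P s)⁻¹) s (∑ α, MvPolynomial.C (MvPolynomial.aeval s (φ α)) *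
      tens (fun _ => pX δ (lamM P δ x F s)) α) := by
  have a2 : ∀ t ∈ U, AnalyticAt ℂ (fun t => ∑ α : Fin a → Mo δ ν, MvPolynomial.aeval t (φ α) *
      ∏ l, lamM P δ x F t (α l)) t := fun t ht => Finset.analyticAt_fun_sum _ fun α _ =>
    (aeval_ana _).fun_mul (Finset.analyticAt_fun_prod _ fun l _ => an t ht _)
  exact spcM_fib hd (mem_of_superset (ho.mem_nhds hs)
    (goodV_id hc a2 hx (spcM_near (an _ hx) hL h)))

end aux

theorem specM {σ K ν : Type*} [Fintype σ] [DecidableEq σ] [Field K] [Algebra K ℂ] [Fintype ν]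
    [DecidableEq ν] {T : MvPolynomial σ K} {B : σ → Matrix ν ν (MvPolynomial σ K)}
    {U : Set (σ → ℂ)} {P : (σ → ℂ) → Matrix ν ν ℂ} (ho : IsOpen U) (hc : IsPreconnected U)
    (hP : FundM T B U P) {s : σ → ℂ} (hs : s ∈ U) {a δ : ℕ} {x : σ → K} (hx : pc x ∈ U)
    (hT : MvPolynomial.eval x T ≠ 0) (F : Mo δ ν → K) {φ : (Fin a → Mo δ ν) → MvPolynomial σ K}
    (h : ∑ α, τm x (φ α) * ∏ l, LserM T B δ x F (α l) = 0) :
    InFibM (fun t => P t * (P s)⁻¹) s (∑ α, MvPolynomial.C (MvPolynomial.aeval s (φ α)) *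
      tens (fun _ => pX δ (lamM P δ x F s)) α) := by
  exact spcM_of ho hc hs (hP s hs).1 hx (fun _ ht μ => lamM_ana hP x F μ ht)
    (tayM_self ho hP hx hT F) h

/-- the coordinate ring of the fibre, with the evaluation at the unit matrix -/
theorem fib_ringM {σ : Type*} [Fintype σ] {ν : Type} [Fintype ν] [DecidableEq ν]
    {Y : (σ → ℂ) → Matrix ν ν ℂ} {s : σ → ℂ} (h1 : Y s = 1) (h : IrrM Y s) :
    ∃ (R : Type) (_ : CommRing R) (_ : IsDomain R) (_ : Algebra ℂ R)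
      (π : MvPolynomial (ν × ν) ℂ →ₐ[ℂ] R) (ev : R →ₐ[ℂ] ℂ),
      (∀ Q, π Q = 0 ↔ InFibM Y s Q) ∧
      ∀ (δ : ℕ) (u : Mo δ ν → ℂ) (μ : Mo δ ν), ev (π (pX δ u μ)) = u μ := by
  let I : Ideal (MvPolynomial (ν × ν) ℂ) :=
    { carrier := {Q | InFibM Y s Q}
      zero_mem' := ⟨0, by simp, map_zero _⟩
      add_mem' := fun ⟨H, a1, a2⟩ ⟨H', b1, b2⟩ => ⟨H + H', by
        filter_upwards [a1, b1] with t ha hb
        rw [map_add, ha, hb, add_zero], by rw [map_add, a2, b2]⟩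
      smul_mem' := fun c _ ⟨H, a1, a2⟩ => ⟨MvPolynomial.rename Sum.inr c * H, by
        filter_upwards [a1] with t ha
        rw [map_mul, ha, mul_zero], by
        rw [map_mul, a2, MvPolynomial.aeval_rename, smul_eq_mul]
        exact congrArg (· * _) (MvPolynomial.aeval_X_left_apply c)⟩ }
  have k : ∀ Q ∈ I, MvPolynomial.aeval (fun a : ν × ν => (1 : Matrix ν ν ℂ) a.1 a.2) Q = 0 := by
    rintro _ ⟨H, a1, rfl⟩
    rw [← a1.self_of_nhds, ← AlgHom.comp_apply, MvPolynomial.comp_aeval, h1]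
    congr 2
    ext (_ | a) <;> simp
  have hp : I.IsPrime := ⟨(Ideal.ne_top_iff_one _).2 fun e => by simpa using k 1 e, fun e => h _ _ e⟩
  refine ⟨_ ⧸ I, inferInstance, inferInstance, inferInstance, Ideal.Quotient.mkₐ ℂ I,
    Ideal.Quotient.liftₐ I _ k, fun Q => Ideal.Quotient.eq_zero_iff_mem, fun δ u μ => ?_⟩
  refine (spc_pX (MvPolynomial.aeval fun a : ν × ν => (1 : Matrix ν ν ℂ) a.1 a.2) δ u μ).trans ?_
  simp only [MvPolynomial.aeval_X]
  rw [show (of fun i j => (1 : Matrix ν ν ℂ) i j) = 1 from rfl, Adj_one, vecMul_one]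
  rfl

end

end Pool.Agent.Lib.MP_5591bc_ag.M
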