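import Pool.Agent.Lib.MP_5591bc_ag.M.UpA
import Pool.Agent.Lib.MP_5591bc_ag.M.Tay

/-! The analytic estimate of the counting theorem in several variables. -/

namespace Pool.Agent.Lib.MP_5591bc_ag.M

open Filter Topology MvPowerSeries G W Metric Finset

noncomputable section

variable {σ : Type*} [Fintype σ] [DecidableEq σ]

theorem upb_bd {S S' : ℝ} {f f' : PowerSeries ℂ} (h : ∀ n, ‖PowerSeries.coeff n f‖ ≤ S / 16 ^ n)
    (h' : ∀ n, ‖PowerSeries.coeff n f'‖ ≤ S' / 8 ^ n) (n : ℕ) :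
    ‖PowerSeries.coeff n (f * f')‖ ≤ 2 * S * S' / 8 ^ n := by
  have S0 : 0 ≤ S := by simpa using (norm_nonneg _).trans (h 0)
  have S1 : 0 ≤ S' := by simpa using (norm_nonneg _).trans (h' 0)
  rw [PowerSeries.coeff_mul, Finset.Nat.sum_antidiagonal_eq_sum_range_succ_mk]
  refine (norm_sum_le _ _).trans ((sum_le_sum (g := fun i => S * S' / 8 ^ n * (1 / 2) ^ i)
    fun i hi => ?_).trans ?_)
  · obtain ⟨m, rfl⟩ := Nat.exists_eq_add_of_le (Nat.lt_succ_iff.1 (mem_range.1 hi))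
    rw [norm_mul, Nat.add_sub_cancel_left]
    refine (mul_le_mul (h i) (h' m) (norm_nonneg _) (by positivity)).trans_eq ?_
    rw [show (16 : ℝ) = 8 * 2 by norm_num, mul_pow, pow_add, one_div, inv_pow]
    field_simp
  · rw [← mul_sum, show 2 * S * S' / 8 ^ n = S * S' / 8 ^ n * 2 by ring]
    exact mul_le_mul_of_nonneg_left (sum_geometric_two_le _) (by positivity)

omit [DecidableEq σ] in
theorem Rad.mul {S S' ρ : ℝ} (ρ0 : 0 < ρ) {s x : σ → ℂ} {W W' : MvPowerSeries σ ℂ}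
    {g g' : (σ → ℂ) → ℂ} (h : Rad 16 S ρ s x W g) (h' : Rad 8 S' ρ s x W' g') :
    Rad 8 (2 * S * S') ρ s x (W * W') fun y => g y * g' y := by
  refine ⟨h.an.fun_mul h'.an, fun y hy n => ?_, ?_⟩
  · rw [map_mul]
    exact upb_bd (h.bd y hy) (h'.bd y hy) n
  · filter_upwards [h.sum, h'.sum, closedBall_mem_nhds x ρ0] with y h1 h2 hy
    have s1 := (upm_sum (S := S) (q := 16) (by norm_num)).of_nonneg_of_le (fun _ => norm_nonneg _)
      (h.bd y (mem_closedBall_iff_norm.1 hy))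
    have s2 := (upm_sum (S := S') (q := 8) (by norm_num)).of_nonneg_of_le (fun _ => norm_nonneg _)
      (h'.bd y (mem_closedBall_iff_norm.1 hy))
    have := (summable_norm_sum_mul_antidiagonal_of_summable_norm s1 s2).of_norm.hasSum
    rw [← tsum_mul_tsum_eq_tsum_sum_antidiagonal_of_summable_norm s1 s2, h1.tsum_eq,
      h2.tsum_eq] at this
    simpa only [map_mul, PowerSeries.coeff_mul] using this

omit [DecidableEq σ] in
theorem Rad.prod {S S' ρ : ℝ} (ρ0 : 0 < ρ) {s x : σ → ℂ} {V : MvPowerSeries σ ℂ}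
    {f : (σ → ℂ) → ℂ} (h0 : Rad 8 S' ρ s x V f) : ∀ {a : ℕ} {W : Fin a → MvPowerSeries σ ℂ}
    {g : Fin a → (σ → ℂ) → ℂ}, (∀ l, Rad 16 S ρ s x (W l) (g l)) →
    Rad 8 (S' * (2 * S) ^ a) ρ s x (V * ∏ l, W l) fun y => f y * ∏ l, g l y
  | 0, _, _, _ => by simpa using h0
  | a + 1, W, g, h => by
    have := (h 0).mul ρ0 (Rad.prod ρ0 h0 fun l => h l.succ)
    simp only [Fin.prod_univ_succ]
    convert this using 1
    · ring
    · ring
    · ext; ring

omit [DecidableEq σ] in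
theorem upb_dirX {R : Type*} [CommRing R] (v : σ → R) (l : σ) :
    dir v (X l) = PowerSeries.C (v l) * PowerSeries.X := by
  classical
  ext n
  rw [upm_dir, PowerSeries.coeff_C_mul, PowerSeries.coeff_X]
  simp only [coeff_X, mul_ite, mul_one, mul_zero, sum_ite_eq', upm_mem, Finsupp.degree_single]
  refine if_congr eq_comm ?_ rfl
  rw [prod_eq_single l (fun m _ hm => by rw [Finsupp.single_eq_of_ne hm, pow_zero]) (by simp)]
  simp

theorem upb_mon {ρ h : ℝ} (h1 : 1 ≤ h) {s x : σ → ℂ} (hx : ∀ l, ‖x l - s l‖ + ρ ≤ h) {e : σ → ℕ}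
    {D : ℕ} (hD : ∑ l, e l ≤ D) :
    Rad 8 ((8 * h) ^ D) ρ s x (∏ l, X l ^ e l) fun y => ∏ l, (y l - s l) ^ e l := by
  have e1 : ∀ (y : σ → ℂ) n, PowerSeries.coeff n (dir (y - s) (∏ l, X l ^ e l)) =
      if n = ∑ l, e l then ∏ l, (y l - s l) ^ e l else 0 := fun y n => by
    simp only [map_prod, map_pow, upb_dirX, mul_pow, prod_mul_distrib, prod_pow_eq_pow_sum]
    simp only [← map_pow, ← map_prod, PowerSeries.coeff_C_mul, PowerSeries.coeff_X_pow,
      Pi.sub_apply, mul_ite, mul_one, mul_zero]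
  refine ⟨Finset.analyticAt_fun_prod _ fun l _ => ((coord_ana l).fun_sub analyticAt_const).fun_pow _,
    fun y hy n => ?_, Eventually.of_forall fun y => ?_⟩
  · rw [e1]
    split_ifs with hn
    · rw [le_div_iff₀ (by positivity), norm_prod, hn]
      refine le_trans ?_ (pow_le_pow_right₀ (by linarith) hD)
      rw [mul_pow, mul_comm, ← prod_pow_eq_pow_sum _ _ h]
      refine mul_le_mul_of_nonneg_left (prod_le_prod (fun _ _ => norm_nonneg _) fun l _ => ?_)
        (by positivity)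
      rw [norm_pow]
      refine pow_le_pow_left₀ (norm_nonneg _) (le_trans ?_ (hx l)) _
      rw [add_comm, ← sub_add_sub_cancel (y l) (x l) (s l)]
      exact (norm_add_le _ _).trans (add_le_add_left ((norm_le_pi_norm (y - x) l).trans hy) _)
    · rw [norm_zero]; positivity
  · simp only [e1]
    exact hasSum_ite_eq _ _

omit [DecidableEq σ] in
theorem upb_τ {L : Type*} [CommRing L] (x s : σ → L) (e : σ → ℕ) :
    τm x (mns s e) = ∏ l, (X l + C (x l - s l)) ^ e l := by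
  simp only [mns, map_prod, map_pow, map_sub, τm_eq, MvPolynomial.aeval_X, MvPolynomial.aeval_C,
    add_sub_assoc]
  rfl

variable {K L A J : Type*} [Field K] [Field L] [Fintype A] [Fintype J] {a k : ℕ}

/-- the analytic estimate -/
theorem upb_main (ι : L →+* ℂ) (φ : K →+* ℂ) {s : σ → L} {ρ S h C : ℝ} (ρ0 : 0 < ρ)
    (h1 : 1 ≤ h) (S0 : 0 ≤ S) {W : A → A → MvPowerSeries σ K} (al : J → Fin a → A)
    {ex : J → σ → ℕ} {D Y : ℕ} (hD : ∀ j, ∑ l, ex j l ≤ D) {x : Fin k → σ → L}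
    {Φ : Fin k → A → MvPowerSeries σ L} {μ : Fin k → A → ℂ} {g : Fin k → A → (σ → ℂ) → ℂ}
    (hx : ∀ i l, ‖ι (x i l) - ι (s l)‖ + ρ ≤ h)
    (hg : ∀ i α, Rad 16 S ρ (fun l => ι (s l)) (fun l => ι (x i l))
      (∑ β, MvPowerSeries.C (μ i β) * map φ (W β α)) (g i α) ∧
      tayM (g i α) (fun l => ι (x i l)) = map ι (Φ i α))
    {c : (Fin k → J) → ℂ} (hc : ∀ γ, ‖c γ‖ ≤ C)
    (hz : ∀ κ : Fin k → σ →₀ ℕ, ∑ i, (κ i).degree < Y →
      ∑ β : Fin k → Fin a → A, (∏ i, ∏ l, μ i (β i l)) * ∑ γ, c γ * ∏ i,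
        φ (coeff (κ i) ((∏ l, X l ^ ex (γ i) l) * ∏ l, W (β i l) (al (γ i) l))) = 0)
    (n : Fin k → σ →₀ ℕ) :
    ‖∑ γ, c γ * ∏ i, ι (coeff (n i) (τm (x i) (mns s (ex (γ i))) * ∏ l, Φ i (al (γ i) l)))‖ ≤
      C * (Fintype.card J ^ k * ((2 * ((8 * h) ^ D * (2 * S) ^ a)) ^ k * (1 / 4) ^ Y *
        (2 / ρ) ^ ∑ i, (n i).degree)) := by
  classical
  have am : ∀ i j, AnalyticAt ℂ (fun y : σ → ℂ => ∏ l, (y l - ι (s l)) ^ ex j l)
      fun l => ι (x i l) := fun i j => (upb_mon h1 (hx i) (hD j)).an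
  have key := upm_main c (q := 8) (S := fun _ => (8 * h) ^ D * (2 * S) ^ a) (by norm_num) ρ0
    (fun _ => by positivity)
    (Φ := fun i j => map ι (τm (x i) (mns s (ex j)) * ∏ l, Φ i (al j l)))
    (fun i j => (upb_mon h1 (hx i) (hD j)).prod ρ0 fun l => (hg i (al j l)).1)
    (fun i j v => by
      rw [← dir_tayM ((am i j).fun_mul (Finset.analyticAt_fun_prod _ fun l _ => (hg i _).1.an)),
        tayM_mul (am i j) (Finset.analyticAt_fun_prod _ fun l _ => (hg i _).1.an),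
        tayM_prod _ fun l _ => (hg i _).1.an, tayM_prod _ fun l _ =>
          ((coord_ana l).fun_sub analyticAt_const).fun_pow _]
      simp only [tayM_pow ((coord_ana _).fun_sub analyticAt_const),
        tayM_sub (coord_ana _) analyticAt_const, tayM_coord, tayM_const, (hg i _).2, upb_τ, map_mul,
        map_prod, map_pow, map_add, map_X, map_C, map_sub, add_sub_assoc]) (Y := Y)
    (fun κ hκ => by
      rw [← hz κ hκ]
      simp only [mul_sum]
      rw [sum_comm]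
      refine sum_congr rfl fun γ _ => ?_
      have : ∀ i, coeff (κ i) ((∏ l, X l ^ ex (γ i) l) *
          ∏ l, ∑ β, MvPowerSeries.C (μ i β) * map φ (W β (al (γ i) l))) =
          ∑ β : Fin a → A, (∏ l, μ i (β l)) *
            φ (coeff (κ i) ((∏ l, X l ^ ex (γ i) l) * ∏ l, W (β l) (al (γ i) l))) := fun i => by
        simp only [prod_univ_sum, Fintype.piFinset_univ, mul_sum, map_sum, prod_mul_distrib,
          ← map_prod (MvPowerSeries.C (σ := σ) (R := ℂ))]
        refine sum_congr rfl fun β _ => ?_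
        rw [mul_left_comm, coeff_C_mul, ← coeff_map]
        simp only [map_mul, map_prod, map_pow, map_X]
      simp only [this]
      simp only [prod_univ_sum, Fintype.piFinset_univ, mul_sum, prod_mul_distrib]
      exact sum_congr rfl fun β _ => by ring) n
  simp only [coeff_map, prod_const, card_univ, Fintype.card_fin] at key
  refine key.trans ?_
  have : ∑ γ, ‖c γ‖ ≤ C * Fintype.card J ^ k :=
    (sum_le_card_nsmul _ _ C fun γ _ => hc γ).trans (by simp [mul_comm])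
  rw [← mul_assoc C, mul_assoc (∑ γ, ‖c γ‖), mul_assoc (∑ γ, ‖c γ‖),
    show (2 / 8 : ℝ) = 1 / 4 by norm_num, mul_assoc (_ ^ k) ((1 / 4 : ℝ) ^ Y)]
  rw [← mul_assoc (_ ^ k) ((1 / 4 : ℝ) ^ Y)]
  exact mul_le_mul_of_nonneg_right this (by positivity)

end

end Pool.Agent.Lib.MP_5591bc_ag.M
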