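import Mathlib

/-! Cells adapted to a hyperplane arrangement. -/

namespace Pool.Agent.Lib.MP_5591bc_ag.M

open Finset MvPolynomial

/-- cells for one complex number with a scale -/
theorem cva_one {lo : ℝ} (hlo : 0 < lo) {m : ℕ} (m0 : 0 < m) (J : ℕ) :
    ∃ (t : Finset (ℕ × ℤ × ℤ)) (c : ℂ → ℝ → ℕ × ℤ × ℤ), t.card ≤ J * (8 * m + 1) ^ 2 ∧
      (∀ a d, lo ≤ d → d < 2 ^ J * lo → ‖a‖ ≤ d → c a d ∈ t) ∧
      ∀ a d a' d', lo ≤ d' → c a d = c a' d' → ‖a - a'‖ < d' / m := by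
  have hj : ∀ d : ℝ, ∃ j : ℕ, lo ≤ d → 2 ^ j * lo ≤ d ∧ d < 2 ^ (j + 1) * lo := fun d => by
    by_cases h : lo ≤ d
    · obtain ⟨j, h1, h2⟩ := exists_nat_pow_near ((one_le_div hlo).2 h) (one_lt_two (α := ℝ))
      exact ⟨j, fun _ => ⟨(le_div_iff₀ hlo).1 h1, (div_lt_iff₀ hlo).1 h2⟩⟩
    · exact ⟨0, fun h' => absurd h' h⟩
  choose j hj using hj
  have mp : (0 : ℝ) < m := by exact_mod_cast m0
  refine ⟨range J ×ˢ Icc (-(4 * m : ℤ)) (4 * m) ×ˢ Icc (-(4 * m : ℤ)) (4 * m),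
    fun a d => (j d, ⌊a.re / (2 ^ j d * lo / (2 * m))⌋, ⌊a.im / (2 ^ j d * lo / (2 * m))⌋),
    ?_, fun a d h1 h2 h3 => ?_, fun a d a' d' h1 e => ?_⟩
  · rw [card_product, card_product, card_range, Int.card_Icc,
      show ((4 * m : ℤ) + 1 - -(4 * m : ℤ)).toNat = 8 * m + 1 by omega, sq]
  · obtain ⟨k1, k2⟩ := hj d h1
    have hp : 0 < 2 ^ j d * lo / (2 * m) := by positivity
    have key : ∀ u : ℝ, |u| ≤ d → ⌊u / (2 ^ j d * lo / (2 * m))⌋ ∈ Icc (-(4 * m : ℤ)) (4 * m) := by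
      intro u hu
      have e : (4 * m : ℝ) * (2 ^ j d * lo / (2 * m)) = 2 ^ (j d + 1) * lo := by
        field_simp; ring
      obtain ⟨u1, u2⟩ := abs_le.1 hu
      rw [mem_Icc, Int.le_floor, Int.floor_le_iff, le_div_iff₀ hp, div_lt_iff₀ hp]
      push_cast
      constructor <;> nlinarith
    refine mem_product.2 ⟨mem_range.2 ?_, mem_product.2
      ⟨key _ ((Complex.abs_re_le_norm a).trans h3), key _ ((Complex.abs_im_le_norm a).trans h3)⟩⟩
    exact (pow_lt_pow_iff_right₀ (one_lt_two (α := ℝ))).1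
      (lt_of_mul_lt_mul_right (k1.trans_lt h2) hlo.le)
  · simp only [Prod.mk.injEq] at e
    obtain ⟨e1, e2, e3⟩ := e
    rw [e1] at e2 e3
    have hp : 0 < 2 ^ j d' * lo / (2 * m) := by positivity
    have near : ∀ u v : ℝ, ⌊u / (2 ^ j d' * lo / (2 * m))⌋ = ⌊v / (2 ^ j d' * lo / (2 * m))⌋ →
        |u - v| < d' / (2 * m) := fun u v h => by
      have := Int.abs_sub_lt_one_of_floor_eq_floor h
      rw [← sub_div, abs_div, abs_of_pos hp, div_lt_one hp] at this
      exact this.trans_le (div_le_div_of_nonneg_right (hj d' h1).1 (by positivity))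
    have e4 := Complex.norm_le_abs_re_add_abs_im (a - a')
    have e5 : d' / m = d' / (2 * m) + d' / (2 * m) := by field_simp; ring
    rw [Complex.sub_re, Complex.sub_im] at e4
    linarith [near _ _ e2, near _ _ e3]

/-- cells for finitely many numbers -/
theorem cva_pi {α ι : Type*} [Fintype ι] (f : ι → α → ℂ) (d : ι → α → ℝ) {lo : ℝ} (hlo : 0 < lo)
    {m : ℕ} (m0 : 0 < m) (J : ℕ) {S : Set α}
    (h : ∀ x ∈ S, ∀ i, lo ≤ d i x ∧ d i x < 2 ^ J * lo ∧ ‖f i x‖ ≤ d i x) :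
    ∃ (t : Finset (ι → ℕ × ℤ × ℤ)) (c : α → ι → ℕ × ℤ × ℤ),
      t.card ≤ (J * (8 * m + 1) ^ 2) ^ Fintype.card ι ∧ (∀ x ∈ S, c x ∈ t) ∧
      ∀ x, ∀ s ∈ S, c x = c s → ∀ i, ‖f i x - f i s‖ < d i s / m := by
  classical
  obtain ⟨t, c, h1, h2, h3⟩ := cva_one hlo m0 J
  refine ⟨Fintype.piFinset fun _ => t, fun x i => c (f i x) (d i x), ?_,
    fun x hx => Fintype.mem_piFinset.2 fun i => h2 _ _ (h x hx i).1 (h x hx i).2.1 (h x hx i).2.2,
    fun x s hs e i => h3 _ _ _ _ (h s hs i).1 (congrFun e i)⟩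
  rw [Fintype.card_piFinset, prod_const, card_univ]
  exact Nat.pow_le_pow_left h1 _

variable {σ : Type*} [Fintype σ]

theorem cva_mon (s : σ →₀ ℕ) {R : ℝ} (R1 : 1 ≤ R) {x y : σ → ℂ} (hx : ‖x‖ ≤ R) (hy : ‖y‖ ≤ R) :
    ‖s.prod fun i e => x i ^ e‖ ≤ R ^ s.degree ∧
    ‖(s.prod fun i e => x i ^ e) - s.prod fun i e => y i ^ e‖ * R ≤
      s.degree * R ^ s.degree * ‖x - y‖ := by
  induction s using Finsupp.induction_linear generalizing x y with
  | zero => simp
  | add s t hs ht =>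
    obtain ⟨a1, a2⟩ := hs hx hy
    obtain ⟨b1, b2⟩ := ht hx hy
    have b3 := (ht hy hx).1
    have pa : ∀ z : σ → ℂ, ((s + t).prod fun i e => z i ^ e) =
        (s.prod fun i e => z i ^ e) * t.prod fun i e => z i ^ e := fun z =>
      Finsupp.prod_add_index' (fun _ => pow_zero _) (fun _ _ _ => pow_add _ _ _)
    rw [pa, pa, map_add, pow_add]
    refine ⟨(norm_mul_le _ _).trans (by gcongr), ?_⟩
    set p := s.prod fun i e => x i ^ e
    set p' := s.prod fun i e => y i ^ e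
    set q := t.prod fun i e => x i ^ e
    set q' := t.prod fun i e => y i ^ e
    have e : p * q - p' * q' = p * (q - q') + (p - p') * q' := by ring
    have n := norm_add_le (p * (q - q')) ((p - p') * q')
    rw [norm_mul, norm_mul, ← e] at n
    have R0 : 0 ≤ R := by linarith
    have c1 : ‖p‖ * (‖q - q'‖ * R) ≤ R ^ s.degree * (t.degree * R ^ t.degree * ‖x - y‖) :=
      mul_le_mul a1 b2 (by positivity) (by positivity)
    have c2 : ‖p - p'‖ * R * ‖q'‖ ≤ s.degree * R ^ s.degree * ‖x - y‖ * R ^ t.degree :=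
      mul_le_mul a2 b3 (by positivity) (by positivity)
    push_cast
    nlinarith [mul_le_mul_of_nonneg_right n R0]
  | single i e =>
    have xi := (norm_le_pi_norm x i).trans hx
    have yi := (norm_le_pi_norm y i).trans hy
    have di : ‖x i - y i‖ ≤ ‖x - y‖ := norm_le_pi_norm (x - y) i
    have ps : ∀ z : σ → ℂ, ((Finsupp.single i e).prod fun i e => z i ^ e) = z i ^ e := fun z =>
      Finsupp.prod_single_index (pow_zero _)
    rw [ps, ps, Finsupp.degree_single]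
    clear ps
    refine ⟨by rw [norm_pow]; gcongr, ?_⟩
    induction e with
    | zero => simp
    | succ e ih =>
      have e1 : x i ^ (e + 1) - y i ^ (e + 1) = x i ^ e * (x i - y i) + (x i ^ e - y i ^ e) * y i := by
        ring
      have n := norm_add_le (x i ^ e * (x i - y i)) ((x i ^ e - y i ^ e) * y i)
      rw [norm_mul, norm_mul, ← e1, norm_pow] at n
      have R0 : 0 ≤ R := by linarith
      have c1 : ‖x i‖ ^ e * ‖x i - y i‖ ≤ R ^ e * ‖x - y‖ := by gcongr
      have c2 : ‖x i ^ e - y i ^ e‖ * R * ‖y i‖ ≤ e * R ^ e * ‖x - y‖ * R :=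
        mul_le_mul ih yi (by positivity) (by positivity)
      push_cast
      rw [pow_succ R e]
      nlinarith [mul_le_mul_of_nonneg_right n R0, mul_le_mul_of_nonneg_right c1 R0]

/-- size and Lipschitz constant of a polynomial -/
theorem cva_poly (p : MvPolynomial σ ℂ) : ∃ A : ℝ, 1 ≤ A ∧ ∀ R : ℝ, 1 ≤ R → ∀ x y : σ → ℂ,
    ‖x‖ ≤ R → ‖y‖ ≤ R → ‖eval x p‖ ≤ A * R ^ p.totalDegree ∧
      ‖eval x p - eval y p‖ * R ≤ A * R ^ p.totalDegree * ‖x - y‖ := by
  set n := p.totalDegree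
  have S0 : 0 ≤ ∑ s ∈ p.support, ‖p.coeff s‖ := sum_nonneg fun _ _ => norm_nonneg _
  have n0 : (0 : ℝ) ≤ n := Nat.cast_nonneg n
  refine ⟨(∑ s ∈ p.support, ‖p.coeff s‖) * (n + 1) + 1, by nlinarith, fun R R1 x y hx hy => ?_⟩
  have R0 : 0 ≤ R := by linarith
  have dg : ∀ s ∈ p.support, s.degree ≤ n := fun s hs => le_totalDegree hs
  have pw : ∀ s ∈ p.support, R ^ s.degree ≤ R ^ n := fun s hs => pow_le_pow_right₀ R1 (dg s hs)
  have Rn : 0 ≤ R ^ n := by positivity
  simp only [eval_eq]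
  constructor
  · refine (norm_sum_le _ _).trans ((sum_le_sum (g := fun s => ‖p.coeff s‖ * R ^ n)
      fun s hs => ?_).trans ?_)
    · rw [norm_mul]
      exact mul_le_mul_of_nonneg_left ((cva_mon s R1 hx hy).1.trans (pw s hs)) (norm_nonneg _)
    · rw [← sum_mul]
      exact mul_le_mul_of_nonneg_right (by nlinarith) Rn
  · rw [← sum_sub_distrib]
    refine (mul_le_mul_of_nonneg_right (norm_sum_le _ _) R0).trans ?_
    rw [sum_mul]
    refine (sum_le_sum (g := fun s => ‖p.coeff s‖ * (n * R ^ n * ‖x - y‖)) fun s hs => ?_).trans ?_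
    · rw [← mul_sub, norm_mul, mul_assoc]
      refine mul_le_mul_of_nonneg_left ((cva_mon s R1 hx hy).2.trans ?_) (norm_nonneg _)
      have : (s.degree : ℝ) ≤ n := by exact_mod_cast dg s hs
      exact mul_le_mul_of_nonneg_right (mul_le_mul this (pw s hs) (by positivity) n0)
        (norm_nonneg _)
    · rw [← sum_mul, ← mul_assoc, ← mul_assoc]
      exact mul_le_mul_of_nonneg_right (mul_le_mul_of_nonneg_right (by nlinarith) Rn)
        (norm_nonneg _)

/-- polynomials of degree at most one are affine -/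
theorem cva_aff {p : MvPolynomial σ ℂ} (hp : p.totalDegree ≤ 1) : ∃ L : (σ → ℂ) →L[ℂ] ℂ,
    ∀ x y, eval (x + y) p = eval x p + L y := by
  classical
  refine ⟨∑ i, p.coeff (Finsupp.single i 1) • ContinuousLinearMap.proj i, fun x y => ?_⟩
  have e : p = C (p.coeff 0) + ∑ i, C (p.coeff (Finsupp.single i 1)) * X i := by
    ext s
    rw [coeff_add, coeff_sum, coeff_C]
    simp only [coeff_C_mul, coeff_X]
    by_cases h0 : s = 0
    · subst h0; simp [Finsupp.single_eq_zero]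
    by_cases h1 : ∃ i, Finsupp.single i 1 = s
    · obtain ⟨i, rfl⟩ := h1
      simp [Finsupp.single_left_inj, Ne.symm h0]
    · have : s ∉ p.support := fun hs => by
        have d : s.degree ≤ 1 := (le_totalDegree hs).trans hp
        have d0 : s.degree ≠ 0 := by rwa [Ne, Finsupp.degree_eq_zero_iff]
        have d1 : s ∈ {d : σ →₀ ℕ | d.degree = 1} := show s.degree = 1 by omega
        rw [← Finsupp.range_single_one] at d1
        exact h1 d1
      rw [notMem_support_iff.1 this, if_neg (Ne.symm h0), zero_add]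
      exact (sum_eq_zero fun i _ => by rw [if_neg fun h => h1 ⟨i, h⟩, mul_zero]).symm
  have ev : ∀ z : σ → ℂ, eval z p = p.coeff 0 + ∑ i, p.coeff (Finsupp.single i 1) * z i :=
    fun z => by
      conv_lhs => rw [e]
      simp
  rw [ev, ev]
  simp [mul_add, sum_add_distrib, add_assoc]

end Pool.Agent.Lib.MP_5591bc_ag.M
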