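import Mathlib

/-! A hypersurface with high multiplicity at finitely many points gives one of low degree. -/

namespace Pool.Agent.Lib.MP_5591bc_ag.M

open MvPolynomial Finset

noncomputable section

variable {σ : Type*}

/-- the component of a polynomial on the exponents congruent to `β` modulo `q` -/
def wsU (F : Type*) [CommRing F] (q : ℕ) (β : σ → ℕ) : MvPolynomial σ F →ₗ[F] MvPolynomial σ F := by
  classical
  exact (basisMonomials σ F).constr F fun d =>
    if ∀ l, d l % q = β l then monomial (d.mapRange (· / q) (Nat.zero_div q)) 1 else 0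

section comp
variable {F : Type*} [CommRing F] {q : ℕ} {β : σ → ℕ}

open Classical in
theorem wsU_mon (d : σ →₀ ℕ) (c : F) : wsU F q β (monomial d c) =
    if ∀ l, d l % q = β l then monomial (d.mapRange (· / q) (Nat.zero_div q)) c else 0 := by
  have e : (monomial d c : MvPolynomial σ F) = c • basisMonomials σ F d := by
    simp [smul_monomial]
  rw [e, map_smul, wsU, Module.Basis.constr_basis]
  split_ifs <;> simp [smul_monomial]

theorem wsU_coeff (g : MvPolynomial σ F) {d : σ →₀ ℕ} (hd : ∀ l, d l % q = β l) :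
    coeff (d.mapRange (· / q) (Nat.zero_div q)) (wsU F q β g) = coeff d g := by
  classical
  induction g using MvPolynomial.induction_on' with
  | add p r hp hr => simp only [map_add, coeff_add, hp, hr]
  | monomial e c =>
    rw [wsU_mon, coeff_monomial]
    by_cases h : e = d
    · rw [h, if_pos hd, coeff_monomial, if_pos rfl, if_pos rfl]
    · rw [if_neg h]
      split_ifs with he
      · rw [coeff_monomial, if_neg]
        intro h1
        refine h (Finsupp.ext fun l => ?_)
        have h2 : e l / q = d l / q := by simpa using DFunLike.congr_fun h1 l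
        rw [← Nat.div_add_mod (e l) q, h2, he, ← hd, Nat.div_add_mod]
      · rfl

theorem wsU_deg [Fintype σ] (g : MvPolynomial σ F) :
    (wsU F q β g).totalDegree ≤ g.totalDegree / q := by
  classical
  conv_lhs => rw [g.as_sum, map_sum]
  refine totalDegree_finsetSum_le fun d hd => ?_
  rw [wsU_mon]
  split_ifs
  · refine (totalDegree_monomial_le _ _).trans (le_trans ?_
      (Nat.div_le_div_right (le_totalDegree hd)))
    rw [Finsupp.sum_fintype _ _ (fun _ => rfl), Finsupp.sum_fintype _ _ (fun _ => rfl)]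
    rcases Nat.eq_zero_or_pos q with rfl | q0
    · simp
    · rw [Nat.le_div_iff_mul_le q0, sum_mul]
      exact sum_le_sum fun l _ => Nat.div_mul_le_self _ _
  · simp

theorem wsU_kill (q0 : 0 < q) (x : σ → F) (l : σ) (h : MvPolynomial σ F) :
    eval x (wsU F q β (h * (X l ^ q - C (x l)))) = 0 := by
  classical
  induction h using MvPolynomial.induction_on' with
  | add p r hp hr => rw [add_mul, map_add, map_add, hp, hr, add_zero]
  | monomial e c =>
    have e1 : ∀ j, (e + Finsupp.single l q : σ →₀ ℕ) j % q = e j % q := fun j => by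
      rw [Finsupp.add_apply, Finsupp.single_apply]
      split_ifs <;> simp
    have e2 : (e + Finsupp.single l q).mapRange (· / q) (Nat.zero_div q) =
        e.mapRange (· / q) (Nat.zero_div q) + Finsupp.single l 1 := Finsupp.ext fun j => by
      simp only [Finsupp.mapRange_apply, Finsupp.add_apply, Finsupp.single_apply]
      split_ifs
      · exact Nat.add_div_right _ q0
      · rfl
    rw [mul_sub, X_pow_eq_monomial, monomial_mul, C_apply, monomial_mul, map_sub, wsU_mon, wsU_mon,
      add_zero]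
    simp only [e1, e2]
    split_ifs
    · rw [← monomial_mul, ← X, map_sub, map_mul, eval_X, eval_monomial, eval_monomial]
      ring
    · simp

end comp

theorem ws_frob {F : Type*} [Field F] [Fintype F] (l : σ) (a : F) (e : ℕ) :
    (X l - C a : MvPolynomial σ F) ^ Fintype.card F ^ e = X l ^ Fintype.card F ^ e - C a := by
  induction e with
  | zero => simp
  | succ e ih =>
    have := map_sub (FiniteField.frobeniusAlgHom F (MvPolynomial σ F))
      (X l ^ Fintype.card F ^ e) (C a)
    rw [← algebraMap_eq, AlgHom.commutes, FiniteField.coe_frobeniusAlgHom] at this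
    rw [pow_succ, pow_mul, ih, pow_mul]
    exact this

/-- the case of a finite field -/
theorem ws_fin {F J : Type*} [Field F] [Finite F] [Fintype σ] (x : J → σ → F)
    {f : MvPolynomial σ F} (f0 : f ≠ 0) {D μ : ℕ} (hD : f.totalDegree ≤ D) (μ0 : 0 < μ)
    (h : ∀ j, ∀ d : σ →₀ ℕ, d.degree < μ → coeff d (aeval (fun i => X i + C (x j i)) f) = 0) :
    ∃ Θ : MvPolynomial σ F, Θ ≠ 0 ∧ Θ.totalDegree ≤ Fintype.card σ * D / μ + 1 ∧
      ∀ j, eval (x j) Θ = 0 := by
  classical
  have := Fintype.ofFinite F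
  obtain ⟨q, hq⟩ : ∃ q, q = Fintype.card F ^ D := ⟨_, rfl⟩
  obtain ⟨k, hk⟩ : ∃ k, k = Fintype.card σ := ⟨_, rfl⟩
  have qD : D < q := hq ▸ Nat.lt_pow_self Fintype.one_lt_card
  have q0 : 0 < q := by omega
  obtain ⟨a, ha⟩ : ∃ a, a = k * q / μ + 1 := ⟨_, rfl⟩
  have a1 : k * q < μ * a := ha ▸ Nat.lt_mul_div_succ _ μ0
  have a2 : μ * a ≤ k * q + μ := by
    rw [ha, mul_add_one]
    exact Nat.add_le_add_right (Nat.mul_div_le _ _) _
  obtain ⟨d, hd⟩ := ne_zero_iff.1 (pow_ne_zero a f0)
  refine ⟨wsU F q (fun l => d l % q) (f ^ a), fun e => hd ?_, ?_, fun j => ?_⟩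
  · rw [← wsU_coeff (q := q) (f ^ a) (fun _ => rfl), e, coeff_zero]
  · refine (wsU_deg _).trans ?_
    have h1 := (totalDegree_pow f a).trans (Nat.mul_le_mul_left a hD)
    have h2 := (Nat.div_mul_le_self _ q).trans h1
    generalize (f ^ a).totalDegree / q = n at h2
    have h3 := Nat.lt_mul_div_succ (k * D) μ0
    rw [← hk]
    generalize k * D / μ = s at h3
    by_contra h4
    have h5 : s + 2 ≤ n := by omega
    have h6 : μ * ((s + 2) * q) ≤ μ * (a * D) :=
      Nat.mul_le_mul_left _ ((Nat.mul_le_mul_right q h5).trans h2)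
    have h7 : μ * a * D ≤ (k * q + μ) * D := Nat.mul_le_mul_right D a2
    have h8 : k * D * q ≤ μ * (s + 1) * q := Nat.mul_le_mul_right q h3.le
    have h9 : μ * D < μ * q := Nat.mul_lt_mul_of_pos_left qD μ0
    nlinarith
  · have h1 : aeval (fun i => X i + C (x j i)) (f ^ a) ∈ idealOfVars σ F ^ (μ * a) := by
      rw [map_pow, pow_mul]
      exact Ideal.pow_mem_pow ((mem_pow_idealOfVars_iff' _ _).2 (h j)) a
    have h2 : ∀ g : MvPolynomial σ F, aeval (fun i => X i - C (x j i))
        (aeval (fun i => (X i + C (x j i) : MvPolynomial σ F)) g) = g := fun g => by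
      rw [← AlgHom.comp_apply]
      refine DFunLike.congr_fun (?_ : _ = AlgHom.id F _) g
      ext i : 1
      simp
    rw [← h2 (f ^ a)]
    generalize aeval (fun i => (X i + C (x j i) : MvPolynomial σ F)) (f ^ a) = g at h1
    rw [g.as_sum, map_sum, map_sum, map_sum]
    refine sum_eq_zero fun e he => ?_
    obtain ⟨l, hl⟩ : ∃ l, q ≤ e l := by
      by_contra! h3
      have h4 := (mem_pow_idealOfVars_iff _ _).1 h1 e he
      rw [Finsupp.degree_eq_sum] at h4
      have h5 := sum_le_card_nsmul univ (fun l => e l) q fun l _ => (h3 l).le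
      rw [card_univ, ← hk, smul_eq_mul] at h5
      omega
    have h3 : e = e - Finsupp.single l q + Finsupp.single l q :=
      (tsub_add_cancel_of_le (Finsupp.single_le_iff.2 hl)).symm
    have h4 := ws_frob l (x j l) D
    rw [← hq] at h4
    rw [h3, ← mul_one (coeff _ g), ← monomial_mul, ← X_pow_eq_monomial, map_mul, map_pow, aeval_X,
      h4]
    exact wsU_kill q0 _ _ _

theorem ws_jac : IsJacobsonRing ℤ := by
  rw [isJacobsonRing_iff_prime_eq]
  intro P hP
  by_cases h : P = ⊥
  · subst h
    rw [eq_bot_iff]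
    intro x hx
    rw [Ideal.mem_bot]
    by_contra hx0
    obtain ⟨p, hp1, hp⟩ := Nat.exists_infinite_primes (x.natAbs + 1)
    have hmax : (Ideal.span {(p : ℤ)}).IsMaximal :=
      PrincipalIdealRing.isMaximal_of_irreducible (Nat.prime_iff_prime_int.mp hp).irreducible
    have h1 : x ∈ Ideal.span {(p : ℤ)} := Ideal.mem_sInf.mp hx ⟨bot_le, hmax⟩
    rw [Ideal.mem_span_singleton, Int.natCast_dvd] at h1
    have := Nat.le_of_dvd (Int.natAbs_pos.mpr hx0) h1
    omega
  · have := Ring.DimensionLEOne.maximalOfPrime h hP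
    exact Ideal.jacobson_eq_self_of_isMaximal

/-- finitely many elements of a field specialise to a finite field -/
theorem ws_spec {L : Type*} [Field L] {T : Set L} (hT : T.Finite) :
    ∃ A : Subring L, T ⊆ A ∧ ∃ m : Ideal A, m.IsMaximal ∧ Finite (A ⧸ m) := by
  let B := Algebra.adjoin ℤ T
  have hB : Algebra.FiniteType ℤ B := .adjoin_of_finite hT
  obtain ⟨m, hm⟩ := Ideal.exists_maximal B
  refine ⟨B.toSubring, Algebra.subset_adjoin, m, hm, ?_⟩
  let _ := Ideal.Quotient.field m
  have := ws_jac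
  have hfin := finite_of_finite_type_of_isJacobsonRing ℤ (B ⧸ m)
  obtain ⟨p, hp⟩ := CharP.exists (B ⧸ m)
  have hp0 : p ≠ 0 := by
    rintro rfl
    have := CharP.charP_to_charZero (B ⧸ m)
    exact Int.not_isField (isField_of_isIntegral_of_isField (R := ℤ) (S := B ⧸ m)
      (algebraMap ℤ (B ⧸ m)).injective_int (Field.toIsField _))
  have : NeZero p := ⟨hp0⟩
  let _ := ZMod.algebra (B ⧸ m) p
  have : Module.Finite (ZMod p) (B ⧸ m) := Module.Finite.of_restrictScalars_finite ℤ _ _
  exact Module.finite_of_finite (ZMod p)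

theorem ws_map {A S : Type*} [CommRing A] [CommRing S] (κ : A →+* S) (z : σ → A)
    (g : MvPolynomial σ A) :
    aeval (fun i => X i + C (κ (z i))) (map κ g) = map κ (aeval (fun i => X i + C (z i)) g) := by
  rw [aeval_eq_bind₁, aeval_eq_bind₁, map_bind₁]
  simp

/-- multiplicity `μ` in degree `D` gives a hypersurface of degree `k D / μ + 1` -/
theorem ws {L : Type*} [Field L] [Fintype σ] (Q : Finset (σ → L)) {f : MvPolynomial σ L}
    (f0 : f ≠ 0) {D μ : ℕ} (hD : f.totalDegree ≤ D) (μ0 : 0 < μ)
    (h : ∀ x ∈ Q, ∀ d : σ →₀ ℕ, d.degree < μ → coeff d (aeval (fun i => X i + C (x i)) f) = 0) :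
    ∃ Θ : MvPolynomial σ L, Θ ≠ 0 ∧ Θ.totalDegree ≤ Fintype.card σ * D / μ + 1 ∧
      ∀ x ∈ Q, eval x Θ = 0 := by
  classical
  obtain ⟨n, hn⟩ : ∃ n, n = Fintype.card σ * D / μ + 1 := ⟨_, rfl⟩
  rw [← hn]
  by_contra hno
  let M : Finset (σ →₀ ℕ) := (Finsupp.finite_of_degree_le (σ := σ) n).toFinset
  have hM : ∀ d, d ∈ M ↔ d.degree ≤ n := fun d => Set.Finite.mem_toFinset _
  let V : Matrix Q M L := Matrix.of fun x d => ∏ i, x.1 i ^ d.1 i
  have inj : LinearMap.ker (Matrix.toLin' V) = ⊥ := LinearMap.ker_eq_bot'.2 fun c hc => by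
    by_contra c0
    refine hno ⟨∑ d : M, monomial d.1 (c d), fun e => c0 (funext fun d => ?_),
      totalDegree_finsetSum_le fun d _ => (totalDegree_monomial_le _ _).trans ((hM _).1 d.2),
      fun x hx => ?_⟩
    · have := congrArg (coeff d.1) e
      rwa [coeff_sum, sum_eq_single d (fun b _ hb => by
        rw [coeff_monomial, if_neg fun e => hb (Subtype.ext e)]) (by simp), coeff_monomial,
        if_pos rfl] at this
    · rw [map_sum]
      refine Eq.trans (sum_congr rfl fun d _ => ?_) (congrFun hc ⟨x, hx⟩)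
      rw [eval_monomial, Finsupp.prod_fintype _ _ (fun _ => pow_zero _), mul_comm]
      rfl
  obtain ⟨r, hr⟩ := (Matrix.toLin' V).exists_leftInverse_of_injective inj
  have hR : LinearMap.toMatrix' r * V = 1 := Matrix.toLin'.injective (by
    rw [Matrix.toLin'_mul, Matrix.toLin'_toMatrix', hr, Matrix.toLin'_one])
  generalize LinearMap.toMatrix' r = R at hR
  obtain ⟨d0, hd0⟩ := ne_zero_iff.1 f0
  obtain ⟨A, hA, m, hm, hF⟩ := ws_spec (T := insert (coeff d0 f)⁻¹ ((f.coeffs : Set L) ∪
    ((Set.range fun p : Q × σ => p.1.1 p.2) ∪ Set.range fun p : M × Q => R p.1 p.2)))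
    (((finite_toSet _).union ((Set.finite_range _).union (Set.finite_range _))).insert _)
  let _ := Ideal.Quotient.field m
  let ψ := Ideal.Quotient.mk m
  obtain ⟨g, rfl⟩ : f ∈ Set.range (MvPolynomial.map A.subtype) := by
    rw [mem_range_map_iff_coeffs_subset]
    exact fun y hy => ⟨⟨y, hA (.inr (.inl hy))⟩, rfl⟩
  let y : Q → σ → A := fun x i => ⟨x.1 i, hA (.inr (.inr (.inl ⟨(x, i), rfl⟩)))⟩
  let R' : Matrix M Q A := Matrix.of fun d x => ⟨R d x, hA (.inr (.inr (.inr ⟨(d, x), rfl⟩)))⟩
  let V' : Matrix Q M A := Matrix.of fun x d => ∏ i, y x i ^ d.1 i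
  have hR' : R' * V' = 1 := Matrix.map_injective A.subtype_injective (by
    change (R' * V').map A.subtype = (1 : Matrix M M A).map A.subtype
    rw [Matrix.map_mul, Matrix.map_one _ (map_zero _) (map_one _), ← hR]
    congr 1
    ext x d
    simp [V, V', y])
  obtain ⟨Θ, Θ0, hΘ, hz⟩ := ws_fin (fun x i => ψ (y x i)) (f := map ψ g) (D := D) (fun e => by
    have h1 : coeff d0 g * ⟨_, hA (.inl rfl)⟩ = 1 := Subtype.ext
      ((congrArg (· * _) (coeff_map A.subtype g d0).symm).trans (mul_inv_cancel₀ hd0))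
    have h2 := congrArg ψ h1
    rw [map_mul, ← coeff_map, e, coeff_zero, zero_mul, map_one] at h2
    exact zero_ne_one h2)
    (le_trans (Finset.sup_mono (support_map_subset _ _)) (by
      rw [totalDegree, support_map_of_injective _ A.subtype_injective] at hD
      exact hD)) μ0 fun x d hd => by
      have h1 := h x.1 x.2 d hd
      rw [show (fun i => (X i + C (x.1 i) : MvPolynomial σ L)) =
        fun i => X i + C (A.subtype (y x i)) from rfl, ws_map, coeff_map] at h1
      rw [ws_map, coeff_map, A.subtype_injective (h1.trans (map_zero _).symm), map_zero]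
  rw [← hn] at hΘ
  have hs : Θ.support ⊆ M := fun d hd => (hM d).2 ((le_totalDegree hd).trans hΘ)
  have h1 : (V'.map ψ).mulVec (fun d => coeff d.1 Θ) = 0 := funext fun x => by
    have h2 := hz x
    rw [eval_eq', sum_subset hs (fun d _ hd => by rw [notMem_support_iff.1 hd, zero_mul]),
      ← sum_coe_sort] at h2
    refine Eq.trans (sum_congr rfl fun d _ => ?_) h2
    simp [V', mul_comm]
  have h2 := congrArg (R'.map ψ).mulVec h1
  rw [Matrix.mulVec_mulVec, ← Matrix.map_mul, hR', Matrix.map_one _ (map_zero _) (map_one _),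
    Matrix.one_mulVec, Matrix.mulVec_zero] at h2
  obtain ⟨d, hd⟩ := ne_zero_iff.1 Θ0
  exact hd (congrFun h2 ⟨d, hs (mem_support_iff.2 hd)⟩)

end

end Pool.Agent.Lib.MP_5591bc_ag.M
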