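import Pool.Agent.Lib.MP_5591bc_ag.M.ZerA
import Pool.Agent.Lib.MP_5591bc_ag.M.Ws
import Pool.Agent.Lib.MP_5591bc_ag.W.Amp

/-! The zero estimate on a grid, in several variables. -/

namespace Pool.Agent.Lib.MP_5591bc_ag.M

open Matrix MvPowerSeries G R W

noncomputable section

variable {σ L ι : Type*} [Fintype ι]

variable [Field L] [CharZero L] [Fintype σ] {T : MvPolynomial σ L}
  {B : σ → Matrix ι ι (MvPolynomial σ L)}

/-- the points where a non zero form vanishes to order `μ` lie on a hypersurface -/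
theorem zm_hyp {Φ : (σ → L) → ι → MvPowerSeries σ L} {P : Finset (σ → L)}
    (hT : ∀ x ∈ P, MvPolynomial.eval x T ≠ 0) (hS : ∀ x ∈ P, IsM (τm x) T B (Φ x)) {e D μ M : ℕ}
    (hTe : T.totalDegree ≤ e) (hB : ∀ l i j, (B l i j).totalDegree ≤ e)
    {φ : ι → MvPolynomial σ L} (hφ : ∀ i, (φ i).totalDegree ≤ D) (h1 : Fintype.card ι < μ)
    (hM : Fintype.card σ * (Fintype.card ι * (D + Fintype.card ι * e)) <
      M * (μ - Fintype.card ι)) (hμ : ∀ x ∈ P, On μ (prm (τm x) (Φ x) φ)) :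
    Hyp {x | x ∈ P ∧ prm (τm x) (Φ x) φ ≠ 0} M := by
  classical
  obtain ⟨Δ, d0, d1, d2⟩ := zm_delta hTe hB hφ
  obtain ⟨Θ, t0, t1, t2⟩ := ws (P.filter fun x => prm (τm x) (Φ x) φ ≠ 0) d0 d1
    (Nat.sub_pos_of_lt h1) fun x hx κ hκ => by
      obtain ⟨a, b⟩ := Finset.mem_filter.1 hx
      simpa [zm_tau] using d2 x _ μ (hT x a) (hS x a) b (hμ x a) κ hκ
  exact ⟨Θ, t0, t1.trans ((Nat.div_lt_iff_lt_mul (Nat.sub_pos_of_lt h1)).2 hM),
    fun x hx => t2 x (Finset.mem_filter.2 hx)⟩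

omit [CharZero L] in
theorem zm_mns (s : σ → L) (d : σ → ℕ) :
    τm s (mns s d) = monomial (Finsupp.equivFunOnFinite.symm d) 1 := by
  classical
  have : ∀ l, τm s (MvPolynomial.X l - MvPolynomial.C (s l)) = X l := fun l => by simp [zm_tau]
  simp only [mns, map_prod, map_pow, this, X_pow_eq, prod_monomial, Finset.prod_const_one]
  congr 2
  ext l
  simp [Finsupp.finsetSum_apply, Finsupp.single_apply]

omit [CharZero L] in
theorem zm_mns_deg (s : σ → L) {D : ℕ} {d : σ → ℕ} (h : ∀ l, d l ≤ D) :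
    (mns s d).totalDegree ≤ Fintype.card σ * D := by
  refine (MvPolynomial.totalDegree_finsetProd _ _).trans
    ((Finset.sum_le_card_nsmul _ _ D fun l _ => ?_).trans (by simp))
  refine (MvPolynomial.totalDegree_pow _ _).trans (le_trans ?_ (h l))
  refine (Nat.mul_le_mul_left _ ((MvPolynomial.totalDegree_sub _ _).trans (max_le
    (MvPolynomial.totalDegree_X l).le (by simp)))).trans (mul_one _).le

variable {I : Type*} [Fintype I] [DecidableEq σ]

theorem zm_one {Φ : (σ → L) → ι → MvPowerSeries σ L} {P : Finset (σ → L)}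
    (hT : ∀ x ∈ P, MvPolynomial.eval x T ≠ 0) (hS : ∀ x ∈ P, IsM (τm x) T B (Φ x)) {e D μ M : ℕ}
    (hTe : T.totalDegree ≤ e) (hB : ∀ l i j, (B l i j).totalDegree ≤ e) (j : I → ι)
    (hsel : ∀ φ : I → MvPolynomial σ L, φ ≠ 0 →
      ¬ Hyp {x | x ∈ P ∧ ∑ α, τm x (φ α) * Φ x (j α) ≠ 0} M) (h1 : Fintype.card ι < μ)
    (hM : Fintype.card σ * (Fintype.card ι * (Fintype.card σ * D + Fintype.card ι * e)) <
      M * (μ - Fintype.card ι)) (s : σ → L) {b : I × (σ → Fin D) → L}
    (hb : ∀ x ∈ P, ∀ κ : σ →₀ ℕ, κ.degree < μ → b ⬝ᵥ (fun a => coeff κ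
      (τm x (mns s fun l => a.2 l) * Φ x (j a.1))) = 0) : b = 0 := by
  classical
  let φ : I → MvPolynomial σ L := fun α =>
    ∑ d : σ → Fin D, MvPolynomial.C (b (α, d)) * mns s fun l => d l
  have hC : ∀ (x : σ → L) (a : L), τm x (MvPolynomial.C a) = C a := fun x a => by simp [zm_tau]
  by_cases h0 : φ = 0
  · ext ⟨α, d⟩
    have := congrArg (fun p => coeff (Finsupp.equivFunOnFinite.symm fun l => (d l : ℕ)) (τm s p))
      (congrFun h0 α)
    simp only [φ, map_sum, map_mul, hC, zm_mns, coeff_C_mul, coeff_monomial,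
      EmbeddingLike.apply_eq_iff_eq, Pi.zero_apply, map_zero] at this
    rw [Finset.sum_eq_single d (fun d' _ h => by
      rw [if_neg fun e => h (funext fun l => Fin.ext (congrFun e l).symm), mul_zero]) (by simp)]
      at this
    simpa using this
  have hpr : ∀ x, prm (τm x) (Φ x) (∑ β, Pi.single (j β) (φ β)) =
      ∑ α, τm x (φ α) * Φ x (j α) := fun x => by
    simp only [prm, Finset.sum_apply, map_sum, Finset.sum_mul]
    rw [Finset.sum_comm]
    simp [Pi.single_apply, apply_ite (τm x)]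
  refine absurd ?_ (hsel φ h0)
  simp only [← hpr]
  refine zm_hyp hT hS hTe hB (fun i => ?_) h1 hM fun x hx κ hκ => ?_
  · rw [Finset.sum_apply]
    refine MvPolynomial.totalDegree_finsetSum_le fun β _ => ?_
    rw [Pi.single_apply]
    split_ifs
    · refine MvPolynomial.totalDegree_finsetSum_le fun d _ => ?_
      rw [← MvPolynomial.smul_eq_C_mul]
      exact (MvPolynomial.totalDegree_smul_le _ _).trans (zm_mns_deg s fun l => (d l).2.le)
    · simp
  · rw [hpr, ← hb x hx κ hκ]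
    simp only [φ, map_sum, map_mul, hC, Finset.sum_mul, mul_assoc, coeff_C_mul, dotProduct,
      Fintype.sum_prod_type]

/-- the zero estimate on the grid -/
theorem zm_grid {ς : Type*} [Fintype ς] [DecidableEq ς]
    {Φ : (σ → L) → ι → MvPowerSeries σ L} {P : Finset (σ → L)}
    (hT : ∀ x ∈ P, MvPolynomial.eval x T ≠ 0) (hS : ∀ x ∈ P, IsM (τm x) T B (Φ x)) {e D μ M : ℕ}
    (hTe : T.totalDegree ≤ e) (hB : ∀ l i j, (B l i j).totalDegree ≤ e) (j : I → ι)
    (hsel : ∀ φ : I → MvPolynomial σ L, φ ≠ 0 →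
      ¬ Hyp {x | x ∈ P ∧ ∑ α, τm x (φ α) * Φ x (j α) ≠ 0} M) (h1 : Fintype.card ι < μ)
    (hM : Fintype.card σ * (Fintype.card ι * (Fintype.card σ * D + Fintype.card ι * e)) <
      M * (μ - Fintype.card ι)) (s : σ → L) {c : (ς → I × (σ → Fin D)) → L}
    (hc : ∀ (x : ς → σ → L) (κ : ς → σ →₀ ℕ), (∀ a, x a ∈ P) → (∀ a, (κ a).degree < μ) →
      c ⬝ᵥ tens (fun a b => coeff (κ a) (τm (x a) (mns s fun l => b.2 l) * Φ (x a) (j b.1))) = 0) :
    c = 0 := by
  classical
  ext ν
  have := R.mrep (σ := ς) (S := fun _ => {y | ∃ x ∈ P, ∃ κ : σ →₀ ℕ, κ.degree < μ ∧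
      y = fun b : I × (σ → Fin D) => coeff κ (τm x (mns s fun l => b.2 l) * Φ x (j b.1))})
    (S' := fun _ => Set.univ) (a := c) (x := fun a => Pi.single (ν a) 1)
    (fun _ b hb y _ => by
      rw [zm_one hT hS hTe hB j hsel h1 hM s fun x hx i hi => hb _ ⟨x, hx, i, hi, rfl⟩,
        zero_dotProduct])
    (fun y hy => by
      choose x hx i hi e using hy
      rw [show y = _ from funext e]
      exact hc x i hx hi) fun _ => trivial
  have e : (tens fun a => (Pi.single (ν a) 1 : I × (σ → Fin D) → L)) = Pi.single ν 1 := by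
    ext ν'
    simp [tens, Pi.single_apply, Finset.prod_ite_zero, funext_iff]
  rwa [e, dotProduct_single, mul_one] at this

omit [CharZero L] [Fintype σ] [DecidableEq σ] in
open scoped Classical in
theorem zm_quot {κ S : Type*} [Fintype κ] [CommRing S] {τ : MvPolynomial σ L →+* MvPowerSeries σ S}
    {Φ : ι → MvPowerSeries σ S} (q : ι → κ) (r : κ → ι) (h : ∀ i, Φ (r (q i)) = Φ i)
    (hS : IsM τ T B Φ) : IsM τ T (fun l => of fun b b' => ∑ ν ∈ {ν | q ν = b'}, B l (r b) ν)
      fun b => Φ (r b) := fun l b => by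
  rw [hS, ← Finset.sum_fiberwise Finset.univ q]
  refine Finset.sum_congr rfl fun b' _ => ?_
  beta_reduce
  rw [of_apply, map_sum, Finset.sum_mul]
  exact Finset.sum_congr rfl fun ν hν => by simp only [← (Finset.mem_filter.1 hν).2, h]

omit [CharZero L] [Fintype σ] [DecidableEq σ] in
theorem zm_tens [DecidableEq ι] {S : Type*} [CommRing S]
    {τ : MvPolynomial σ L →+* MvPowerSeries σ S} {Φ : ι → MvPowerSeries σ S} (hS : IsM τ T B Φ)
    (a : ℕ) : IsM τ T (fun l => tB (Fin a) (B l)) (tens fun _ => Φ) := fun i μ => by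
  have e : (tB (Fin a) (B i)).map τ = tB (Fin a) ((B i).map τ) := by
    ext1 α β
    simp only [map_apply, tB_apply, map_sum, map_mul, map_prod, apply_ite τ, map_one, map_zero]
  have hp : ∀ (g : Fin a → MvPowerSeries σ S) (s : Finset (Fin a)), pderiv S i
      (∏ l ∈ s, g l) = ∑ l ∈ s, (∏ j ∈ s.erase l, g j) * pderiv S i (g l) := fun g s => by
    induction s using Finset.induction_on with
    | empty => simp
    | insert x s hx ih =>
      rw [Finset.prod_insert hx, Finset.sum_insert hx, Derivation.leibniz, ih,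
        Finset.erase_insert hx, smul_eq_mul, smul_eq_mul, add_comm, Finset.mul_sum]
      refine congrArg _ (Finset.sum_congr rfl fun l hl => ?_)
      rw [Finset.erase_insert_of_ne (ne_of_mem_of_not_mem hl hx).symm,
        Finset.prod_insert fun h => hx (Finset.mem_of_mem_erase h), mul_assoc]
  have := congrFun (tB_mulVec ((B i).map τ) fun _ : Fin a => Φ) μ
  rw [← e, Finset.sum_apply] at this
  refine Eq.trans ?_ this.symm
  rw [tens, hp, Finset.mul_sum]
  refine Finset.sum_congr rfl fun l _ => ?_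
  rw [tens_update, mul_left_comm, hS]
  rfl

/-- A tensor that kills all products of Taylor coefficients of order `< μ` of the functions
`(t - s)^d Φ^α` at points of `P` vanishes. -/
theorem grid_powM {ς : Type*} [Fintype ς] [DecidableEq ς]
    {Φ : (σ → L) → ι → MvPowerSeries σ L} {P : Finset (σ → L)}
    (hT : ∀ x ∈ P, MvPolynomial.eval x T ≠ 0) (hS : ∀ x ∈ P, IsM (τm x) T B (Φ x))
    {e D μ M a n : ℕ} (hTe : T.totalDegree ≤ e) (hB : ∀ l i j, (B l i j).totalDegree ≤ e)
    {I : Finset (Fin a → ι)}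
    (hsel : ∀ φ : (Fin a → ι) → MvPolynomial σ L, φ ≠ 0 → (∀ α ∉ I, φ α = 0) →
      ¬ Hyp {x | x ∈ P ∧ ∑ α, τm x (φ α) * ∏ l, Φ x (α l) ≠ 0} M)
    (hn : (a + 1) ^ Fintype.card ι ≤ n)
    (hM : Fintype.card σ * (n * (Fintype.card σ * D + n * e)) < M * (μ - n)) (s : σ → L)
    {c : (ς → I × (σ → Fin D)) → L}
    (hc : ∀ (x : ς → σ → L) (κ : ς → σ →₀ ℕ), (∀ b, x b ∈ P) → (∀ b, (κ b).degree < μ) →
      ∑ ν, c ν * ∏ b, coeff (κ b) (τm (x b) (mns s fun l => (ν b).2 l) *
        ∏ l, Φ (x b) ((ν b).1.1 l)) = 0) : c = 0 := by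
  classical
  by_cases hne : Nonempty (Fin a → ι)
  swap
  · ext ν
    by_cases hσ : Nonempty ς
    · exact absurd ⟨(ν hσ.some).1.1⟩ hne
    · have := hc (fun b => absurd ⟨b⟩ hσ) (fun b => absurd ⟨b⟩ hσ) (fun b => absurd ⟨b⟩ hσ)
        fun b => absurd ⟨b⟩ hσ
      rw [not_nonempty_iff] at hσ
      simpa [Subsingleton.elim default ν] using this
  have hr : ∀ x (α : Fin a → ι), tens (fun _ => Φ x) (Function.invFun cnt (cnt α)) =
      ∏ l, Φ x (α l) := fun x α => by
    rw [tens, prod_cnt, Function.invFun_eq (f := cnt) ⟨α, rfl⟩, ← prod_cnt]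
  have hk : Fintype.card (ι → Fin (a + 1)) ≤ n := by simpa using hn
  have h1 : n < μ := Nat.lt_of_sub_pos (Nat.pos_of_mul_pos_left (Nat.zero_lt_of_lt hM))
  refine zm_grid (Φ := fun x b => tens (fun _ => Φ x) (Function.invFun cnt b)) hT
    (fun x hx => zm_quot cnt (Function.invFun cnt) (hr x) (zm_tens (hS x hx) a)) hTe
    (fun l b b' => MvPolynomial.totalDegree_finsetSum_le fun ν _ => ?_) (fun α : I => cnt α.1)
    (M := M) (μ := μ) (fun φ h0 => ?_) (hk.trans_lt h1)
    (lt_of_le_of_lt (by gcongr) (hM.trans_le (by gcongr))) s fun x i hx hi => ?_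
  · rw [tB_apply]
    refine MvPolynomial.totalDegree_finsetSum_le fun l _ => ?_
    rw [Finset.prod_boole]
    split_ifs <;> simp [hB]
  · have := hsel (fun α => if h : α ∈ I then φ ⟨α, h⟩ else 0)
      (fun h => h0 (funext fun α => by simpa using congrFun h α)) fun α h => dif_neg h
    convert this using 6 with x
    simp only [hr]
    rw [← Finset.sum_subset (Finset.subset_univ I) fun α _ h => by simp [h],
      ← Finset.sum_coe_sort I]
    simp
  · refine Eq.trans (Finset.sum_congr rfl fun ν _ => ?_) (hc x i hx hi)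
    simp only [← hr]
    rfl

end

end Pool.Agent.Lib.MP_5591bc_ag.M
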