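import Pool.Agent.Lib.MP_5591bc_ag.M.FrA
import Pool.Agent.Lib.MP_5591bc_ag.M.ZerB

/-! Selection of points that do not lie on a hypersurface of small degree. -/

namespace Pool.Agent.Lib.MP_5591bc_ag.M

open Finset Function Module W
open scoped Classical

variable {σ A K C R : Type*}

theorem am_mono [CommRing K] {S S' : Set (σ → K)} {n m : ℕ} (h : Hyp S n) (e : S' ⊆ S)
    (e' : n ≤ m) : Hyp S' m :=
  h.imp fun _ h => ⟨h.1, h.2.1.trans e', fun x hx => h.2.2 x (e hx)⟩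

theorem am_empty [CommRing K] [Nontrivial K] (n : ℕ) : Hyp (∅ : Set (σ → K)) n :=
  ⟨1, one_ne_zero, by simp, fun _ h => h.elim⟩

theorem am_union [CommRing K] [IsDomain K] {S S' : Set (σ → K)} {n m : ℕ} (h : Hyp S n)
    (h' : Hyp S' m) : Hyp (S ∪ S') (n + m) := by
  obtain ⟨Q, a, b, c⟩ := h
  obtain ⟨Q', a', b', c'⟩ := h'
  refine ⟨Q * Q', mul_ne_zero a a', (MvPolynomial.totalDegree_mul _ _).trans (add_le_add b b'), ?_⟩
  rintro x (hx | hx)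
  · rw [map_mul, c x hx, zero_mul]
  · rw [map_mul, c' x hx, mul_zero]

variable [Fintype A] [Field K] [CharZero K] [Field C] [CommRing R] [Algebra C R]

theorem am_select (ι : K →+* C) (s : σ → K) (p : (σ → K) → A → R) (a0 M' : ℕ)
    {T : MvPolynomial σ K} (hT : MvPolynomial.eval s T ≠ 0)
    (B : ∀ a, σ → Matrix (Fin a → A) (Fin a → A) (MvPolynomial σ K))
    (Rel : (σ → K) → ∀ a, Set ((Fin a → A) → MvPolynomial σ K))
    (hd : ∀ ξ a l, ∀ φ ∈ Rel ξ a, Dm T (B a) l φ ∈ Rel ξ a)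
    (he : ∀ ξ a, ∀ φ ∈ Rel ξ a, ∑ α, ι (MvPolynomial.eval s (φ α)) • ∏ i, p ξ (α i) = 0) (n : ℕ) :
    ∀ S : Finset (σ → K), ∑ a ∈ range (a0 + 1), ampR C p S a ≤ n →
      ¬ Hyp (S : Set (σ → K)) ((n + 1) * M') →
      ∃ S' ⊆ S, ¬ Hyp (S' : Set (σ → K)) M' ∧ ∀ a ≤ a0, ∀ I : Finset (Fin a → A),
        (∀ c : (Fin a → A) → C, (∀ α ∉ I, c α = 0) → ampM C p S' a c = 0 → c = 0) →
        ∀ φ : (Fin a → A) → MvPolynomial σ K, φ ≠ 0 → (∀ α ∉ I, φ α = 0) →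
          ¬ Hyp {ξ | ξ ∈ S' ∧ φ ∉ Rel ξ a} M' := by
  induction n using Nat.strong_induction_on with
  | _ n ih =>
    intro S h1 h2
    by_contra hn
    have hn' := not_and.1 (not_and.1 (not_exists.1 hn S) Subset.rfl)
      fun h => h2 (am_mono h Set.Subset.rfl (Nat.le_mul_of_pos_left _ n.succ_pos))
    push Not at hn'
    obtain ⟨a, ha, I, hI, φ, φ0, φI, hc⟩ := hn'
    obtain ⟨ψ, ψR, ψI, j, hj⟩ := leadM (B a) {ψ | ∀ ξ, φ ∈ Rel ξ a → ψ ∈ Rel ξ a}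
      (fun l y hy ξ h => hd ξ a l y (hy ξ h)) hT (I : Set _) (φ := φ) (fun _ h => h) φ0 φI
    have sub : {ξ ∈ S | φ ∈ Rel ξ a} ⊆ S := filter_subset _ _
    have lt : ampR C p {ξ ∈ S | φ ∈ Rel ξ a} a < ampR C p S a := by
      refine ampR_lt p sub (c := fun α => ι (MvPolynomial.eval s (ψ α))) ?_ fun h => hj ?_
      · ext ξ
        rw [ampM_apply]
        exact he ξ a ψ (ψR ξ (mem_filter.1 ξ.2).2)
      · exact (map_eq_zero ι).1 (congrFun (hI _ (fun α hα => by simp [ψI α hα]) h) j)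
    have lt2 := sum_lt_sum (s := range (a0 + 1)) (fun a _ => ampR_mono (C := C) p sub a)
      ⟨a, mem_range.2 (Nat.lt_succ_of_le ha), lt⟩
    obtain ⟨m, rfl⟩ : ∃ m, n = m + 1 := ⟨n - 1, by omega⟩
    obtain ⟨S', s1, s2⟩ := ih m m.lt_succ_self {ξ ∈ S | φ ∈ Rel ξ a} (by omega) fun h =>
      h2 (am_mono (am_union h hc) (fun ξ hξ => by
        by_cases e : φ ∈ Rel ξ a
        · exact Or.inl (mem_coe.2 (mem_filter.2 ⟨hξ, e⟩))
        · exact Or.inr ⟨hξ, e⟩) (add_one_mul (m + 1) M').ge)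
    exact hn ⟨S', s1.trans sub, s2⟩

/-- Amplification and selection, with explicit constants. -/
theorem ampH (g M' : ℕ) {a0 : ℕ}
    (ha0 : a0 = 4 * ((g + 1) * (Fintype.card A + 1)) ^ 2) [IsDomain R] (ev : R →ₐ[C] C)
    (ι : K →+* C) (s : σ → K) (p : (σ → K) → A → R) (v : A → C) (S : Finset (σ → K))
    {T : MvPolynomial σ K} (hT : MvPolynomial.eval s T ≠ 0)
    (B : ∀ a, σ → Matrix (Fin a → A) (Fin a → A) (MvPolynomial σ K))
    (Rel : (σ → K) → ∀ a, Set ((Fin a → A) → MvPolynomial σ K))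
    (hS : ¬ Hyp (S : Set (σ → K)) (((a0 + 1) ^ (Fintype.card A + 1) + 1) * M'))
    (h0 : ∀ ξ ∈ S, ∑ j, v j • p ξ j ≠ 0) (h1 : ∀ ξ ∈ S, ∑ j, v j * ev (p ξ j) = 0)
    (hd : ∀ ξ a l, ∀ φ ∈ Rel ξ a, Dm T (B a) l φ ∈ Rel ξ a)
    (he : ∀ ξ a, ∀ φ ∈ Rel ξ a, ∑ α, ι (MvPolynomial.eval s (φ α)) • ∏ i, p ξ (α i) = 0) :
    ∃ S' ⊆ S, ∃ a ≤ a0, ∃ (I : Finset (Fin a → A)) (E : Submodule C ((Fin a → A) → C)),
      0 < a ∧ I.Nonempty ∧ Set.InjOn cnt (I : Set (Fin a → A)) ∧ g * finrank C E ≤ #I ∧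
      finrank C E ≤ (a + 1) ^ Fintype.card A ∧
      (∀ ξ ∈ S', (fun α => ∏ i, ev (p ξ (α i))) ∈ E) ∧
      ∀ φ : (Fin a → A) → MvPolynomial σ K, φ ≠ 0 → (∀ α ∉ I, φ α = 0) →
        ¬ Hyp {ξ | ξ ∈ S' ∧ φ ∉ Rel ξ a} M' := by
  obtain ⟨S', s1, s2, s3⟩ := am_select ι s p a0 M' hT B Rel hd he _ S
    ((sum_le_card_nsmul _ _ ((a0 + 1) ^ Fintype.card A) fun a ha => (ampR_le p S a).trans
      (Nat.pow_le_pow_left (mem_range.1 ha) _)).trans (by simp [pow_succ'])) hS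
  have ne : S'.Nonempty := nonempty_iff_ne_empty.2 fun e => s2 (by simpa [e] using am_empty M')
  obtain ⟨a, ha, hg⟩ := amp_gap g _ (ampR C p S') (ampR_zero p ne) (ampR_le p S')
  rw [← ha0] at ha
  obtain ⟨I, i1, i2⟩ := amp_basis (C := C) p S' (a + 1)
  obtain ⟨E, e1, e2⟩ := amp_gain ev p v S' (fun ξ hξ => h0 ξ (s1 hξ)) (fun ξ hξ => h1 ξ (s1 hξ)) a
  refine ⟨S', s1, a + 1, ha, I, E, a.succ_pos, ?_, fun α hα β hβ e => by_contra fun ne => ?_, ?_,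
    (Nat.le_of_add_right_le e1).trans (ampR_le p S' _), e2, s3 _ ha I i2⟩
  · have : ∀ j, 1 ≤ ampR C p S' j := fun j => by
      induction j with
      | zero => exact ampR_zero p ne
      | succ j ih =>
        obtain ⟨_, e, -⟩ := amp_gain ev p v S' (fun ξ hξ => h0 ξ (s1 hξ)) (fun ξ hξ => h1 ξ (s1 hξ)) j
        omega
    exact card_pos.1 ((this _).trans i1)
  · have := congrFun (i2 (Pi.single α 1 - Pi.single β 1) (fun γ hγ => by
      rw [Pi.sub_apply, Pi.single_eq_of_ne (ne_of_mem_of_not_mem (mem_coe.1 hα) hγ).symm,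
        Pi.single_eq_of_ne (ne_of_mem_of_not_mem (mem_coe.1 hβ) hγ).symm, sub_zero]) (by
      ext ξ
      simp only [map_sub, ampM, Fintype.linearCombination_apply_single, one_smul, Pi.sub_apply,
        prod_cnt, e, sub_self, Pi.zero_apply])) α
    simp [ne] at this
  · exact ((Nat.mul_le_mul_left g (Nat.le_sub_of_add_le e1)).trans hg).trans i1

/-- the same for the relations between powers of solutions of a system -/
theorem ampP [Fintype σ] [DecidableEq σ] (g M' : ℕ) {a0 : ℕ}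
    (ha0 : a0 = 4 * ((g + 1) * (Fintype.card A + 1)) ^ 2) [IsDomain R] (ev : R →ₐ[C] C)
    (ι : K →+* C) (s : σ → K) (p : (σ → K) → A → R) (v : A → C) (P : Finset (σ → K))
    {T : MvPolynomial σ K} (hT : MvPolynomial.eval s T ≠ 0)
    {B : σ → Matrix A A (MvPolynomial σ K)} {Φ : (σ → K) → A → MvPowerSeries σ K}
    (hΦ : ∀ x ∈ P, IsM (τm x) T B (Φ x))
    (hS : ¬ Hyp (P : Set (σ → K)) (((a0 + 1) ^ (Fintype.card A + 1) + 1) * M'))
    (h0 : ∀ x ∈ P, ∑ j, v j • p x j ≠ 0) (h1 : ∀ x ∈ P, ∑ j, v j * ev (p x j) = 0)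
    (he : ∀ x ∈ P, ∀ a (φ : (Fin a → A) → MvPolynomial σ K),
      ∑ α, τm x (φ α) * ∏ l, Φ x (α l) = 0 →
        ∑ α, ι (MvPolynomial.eval s (φ α)) • ∏ l, p x (α l) = 0) :
    ∃ S ⊆ P, ∃ a ≤ a0, ∃ (I : Finset (Fin a → A)) (E : Submodule C ((Fin a → A) → C)),
      0 < a ∧ I.Nonempty ∧ Set.InjOn cnt (I : Set (Fin a → A)) ∧ g * finrank C E ≤ #I ∧
      finrank C E ≤ (a + 1) ^ Fintype.card A ∧
      (∀ x ∈ S, (fun α => ∏ i, ev (p x (α i))) ∈ E) ∧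
      ∀ φ : (Fin a → A) → MvPolynomial σ K, φ ≠ 0 → (∀ α ∉ I, φ α = 0) →
        ¬ Hyp {x | x ∈ S ∧ ∑ α, τm x (φ α) * ∏ l, Φ x (α l) ≠ 0} M' := by
  obtain ⟨S, hS, a, ha, I, E, e1, e2, e3, e4, e5, e6, e7⟩ := ampH g M' ha0 ev ι s p v P hT
    (fun a l => G.tB (Fin a) (B l))
    (fun x a => {φ | x ∈ P ∧ ∑ α, τm x (φ α) * ∏ l, Φ x (α l) = 0}) hS h0 h1
    (fun x a l φ h => ⟨h.1, (zm_prm (zm_tens (hΦ x h.1) a) l φ).trans (by
      rw [show prm (τm x) (G.tens fun _ => Φ x) φ = 0 from h.2, map_zero, mul_zero])⟩)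
    fun x a φ h => he x h.1 a φ h.2
  exact ⟨S, hS, a, ha, I, E, e1, e2, e3, e4, e5, e6, fun φ a b h =>
    e7 φ a b (am_mono h (fun x hx => ⟨hx.1, fun e => hx.2 ⟨hS hx.1, e⟩⟩) le_rfl)⟩

end Pool.Agent.Lib.MP_5591bc_ag.M
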