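import Pool.Agent.Lib.MP_5591bc_ag.M.CoreC
import Pool.Agent.Lib.MP_5591bc_ag.M.AmpA
import Pool.Agent.Lib.MP_5591bc_ag.M.GK
import Pool.Agent.Lib.MP_5591bc_ag.W.CoreU

/-! The counting theorem in several variables. -/

namespace Pool.Agent.Lib.MP_5591bc_ag.M

open MvPowerSeries G W Finset

theorem qb_pow {e : ℕ} {f : ℕ → ℕ → ℕ} (h : QB e f) (b : ℕ) : QB e fun Λ N => f Λ N ^ b := by
  induction b with
  | zero => exact (QB.const 1).mono fun _ _ => (pow_zero _).le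
  | succ b ih => exact (ih.mul h).mono fun _ _ => (pow_succ _ _).le

theorem UpV.sub {σ L A A' : Type} [Fintype σ] [Field L] {ι : L →+* ℂ} {Λ : ℕ} {s : σ → L}
    {P P' : Finset (σ → L)} {Φ : (σ → L) → A → MvPowerSeries σ L}
    {V : (σ → L) → A → MvPowerSeries σ ℂ} {V' : (σ → L) → A' → MvPowerSeries σ ℂ}
    (h : UpV ι Λ s P Φ V) (hP : P' ⊆ P) (ρ : A' → A) (hV : ∀ x ∈ P', ∀ α, V' x α = V x (ρ α)) :
    UpV ι Λ s P' (fun x α => Φ x (ρ α)) V' := fun a =>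
  (h a).imp fun _ h => ⟨h.1, fun J _ al ex D Y k x c C h1 h2 h3 h4 n =>
    h.2 J (fun j l => ρ (al j l)) ex D Y k x c C h1 (fun i => hP (h2 i)) h3
      (fun κ hκ => by simpa only [hV _ (h2 _)] using h4 κ hκ) n⟩

/-- the counting theorem from the arithmetic data and the analytic estimate -/
theorem coreV (σ : Type) [Fintype σ] : ∃ c : ℕ, ∀ (A : Type) [Fintype A]
    (K L R : Type) [Field K] [NumberField K] [Field L] [NumberField L] [Algebra K L] [CommRing R]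
      [IsDomain R] [Algebra ℂ R] (ι : L →+* ℂ) (Λ : ℕ) (s : σ → K) (T : MvPolynomial σ L)
      (B : σ → Matrix A A (MvPolynomial σ L)) (W : A → A → MvPowerSeries σ K) (P : Finset (σ → L))
      (Φ : (σ → L) → A → MvPowerSeries σ L) (ev : R →ₐ[ℂ] ℂ) (p : (σ → L) → A → R) (v : A → ℂ),
      MvPolynomial.eval (fun l => algebraMap K L (s l)) T ≠ 0 →
      GKm (2 ^ Λ) (fun q : A × A => W q.1 q.2) → (∀ x ∈ P, DatA Λ s T B x (Φ x)) →
      (UpV ι Λ (fun l => algebraMap K L (s l)) P Φ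
        fun x α => ∑ β, C (ev (p x β)) * map (ι.comp (algebraMap K L)) (W β α)) →
      (∀ x ∈ P, ∑ j, v j • p x j ≠ 0) → (∀ x ∈ P, ∑ j, v j * ev (p x j) = 0) →
      (∀ x ∈ P, ∀ a (φ : (Fin a → A) → MvPolynomial σ L), ∑ α, τm x (φ α) * ∏ l, Φ x (α l) = 0 →
        ∑ α, ι (MvPolynomial.eval (fun l => algebraMap K L (s l)) (φ α)) • ∏ l, p x (α l) = 0) →
      Hyp (P : Set (σ → L)) ((Λ + Fintype.card A + 2) ^ (c * (Fintype.card A + 1))) := by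
  classical
  obtain ⟨b, hb⟩ : ∃ b, b = Fintype.card σ := ⟨_, rfl⟩
  let τ : ℕ → ℕ := fun Λ => (Λ + 1) * (b + 1) * (28 * (Λ + 1) ^ 2 + 5)
  let b0 : ℕ → ℕ → ℕ := fun Λ N => 4 * ((6 * (2 * (Λ + 1)) * (6 * τ Λ) ^ b + 1) * (N + 1)) ^ 2
  let z : ℕ → ℕ → ℕ := fun Λ N =>
    3 * (b0 Λ N + 1) * τ Λ + b0 Λ N + 3 * (N * (b0 Λ N + 1) ^ N + 1) + 4
  have p2 : QB 0 fun Λ _ => τ Λ :=
    (QB.fst.mul (.const _)).mul (((QB.const 28).mul QB.fst.sq).add (.const 5))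
  have p3 : QB 0 b0 := (QB.const 4).mul ((((((QB.const 6).mul ((QB.const 2).mul QB.fst)).mul
    (qb_pow ((QB.const 6).mul p2) b)).add (.const 1)).mul QB.snd).sq)
  have p4 : QB 1 fun Λ N => b0 Λ N + 1 := p3.up.add (.const 1)
  have p5 : QB 1 z := (((((QB.const 3).mul p4).mul p2.up).add p3.up).add ((QB.const 3).mul
    (((QB.snd.mono fun _ N => N.le_succ).mul p3.pw).add (.const 1)))).add (.const 4)
  obtain ⟨c, hf⟩ := ((p3.pw.mul p4).add (.const 1)).mul (((QB.const (2 * (b + 1) ^ 2)).mul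
    (((QB.const 2).mul QB.fst).mul p5.sq)).mul p3.pw)
  refine ⟨c, fun A _ => ?_⟩
  obtain ⟨N, hN⟩ : ∃ N, N = Fintype.card A := ⟨_, rfl⟩
  let a0 : ℕ → ℕ := fun Λ => b0 Λ N
  let y : ℕ → ℕ := fun Λ => z Λ N
  intro K L R _ _ _ _ _ _ _ _ ι Λ s T B W P Φ ev p v hT hW hP hU h0 h1 he
  rw [← hN]
  refine am_mono ?_ Set.Subset.rfl (by simpa using hf Λ N)
  by_contra hc
  have y0 : 0 < y Λ := by simp only [y, z]; omega
  have τ0 : 0 < τ Λ := by simp only [τ]; positivity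
  have a1 : 0 < a0 Λ := by simp only [a0, b0]; positivity
  obtain ⟨S, hS, a, ha, I, E, -, I0, -, e1, e2, e3, e4⟩ := ampP (6 * (2 * (Λ + 1)) * (6 * τ Λ) ^ b)
    (2 * (b + 1) ^ 2 * (2 * (Λ + 1) * y Λ ^ 2) * (a0 Λ + 1) ^ N) (a0 := a0 Λ) (by rw [← hN]) ev ι
    _ p v P hT (fun x hx => (hP x hx).ode) (by rw [← hN]; exact hc) h0 h1 he
  obtain ⟨U, u1, u2⟩ := env_poly (σ := Fin (y Λ ^ 2)) (fun x β => ev (p x β)) S E e3
  have e5 : (a + 1) ^ Fintype.card A ≤ (a0 Λ + 1) ^ N := by rw [← hN]; gcongr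
  have e6 : a0 Λ ≤ y Λ ^ 2 :=
    le_trans (by simp only [y, z, a0]; omega) (Nat.le_self_pow two_ne_zero _)
  refine corem_fix ι hW (fun x hx => hP x (hS hx)) (hU.sub hS id fun _ _ _ => rfl) hb
    (pow_pos y0 2) (ha.trans e6) rfl rfl I0 e5 e4 (by simpa using u1) e1 ?_ u2
  refine le_trans ?_ (num_m (3 * (a0 Λ + 1) * τ Λ) (a0 Λ) (N * (a0 Λ + 1) ^ N + 1) le_rfl)
  obtain ⟨k, hk⟩ : ∃ k, y Λ ^ 2 = k := ⟨_, rfl⟩
  have k0 : 0 < k := hk ▸ pow_pos y0 2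
  rw [hk, pow_succ' (a0 Λ * k + 1), ← mul_assoc (_ * k), ← hN]
  refine Nat.mul_le_mul ?_ ((Nat.pow_le_pow_left (m := a0 Λ * k + 1) (by gcongr) _).trans
    (Nat.pow_le_pow_right (Nat.succ_pos _) (Nat.mul_le_mul_left _ (e2.trans e5))))
  calc _ ≤ 2 * (a0 Λ + 1) * k ^ 2 * τ Λ + (a0 Λ + 1) * k ^ 2 * τ Λ :=
        add_le_add (Nat.mul_le_mul_right _ (by gcongr)) (Nat.succ_le_of_lt (by positivity))
    _ = 3 * (a0 Λ + 1) * τ Λ * k * k := by ring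
    _ ≤ _ := Nat.mul_le_mul_left _ ((Nat.le_mul_of_pos_left k a1).trans (Nat.le_succ _))

/-- the same for solutions that factor through a quotient of the index set -/
theorem coreQV (σ : Type) [Fintype σ] : ∃ c : ℕ,
    ∀ (A A' : Type) [Fintype A] [Fintype A'] (q : A → A') (ρ : A' → A)
      (K L R : Type) [Field K] [NumberField K] [Field L] [NumberField L] [Algebra K L] [CommRing R]
      [IsDomain R] [Algebra ℂ R] (ι : L →+* ℂ) (Λ : ℕ) (s : σ → K) (T : MvPolynomial σ L)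
      (B : σ → Matrix A A (MvPolynomial σ L)) (W : A → A → MvPowerSeries σ K) (P : Finset (σ → L))
      (Φ : (σ → L) → A → MvPowerSeries σ L) (ev : R →ₐ[ℂ] ℂ) (p : (σ → L) → A → R) (v : A → ℂ),
      MvPolynomial.eval (fun l => algebraMap K L (s l)) T ≠ 0 →
      GKm (2 ^ Λ) (fun q : A × A => W q.1 q.2) → (∀ x ∈ P, DatA Λ s T B x (Φ x)) →
      (UpV ι Λ (fun l => algebraMap K L (s l)) P Φ
        fun x α => ∑ β, C (ev (p x β)) * map (ι.comp (algebraMap K L)) (W β α)) →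
      (∀ x ∈ P, ∑ j, v j • p x j ≠ 0) → (∀ x ∈ P, ∑ j, v j * ev (p x j) = 0) →
      (∀ x ∈ P, ∀ a (φ : (Fin a → A) → MvPolynomial σ L), ∑ α, τm x (φ α) * ∏ l, Φ x (α l) = 0 →
        ∑ α, ι (MvPolynomial.eval (fun l => algebraMap K L (s l)) (φ α)) • ∏ l, p x (α l) = 0) →
      (∀ x ∈ P, ∀ i, Φ x (ρ (q i)) = Φ x i ∧ p x (ρ (q i)) = p x i) →
      Hyp (P : Set (σ → L)) ((Λ + Fintype.card A' + 2) ^ (c * (Fintype.card A' + 1))) := by
  classical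
  obtain ⟨c, hc⟩ := coreV σ
  refine ⟨c, ?_⟩
  intro A A' _ _ q ρ K L R _ _ _ _ _ _ _ _ ι Λ s T B W P Φ ev p v hT hW hP hU h0 h1 he hq
  have e : ∀ x ∈ P, ∑ j, (∑ i ∈ {i | q i = j}, v i) • p x (ρ j) = ∑ j, v j • p x j := fun x hx => by
    rw [← sum_fiberwise univ q]
    refine sum_congr rfl fun j _ => ?_
    rw [sum_smul]
    exact sum_congr rfl fun i hi => by rw [← (mem_filter.1 hi).2, (hq x hx i).2]
  refine hc A' K L R ι Λ s T (fun l => Matrix.of fun b b' => ∑ ν ∈ {ν | q ν = b'}, B l (ρ b) ν)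
    (fun β α => ∑ i ∈ {i | q i = β}, W i (ρ α)) P (fun x b => Φ x (ρ b)) ev (fun x b => p x (ρ b))
    (fun j => ∑ i ∈ {i | q i = j}, v i) hT ?_ (fun x hx => ?_) (hU.sub Subset.rfl ρ fun x hx α => ?_)
    (fun x hx => e x hx ▸ h0 x hx) (fun x hx => ?_) fun x hx a φ h => ?_
  · simpa using hW.lin (I := fun _ : A' × A' => A) (fun y => {i | q i = y.1}) (fun _ _ => 1)
      fun y i => (i, ρ y.2)
  · obtain ⟨a1, a2, ⟨F, b1, b2, b3, b4⟩, a4, a5, a6⟩ := hP x hx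
    exact ⟨a1, zm_quot q ρ (fun i => (hq x hx i).1) a2, ⟨F, b1, b2, b3, fun α => b4 _⟩, a4.comp ρ,
      a5, a6⟩
  · rw [← sum_fiberwise univ q]
    refine sum_congr rfl fun j _ => ?_
    rw [map_sum, mul_sum]
    exact sum_congr rfl fun i hi => by rw [← (mem_filter.1 hi).2, (hq x hx i).2]
  · have := congrArg ev (e x hx)
    simp only [map_sum ev, map_smul, smul_eq_mul] at this
    exact this.trans (h1 x hx)
  · have := he x hx a (fun α => ∑ β ∈ {β | (fun l => ρ (β l)) = α}, φ β) (by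
      rw [← h, ← sum_fiberwise univ fun (β : Fin a → A') l => ρ (β l)]
      refine sum_congr rfl fun α _ => ?_
      rw [map_sum, sum_mul]
      exact sum_congr rfl fun β hβ => by rw [← (mem_filter.1 hβ).2])
    rw [← this, ← sum_fiberwise univ fun (β : Fin a → A') l => ρ (β l)]
    refine sum_congr rfl fun α _ => ?_
    rw [map_sum, map_sum, sum_smul]
    exact sum_congr rfl fun β hβ => by rw [← (mem_filter.1 hβ).2]

theorem coreQM (σ : Type) [Fintype σ] [DecidableEq σ] : ∃ c : ℕ,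
    ∀ (A A' : Type) [Fintype A] [Fintype A'] (q : A → A') (ρ : A' → A)
      (K L R : Type) [Field K] [NumberField K] [Field L] [NumberField L] [Algebra K L] [CommRing R]
      [IsDomain R] [Algebra ℂ R] (ι : L →+* ℂ) (Λ : ℕ) (s : σ → K) (T : MvPolynomial σ L)
      (B : σ → Matrix A A (MvPolynomial σ L)) (W : A → A → MvPowerSeries σ K) (P : Finset (σ → L))
      (Φ : (σ → L) → A → MvPowerSeries σ L) (ev : R →ₐ[ℂ] ℂ) (p : (σ → L) → A → R) (v : A → ℂ),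
      MvPolynomial.eval (fun l => algebraMap K L (s l)) T ≠ 0 →
      GKm (2 ^ Λ) (fun q : A × A => W q.1 q.2) →
      (∀ x ∈ P, DatM ι Λ s T B W x (Φ x) fun β => ev (p x β)) →
      (∀ x ∈ P, ∑ j, v j • p x j ≠ 0) → (∀ x ∈ P, ∑ j, v j * ev (p x j) = 0) →
      (∀ x ∈ P, ∀ a (φ : (Fin a → A) → MvPolynomial σ L), ∑ α, τm x (φ α) * ∏ l, Φ x (α l) = 0 →
        ∑ α, ι (MvPolynomial.eval (fun l => algebraMap K L (s l)) (φ α)) • ∏ l, p x (α l) = 0) →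
      (∀ x ∈ P, ∀ i, Φ x (ρ (q i)) = Φ x i ∧ p x (ρ (q i)) = p x i) →
      Hyp (P : Set (σ → L)) ((Λ + Fintype.card A' + 2) ^ (c * (Fintype.card A' + 1))) :=
  (coreQV σ).imp fun _ h A A' _ _ q ρ K L R _ _ _ _ _ _ _ _ ι Λ s T B W P Φ ev p v hT hW hP =>
    h A A' q ρ K L R ι Λ s T B W P Φ ev p v hT hW
      (fun x hx => let d := hP x hx; ⟨d.ne, d.ode, d.fld, d.gk, d.den, d.hou⟩)
      (upV_of_rad (fun x hx l => (hP x hx).hou l ι) fun x hx => (hP x hx).ana)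

end Pool.Agent.Lib.MP_5591bc_ag.M
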