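import Pool.Agent.Lib.MP_5591bc_ag.M.Tay

/-! Bounds for truncated series in several variables. -/

namespace Pool.Agent.Lib.MP_5591bc_ag.M

open MvPowerSeries G Finset

variable {σ : Type*}

section bt
variable {F : Type*} [Field F]

/-- conjugates and denominators of the first coefficients -/
def BtM (t : ℕ) (M : ℝ) (d : ℕ) (u : MvPowerSeries σ F) : Prop :=
  ∀ κ : σ →₀ ℕ, κ.degree ≤ t → (∀ φ : F →+* ℂ, ‖φ (coeff κ u)‖ ≤ M) ∧
    IsIntegral ℤ ((d : F) * coeff κ u)

variable {t d d' : ℕ} {M M' : ℝ} {u u' : MvPowerSeries σ F}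

theorem btm_card [DecidableEq σ] (κ : σ →₀ ℕ) : #(antidiagonal κ) ≤ 2 ^ κ.degree := by
  refine (card_le_card_of_injOn Prod.fst (t := Iic κ) (fun p hp => ?_) fun p hp q hq e => ?_).trans ?_
  · exact mem_coe.2 (mem_Iic.2 (mem_antidiagonal.1 hp ▸ le_self_add))
  · exact Prod.ext e (add_left_cancel (((mem_antidiagonal.1 hp).trans
      (mem_antidiagonal.1 hq).symm).trans (by rw [e])))
  · rw [Finsupp.card_Iic, Finsupp.degree_apply, ← prod_pow_eq_pow_sum]
    exact prod_le_prod' fun i _ => by rw [Nat.card_Iic]; exact Nat.lt_two_pow_self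

theorem BtM.mul (h : BtM t M d u) (h' : BtM t M' d' u') :
    BtM t (2 ^ t * M * M') (d * d') (u * u') := by
  classical
  intro j hj
  have e : ∀ p ∈ antidiagonal j, p.1.degree ≤ t ∧ p.2.degree ≤ t := fun p hp => by
    have := congrArg Finsupp.degree (mem_antidiagonal.1 hp)
    rw [map_add] at this
    omega
  rw [coeff_mul]
  refine ⟨fun φ => ?_, ?_⟩
  · have M0 := (norm_nonneg _).trans ((h 0 (by simp)).1 φ)
    have M1 := (norm_nonneg _).trans ((h' 0 (by simp)).1 φ)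
    rw [map_sum]
    refine (norm_sum_le _ _).trans ((sum_le_card_nsmul _ _ (M * M') fun p hp => ?_).trans ?_)
    · rw [map_mul, norm_mul]
      exact mul_le_mul ((h _ (e p hp).1).1 φ) ((h' _ (e p hp).2).1 φ) (norm_nonneg _) M0
    · rw [nsmul_eq_mul, mul_assoc]
      refine mul_le_mul_of_nonneg_right ?_ (mul_nonneg M0 M1)
      exact_mod_cast (btm_card j).trans (Nat.pow_le_pow_right two_pos hj)
  · rw [mul_sum]
    refine IsIntegral.sum _ fun p hp => ?_
    rw [Nat.cast_mul, mul_mul_mul_comm]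
    exact (h _ (e p hp).1).2.mul (h' _ (e p hp).2).2

theorem btm_mon (t : ℕ) (e : σ →₀ ℕ) : BtM t 1 1 (monomial e 1 : MvPowerSeries σ F) :=
  fun j _ => by
    classical
    rw [coeff_monomial]
    split_ifs <;> simp [isIntegral_one, isIntegral_zero]

theorem BtM.prod {ι : Type*} {u : ι → MvPowerSeries σ F} (h : ∀ l, BtM t M d (u l)) (s : Finset ι) :
    BtM t ((2 ^ t * M) ^ #s) (d ^ #s) (∏ l ∈ s, u l) := by
  classical
  induction s using Finset.induction_on with
  | empty => simpa using btm_mon (F := F) t (0 : σ →₀ ℕ)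
  | insert x s hx ih =>
    rw [prod_insert hx, card_insert_of_notMem hx, pow_succ', pow_succ']
    exact (h x).mul ih

theorem GKm.bt {α : Type*} {h : ℕ} {g : α → MvPowerSeries σ F} (hg : GKm h g) :
    ∃ C : ℕ, 0 < C ∧ ∀ t, ∃ d : ℕ, 0 < d ∧ d ≤ C * h ^ t ∧ ∀ x, BtM t (C * h ^ t) d (g x) :=
  let ⟨C, C0, hC⟩ := hg
  ⟨C, C0, fun t => let ⟨d1, d, d0, d2, d3⟩ := hC t
    ⟨d, d0, d2, fun x j hj => ⟨fun φ => d1 x φ j hj, d3 x j hj⟩⟩⟩

theorem τm_mns [Fintype σ] {R : Type*} [CommRing R] (x s : σ → R) (e : σ → ℕ) :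
    τm x (mns s e) = ∏ l, (X l + C (x l - s l)) ^ e l := by
  simp [τm_eq, mns, add_sub_assoc, MvPowerSeries.algebraMap_apply]

theorem btm_pow {c : F} {h : ℝ} (h1 : 1 ≤ h) (hd : IsIntegral ℤ ((d : F) * c))
    (hx : ∀ φ : F →+* ℂ, ‖φ c‖ ≤ h) (t : ℕ) (l : σ) {e D : ℕ} (he : e ≤ D) :
    BtM t ((2 * h) ^ D) (d ^ D) ((X l + C c) ^ e) := fun κ _ => by
  classical
  have e1 : coeff κ ((X l + C c : MvPowerSeries σ F) ^ e) = ∑ j ∈ range (e + 1),
      (if κ = Finsupp.single l j then 1 else 0) * (c ^ (e - j) * e.choose j) := by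
    rw [add_pow, map_sum]
    refine sum_congr rfl fun j _ => ?_
    rw [← map_pow, ← map_natCast (C (σ := σ) (R := F)), mul_assoc, ← map_mul, coeff_mul_C,
      coeff_X_pow]
  rw [e1]
  refine ⟨fun φ => ?_, ?_⟩
  · rw [map_sum]
    refine (norm_sum_le _ _).trans ((sum_le_sum (g := fun j => h ^ D * e.choose j)
      fun j _ => ?_).trans ?_)
    · split_ifs
      · rw [one_mul, map_mul, map_pow, map_natCast, norm_mul, norm_pow, Complex.norm_natCast]
        exact mul_le_mul_of_nonneg_right ((pow_le_pow_left₀ (norm_nonneg _) (hx φ) _).trans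
          (pow_le_pow_right₀ h1 (by omega))) (by positivity)
      · rw [zero_mul, map_zero, norm_zero]; positivity
    · rw [← mul_sum, ← Nat.cast_sum, Nat.sum_range_choose, mul_pow, mul_comm]
      gcongr
      exact_mod_cast Nat.pow_le_pow_right two_pos he
  · rw [mul_sum]
    refine IsIntegral.sum _ fun j _ => ?_
    split_ifs
    · obtain ⟨n, rfl⟩ : ∃ n, D = e - j + n := ⟨D - (e - j), by omega⟩
      rw [show ((d ^ (e - j + n) : ℕ) : F) * (1 * (c ^ (e - j) * e.choose j)) =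
        (d * c) ^ (e - j) * (d ^ n * e.choose j : ℕ) by rw [mul_pow]; push_cast; ring]
      exact (hd.pow (e - j)).mul (isIntegral_natCast (R := ℤ) (d ^ n * e.choose j))
    · rw [zero_mul, mul_zero]; exact isIntegral_zero

/-- series with coefficients in a subfield -/
def InFM (σ : Type*) [CharZero F] (E : IntermediateField ℚ F) : Subring (MvPowerSeries σ F) where
  carrier := {u | ∀ j, coeff j u ∈ E}
  add_mem' := fun h h' j => by rw [map_add]; exact add_mem (h j) (h' j)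
  mul_mem' := fun h h' j => by
    classical
    rw [coeff_mul]; exact sum_mem fun p _ => mul_mem (h _) (h' _)
  one_mem' := fun j => by
    classical
    rw [coeff_one]; split_ifs; exacts [one_mem _, zero_mem _]
  zero_mem' := fun j => by rw [map_zero]; exact zero_mem _
  neg_mem' := fun h j => by rw [map_neg]; exact neg_mem (h j)

theorem inFM_mns [Fintype σ] [CharZero F] {E : IntermediateField ℚ F} {x s : σ → F}
    (h : ∀ l, x l - s l ∈ E) (e : σ → ℕ) : τm x (mns s e) ∈ InFM σ E := by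
  classical
  rw [τm_mns]
  refine prod_mem fun l _ => pow_mem (add_mem (fun j => ?_) fun j => ?_) _
  · rw [coeff_X]; split_ifs; exacts [one_mem _, zero_mem _]
  · rw [coeff_C]; split_ifs; exacts [h l, zero_mem _]

end bt

variable [Fintype σ] {K L A J : Type*} [Field K] [Field L] {a : ℕ}

/-- the vectors at the points -/
noncomputable def thxM (s : σ → L) (al : J → Fin a → A) (ex : J → σ → ℕ) (x : σ → L)
    (Φ : A → MvPowerSeries σ L) (i : σ →₀ ℕ) (j : J) : L :=
  coeff i (τm x (mns s (ex j)) * ∏ l, Φ (al j l))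

/-- the matrices at the centre -/
noncomputable def thsM (W : A → A → MvPowerSeries σ K) (al : J → Fin a → A) (ex : J → σ → ℕ)
    (i : σ →₀ ℕ) (β : Fin a → A) (j : J) : K :=
  coeff i ((∏ l, X l ^ ex j l) * ∏ l, W (β l) (al j l))

theorem corem_pt {x s : σ → L} {Φ : A → MvPowerSeries σ L} {h d : ℕ} (h1 : 0 < h)
    (hΦ : GKm h Φ) (d0 : 0 < d) (d1 : d ≤ h) (hd : ∀ l, IsIntegral ℤ ((d : L) * (x l - s l)))
    (hx : ∀ l (φ : L →+* ℂ), ‖φ (x l - s l)‖ ≤ h) (a : ℕ) : ∃ C : ℕ, ∀ u D E, a * u ≤ E → u ≤ D →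
      (Fintype.card σ + 1) * D ≤ E → ∃ N : ℕ, 0 < N ∧ N ≤ C * (2 * h) ^ (2 * E) ∧
        ∀ (α : Fin a → A) (e : σ → ℕ), (∀ l, e l ≤ D) →
          BtM u (C * (2 * h) ^ (3 * E)) N (τm x (mns s e) * ∏ l, Φ (α l)) := by
  obtain ⟨C, C0, hC⟩ := hΦ.bt
  have h2 : (1 : ℝ) ≤ h := by exact_mod_cast h1
  refine ⟨C ^ a, fun u D E hu hu' hE => ?_⟩
  obtain ⟨q, q0, q1, q2⟩ := hC u
  obtain ⟨b, hb⟩ : ∃ b, b = Fintype.card σ := ⟨_, rfl⟩
  rw [← hb] at hE
  refine ⟨(d ^ D) ^ b * q ^ a, by positivity, ?_, fun α e he j hj => ?_⟩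
  · calc _ ≤ (h ^ D) ^ b * (C * h ^ u) ^ a := by gcongr
      _ = C ^ a * (h ^ (b * D) * h ^ (a * u)) := by ring
      _ ≤ C ^ a * ((2 * h) ^ E * (2 * h) ^ E) := by
        gcongr _ * (?_ * ?_)
        · exact (Nat.pow_le_pow_right h1 (by nlinarith : _ ≤ E)).trans (by gcongr; omega)
        · exact (Nat.pow_le_pow_right h1 hu).trans (by gcongr; omega)
      _ = _ := by ring
  · have := ((BtM.prod (fun l => btm_pow h2 (hd l) (hx l) u l (he l)) univ).mul
      (BtM.prod (fun l => q2 (α l)) univ)) j hj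
    rw [card_univ, card_univ, Fintype.card_fin, ← hb, ← τm_mns] at this
    refine ⟨fun φ => (this.1 φ).trans ?_, this.2⟩
    calc _ = C ^ a * (2 ^ ((b + 1) * u) * (2 * h : ℝ) ^ (b * D) * (2 * h) ^ (a * u)) := by ring
      _ ≤ C ^ a * ((2 * h) ^ E * (2 * h : ℝ) ^ E * (2 * h) ^ E) := by
        gcongr _ * (?_ * ?_ * ?_)
        · exact (pow_le_pow_right₀ one_le_two ((Nat.mul_le_mul_left _ hu').trans hE)).trans
            (by gcongr; linarith)
        · exact pow_le_pow_right₀ (by linarith) (by nlinarith)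
        · exact pow_le_pow_right₀ (by linarith) hu
      _ = _ := by push_cast; ring

end Pool.Agent.Lib.MP_5591bc_ag.M
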