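import Pool.Agent.Lib.MP_5591bc_ag.M.CoreA
import Pool.Agent.Lib.MP_5591bc_ag.W.Sub
import Pool.Agent.Lib.MP_5591bc_ag.W.NumP
import Pool.Agent.Lib.MP_5591bc_ag.W.NumD

/-! The auxiliary tensor in several variables. -/

namespace Pool.Agent.Lib.MP_5591bc_ag.M

open MvPowerSeries G W Finset

theorem btm_X {σ F : Type*} [Fintype σ] [Field F] (t : ℕ) (e : σ → ℕ) :
    BtM t 1 1 (∏ l, X l ^ e l : MvPowerSeries σ F) := by
  simp only [X_pow_eq, prod_monomial, prod_const_one]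
  exact btm_mon t _

theorem corem_sie {σ K A : Type} [Fintype σ] [Field K] [NumberField K] [Fintype A]
    {W : A → A → MvPowerSeries σ K} {h : ℕ} (h1 : 0 < h) (hW : GKm h fun q : A × A => W q.1 q.2)
    (a k : ℕ) : ∃ C : ℝ, 1 ≤ C ∧
    ∀ (m g y : ℕ) (J : Type) [Fintype J] (al : J → Fin a → A) (ex : J → σ → ℕ)
      (T : Finset (Finset (Fin k → Fin a → A))), 0 < g → 0 < Fintype.card J → k ≤ m →
      (g + 1) * (m.choose k * (#T * ((3 * (y + 1)) ^ Fintype.card σ) ^ k)) ≤ Fintype.card J ^ k →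
      ∃ c : (Fin m → J) → K, c ≠ 0 ∧ (∀ γ, IsIntegral ℤ (c γ)) ∧
        (∀ (I : Finset (Fin m)) (hI : I.card = k) β₀, ∀ t ∈ T, ∀ κ : Fin k → σ →₀ ℕ,
          ∑ i, (κ i).degree < k * y →
          ∑ β ∈ t, ∑ γ, c (subIx I hI γ β₀) * ∏ i, thsM W al ex (κ i) (β i) (γ i) = 0) ∧
        ∀ γ (φ : K →+* ℂ), ‖φ (c γ)‖ ^ g ≤
          C ^ (g + 1) * (Fintype.card J ^ m * (2 * h) ^ (2 * (a + 1) * k * (k * y))) := by
  classical
  obtain ⟨c₁, c1, hc⟩ := sub_sie K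
  obtain ⟨C, C0, hC⟩ := hW.bt
  have C1 : (1 : ℝ) ≤ C := by exact_mod_cast C0
  have h2 : (1 : ℝ) ≤ h := by exact_mod_cast h1
  obtain ⟨n, hn⟩ : ∃ n : ℝ, n = (Fintype.card (Fin k → Fin a → A) + 1) * C ^ (2 * a * k) := ⟨_, rfl⟩
  have n1 : 1 ≤ n := hn ▸ one_le_mul_of_one_le_of_one_le (by simp) (one_le_pow₀ C1)
  refine ⟨c₁ * n, one_le_mul_of_one_le_of_one_le c1 n1, fun m g y J _ al ex T g0 J0 km hr => ?_⟩
  obtain ⟨d, d0, d1, d2⟩ := hC (k * y)
  let S := {κ ∈ Fintype.piFinset fun _ : Fin k × σ => range (k * y + 1) | ∑ i, κ i ≤ k * y}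
  let f : (Fin k × σ → ℕ) → Fin k → σ →₀ ℕ := fun κ i =>
    Finsupp.equivFunOnFinite.symm fun l => κ (i, l)
  have hS : ∀ κ : S, ∀ i, (f κ.1 i).degree ≤ k * y := fun κ i => by
    refine le_trans ?_ (mem_filter.1 κ.2).2
    rw [Finsupp.degree_eq_sum, Fintype.sum_prod_type]
    exact single_le_sum (f := fun i => ∑ l, κ.1 (i, l)) (fun _ _ => Nat.zero_le _) (mem_univ i)
  have cS : #S ≤ ((3 * (y + 1)) ^ Fintype.card σ) ^ k := by
    refine (card_le_card fun κ hκ => mem_filter.2 ⟨(mem_filter.1 hκ).1, ?_⟩).trans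
      ((num_simplex (Fin k × σ) y (k * y + 1)).trans (by simp [← pow_mul, mul_comm]))
    rcases isEmpty_or_nonempty σ with h | h
    · simp
    · refine (mem_filter.1 hκ).2.trans (Nat.mul_le_mul_right _ ?_)
      rw [Fintype.card_prod, Fintype.card_fin]
      exact Nat.le_mul_of_pos_right _ Fintype.card_pos
  have hb := fun (β : Fin a → A) j => (btm_X (k * y) (ex j)).mul
    (BtM.prod (fun l => d2 (β l, al j l)) univ)
  simp only [card_univ, Fintype.card_fin] at hb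
  have z1 : (1 : ℝ) ≤ 2 * h := by linarith
  obtain ⟨c, c0, e1, e2, e3⟩ := hc m k g J (T × S)
    (fun q γ => ∑ β ∈ q.1.1, ∏ i, ((1 * d ^ a : ℕ) : K) * thsM W al ex (f q.2.1 i) (β i) (γ i))
    (n * (2 * h) ^ (2 * (a + 1) * k * (k * y))) (one_le_mul_of_one_le_of_one_le n1 (one_le_pow₀ z1))
    g0 J0 km (le_trans (by
      simp only [Fintype.card_prod, Fintype.card_coe]
      gcongr) hr)
    (fun q γ => IsIntegral.sum _ fun β _ => IsIntegral.prod _ fun i _ => (hb _ _ _ (hS q.2 i)).2)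
    fun q γ φ => by
      rw [map_sum]
      refine (norm_sum_le _ _).trans ((sum_le_card_nsmul _ _
        ((C ^ (2 * a) * (2 * h : ℝ) ^ (2 * (a + 1) * (k * y))) ^ k) fun β _ => ?_).trans ?_)
      · rw [map_prod, norm_prod]
        refine (prod_le_prod (fun _ _ => norm_nonneg _) fun i _ => ?_).trans (by
          rw [prod_const, card_univ, Fintype.card_fin])
        rw [map_mul, map_natCast, norm_mul, Complex.norm_natCast]
        have b1 : ((1 * d ^ a : ℕ) : ℝ) ≤ (C * h ^ (k * y)) ^ a := by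
          rw [one_mul]; exact_mod_cast Nat.pow_le_pow_left d1 a
        refine (mul_le_mul b1 ((hb _ _ _ (hS q.2 i)).1 φ) (norm_nonneg _) (by positivity)).trans ?_
        calc _ = C ^ (2 * a) * (2 ^ ((a + 1) * (k * y)) * (h : ℝ) ^ (2 * a * (k * y))) := by ring
          _ ≤ _ := by
            rw [mul_pow (2 : ℝ)]
            gcongr <;> norm_num
      · rw [nsmul_eq_mul, hn, mul_pow, ← pow_mul, ← pow_mul, mul_right_comm _ (k * y),
          mul_assoc (_ + 1 : ℝ)]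
        gcongr
        exact_mod_cast (card_le_univ _).trans (Nat.le_succ _)
  refine ⟨c, c0, e1, fun I hI β₀ t ht κ hκ => ?_, fun γ φ => (e3 γ φ).trans ?_⟩
  · have e : ∑ p : Fin k × σ, κ p.1 p.2 ≤ k * y := by
      simpa only [Fintype.sum_prod_type, Finsupp.degree_eq_sum] using hκ.le
    have := e2 I hI β₀ (⟨t, ht⟩, ⟨fun p => κ p.1 p.2, mem_filter.2 ⟨Fintype.mem_piFinset.2
      fun i => mem_range.2 (Nat.lt_succ_of_le ((single_le_sum (f := fun p : Fin k × σ => κ p.1 p.2)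
        (fun _ _ => Nat.zero_le _) (mem_univ i)).trans e)), e⟩⟩)
    simp only [f, Finsupp.equivFunOnFinite_symm_coe, prod_mul_distrib, mul_sum,
      mul_left_comm (c _)] at this
    rw [sum_comm] at this
    simp only [← mul_sum] at this
    exact (mul_eq_zero.1 this).resolve_left (prod_ne_zero_iff.2 fun _ _ => by simp [d0.ne'])
  · rw [mul_pow c₁, mul_left_comm _ n, mul_assoc (c₁ ^ _)]
    gcongr
    exact le_self_pow₀ n1 (by omega)

theorem numm_sub {r ρ W τ D k P G b q : ℕ} (h1 : 1 ≤ τ * D) (hg : 6 * P * (6 * τ) ^ b * r ≤ ρ)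
    (hG : (G + 1) * W ≤ 2 ^ k) (hq : q ≤ r ^ k * W * ((3 * (τ * D + 1)) ^ b) ^ k) :
    (G + 1) * ((P * k).choose k * q) ≤ (ρ * D ^ b) ^ k := by
  have h2 : 2 * (3 * P * (r * (3 * (τ * D + 1)) ^ b)) ≤ ρ * D ^ b := by
    calc _ ≤ 2 * (3 * P * (r * (6 * (τ * D)) ^ b)) := by gcongr _ * (_ * (_ * ?_ ^ _)); omega
      _ = 6 * P * (6 * τ) ^ b * r * D ^ b := by rw [← mul_assoc 6, mul_pow]; ring
      _ ≤ _ := Nat.mul_le_mul_right _ hg
  calc _ ≤ (G + 1) * ((3 * P) ^ k * (r ^ k * W * ((3 * (τ * D + 1)) ^ b) ^ k)) := by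
        gcongr; exact numd_choose P k
    _ = (G + 1) * W * (3 * P * (r * (3 * (τ * D + 1)) ^ b)) ^ k := by
        rw [mul_pow (3 * P), mul_pow r]; ring
    _ ≤ 2 ^ k * (3 * P * (r * (3 * (τ * D + 1)) ^ b)) ^ k := by gcongr
    _ ≤ _ := by rw [← mul_pow]; exact Nat.pow_le_pow_left h2 k

end Pool.Agent.Lib.MP_5591bc_ag.M
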