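import Pool.Agent.Lib.MP_5591bc_ag.M.CoreB
import Pool.Agent.Lib.MP_5591bc_ag.M.UpB
import Pool.Agent.Lib.MP_5591bc_ag.M.ZerB

/-! The contradiction for a selected set of points, in several variables. -/

namespace Pool.Agent.Lib.MP_5591bc_ag.M

open MvPowerSeries G W Finset
open scoped Classical

variable {σ : Type} [Fintype σ]

/-- the arithmetic part of the data at a point -/
structure DatA {K L A : Type*} [Field K] [Field L] [CharZero L] [Algebra K L] [Fintype A] (Λ : ℕ)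
    (s : σ → K) (T : MvPolynomial σ L) (B : σ → Matrix A A (MvPolynomial σ L)) (x : σ → L)
    (Φ : A → MvPowerSeries σ L) : Prop where
  ne : MvPolynomial.eval x T ≠ 0
  ode : IsM (τm x) T B Φ
  fld : ∃ F : IntermediateField ℚ L, Module.finrank ℚ F ≤ Λ ∧ (∀ y : K, algebraMap K L y ∈ F) ∧
    (∀ l, x l ∈ F) ∧ ∀ α κ, coeff κ (Φ α) ∈ F
  gk : GKm (2 ^ Λ) Φ
  den : ∃ d : ℕ, 0 < d ∧ d ≤ 2 ^ Λ ∧ ∀ l, IsIntegral ℤ ((d : L) * (x l - algebraMap K L (s l)))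
  hou : ∀ l (φ : L →+* ℂ), ‖φ (x l - algebraMap K L (s l))‖ ≤ 2 ^ Λ

/-- the analytic estimate: expansions `V x` at the centre `s` against expansions `Φ x` at `x` -/
def UpV {L A : Type*} [Field L] (ι : L →+* ℂ) (Λ : ℕ) (s : σ → L) (P : Finset (σ → L))
    (Φ : (σ → L) → A → MvPowerSeries σ L) (V : (σ → L) → A → MvPowerSeries σ ℂ) : Prop :=
  ∀ a, ∃ S : ℝ, 0 ≤ S ∧ ∀ (J : Type) [Fintype J] (al : J → Fin a → A) (ex : J → σ → ℕ) (D Y k : ℕ)
    (x : Fin k → σ → L) (c : (Fin k → J) → ℂ) (C : ℝ), (∀ j l, ex j l ≤ D) → (∀ i, x i ∈ P) →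
    (∀ γ, ‖c γ‖ ≤ C) → (∀ κ : Fin k → σ →₀ ℕ, ∑ i, (κ i).degree < Y → ∑ γ, c γ * ∏ i, coeff (κ i)
      ((∏ l, X l ^ ex (γ i) l) * ∏ l, V (x i) (al (γ i) l)) = 0) → ∀ n : Fin k → σ →₀ ℕ,
    ‖∑ γ, c γ * ∏ i, ι (thxM s al ex (x i) (Φ (x i)) (n i) (γ i))‖ ≤
      C * (Fintype.card J ^ k * (((16 * 2 ^ Λ) ^ (Fintype.card σ * D) * S) ^ k * (1 / 4) ^ Y *
        (2 * 2 ^ Λ) ^ ∑ i, (n i).degree))

theorem upV_of_rad {L A : Type*} [Field L] [Fintype A] {ι : L →+* ℂ} {Λ : ℕ} {s : σ → L}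
    {P : Finset (σ → L)} {Φ : (σ → L) → A → MvPowerSeries σ L}
    {V : (σ → L) → A → MvPowerSeries σ ℂ} (hx : ∀ x ∈ P, ∀ l, ‖ι (x l - s l)‖ ≤ 2 ^ Λ)
    (h : ∀ x ∈ P, ∃ (g : A → (σ → ℂ) → ℂ) (S : ℝ), ∀ α,
      Rad 16 S (2 ^ Λ)⁻¹ (fun l => ι (s l)) (fun l => ι (x l)) (V x α) (g α) ∧
      tayM (g α) (fun l => ι (x l)) = map ι (Φ x α)) : UpV ι Λ s P Φ V := by
  choose! g Sx hg using h
  obtain ⟨S, S0, hS⟩ : ∃ S, 0 ≤ S ∧ ∀ x ∈ P, Sx x ≤ S := ⟨∑ x ∈ P, |Sx x|, by positivity,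
    fun x hx => (le_abs_self _).trans (single_le_sum (f := fun x => |Sx x|)
      (fun _ _ => abs_nonneg _) hx)⟩
  have h1 : (1 : ℝ) ≤ 2 ^ Λ := one_le_pow₀ one_le_two
  have ρ0 : (0 : ℝ) < (2 ^ Λ)⁻¹ := by positivity
  refine fun a => ⟨2 * (2 * S) ^ a, by positivity, ?_⟩
  intro J _ al ex D Y k x c C hD hP hc hz n
  have hr : ∀ i α, Rad 16 S (2 ^ Λ)⁻¹ (fun l => ι (s l)) (fun l => ι (x i l)) (V (x i) α)
      (g (x i) α) := fun i α => let h := (hg _ (hP i) α).1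
    ⟨h.an, fun y hy n => (h.bd y hy n).trans (by gcongr; exact hS _ (hP i)), h.sum⟩
  have mn := fun i j => upb_mon (h := 2 * 2 ^ Λ) (ρ := (2 ^ Λ)⁻¹) (by linarith)
    (s := fun l => ι (s l)) (x := fun l => ι (x i l)) (fun l => by
      have := hx _ (hP i) l
      rw [map_sub] at this
      linarith [inv_le_one_of_one_le₀ h1]) (e := ex j) (D := Fintype.card σ * D)
    ((sum_le_card_nsmul _ _ D fun l _ => hD j l).trans (by simp))
  have key := upm_main c (q := 8) (by norm_num) ρ0 (fun _ => by positivity)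
    (Φ := fun i j => map ι (τm (x i) (mns s (ex j)) * ∏ l, Φ (x i) (al j l)))
    (fun i j => (mn i j).prod ρ0 fun l => hr i (al j l))
    (fun i j v => by
      rw [← dir_tayM ((mn i j).an.fun_mul (Finset.analyticAt_fun_prod _ fun l _ => (hr i _).an)),
        tayM_mul (mn i j).an (Finset.analyticAt_fun_prod _ fun l _ => (hr i _).an),
        tayM_prod _ fun l _ => (hr i _).an, tayM_prod _ fun l _ =>
          ((coord_ana l).fun_sub analyticAt_const).fun_pow _]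
      simp only [tayM_pow ((coord_ana _).fun_sub analyticAt_const),
        tayM_sub (coord_ana _) analyticAt_const, tayM_coord, tayM_const, (hg _ (hP i) _).2, upb_τ,
        map_mul, map_prod, map_pow, map_add, map_X, map_C, map_sub, add_sub_assoc]) hz n
  simp only [coeff_map, prod_const, card_univ, Fintype.card_fin] at key
  refine key.trans (le_trans (le_of_eq ?_) (mul_le_mul_of_nonneg_right
    ((sum_le_card_nsmul univ (fun γ => ‖c γ‖) C fun γ _ => hc γ).trans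
      (le_of_eq (b := C * Fintype.card J ^ k) (by simp [mul_comm]))) (by positivity) |>.trans
        (le_of_eq (mul_assoc _ _ _))))
  rw [div_inv_eq_mul, ← mul_assoc 8, mul_left_comm 2]
  norm_num [mul_assoc]

theorem ths_sum {K A J : Type*} [Field K] [Fintype A] {a k : ℕ} (φ : K →+* ℂ)
    (W : A → A → MvPowerSeries σ K) (al : J → Fin a → A) (ex : J → σ → ℕ) (μ : Fin k → A → ℂ)
    (κ : Fin k → σ →₀ ℕ) (γ : Fin k → J) : ∏ i, coeff (κ i) ((∏ l, X l ^ ex (γ i) l) *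
      ∏ l, ∑ β, C (μ i β) * map φ (W β (al (γ i) l))) = ∑ β : Fin k → Fin a → A,
        (∏ i, ∏ l, μ i (β i l)) * ∏ i, φ (thsM W al ex (κ i) (β i) (γ i)) := by
  have : ∀ i, coeff (κ i) ((∏ l, X l ^ ex (γ i) l) *
      ∏ l, ∑ β, C (μ i β) * map φ (W β (al (γ i) l))) =
      ∑ β : Fin a → A, (∏ l, μ i (β l)) * φ (thsM W al ex (κ i) β (γ i)) := fun i => by
    simp only [prod_univ_sum, Fintype.piFinset_univ, mul_sum, map_sum, prod_mul_distrib,
      ← map_prod (C (σ := σ) (R := ℂ))]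
    refine sum_congr rfl fun β _ => ?_
    rw [mul_left_comm, coeff_C_mul, thsM, ← coeff_map]
    simp only [map_mul, map_prod, map_pow, map_X]
  simp only [this]
  simp only [prod_univ_sum, Fintype.piFinset_univ, prod_mul_distrib]

theorem corem_eps {Z J h S : ℝ} {k E b n Y q : ℕ} (k0 : 0 < k) (hZ : (2 * h) ^ E = Z) (h1 : 1 ≤ h)
    (J0 : 0 ≤ J) (hJ : J ≤ Z ^ 2) (S0 : 0 ≤ S) (hS : S ≤ Z) (hb : b ≤ E) (hn : n ≤ E)
    (hY : 4 ^ Y = Z ^ q) :
    J ^ k * (((16 * h) ^ b * S) ^ k * (1 / 4) ^ Y * (2 * h) ^ n) ≤ Z ^ (8 * k) / Z ^ q := by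
  have z1 : 1 ≤ 2 * h := by linarith
  have Z1 : 1 ≤ Z := hZ ▸ one_le_pow₀ z1
  have a1 : (16 * h) ^ b ≤ Z ^ 4 := by
    rw [← hZ, ← pow_mul, mul_comm E, pow_mul]
    refine (pow_le_pow_right₀ (by linarith) hb).trans (pow_le_pow_left₀ (by linarith) ?_ E)
    rw [mul_pow]
    exact mul_le_mul (by norm_num) (le_self_pow₀ h1 (by norm_num)) (by linarith) (by norm_num)
  have a2 : (2 * h) ^ n ≤ Z := hZ ▸ pow_le_pow_right₀ z1 hn
  rw [one_div, inv_pow, hY]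
  calc _ ≤ (Z ^ 2) ^ k * ((Z ^ 4 * Z) ^ k * (Z ^ q)⁻¹ * Z) := by gcongr
    _ = Z ^ (7 * k + 1) / Z ^ q := by ring
    _ ≤ _ := by gcongr; omega

theorem corem_fix {A K L : Type} [Fintype A] [Field K] [NumberField K] [Field L] [NumberField L]
    [Algebra K L] (ι : L →+* ℂ) {Λ : ℕ} {s : σ → K} {T : MvPolynomial σ L}
    {B : σ → Matrix A A (MvPolynomial σ L)} {W : A → A → MvPowerSeries σ K} {P : Finset (σ → L)}
    {Φ : (σ → L) → A → MvPowerSeries σ L} {μ : (σ → L) → A → ℂ}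
    (hW : GKm (2 ^ Λ) fun q : A × A => W q.1 q.2) (hP : ∀ x ∈ P, DatA Λ s T B x (Φ x))
    (hU : UpV ι Λ (fun l => algebraMap K L (s l)) P Φ
      fun x α => ∑ β, C (μ x β) * map (ι.comp (algebraMap K L)) (W β α))
    {a b k n τ g ρ w : ℕ} (hb : b = Fintype.card σ) (k0 : 0 < k) (ak : a ≤ k)
    (hτ : τ = (Λ + 1) * (b + 1) * (28 * (Λ + 1) ^ 2 + 5)) (hg : g = 2 * (a + 1) * k ^ 2 * τ)
    {I : Finset (Fin a → A)} (I0 : I.Nonempty) (hn : (a + 1) ^ Fintype.card A ≤ n)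
    (hsel : ∀ φ : (Fin a → A) → MvPolynomial σ L, φ ≠ 0 → (∀ α ∉ I, φ α = 0) →
      ¬ Hyp {x | x ∈ P ∧ ∑ α, τm x (φ α) * ∏ l, Φ x (α l) ≠ 0}
        (2 * (b + 1) ^ 2 * (2 * (Λ + 1) * k) * n))
    {E : Finset (Finset (Fin k → Fin a → A))} (hE : #E ≤ ρ ^ k * w)
    (hρ : 6 * (2 * (Λ + 1)) * (6 * τ) ^ b * ρ ≤ #I) (hw : (g + 1) * w ≤ 2 ^ k)
    (env : ∀ y : (Fin k → Fin a → A) → ℂ, (∀ t ∈ E, ∑ β ∈ t, y β = 0) → ∀ ξ : Fin k → σ → L,
      (∀ i, ξ i ∈ P) → ∑ β, (∏ i, ∏ l, μ (ξ i) (β i l)) * y β = 0) : False := by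
  obtain ⟨m, hm⟩ : ∃ m, m = 2 * (Λ + 1) * k := ⟨_, rfl⟩
  have km : k ≤ m := by nlinarith
  have τ0 : 0 < τ := by rw [hτ]; positivity
  have g0 : 0 < g := by rw [hg]; positivity
  have n0 : 0 < n := lt_of_lt_of_le (by positivity) hn
  have h0 : 0 < 2 ^ Λ := by positivity
  have h1 : (1 : ℝ) ≤ 2 ^ Λ := one_le_pow₀ one_le_two
  obtain ⟨C, C1, hC⟩ := corem_sie h0 hW a k
  choose! F F1 F2 F3 F4 using fun x hx => (hP x hx).fld
  choose! Cp hCp using fun x hx => (hP x hx).den.elim fun d hd =>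
    corem_pt h0 (hP x hx).gk hd.1 hd.2.1 hd.2.2 (by simpa using (hP x hx).hou) a
  obtain ⟨S, S0, hS⟩ := hU a
  obtain ⟨e, e1, e2⟩ : ∃ e, T.totalDegree ≤ e ∧ ∀ l i j, (B l i j).totalDegree ≤ e :=
    ⟨T.totalDegree + univ.sup fun q : σ × A × A => (B q.1 q.2.1 q.2.2).totalDegree,
      Nat.le_add_right _ _, fun l i j => (le_sup (f := fun q : σ × A × A =>
        (B q.1 q.2.1 q.2.2).totalDegree) (mem_univ (l, i, j))).trans (Nat.le_add_left _ _)⟩
  obtain ⟨u, hu⟩ : ∃ u, u = ⌈C⌉₊ + ∑ x ∈ P, Cp x + ⌈S⌉₊ + #I + (n * e + 2 * n + 1) := ⟨_, rfl⟩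
  obtain ⟨D, hD⟩ : ∃ D, D = m * u := ⟨_, rfl⟩
  have uD : u ≤ D := by nlinarith
  have D0 : 0 < D := by omega
  obtain ⟨D', hD'⟩ : ∃ D', D' = (b + 1) * D := ⟨_, rfl⟩
  have DD : b * D + D = D' := by rw [hD']; ring
  obtain ⟨Z, hZ⟩ : ∃ Z : ℝ, (2 * 2 ^ Λ) ^ D' = Z := ⟨_, rfl⟩
  have Z2 : (2 : ℝ) ^ D' ≤ Z := (pow_le_pow_left₀ zero_le_two (by linarith) D').trans_eq hZ
  have DZ : (D : ℝ) < Z := lt_of_lt_of_le (b := 2 ^ D) (by exact_mod_cast Nat.lt_two_pow_self)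
    ((pow_le_pow_right₀ one_le_two (by omega)).trans Z2)
  have Z1 : 1 < Z := lt_of_le_of_lt (by exact_mod_cast D0) DZ
  have uZ : ∀ z : ℕ, z ≤ u → (z : ℝ) ≤ Z := fun z hz =>
    le_trans (by exact_mod_cast hz.trans uD) DZ.le
  have J1 : Fintype.card (I × (σ → Fin D)) = #I * D ^ b := by simp [hb]
  have J0 : 0 < Fintype.card (I × (σ → Fin D)) := J1 ▸ Nat.mul_pos (card_pos.2 I0) (pow_pos D0 b)
  have JZ : (Fintype.card (I × (σ → Fin D)) : ℝ) ≤ Z ^ 2 := by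
    rw [J1, Nat.cast_mul, sq]
    refine mul_le_mul (uZ _ (by omega)) (le_trans ?_ Z2) (by positivity) (by linarith)
    exact_mod_cast (Nat.pow_le_pow_left D.lt_two_pow_self.le b).trans (by
      rw [← pow_mul, mul_comm]; exact Nat.pow_le_pow_right two_pos (by omega))
  obtain ⟨c, c0, c1, c2, c3⟩ := hC m g (τ * D) (I × (σ → Fin D)) (fun j => j.1.1)
    (fun j l => j.2 l) E g0 J0 km (by
      rw [J1, hm, ← hb]
      exact numm_sub (Nat.mul_pos τ0 D0) hρ hw (Nat.mul_le_mul_right _ hE))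
  have c4 : ∀ γ (φ : K →+* ℂ), ‖φ (c γ)‖ ≤ Z ^ (5 * m) := fun γ φ => by
    refine le_of_pow_le_pow_left₀ g0.ne' (by positivity) ((c3 γ φ).trans ?_)
    calc _ ≤ Z ^ (g + 1) * ((Z ^ 2) ^ m * Z ^ g) := by
          gcongr
          · exact (Nat.le_ceil C).trans (uZ _ (by omega))
          · rw [← hZ, ← pow_mul]
            push_cast
            refine pow_le_pow_right₀ (by linarith) ?_
            calc _ = D * g := by rw [hg]; ring
              _ ≤ _ := Nat.mul_le_mul_right _ (by omega)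
      _ ≤ _ := by
        rw [← pow_mul, ← pow_mul, ← pow_add, ← pow_add]
        exact pow_le_pow_right₀ Z1.le (by nlinarith [k0.trans_le km])
  refine c0 (funext fun γ => (algebraMap K L).injective ((congrFun (grid_powM (ς := Fin m) (D := D)
    (μ := u) (c := fun γ => algebraMap K L (c γ)) (fun x hx => (hP x hx).ne)
    (fun x hx => (hP x hx).ode) e1 e2 hsel hn ?_ (fun l => algebraMap K L (s l))
      fun x i hx hi => ?_) γ).trans (map_zero _).symm))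
  · obtain ⟨v, hv⟩ : ∃ v, u = v + (n * e + 2 * n + 1) := ⟨_, hu⟩
    obtain ⟨y, hy⟩ : ∃ y, y = u - n := ⟨_, rfl⟩
    have m0 := k0.trans_le km
    rw [← hm, ← hb, hD, ← hy]
    calc _ ≤ b * (n * (b * (m * (2 * y)) + m * y)) := by
          gcongr b * (n * (b * (m * ?_) + ?_))
          · omega
          · exact le_trans (by omega : n * e ≤ y) (Nat.le_mul_of_pos_left y m0)
      _ = (2 * b ^ 2 + b) * (m * n * y) := by ring
      _ < 2 * (b + 1) ^ 2 * (m * n * y) :=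
          Nat.mul_lt_mul_of_pos_right (by nlinarith) (Nat.mul_pos (Nat.mul_pos m0 n0) (by omega))
      _ = _ := by ring
  choose N N0 N1 N2 using fun j => hCp (x j) (hx j) u D D' (le_trans (by nlinarith) (DD ▸
    Nat.le_add_left D (b * D))) uD (by rw [hD', hb])
  have CZ : ∀ j, (Cp (x j) : ℝ) ≤ Z := fun j => uZ _ ((single_le_sum (f := Cp)
    (fun _ _ => Nat.zero_le _) (hx j)).trans (by omega))
  refine sub_low ι (b := Λ + 1) (fun j => F (x j)) (fun j => (F1 _ (hx j)).trans (Nat.le_succ _)) k0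
    km (by omega) J0 _ (fun b j => thxM (fun l => algebraMap K L (s l))
      (fun j : I × (σ → Fin D) => j.1.1) (fun j l => j.2 l) (x b) (Φ (x b)) (i b) j)
    (fun b γ => F2 _ (hx b) _)
    (fun b j => mul_mem (inFM_mns (fun l => sub_mem (F3 _ (hx b) l) (F2 _ (hx b) _)) _)
      (prod_mem fun l _ => F4 _ (hx b) _) _) (N := ∏ b, N b) (prod_pos fun b _ => N0 b) ?_
    (C := Z ^ (5 * m)) (M := Z ^ 4) (ε := Z ^ (8 * k) / Z ^ (k * (56 * (Λ + 1) ^ 2 + 10)))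
    (one_le_pow₀ Z1.le) (by positivity) ((div_le_one (by positivity)).2
      (pow_le_pow_right₀ Z1.le (by nlinarith [Nat.zero_le (k * (Λ + 1) ^ 2)])))
    (fun γ φ => c4 γ (φ.comp (algebraMap K L))) (fun b j φ => ?_) (fun Q hQ β => ?_) ?_
  · rw [mul_sum]
    refine IsIntegral.sum _ fun γ _ => ?_
    rw [mul_left_comm, Nat.cast_prod, ← prod_mul_distrib]
    exact (map_isIntegral_int _ (c1 γ)).mul (IsIntegral.prod _ fun b _ =>
      (N2 b _ _ (fun l => ((γ b).2 l).2.le) _ (hi b).le).2)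
  · refine ((N2 b _ _ (fun l => (j.2 l).2.le) _ (hi b).le).1 φ).trans ?_
    push_cast
    rw [mul_comm 3, pow_mul, hZ, pow_succ' Z 3]
    gcongr
    exact CZ b
  · refine (hS _ _ _ D (k * (τ * D)) k _ _ _ (fun j l => (j.2 l).2.le) (fun l => hx _)
      (fun γ => c4 _ (ι.comp (algebraMap K L))) (fun κ hκ => ?_) _).trans
      (mul_le_mul_of_nonneg_left (corem_eps k0 hZ h1 (by positivity) JZ S0
        ((Nat.le_ceil _).trans (uZ _ (by omega))) (by rw [← hb]; omega) ?_ ?_) (by positivity))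
    · refine (sum_congr rfl fun γ _ => congrArg _ (ths_sum (ι.comp (algebraMap K L)) W
        (fun j : I × (σ → Fin D) => j.1.1) (fun j l => j.2 l)
        (fun l => μ (x (Q.orderEmbOfFin hQ l))) κ γ)).trans ?_
      simp only [mul_sum]
      rw [sum_comm]
      simp only [mul_left_comm ((ι.comp (algebraMap K L)) (c _)), ← mul_sum]
      refine env _ (fun t ht => ?_) _ fun l => hx _
      simpa using congrArg (ι.comp (algebraMap K L)) (c2 Q hQ β t ht κ hκ)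
    · exact (sum_le_card_nsmul _ _ u fun l _ => (hi _).le).trans
        (le_trans (by simp; nlinarith) (DD ▸ Nat.le_add_left D (b * D)))
    · rw [← hZ, ← pow_succ', show (4 : ℝ) = 2 ^ 2 by norm_num, ← pow_mul, ← pow_mul, ← pow_mul, hτ,
        hD']
      congr 1
      ring
  · have b1 : ((∏ b, N b : ℕ) : ℝ) ≤ (Z ^ 3) ^ m := by
      rw [Nat.cast_prod]
      refine (prod_le_prod (fun _ _ => by positivity) fun b _ => ?_).trans (by
        rw [prod_const, card_univ, Fintype.card_fin])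
      refine le_trans (Nat.cast_le.2 (N1 b)) ?_
      push_cast
      rw [mul_comm 2 D', pow_mul, hZ, pow_succ' Z 2]
      gcongr
      exact CZ b
    calc _ ≤ ((Z ^ 3) ^ m * ((Z ^ 2 * Z ^ 4) ^ m * Z ^ (5 * m))) ^ (2 * (Λ + 1)) *
          (Z ^ (8 * k) / Z ^ (k * (56 * (Λ + 1) ^ 2 + 10))) := by gcongr
      _ = Z ^ (k * (56 * (Λ + 1) ^ 2 + 8)) / Z ^ (k * (56 * (Λ + 1) ^ 2 + 10)) := by rw [hm]; ring
      _ < 1 := (div_lt_one (by positivity)).2 (pow_lt_pow_right₀ Z1 (by nlinarith))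

end Pool.Agent.Lib.MP_5591bc_ag.M
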