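import Pool.Agent.Lib.MP_5591bc_ag.M.CovB
import Pool.Agent.Lib.MP_5591bc_ag.M.Set
import Pool.Agent.Lib.MP_5591bc_ag.W.Map
import Pool.Agent.Lib.MP_5591bc_ag.W.CovA

/-! The cover of the algebraic points of bounded degree and height. -/

namespace Pool.Agent.Lib.MP_5591bc_ag.M

open Finset MvPolynomial NumberField W

variable {σ K : Type*} [Fintype σ] [Field K] [NumberField K]

/-- Liouville's inequality for the values of a polynomial -/
theorem cvc_liou (T : MvPolynomial σ K) : ∃ c : ℕ, ∀ (E : Type*) [Field E] [NumberField E]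
    [Algebra K E] (L : ℕ) (x : σ → E), 0 < L → (∀ l, Ht (x l) (2 ^ L)) → aeval x T ≠ 0 →
    ∀ φ : E →+* ℂ, 1 ≤ 2 ^ (c * (Module.finrank ℚ E * L)) * ‖φ (aeval x T)‖ := by
  classical
  choose a ha using fun ψ : K →+* ℂ => cvb_pow (map ψ T)
  obtain ⟨m, m0, hm⟩ := exists_integral_multiples ℤ ℚ (T.support.image T.coeff)
  obtain ⟨u, hu⟩ := pow_unbounded_of_one_lt (‖(m : ℂ)‖) (one_lt_two (α := ℝ))
  set n := T.totalDegree
  refine ⟨u + Fintype.card σ * n + univ.sup a, fun E _ _ _ L x L0 hx h0 φ => ?_⟩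
  choose d d0 d1 d2 d3 using hx
  obtain ⟨D, hD⟩ : ∃ D : ℕ, D = ∏ l, d l := ⟨_, rfl⟩
  have D0 : 0 < D := hD ▸ prod_pos fun l _ => d0 l
  have D1 : (D : ℝ) ≤ (2 ^ L) ^ Fintype.card σ := by
    rw [hD, Nat.cast_prod]
    exact (prod_le_prod (fun _ _ => Nat.cast_nonneg _) fun l _ => d1 l).trans_eq (by simp)
  have D2 : ∀ l, IsIntegral ℤ ((D : E) * x l) := fun l => by
    rw [hD, ← mul_prod_erase _ _ (mem_univ l), Nat.cast_mul, mul_right_comm]
    exact (d2 l).mul (isIntegral_natCast _)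
  have hi : IsIntegral ℤ ((m : E) * D ^ n * aeval x T) := by
    rw [aeval_def, eval₂_eq', mul_sum]
    refine IsIntegral.sum _ fun κ hκ => ?_
    obtain ⟨r, hr⟩ := Nat.exists_eq_add_of_le (le_totalDegree hκ)
    rw [Finsupp.sum_fintype _ _ fun _ => rfl] at hr
    have e : (m : E) * D ^ n * (algebraMap K E (T.coeff κ) * ∏ l, x l ^ κ l) =
        algebraMap K E (m • T.coeff κ) * D ^ r * ∏ l, (D * x l) ^ κ l := by
      simp only [mul_pow, prod_mul_distrib, prod_pow_eq_pow_sum, zsmul_eq_mul, map_mul, map_intCast]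
      rw [show n = _ from hr, pow_add]
      ring
    rw [e]
    exact (((hm _ (mem_image_of_mem _ hκ)).map (algebraMap K E).toIntAlgHom).mul
      ((isIntegral_natCast _).pow _)).mul (IsIntegral.prod _ fun l _ => (D2 l).pow _)
  have b1 : ∀ ψ : E →+* ℂ, ‖ψ ((m : E) * D ^ n)‖ ≤ 2 ^ ((u + Fintype.card σ * n) * L) := fun ψ => by
    rw [map_mul, map_pow, map_intCast, map_natCast, norm_mul, norm_pow, Complex.norm_natCast,
      add_mul, pow_add, mul_comm (_ * n), ← mul_assoc, pow_mul _ _ n, pow_mul _ L]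
    exact mul_le_mul (hu.le.trans (pow_le_pow_right₀ one_le_two (Nat.le_mul_of_pos_right _ L0)))
      (pow_le_pow_left₀ (Nat.cast_nonneg _) D1 _) (by positivity) (by positivity)
  have b2 : ∀ ψ : E →+* ℂ, ‖ψ (aeval x T)‖ ≤ 2 ^ (univ.sup a * L) := fun ψ => by
    have := ha (ψ.comp (algebraMap K E)) L L0 (fun l => ψ (x l))
      ((pi_norm_le_iff_of_nonneg (by positivity)).2 fun l =>
        (norm_embedding_le_house _ ψ).trans (d3 l))
    rw [eval_map] at this
    rw [aeval_def, eval₂_comp_left]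
    exact this.le.trans (pow_le_pow_right₀ one_le_two
      (Nat.mul_le_mul_right _ (le_sup (f := a) (mem_univ _))))
  have k := cov_liou φ hi (mul_ne_zero (mul_ne_zero (Int.cast_ne_zero.2 m0)
    (pow_ne_zero _ (Nat.cast_ne_zero.2 D0.ne'))) h0)
  have b3 : house ((m : E) * D ^ n * aeval x T) ≤
      2 ^ ((u + Fintype.card σ * n + univ.sup a) * L) := wmap_house fun ψ => by
    rw [map_mul, norm_mul, add_mul, pow_add]
    exact mul_le_mul (b1 ψ) (b2 ψ) (norm_nonneg _) (by positivity)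
  obtain ⟨e, he⟩ : ∃ e, Module.finrank ℚ E = e + 1 :=
    Nat.exists_eq_succ_of_ne_zero Module.finrank_pos.ne'
  rw [he, Nat.add_sub_cancel, map_mul, norm_mul] at k
  rw [he, mul_comm (e + 1), ← mul_assoc, pow_mul, pow_succ, mul_assoc, mul_comm]
  refine k.trans (mul_le_mul (mul_le_mul_of_nonneg_right ((b1 φ).trans
    (pow_le_pow_right₀ one_le_two (Nat.mul_le_mul_right _ (Nat.le_add_right _ _))))
    (norm_nonneg _)) (pow_le_pow_left₀ (house_nonneg _) b3 _) (pow_nonneg (house_nonneg _) _)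
    (by positivity))

omit [Fintype σ] in
theorem cvc_fin {α L : Type*} [CommRing L] [IsDomain L] (t : Finset α) {S : α → Set (σ → L)} {n : ℕ}
    (h : ∀ a ∈ t, Hyp (S a) n) : Hyp (⋃ a ∈ t, S a) (t.card * n) := by
  choose! Q Q0 Q1 Q2 using h
  refine ⟨∏ a ∈ t, Q a, prod_ne_zero_iff.2 Q0, (totalDegree_finsetProd _ _).trans
    (sum_le_card_nsmul _ _ n Q1), fun x hx => ?_⟩
  obtain ⟨a, ha, hx⟩ := Set.mem_iUnion₂.1 hx
  rw [map_prod]
  exact prod_eq_zero ha (Q2 a ha x hx)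

/-- The assembled cover: if the points seen from a point lie on a hypersurface of degree `n`, all
points lie on a hypersurface of degree `n` times a power of `d L`. -/
theorem cvc_main [Algebra K ℂ] {ι : Type*} [Fintype ι] {T : MvPolynomial σ K} (hT : T ≠ 0)
    {T0 : MvPolynomial σ ℂ} {l : ι → MvPolynomial σ ℂ} (hl : ∀ i, (l i).totalDegree ≤ 1)
    (e : TM ℂ T = T0 * ∏ i, l i) {ε : ℝ} (ε0 : 0 < ε) : ∃ c : ℕ, 0 < c ∧
    ∀ (d L n : ℕ) (S : Set (σ → ℂ)), 0 < d → 0 < L →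
      (∀ x ∈ S, (∀ z, eval z T0 = 0 → ε * (1 + ‖x‖) ≤ ‖x - z‖) ∧
        (∀ j, ∃ q : Polynomial ℤ, q ≠ 0 ∧ (∀ i, |(q.coeff i : ℝ)| ≤ 2 ^ L) ∧
          Polynomial.aeval (x j) q = 0) ∧
        ∃ E : IntermediateField K ℂ, (∀ j, x j ∈ E) ∧ FiniteDimensional ℚ E ∧
          Module.finrank ℚ E ≤ d) →
      (∀ s ∈ S, aeval s T ≠ 0 → ∀ S' ⊆ S,
        (∀ x ∈ S', aeval x T ≠ 0 ∧ Near T (2 ^ (c * (d * L)))⁻¹ s x) → Hyp S' n) →
      Hyp S (T.totalDegree + (c * (d * L)) ^ (Fintype.card ι + Fintype.card σ) * n) := by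
  classical
  obtain ⟨c1, h1⟩ := cvc_liou.{_, _, 0} T
  obtain ⟨c2, c0, h2⟩ := cvb_main T0 l hl ε0
  have ev : ∀ x : σ → ℂ, aeval x T = eval x (T0 * ∏ i, l i) := fun x => by
    rw [← e, eval_map, aeval_def]
  refine ⟨c2 * (2 * c1 + 2), by positivity, fun d L n S d0 L0 hS h => ?_⟩
  have x0 : 0 < d * L := Nat.mul_pos d0 L0
  obtain ⟨t, g, t1, t2, t3⟩ := h2 ((2 * c1 + 2) * (d * L)) (by positivity)
    {x ∈ S | aeval x T ≠ 0} fun x hx => by
      obtain ⟨k1, k2, E, hE, hf, hd⟩ := hS x hx.1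
      have : NumberField E := {}
      have ht : ∀ j, Ht (⟨x j, hE j⟩ : E) (2 ^ (L + 1)) := fun j => by
        obtain ⟨q, q0, hq, qx⟩ := k2 j
        rw [pow_succ']
        refine Ht_of_poly q0 (by exact_mod_cast hq) ((algebraMap E ℂ).injective ?_)
        rw [map_zero, ← qx]
        exact (Polynomial.aeval_algHom_apply (algebraMap E ℂ).toIntAlgHom _ q).symm
      have e1 : algebraMap E ℂ (aeval (fun j => (⟨x j, hE j⟩ : E)) T) = aeval x T :=
        (aeval_algebraMap_apply ℂ (fun j => (⟨x j, hE j⟩ : E)) T).symm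
      have k3 := h1 E (L + 1) _ L.succ_pos ht (fun h0 => hx.2 (by rw [← e1, h0, map_zero]))
        (algebraMap E ℂ)
      refine ⟨(pi_norm_le_iff_of_nonneg (by positivity)).2 fun j => ?_, k1, ?_⟩
      · obtain ⟨-, -, -, -, b⟩ := ht j
        refine ((norm_embedding_le_house _ (algebraMap E ℂ)).trans b).trans
          (pow_le_pow_right₀ one_le_two ?_)
        nlinarith [Nat.le_mul_of_pos_left L d0, Nat.zero_le (c1 * (d * L))]
      · rw [← ev, inv_le_iff_one_le_mul₀' (by positivity)]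
        rw [e1] at k3
        refine k3.trans (mul_le_mul_of_nonneg_right (pow_le_pow_right₀ one_le_two ?_)
          (norm_nonneg _))
        have : Module.finrank ℚ E * (L + 1) ≤ 2 * (d * L) :=
          (Nat.mul_le_mul hd (show L + 1 ≤ 2 * L by omega)).trans_eq (by ring)
        nlinarith [Nat.mul_le_mul_left c1 this]
  rw [← mul_assoc] at t1 t3
  obtain ⟨Q, Q0, Q1, Q2⟩ := cvc_fin t (S := fun a => {x | (x ∈ S ∧ aeval x T ≠ 0) ∧ g x = a})
    (n := n) fun a _ => by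
      rcases Set.eq_empty_or_nonempty {x | (x ∈ S ∧ aeval x T ≠ 0) ∧ g x = a} with k | ⟨s, hs⟩
      · exact ⟨1, one_ne_zero, by simp, fun x hx => (k ▸ hx : x ∈ (∅ : Set _)).elim⟩
      · refine h s hs.1.1 hs.1.2 _ (fun x hx => hx.1.1) fun x hx => ⟨hx.1.2, fun y hy u hu => ?_⟩
        rw [ev]
        exact t3 x s hs.1 (hx.2.trans hs.2.symm) y hy u hu
  refine ⟨TM ℂ T * Q, mul_ne_zero
    ((map_ne_zero_iff _ (map_injective _ (algebraMap K ℂ).injective)).2 hT) Q0,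
    (totalDegree_mul _ _).trans (add_le_add ?_ (Q1.trans (Nat.mul_le_mul_right _ t1))),
    fun x hx => ?_⟩
  · exact sup_mono (support_map_subset _ _)
  · rw [map_mul, e, ← ev]
    by_cases k : aeval x T = 0
    · rw [k, zero_mul]
    · rw [Q2 x (Set.mem_iUnion₂.2 ⟨g x, t2 x ⟨hx, k⟩, ⟨hx, k⟩, rfl⟩), mul_zero]

end Pool.Agent.Lib.MP_5591bc_ag.M
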