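import Pool.Agent.Lib.MP_5591bc_ag.M.GFB
import Pool.Agent.Lib.MP_5591bc_ag.M.CovC

/-! Uniform constants of the formal solutions at all points of bounded size. -/

namespace Pool.Agent.Lib.MP_5591bc_ag.M

open Matrix Filter Topology MvPowerSeries G R W Metric

noncomputable section

theorem gf_ht {K : Type*} [Field K] [NumberField K] {x : K} {H H' : ℝ} (h : Ht x H) (e : H ≤ H') :
    Ht x H' :=
  let ⟨d, a, b, c, k⟩ := h
  ⟨d, a, b.trans e, c, k.trans e⟩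

/-- one dyadic size for all coordinates -/
theorem gf_dy {σ K : Type*} [Finite σ] [Nonempty σ] [Field K] [NumberField K] {n : ℕ} {x : σ → K}
    (h : ∀ l, Hd (x l) (2 ^ n)) :
    ∃ L : ℕ, 0 < L ∧ Module.finrank ℚ K * L ≤ 2 * n ∧ ∀ l, Ht (x l) (2 ^ L) := by
  choose H H2 h1 h2 using h
  obtain ⟨l0, hl⟩ := Finite.exists_max H
  obtain ⟨j, j1, j2⟩ := exists_nat_pow_near (show 1 ≤ H l0 by linarith [H2 l0])
    (one_lt_two (α := ℝ))
  refine ⟨j + 1, j.succ_pos, ?_, fun l => gf_ht (h1 l) ((hl l).trans j2.le)⟩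
  rw [← pow_le_pow_iff_right₀ (one_lt_two (α := ℝ)), mul_comm, pow_mul, mul_comm, pow_mul, sq]
  refine le_trans ?_ (mul_le_mul (h2 l0) (h2 l0) (pow_nonneg (by linarith [H2 l0]) _)
    (by positivity))
  rw [← mul_pow, pow_succ]
  exact pow_le_pow_left₀ (by positivity)
    (mul_le_mul j1 (H2 l0) zero_le_two (by linarith [H2 l0])) _

/-- Liouville's inequality -/
theorem liouM {σ K₀ : Type*} [Fintype σ] [Field K₀] [NumberField K₀] (T : MvPolynomial σ K₀) :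
    ∃ c : ℕ, ∀ (K : Type) [Field K] [NumberField K] [Algebra K₀ K] (n : ℕ) (x : σ → K), 0 < n →
      (∀ l, Hd (x l) (2 ^ n)) → MvPolynomial.eval x (TM K T) ≠ 0 →
      ∀ φ : K →+* ℂ, (2 ^ (c * n))⁻¹ ≤ ‖φ (MvPolynomial.eval x (TM K T))‖ := by
  rcases isEmpty_or_nonempty σ with hσ | hσ
  · obtain ⟨a, rfl⟩ := MvPolynomial.C_surjective σ T
    obtain ⟨c, hc⟩ := cvc_liou (MvPolynomial.C a : MvPolynomial σ K₀)
    refine ⟨c * (Module.finrank ℚ K₀ * 1), fun K _ _ _ n x n0 _ h0 φ => ?_⟩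
    simp only [MvPolynomial.map_C, MvPolynomial.eval_C] at h0 ⊢
    have := hc K₀ 1 isEmptyElim one_pos isEmptyElim (by simpa using h0)
      (φ.comp (algebraMap K₀ K))
    rw [inv_le_iff_one_le_mul₀' (by positivity)]
    refine this.trans (mul_le_mul (pow_le_pow_right₀ one_le_two (Nat.le_mul_of_pos_right _ n0))
      (by simp) (norm_nonneg _) (by positivity))
  · obtain ⟨c, hc⟩ := cvc_liou.{_, _, 0} T
    refine ⟨c * 2, fun K _ _ _ n x _ hx h0 φ => ?_⟩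
    obtain ⟨L, L0, L1, L2⟩ := gf_dy hx
    rw [MvPolynomial.eval_map, ← MvPolynomial.aeval_def] at h0 ⊢
    rw [inv_le_iff_one_le_mul₀' (by positivity), mul_assoc]
    exact (hc K L x L0 L2 h0 φ).trans (mul_le_mul_of_nonneg_right
      (pow_le_pow_right₀ one_le_two (Nat.mul_le_mul_left _ L1)) (norm_nonneg _))

theorem gf_gbM1 {σ K₀ ν : Type*} [Fintype σ] [DecidableEq σ] [Field K₀] [NumberField K₀] [Fintype ν]
    [DecidableEq ν] {T : MvPolynomial σ K₀} {B : σ → Matrix ν ν (MvPolynomial σ K₀)}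
    (h : GalM T B) : ∃ c : ℕ, ∀ (K : Type) [Field K] [NumberField K] [Algebra K₀ K] (n : ℕ)
    (x : σ → K), 0 < n → (∀ l, Hd (x l) (2 ^ n)) → MvPolynomial.eval x (TM K T) ≠ 0 →
      GKm (2 ^ (c * n)) fun p : ν × ν => GbM (TM K T) (BM K B) x p.1 p.2 := by
  obtain ⟨c, hc⟩ := gfM_gb.{0} h
  refine ⟨c * (Fintype.card σ * 2), fun K _ _ _ n x _ hx h0 => ?_⟩
  rcases isEmpty_or_nonempty σ with hσ | hσ
  · obtain ⟨C, C0, k⟩ := hc K _ 2 x 1 le_rfl le_rfl one_pos (by norm_num) isEmptyElim isEmptyElim h0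
      (2 ^ (c * Module.finrank ℚ K)) (by norm_num)
    obtain ⟨k1, d, d0, d1, d2⟩ := k 0
    have z : ∀ κ : σ →₀ ℕ, κ.degree ≤ 0 := fun κ => by rw [Subsingleton.elim κ 0, map_zero]
    exact ⟨C, C0, fun t => ⟨fun p φ κ _ => (k1 p φ κ (z κ)).trans (by simp), d, d0,
      d1.trans (by simp), fun p κ _ => d2 p κ (z κ)⟩⟩
  obtain ⟨L, L0, L1, L2⟩ := gf_dy hx
  choose d d0 d1 d2 d3 using L2
  have p1 : (2 : ℝ) ^ L ≤ (2 ^ L) ^ Fintype.card σ :=
    le_self_pow₀ (one_le_pow₀ one_le_two) Fintype.card_ne_zero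
  refine hc K _ ((2 ^ L) ^ Fintype.card σ) x (∏ l, d l) le_rfl
    ((le_self_pow₀ one_le_two L0.ne').trans p1) (Finset.prod_pos fun l _ => d0 l) ?_ (fun l => ?_)
    (fun l φ => ((NumberField.norm_embedding_le_house _ φ).trans (d3 l)).trans p1) h0 _ ?_
  · rw [Nat.cast_prod]
    exact (Finset.prod_le_prod (fun _ _ => Nat.cast_nonneg _) fun l _ => d1 l).trans_eq (by simp)
  · rw [← Finset.mul_prod_erase _ _ (Finset.mem_univ l), Nat.cast_mul, mul_right_comm]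
    exact (d2 l).mul (isIntegral_natCast _)
  · rw [← pow_mul, ← pow_mul, Nat.cast_pow, Nat.cast_ofNat]
    refine pow_le_pow_right₀ one_le_two ?_
    calc _ = c * Fintype.card σ * (Module.finrank ℚ K * L) := by ring
      _ ≤ c * Fintype.card σ * (2 * n) := Nat.mul_le_mul_left _ L1
      _ = _ := by ring

theorem gf_gbM {σ K₀ ν : Type*} [Fintype σ] [DecidableEq σ] [Field K₀] [NumberField K₀] [Fintype ν]
    [DecidableEq ν] {T : MvPolynomial σ K₀} {B : σ → Matrix ν ν (MvPolynomial σ K₀)}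
    (h : GalM T B) : ∃ c : ℕ, ∀ (K : Type) [Field K] [NumberField K] [Algebra K₀ K] (n : ℕ)
    (x : σ → K), 0 < n → (∀ l, Hd (x l) (2 ^ n)) → MvPolynomial.eval x (TM K T) ≠ 0 →
      (GKm (2 ^ (c * n)) fun p : ν × ν => GbM (TM K T) (BM K B) x p.1 p.2) ∧
      ∀ φ : K →+* ℂ, (2 ^ (c * n * Module.finrank ℚ K))⁻¹ ≤ ‖φ (MvPolynomial.eval x (TM K T))‖ := by
  obtain ⟨c, hc⟩ := gf_gbM1 h
  obtain ⟨c', hc'⟩ := liouM T
  refine ⟨c + c', fun K _ _ _ n x n0 hx h0 => ⟨?_, fun φ => le_trans ?_ (hc' K n x n0 hx h0 φ)⟩⟩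
  · obtain ⟨C, C0, k⟩ := hc K n x n0 hx h0
    have e : 2 ^ (c * n) ≤ 2 ^ ((c + c') * n) :=
      Nat.pow_le_pow_right two_pos (Nat.mul_le_mul_right _ (Nat.le_add_right _ _))
    refine ⟨C, C0, fun t => ?_⟩
    obtain ⟨k1, d, d0, d1, d2⟩ := k t
    exact ⟨fun p φ κ hκ => (k1 p φ κ hκ).trans (by gcongr), d, d0, d1.trans (by gcongr), d2⟩
  · exact inv_anti₀ (by positivity) (pow_le_pow_right₀ one_le_two
      ((Nat.mul_le_mul_right _ (Nat.le_add_left _ _)).trans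
        (Nat.le_mul_of_pos_right _ Module.finrank_pos)))

end

end Pool.Agent.Lib.MP_5591bc_ag.M
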