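import Pool.Agent.Lib.MP_5591bc_ag.M.Defs

/-! Majorants for the matrices `iterM`. -/

namespace Pool.Agent.Lib.MP_5591bc_ag.M

open MvPolynomial Finset

noncomputable section

variable {K σ : Type*} [Field K]

/-- `p` has degree at most `n` and the sum of the absolute values of its coefficients is at most
`c` -/
inductive MDom (φ : K →+* ℂ) (n : ℕ) : MvPolynomial σ K → ℝ → Prop
  | mon (κ : σ →₀ ℕ) (a : K) (c : ℝ) : κ.degree ≤ n → ‖φ a‖ ≤ c → MDom φ n (monomial κ a) c
  | add (p q : MvPolynomial σ K) (c d : ℝ) : MDom φ n p c → MDom φ n q d → MDom φ n (p + q) (c + d)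

variable {φ : K →+* ℂ} {p q : MvPolynomial σ K} {c d : ℝ} {n m : ℕ}

theorem MDom.nonneg (h : MDom φ n p c) : 0 ≤ c := by
  induction h with
  | mon κ a c _ h => exact (norm_nonneg _).trans h
  | add p q c d _ _ h k => exact add_nonneg h k

theorem MDom.mono (h : MDom φ n p c) (hc : c ≤ d) (hn : n ≤ m) : MDom φ m p d := by
  induction h generalizing d with
  | mon κ a c h k => exact .mon _ _ _ (h.trans hn) (k.trans hc)
  | add p q c e _ _ h k =>
    rw [← add_sub_cancel c d]
    exact .add _ _ _ _ (h le_rfl) (k (by linarith))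

theorem MDom.deg (h : MDom φ n p c) : p.totalDegree ≤ n := by
  induction h with
  | mon κ a c h _ => exact (totalDegree_monomial_le _ _).trans h
  | add p q c d _ _ h k => exact (totalDegree_add _ _).trans (max_le h k)

theorem MDom.neg (h : MDom φ n p c) : MDom φ n (-p) c := by
  induction h with
  | mon κ a c h k =>
    rw [← map_neg]
    exact .mon _ _ _ h (by rwa [map_neg, norm_neg])
  | add p q c d _ _ h k =>
    rw [neg_add]
    exact .add _ _ _ _ h k

theorem MDom.sub (h : MDom φ n p c) (k : MDom φ n q d) : MDom φ n (p - q) (c + d) := by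
  rw [sub_eq_add_neg]
  exact .add _ _ _ _ h k.neg

theorem MDom.mul (h : MDom φ n p c) (k : MDom φ m q d) : MDom φ (n + m) (p * q) (c * d) := by
  induction h with
  | mon κ a c h1 h2 =>
    induction k with
    | mon κ' a' c' k1 k2 =>
      rw [monomial_mul]
      refine .mon _ _ _ (by rw [map_add]; exact add_le_add h1 k1) ?_
      rw [map_mul, norm_mul]
      exact mul_le_mul h2 k2 (norm_nonneg _) ((norm_nonneg _).trans h2)
    | add p q c d _ _ h k =>
      rw [mul_add, mul_add]
      exact .add _ _ _ _ h k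
  | add p q c e _ _ h k =>
    rw [add_mul, add_mul]
    exact .add _ _ _ _ h k

theorem MDom.pder (h : MDom φ n p c) (l : σ) : MDom φ n (pderiv l p) (c * n) := by
  induction h with
  | mon κ a c h k =>
    rw [pderiv_monomial]
    refine .mon _ _ _ ((Finsupp.degree_mono tsub_le_self).trans h) ?_
    rw [map_mul, norm_mul, map_natCast, Complex.norm_natCast]
    exact mul_le_mul k (by exact_mod_cast (Finsupp.le_degree l κ).trans h) (by positivity)
      ((norm_nonneg _).trans k)
  | add p q c d _ _ h k =>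
    rw [map_add, add_mul]
    exact .add _ _ _ _ h k

theorem mdom_nat (k : ℕ) : MDom φ 0 (k : MvPolynomial σ K) k := by
  rw [← map_natCast C, C_apply]
  exact .mon _ _ _ (by simp) (by simp)

theorem MDom.sum {ι : Type*} (s : Finset ι) {f : ι → MvPolynomial σ K} {c : ι → ℝ}
    (h : ∀ i ∈ s, MDom φ n (f i) (c i)) : MDom φ n (∑ i ∈ s, f i) (∑ i ∈ s, c i) := by
  classical
  induction s using Finset.induction_on with
  | empty => simpa using (mdom_nat (φ := φ) (σ := σ) 0).mono le_rfl n.zero_le
  | insert a s ha ih =>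
    rw [sum_insert ha, sum_insert ha]
    exact .add _ _ _ _ (h a (mem_insert_self _ _)) (ih fun i hi => h i (mem_insert_of_mem hi))

theorem MDom.aeval {E : Type*} [Field E] [Algebra K E] {ψ : E →+* ℂ}
    (h : MDom (ψ.comp (algebraMap K E)) n p c) {x : σ → E} {H : ℝ} (H1 : 1 ≤ H)
    (hx : ∀ l, ‖ψ (x l)‖ ≤ H) : ‖ψ (aeval x p)‖ ≤ c * H ^ n := by
  induction h with
  | mon κ a c h k =>
    rw [aeval_monomial, map_mul, norm_mul]
    refine mul_le_mul k (le_trans ?_ (pow_le_pow_right₀ H1 h)) (norm_nonneg _)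
      ((norm_nonneg _).trans k)
    rw [Finsupp.prod, map_prod, norm_prod, Finsupp.degree_apply, ← prod_pow_eq_pow_sum]
    refine prod_le_prod (fun _ _ => norm_nonneg _) fun l _ => ?_
    rw [map_pow, norm_pow]
    exact pow_le_pow_left₀ (norm_nonneg _) (hx l) _
  | add p q c d _ _ h k =>
    rw [map_add, map_add, add_mul]
    exact (norm_add_le _ _).trans (add_le_add h k)

theorem mdom_ex [NumberField K] (p : MvPolynomial σ K) :
    ∃ (n : ℕ) (c : ℝ), ∀ φ : K →+* ℂ, MDom φ n p c := by
  refine ⟨p.totalDegree, ∑ κ ∈ p.support, NumberField.house (coeff κ p), fun φ => ?_⟩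
  have := MDom.sum (φ := φ) (n := p.totalDegree) p.support fun κ hκ =>
    .mon κ (coeff κ p) _ (le_totalDegree hκ) (NumberField.norm_embedding_le_house _ φ)
  rwa [← p.as_sum] at this

variable {ν : Type*} [Fintype ν] [DecidableEq ν] {T : MvPolynomial σ K}
  {B : σ → Matrix ν ν (MvPolynomial σ K)} {g : ℕ}

theorem mdom_iter (hT : MDom φ g T c) (hB : ∀ l i j, MDom φ g (B l i j) c) (w : List σ) (i j : ν) :
    MDom φ (w.length * g) (iterM T B w i j)
      ((c * (2 * g + Fintype.card ν)) ^ w.length * w.length.factorial) := by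
  have c0 := hT.nonneg
  induction w generalizing j with
  | nil =>
    simp only [iterM, Matrix.one_apply]
    split_ifs
    · simpa using mdom_nat (φ := φ) (σ := σ) 1
    · simpa using (mdom_nat (φ := φ) (σ := σ) 0).mono (d := 1) (by simp) le_rfl
  | cons l w ih =>
    have a0 := (ih j).nonneg
    have h1 := (hT.mul ((ih j).pder l)).mono le_rfl
      (le_of_eq (by ring) : _ ≤ (w.length + 1) * g)
    have h2 := (((mdom_nat (φ := φ) w.length).mul (hT.pder l)).mul (ih j)).mono le_rfl
      (le_of_eq (by ring) : _ ≤ (w.length + 1) * g)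
    have h3 := MDom.sum univ fun a _ =>
      ((ih a).mul (hB l a j)).mono le_rfl (le_of_eq (by ring) : _ ≤ (w.length + 1) * g)
    refine (MDom.add _ _ _ _ (h1.sub h2) h3).mono ?_ le_rfl
    rw [List.length_cons, pow_succ, Nat.factorial_succ, sum_const, card_univ, nsmul_eq_mul]
    push_cast
    have e : ∀ A F k : ℝ, 0 ≤ k → 0 ≤ A * F → c * (A * F * (k * g)) + k * (c * g) * (A * F) +
        Fintype.card ν * (A * F * c) ≤ A * (c * (2 * g + Fintype.card ν)) * ((k + 1) * F) := by
      intro A F k k0 h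
      have : 0 ≤ A * F * c * (2 * g + k * Fintype.card ν) := by positivity
      nlinarith
    exact e _ _ _ (by positivity) a0

theorem mdom_fact [Fintype σ] (κ : σ → ℕ) :
    (∑ l, κ l).factorial ≤ Fintype.card σ ^ (∑ l, κ l) * ∏ l, (κ l).factorial := by
  classical
  rw [← Nat.multinomial_spec, mul_comm]
  refine Nat.mul_le_mul_right _ ?_
  have := sum_pow_eq_sum_piAntidiag (univ : Finset σ) (fun _ => (1 : ℕ)) (∑ l, κ l)
  simp only [sum_const, card_univ, smul_eq_mul, mul_one, one_pow, prod_const_one,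
    Nat.cast_id] at this
  rw [this]
  exact single_le_sum (f := fun k => Nat.multinomial univ k) (fun _ _ => Nat.zero_le _)
    (mem_piAntidiag.2 ⟨rfl, fun _ _ => mem_univ _⟩)

theorem mdom_den {E : Type*} [Field E] [Algebra K E] {x : σ → E} {W : MvPolynomial σ K} {D : ℕ}
    {a : K} {d : E} (hd : IsIntegral ℤ d) (hs : ∀ l, IsIntegral ℤ (d * x l))
    (h : W.totalDegree ≤ D) (hW : ∀ κ, IsIntegral ℤ (a * coeff κ W)) :
    IsIntegral ℤ (algebraMap K E a * d ^ D * aeval x W) := by
  rw [aeval_def, eval₂_eq, mul_sum]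
  refine IsIntegral.sum _ fun κ hκ => ?_
  have k : ∑ l ∈ κ.support, κ l ≤ D := (le_totalDegree hκ).trans h
  have e : algebraMap K E a * d ^ D * (algebraMap K E (coeff κ W) * ∏ l ∈ κ.support, x l ^ κ l) =
      algebraMap K E (a * coeff κ W) * (∏ l ∈ κ.support, (d * x l) ^ κ l) *
        d ^ (D - ∑ l ∈ κ.support, κ l) := by
    simp only [mul_pow, prod_mul_distrib, prod_pow_eq_pow_sum, map_mul]
    rw [← Nat.sub_add_cancel k, add_tsub_cancel_right]
    ring
  rw [e]
  exact (((hW κ).map (algebraMap K E).toIntAlgHom).mul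
    (IsIntegral.prod _ fun l _ => (hs l).pow _)).mul (hd.pow _)

theorem iterM_map {R S : Type*} [CommRing R] [CommRing S] (f : R →+* S) (T : MvPolynomial σ R)
    (B : σ → Matrix ν ν (MvPolynomial σ R)) (w : List σ) :
    iterM (map f T) (fun l => (B l).map (map f)) w = (iterM T B w).map (map f) := by
  induction w with
  | nil => simp [iterM, Matrix.map_one]
  | cons l w ih =>
    ext1 i j
    simp [iterM, ih, Matrix.mul_apply, pderiv_map]

end

end Pool.Agent.Lib.MP_5591bc_ag.M
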