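import Pool.Agent.Lib.MP_5591bc_ag.M.GFA
import Pool.Agent.Lib.MP_5591bc_ag.M.Set
import Pool.Agent.Lib.MP_5591bc_ag.W.GFB

/-! Houses and denominators of the formal fundamental matrix in several variables. -/

namespace Pool.Agent.Lib.MP_5591bc_ag.M

open MvPolynomial Finset NumberField

noncomputable section

universe v

variable {K σ ν : Type*} [Field K] [NumberField K] [Fintype σ] [DecidableEq σ] [Fintype ν]
  [DecidableEq ν] {T : MvPolynomial σ K} {B : σ → Matrix ν ν (MvPolynomial σ K)}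

theorem gfM_core (h : GalM T B) : ∃ c : ℕ, ∀ (E : Type v) [Field E] [NumberField E] [Algebra K E]
    (b : ℕ) (H : ℝ) (x : σ → E) (d : ℕ), Module.finrank ℚ E ≤ b → 2 ≤ H → 0 < d → (d : ℝ) ≤ H →
    (∀ l, IsIntegral ℤ ((d : E) * x l)) → (∀ l (φ : E →+* ℂ), ‖φ (x l)‖ ≤ H) → aeval x T ≠ 0 →
    (∀ (w : List σ) i j (φ : E →+* ℂ), ‖φ (aeval x (iterM T B w i j) /
      (aeval x T ^ w.length * ∏ l, ((w.count l).factorial : E)))‖ ≤ (H ^ (c * b)) ^ w.length) ∧
    ∀ k, ∃ D : ℕ, 0 < D ∧ (D : ℝ) ≤ (H ^ (c * b)) ^ (k + 1) ∧ ∀ w : List σ, w.length ≤ k → ∀ i j,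
      IsIntegral ℤ ((D : E) * (aeval x (iterM T B w i j) /
        (aeval x T ^ w.length * ∏ l, ((w.count l).factorial : E)))) := by
  obtain ⟨C, hC⟩ := h
  obtain ⟨a, a0, ha⟩ := W.gf_cden T.coeffs
  have ha' : ∀ κ, IsIntegral ℤ ((a : K) * coeff κ T) := fun κ => by
    by_cases k : coeff κ T = 0
    · rw [k, mul_zero]; exact isIntegral_zero
    · exact ha _ (coeff_mem_coeffs κ k)
  obtain ⟨g1, c1, hc1⟩ := mdom_ex T
  choose g2 c2 hc2 using fun p : σ × ν × ν => mdom_ex (B p.1 p.2.1 p.2.2)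
  obtain ⟨φ0⟩ : Nonempty (K →+* ℂ) := inferInstance
  obtain ⟨c, hc⟩ : ∃ c : ℝ, c = c1 + ∑ p, c2 p := ⟨_, rfl⟩
  obtain ⟨g, hg⟩ : ∃ g : ℕ, g = g1 + ∑ p, g2 p := ⟨_, rfl⟩
  have c10 := (hc1 φ0).nonneg
  have c20 := fun p => (hc2 p φ0).nonneg
  have s0 : 0 ≤ ∑ p, c2 p := sum_nonneg fun p _ => c20 p
  have c0 : 0 ≤ c := by rw [hc]; positivity
  have dT : ∀ φ : K →+* ℂ, MDom φ g T c := fun φ =>
    (hc1 φ).mono (by rw [hc]; linarith) (by omega)
  have dB : ∀ (φ : K →+* ℂ) l i j, MDom φ g (B l i j) c := fun φ l i j =>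
    (hc2 (l, i, j) φ).mono ((single_le_sum (fun p _ => c20 p) (mem_univ _)).trans
      (by rw [hc]; linarith)) ((single_le_sum (fun p _ => Nat.zero_le _) (mem_univ _)).trans
      (by omega))
  obtain ⟨e, he⟩ := pow_unbounded_of_one_lt
    (|C| + a + c + c * (2 * g + Fintype.card ν) * Fintype.card σ) one_lt_two
  refine ⟨2 * (2 * e + 2 * g), fun E _ _ _ b H x d hb H2 d0 dH hx hφ T0 => ?_⟩
  obtain ⟨n, hn⟩ : ∃ n, n = Module.finrank ℚ E := ⟨_, rfl⟩
  have hle : 2 * e + 2 * g + (2 * e + 2 * g) * n ≤ 2 * (2 * e + 2 * g) * b := by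
    have := Module.finrank_pos (R := ℚ) (M := E)
    rw [two_mul (2 * e + 2 * g), add_mul (2 * e + 2 * g) (2 * e + 2 * g) b]
    exact add_le_add (Nat.le_mul_of_pos_right _ (by omega)) (Nat.mul_le_mul_left _ (by omega))
  have H1 : 1 ≤ H := by linarith
  have b1 : (2 : ℝ) ^ e ≤ H ^ e := by gcongr
  have e0 : 0 ≤ c * (2 * g + Fintype.card ν) * Fintype.card σ := by positivity
  have aH : (a : ℝ) ≤ H ^ e := by linarith [abs_nonneg C]
  have cH : c ≤ H ^ e := by linarith [abs_nonneg C, a.cast_nonneg (α := ℝ)]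
  have c'H : c * (2 * g + Fintype.card ν) * Fintype.card σ ≤ H ^ e := by
    linarith [abs_nonneg C, a.cast_nonneg (α := ℝ)]
  have CH : |C| ≤ H ^ e := by linarith [a.cast_nonneg (α := ℝ)]
  have dI : IsIntegral ℤ (d : E) := isIntegral_natCast d
  have dK : (d : E) ≠ 0 := Nat.cast_ne_zero.2 d0.ne'
  have aK : (a : E) ≠ 0 := Nat.cast_ne_zero.2 a0.ne'
  have ad : ∀ φ : E →+* ℂ, ‖φ ((a : E) * (d : E) ^ g)‖ ≤ H ^ e * H ^ g := fun φ => by
    rw [map_mul, map_pow, map_natCast, map_natCast, norm_mul, norm_pow, Complex.norm_natCast,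
      Complex.norm_natCast]
    gcongr
  obtain ⟨N, N0, N1, N2, N3⟩ := W.gf_inv (map_natCast (algebraMap K E) a ▸
      mdom_den dI hx (dT φ0).deg ha' : IsIntegral ℤ ((a : E) * (d : E) ^ g * aeval x T))
    (mul_ne_zero (mul_ne_zero aK (pow_ne_zero _ dK)) T0) (A := H ^ (2 * e + 2 * g)) fun φ => by
      rw [map_mul, norm_mul]
      refine (mul_le_mul (ad φ) (((dT _).aeval H1 fun l => hφ l φ).trans
        (mul_le_mul_of_nonneg_right cH (by positivity))) (norm_nonneg _)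
        (by positivity)).trans (le_of_eq (by ring))
  rw [← hn, ← pow_mul] at N1
  obtain ⟨y, hy⟩ : ∃ y, y = ((a : E) * (d : E) ^ g * aeval x T)⁻¹ := ⟨_, rfl⟩
  rw [← hy] at N2 N3
  have et : ∀ (l : ℕ) (w f : E), w / (aeval x T ^ l * f) = w / f * (a * d ^ g * y) ^ l :=
    fun l w f => by
      rw [hy, mul_inv, mul_inv_cancel_left₀ (mul_ne_zero aK (pow_ne_zero _ dK)), inv_pow,
        mul_comm _ f, ← div_div, div_eq_mul_inv]
  refine ⟨fun w i j φ => ?_, fun k => ?_⟩
  · have f0 : (0 : ℝ) < (∏ l, (w.count l).factorial : ℕ) := by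
      exact_mod_cast prod_pos fun l _ => Nat.factorial_pos _
    have h0 := mdom_fact fun l => w.count l
    rw [show ∑ l, w.count l = w.length by
      simpa using Multiset.sum_count_eq_card (m := (w : Multiset σ)) fun _ _ => mem_univ _] at h0
    have h1 := (mdom_iter (dT (φ.comp (algebraMap K E))) (dB _) w i j).aeval H1 fun l => hφ l φ
    have h2 : ‖φ (a * d ^ g * y)‖ ≤ H ^ e * H ^ g * H ^ ((2 * e + 2 * g) * n) := by
      rw [map_mul, norm_mul, pow_mul, hn]
      exact mul_le_mul (ad φ) ((N3 φ).trans (pow_le_pow_right₀ (one_le_pow₀ H1) (Nat.sub_le _ _)))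
        (norm_nonneg _) (by positivity)
    have h3 : ‖φ (aeval x (iterM T B w i j) / ∏ l, ((w.count l).factorial : E))‖ ≤
        (H ^ e * H ^ g) ^ w.length := by
      rw [← Nat.cast_prod, map_div₀, map_natCast, norm_div, Complex.norm_natCast, div_le_iff₀ f0,
        mul_pow, ← pow_mul H g, mul_comm g, mul_right_comm]
      refine h1.trans (mul_le_mul_of_nonneg_right ?_ (by positivity))
      refine (mul_le_mul_of_nonneg_left (Nat.cast_le.2 h0) (by positivity)).trans ?_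
      rw [Nat.cast_mul, Nat.cast_pow, ← mul_assoc, ← mul_pow]
      gcongr
    rw [et, map_mul, map_pow, norm_mul, norm_pow]
    refine (mul_le_mul h3 (pow_le_pow_left₀ (norm_nonneg _) h2 _) (by positivity)
      (by positivity)).trans ?_
    rw [← mul_pow]
    exact pow_le_pow_left₀ (by positivity) (le_trans (le_of_eq (by ring))
      (pow_le_pow_right₀ H1 hle)) _
  · obtain ⟨D, D0, D1, D2⟩ := hC k
    refine ⟨D * N ^ k, by positivity, ?_, fun w hl i j => ?_⟩
    · have c3 : (D : ℝ) ≤ (H ^ e) ^ (k + 1) := D1.trans ((le_abs_self _).trans (by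
        rw [abs_pow]; gcongr))
      have c4 := mul_le_mul c3 ((pow_le_pow_left₀ (by positivity) N1 k).trans (pow_le_pow_right₀
        (one_le_pow₀ H1) k.le_succ)) (by positivity) (by positivity)
      rw [← mul_pow, ← pow_add] at c4
      push_cast
      exact c4.trans (pow_le_pow_left₀ (by positivity) (pow_le_pow_right₀ H1 (by omega)) _)
    · have z := mdom_den (a := (D : K) / ∏ l, ((w.count l).factorial : K)) dI hx
        (mdom_iter (dT φ0) (dB φ0) w i j).deg fun m => by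
          rw [div_mul_eq_mul_div]; exact D2 w hl i j m
      simp only [map_div₀, map_prod, map_natCast] at z
      obtain ⟨l, hl'⟩ : ∃ l, l = w.length := ⟨_, rfl⟩
      rw [← hl'] at z hl ⊢
      have e2 : ∀ u f : E, ((D * N ^ k : ℕ) : E) * (u / f * (a * d ^ g * y) ^ l) =
          (D : E) / f * d ^ (l * g) * u *
            ((a : E) ^ l * ((N * y) ^ l * (N : E) ^ (k - l))) := fun u f => by
        rw [← Nat.sub_add_cancel hl, add_tsub_cancel_right]
        push_cast
        ring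
      rw [et, e2]
      exact z.mul (((isIntegral_natCast a).pow l).mul
        ((N2.pow l).mul ((isIntegral_natCast N).pow _)))

/-- the formal fundamental matrix at a point over `E` is a family of `G`-series -/
theorem gfM_gb (h : GalM T B) : ∃ c : ℕ, ∀ (E : Type v) [Field E] [NumberField E] [Algebra K E]
    (b : ℕ) (H : ℝ) (x : σ → E) (d : ℕ), Module.finrank ℚ E ≤ b → 2 ≤ H → 0 < d → (d : ℝ) ≤ H →
    (∀ l, IsIntegral ℤ ((d : E) * x l)) → (∀ l (φ : E →+* ℂ), ‖φ (x l)‖ ≤ H) →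
    eval x (TM E T) ≠ 0 → ∀ N : ℕ, H ^ (c * b) ≤ N →
    GKm N fun p : ν × ν => GbM (TM E T) (BM E B) x p.1 p.2 := by
  obtain ⟨c, hc⟩ := gfM_core.{v} h
  refine ⟨c, fun E _ _ _ b H x d hb H2 d0 dH hx hφ T0 N hN => ?_⟩
  have ev : ∀ p : MvPolynomial σ K, eval x (map (algebraMap K E) p) = aeval x p := fun p => by
    rw [eval_map, aeval_def]
  rw [ev] at T0
  obtain ⟨h1, h2⟩ := hc E b H x d hb H2 d0 dH hx hφ T0
  have N1 : (1 : ℝ) ≤ N := (one_le_pow₀ (by linarith)).trans hN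
  have el : ∀ κ : σ →₀ ℕ, κ.toMultiset.toList.length = κ.degree := fun κ => by
    rw [Multiset.length_toList, Finsupp.card_toMultiset]; rfl
  have ec : ∀ (p : ν × ν) κ, MvPowerSeries.coeff κ (GbM (TM E T) (BM E B) x p.1 p.2) =
      aeval x (iterM T B κ.toMultiset.toList p.1 p.2) / (aeval x T ^ κ.toMultiset.toList.length *
        ∏ l, ((κ.toMultiset.toList.count l).factorial : E)) := fun p κ => by
    have e : ∀ l, κ.toMultiset.toList.count l = κ l := fun l => by
      rw [← Multiset.coe_count, Multiset.coe_toList, Finsupp.count_toMultiset]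
    simp only [e, el, ← ev]
    rw [← Matrix.map_apply (f := map (algebraMap K E)), ← iterM_map]
    rfl
  refine ⟨N, by exact_mod_cast one_pos.trans_le N1, fun t => ?_⟩
  obtain ⟨D, D0, D1, D2⟩ := h2 t
  refine ⟨fun p φ κ hκ => ?_, D, D0, ?_, fun p κ hκ => ?_⟩
  · rw [ec]
    refine (h1 _ _ _ φ).trans ((pow_le_pow_left₀ (by positivity) hN _).trans ?_)
    rw [← pow_succ', el]
    exact pow_le_pow_right₀ N1 (hκ.trans t.le_succ)
  · rw [← pow_succ']
    exact_mod_cast D1.trans (pow_le_pow_left₀ (by positivity) hN _)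
  · rw [ec]
    exact D2 _ ((el κ).trans_le hκ) _ _

end

end Pool.Agent.Lib.MP_5591bc_ag.M
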