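import Pool.Agent.Lib.MP_5591bc_ag.M.GalB
import Pool.Agent.Lib.MP_5591bc_ag.M.FrA

/-! The fibre of the closure of the graph of a formal solution is irreducible. -/

namespace Pool.Agent.Lib.MP_5591bc_ag.M

open Matrix Finset Function G R MvPowerSeries
open V (evm map_evm evm_C evm_X Xm Xm_map)

noncomputable section

universe u v

/-- the constant term as an algebra map -/
def ccM (σ : Type*) : MvPowerSeries σ ℂ →ₐ[ℂ] ℂ :=
  { constantCoeff with commutes' := fun c => constantCoeff_C c }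

theorem gm_piM {O L α : Type*} [CommRing O] [Algebra ℂ O] [Fintype L] [DecidableEq L] [Fintype α]
    [DecidableEq α] (D : Derivation ℂ O O) {a : O} {B M : Matrix α α O} (h : a • M.map D = B * M) :
    a • (piM fun _ : L => M).map D = tB L B * piM fun _ => M := by
  have hp : ∀ (g : L → O) (s : Finset L), D (∏ l ∈ s, g l) =
      ∑ l ∈ s, (∏ j ∈ s.erase l, g j) * D (g l) := fun g s => by
    induction s using Finset.induction_on with
    | empty => simp
    | insert x s hx ih =>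
      rw [prod_insert hx, sum_insert hx, Derivation.leibniz, ih, erase_insert hx, smul_eq_mul,
        smul_eq_mul, add_comm, mul_sum]
      refine congrArg _ (sum_congr rfl fun l hl => ?_)
      rw [erase_insert_of_ne (ne_of_mem_of_not_mem hl hx).symm,
        prod_insert fun h => hx (mem_of_mem_erase h), mul_assoc]
  rw [tB, Finset.sum_mul]
  simp only [piM_mul]
  ext1 μ μ'
  simp only [Matrix.smul_apply, map_apply, piM, of_apply, hp, smul_eq_mul, mul_sum, Matrix.sum_apply]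
  refine sum_congr rfl fun l _ => ?_
  rw [← prod_erase_mul _ _ (mem_univ l), update_self, ← h, mul_left_comm]
  exact congrArg₂ _ (prod_congr rfl fun j hj => by simp [ne_of_mem_erase hj]) rfl

section
variable {σ Pl n : Type*} [CommRing Pl] [Algebra ℂ Pl] [Fintype n] [DecidableEq n]
  {τ : Pl →ₐ[ℂ] MvPowerSeries σ ℂ} {t : MvPowerSeries σ ℂ} {δ : σ → Pl → Pl}
  {Y : Matrix n n (MvPowerSeries σ ℂ)}

omit [DecidableEq n] in
theorem gm_der {l : σ} (hδ : ∀ a, τ (δ l a) = t * pderiv ℂ l (τ a)) {B : Matrix n n Pl}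
    (ode : t • Y.map (pderiv ℂ l) = B.map τ * Y) (φ : n → Pl) (u : n → ℂ) :
    t * pderiv ℂ l ((fun j => τ (φ j)) ⬝ᵥ (Y *ᵥ fun j => algebraMap ℂ _ (u j))) =
      (fun j => τ (δ l (φ j) + (φ ᵥ* B) j)) ⬝ᵥ (Y *ᵥ fun j => algebraMap ℂ _ (u j)) := by
  have e1 : ∀ j, t * pderiv ℂ l ((Y *ᵥ fun j => algebraMap ℂ _ (u j)) j) =
      (B.map τ *ᵥ (Y *ᵥ fun j => algebraMap ℂ _ (u j))) j := fun j => by
    rw [mulVec_mulVec, ← ode]
    simp only [mulVec, dotProduct, map_sum, Derivation.leibniz, Derivation.map_algebraMap,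
      smul_eq_mul, Matrix.smul_apply, map_apply, mul_sum]
    exact sum_congr rfl fun i _ => by ring
  have e2 : (fun j => τ ((φ ᵥ* B) j)) = (fun j => τ (φ j)) ᵥ* B.map τ := funext fun j => by
    simp [vecMul, dotProduct]
  simp only [map_add, hδ]
  rw [show (fun j => t * pderiv ℂ l (τ (φ j)) + τ ((φ ᵥ* B) j)) =
    (fun j => t * pderiv ℂ l (τ (φ j))) + fun j => τ ((φ ᵥ* B) j) from rfl,
    add_dotProduct, e2, ← dotProduct_mulVec, ← funext e1]
  simp only [dotProduct, map_sum, mul_sum, ← sum_add_distrib, Derivation.leibniz, smul_eq_mul]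
  exact sum_congr rfl fun j _ => by ring

theorem gtay_of (ht : IsUnit t) (hδ : ∀ l a, τ (δ l a) = t * pderiv ℂ l (τ a))
    (h0 : Y.map constantCoeff = 1) {B : σ → Matrix n n Pl}
    (ode : ∀ l, t • Y.map (pderiv ℂ l) = (B l).map τ * Y) (y : n → ℂ) :
    GTay τ ((ccM σ).comp τ) Y y := fun u hu φ hφ => by
  refine zero_famM ht (F := (fun φ : n → Pl => (fun j => τ (φ j)) ⬝ᵥ
    (Y *ᵥ fun j => algebraMap ℂ _ (u j))) '' GRel τ (Y *ᵥ fun j => algebraMap ℂ _ (y j))) ?_ ?_ _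
    ⟨φ, hφ, rfl⟩
  · rintro _ ⟨φ, hφ, rfl⟩
    have e : ∀ i j, constantCoeff (Y i j) = (1 : Matrix n n ℂ) i j := fun i j => congrFun₂ h0 i j
    rw [isUnit_iff_constantCoeff, isUnit_iff_ne_zero, not_not, ← hu φ hφ]
    simp [dotProduct, mulVec, e, one_apply, MvPowerSeries.algebraMap_apply, ccM]
    all_goals rfl
  · rintro _ ⟨φ, hφ, rfl⟩ l
    refine ⟨_, ?_, (gm_der (hδ l) (ode l) φ u).symm⟩
    change _ ⬝ᵥ _ = _
    rw [← gm_der (hδ l) (ode l), show _ ⬝ᵥ _ = _ from hφ, map_zero, mul_zero]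

end

variable {A : Type u} [Fintype A] [DecidableEq A] {σ Pl : Type v} [CommRing Pl] [Algebra ℂ Pl]
  {τ : Pl →ₐ[ℂ] MvPowerSeries σ ℂ} {t : MvPowerSeries σ ℂ} {δ : σ → Pl → Pl}
  {G : Matrix A A (MvPowerSeries σ ℂ)} {B : σ → Matrix A A Pl}

/-- the ideal of the Galois group is the set of the values of the relations -/
theorem GGen.mem_iff {I : Ideal (MvPolynomial (A × A) ℂ)} (h : GGen τ ((ccM σ).comp τ) G I)
    (ht : IsUnit t) (hδ : ∀ l a, τ (δ l a) = t * pderiv ℂ l (τ a))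
    (h0 : G.map constantCoeff = 1) (ode : ∀ l, t • G.map (pderiv ℂ l) = (B l).map τ * G)
    (Q : MvPolynomial (A × A) ℂ) : Q ∈ I ↔ ∃ q : MvPolynomial (A × A) Pl, gev τ G q = 0 ∧
      MvPolynomial.map ((ccM σ).comp τ).toRingHom q = Q := by
  have key := fun d => h.mon (d := d) (gtay_of (B := fun l => tB (Fin d) (exg 0 (B l))) ht hδ (by
    rw [piM_map, exg_map _ (map_zero _), map_one, h0, exg_one, piM_one]) (fun l => by
      rw [show (tB (Fin d) (exg 0 (B l))).map τ = tB (Fin d) (exg 0 ((B l).map τ)) from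
        (tB_map τ.toRingHom (exg 0 (B l))).trans (congrArg (tB (Fin d))
          ((exg_map _ (map_zero _) 0 (B l)).trans (congrArg (exg · _) (map_zero _))))]
      refine gm_piM _ ?_
      rw [exg_map _ (map_zero _), exg_smul, exg_mul, ode]
      simp) _)
  have e1 : ∀ d (c : V.Mo A d → Pl), gev τ G ((fun μ => MvPolynomial.C (c μ)) ⬝ᵥ
      V.vk d (of fun i j => MvPolynomial.X (i, j))) = (fun μ => τ (c μ)) ⬝ᵥ V.vk d G :=
    fun d c => V.rep_eval c τ.toRingHom G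
  have e2 : ∀ d (c : V.Mo A d → Pl), MvPolynomial.map ((ccM σ).comp τ).toRingHom
      ((fun μ => MvPolynomial.C (c μ)) ⬝ᵥ V.vk d (of fun i j => MvPolynomial.X (i, j))) =
      (fun μ => MvPolynomial.C ((ccM σ).comp τ (c μ))) ⬝ᵥ V.vk d (Xm A) := fun d c =>
    (DFunLike.congr_fun (MvPolynomial.map_eq_eval₂Hom_C_comp _) _).trans
      (V.rep_eval c (MvPolynomial.C.comp ((ccM σ).comp τ).toRingHom) (Xm A))
  constructor
  · intro hQ
    obtain ⟨c, hc⟩ := V.rep (p := Q) le_rfl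
    obtain ⟨l, l1, l2⟩ := (key _ c).1 (by rw [hc] at hQ; exact hQ)
    refine ⟨_, (e1 _ l).trans l1, (e2 _ l).trans ?_⟩
    simp only [l2]
    exact hc.symm
  · rintro ⟨q, hq, rfl⟩
    obtain ⟨c, hc⟩ := V.rep (p := q) le_rfl
    rw [hc] at hq
    rw [hc, e2]
    exact (key _ _).2 ⟨c, (e1 _ c).symm.trans hq, fun _ => rfl⟩

theorem gal_prime [IsDomain Pl] (hτ : Injective τ) (ht : IsUnit t)
    (hδ : ∀ l a, τ (δ l a) = t * pderiv ℂ l (τ a)) (h0 : G.map constantCoeff = 1)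
    (ode : ∀ l, t • G.map (pderiv ℂ l) = (B l).map τ * G)
    (h : ∀ (u v : MvPolynomial (A × A) Pl) (n : ℕ) (p : ℕ → Pl), gev τ G v ≠ 0 →
      (∃ j ≤ n, p j ≠ 0) →
      ∑ j ∈ Finset.range (n + 1), τ (p j) * gev τ G u ^ j * gev τ G v ^ (n - j) = 0 →
      ∃ a b : Pl, b ≠ 0 ∧ τ b * gev τ G u = τ a * gev τ G v) :
    ∃ I : Ideal (MvPolynomial (A × A) ℂ), I.IsPrime ∧ ∀ Q, Q ∈ I ↔
      ∃ q : MvPolynomial (A × A) Pl, gev τ G q = 0 ∧
        MvPolynomial.map ((ccM σ).comp τ).toRingHom q = Q := by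
  have : IsDomain (MvPowerSeries σ ℂ) := NoZeroDivisors.to_isDomain _
  obtain ⟨I, hI⟩ := ggen_of (cc := ccM σ) (ev := (ccM σ).comp τ) hτ (fun _ => rfl) h0 h
  exact ⟨I, hI.prime, hI.mem_iff ht hδ h0 ode⟩

/-- expansion at a point as an algebra map -/
def τa {σ : Type*} (x : σ → ℂ) : MvPolynomial σ ℂ →ₐ[ℂ] MvPowerSeries σ ℂ :=
  { τm x with commutes' := fun c => frT_C x c }

/-- the fibre of the ideal of relations is prime -/
theorem gal_primeM {σ ν : Type*} [Fintype ν] [DecidableEq ν] {x : σ → ℂ}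
    {T : MvPolynomial σ ℂ} (hT : MvPolynomial.eval x T ≠ 0)
    {B : σ → Matrix ν ν (MvPolynomial σ ℂ)} {Y : Matrix ν ν (MvPowerSeries σ ℂ)}
    (h1 : Y.map constantCoeff = 1)
    (hY : ∀ l, τm x T • Y.map (pderiv ℂ l) = (B l).map (τm x) * Y)
    (hc : ConnSM x (Set.range (evGM x Y))) : ∃ I : Ideal (MvPolynomial (ν × ν) ℂ), I.IsPrime ∧
      ∀ Q, Q ∈ I ↔ ∃ H : MvPolynomial (ν × ν) (MvPolynomial σ ℂ), evGM x Y H = 0 ∧
        MvPolynomial.map (MvPolynomial.eval x) H = Q := by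
  have e : ((ccM σ).comp (τa x)).toRingHom = MvPolynomial.eval x := RingHom.ext (frT_const x)
  rw [← e]
  exact gal_prime (τ := τa x) (t := τm x T) (δ := fun l a => T * MvPolynomial.pderiv l a) (B := B)
    (frT_inj x) (by rwa [isUnit_iff_constantCoeff, isUnit_iff_ne_zero, frT_const])
    (fun l a => (map_mul (τm x) _ _).trans (congrArg _ (frT_pderiv x l a))) h1 hY
    fun u v n p hv => hc _ ⟨u, rfl⟩ _ ⟨v, rfl⟩ n p hv

end

end Pool.Agent.Lib.MP_5591bc_ag.M
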