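import Pool.Agent.Lib.MP_5591bc_ag.V.Orb

/-! The generic point of the differential Galois group, over an abstract ring of functions. -/

namespace Pool.Agent.Lib.MP_5591bc_ag.M

open Matrix Function
open scoped TensorProduct

noncomputable section

variable {n Pl O : Type*} [Fintype n] [DecidableEq n] [CommRing Pl] [Algebra ℂ Pl] [CommRing O]
  [Algebra ℂ O]

/-- polynomial relations of a vector of functions -/
def GRel (τ : Pl →ₐ[ℂ] O) (y : n → O) : Submodule ℂ (n → Pl) where
  carrier := {l | (fun j => τ (l j)) ⬝ᵥ y = 0}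
  add_mem' := fun {a b} ha hb => by
    simp only [Set.mem_ofPred_eq, dotProduct, Pi.add_apply, map_add, add_mul,
      Finset.sum_add_distrib] at *
    rw [ha, hb, add_zero]
  zero_mem' := by simp [dotProduct]
  smul_mem' := fun c a ha => by
    simp only [Set.mem_ofPred_eq, dotProduct, Pi.smul_apply, map_smul, smul_mul_assoc,
      ← Finset.smul_sum] at *
    rw [ha, smul_zero]

/-- the relations of `Y y` hold for `Y u` as soon as they hold at the base point -/
def GTay (τ : Pl →ₐ[ℂ] O) (ev : Pl →ₐ[ℂ] ℂ) (Y : Matrix n n O) (y : n → ℂ) : Prop :=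
  ∀ u : n → ℂ, (∀ l ∈ GRel τ (Y *ᵥ fun j => algebraMap ℂ O (y j)), (fun j => ev (l j)) ⬝ᵥ u = 0) →
    ∀ l ∈ GRel τ (Y *ᵥ fun j => algebraMap ℂ O (y j)), l ∈ GRel τ (Y *ᵥ fun j => algebraMap ℂ O (u j))

variable {τ : Pl →ₐ[ℂ] O} {ev : Pl →ₐ[ℂ] ℂ} {Y : Matrix n n O}

/-- a projector on the fibre of the module of relations, with lifted rows -/
theorem gm_proj (τ : Pl →ₐ[ℂ] O) (ev : Pl →ₐ[ℂ] ℂ) (y : n → O) : ∃ (H : Matrix n n Pl), (∀ i, H i ∈ GRel τ y) ∧
    ∀ l ∈ GRel τ y, (fun j => ev (l j)) ᵥ* H.map ev = fun j => ev (l j) := by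
  let e : (n → Pl) →ₗ[ℂ] n → ℂ := LinearMap.pi fun j =>
    (ev.toLinearMap ∘ₗ LinearMap.proj j)
  obtain ⟨Q, hQ⟩ := ((GRel τ y).map e).exists_isCompl
  let π := Submodule.projectionOnto _ _ hQ
  choose H h1 h2 using fun i => (π (Pi.single i 1)).2
  refine ⟨of H, h1, fun l hl => ?_⟩
  have a1 : (π (e l) : n → ℂ) = e l :=
    congrArg Subtype.val (Submodule.projectionOnto_apply_left hQ ⟨e l, l, hl, rfl⟩)
  refine Eq.trans ?_ a1
  conv_rhs => rw [pi_eq_sum_univ' (e l), map_sum, Submodule.coe_sum]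
  ext j
  simp only [map_smul, Submodule.coe_smul, ← h2, vecMul, dotProduct, Finset.sum_apply]
  rfl

section lift
variable {k R L : Type*} [Field k] [Algebra Pl k] [IsFractionRing Pl k]
  [CommRing R] [Algebra k R] [CommRing L] [Algebra k L] [IsDomain L] {ι : O →+* L}
  {v : R →ₐ[k] L}

variable (Pl k) in
/-- polynomials in a `k`-algebra -/
def gpk (D : Type*) [CommRing D] [Algebra k D] : Pl →+* D :=
  (algebraMap k D).comp (algebraMap Pl k)

variable (Pl k) in
/-- constants in a `k`-algebra -/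
def gck (D : Type*) [CommRing D] [Algebra k D] : ℂ →+* D := (gpk Pl k D).comp (algebraMap ℂ Pl)

theorem gm_lift [IsDomain Pl] (hι : Injective ι) (hc : ∀ p : Pl, ι (τ p) = gpk Pl k L p)
    {Yr Yi : Matrix n n R} (hY : Yr.map v = Y.map ι) (hi : Yi * Yr = 1) {y : n → ℂ}
    (ht : GTay τ ev Y y) (b : n → ℂ) :
    (fun j => gck Pl k (R ⊗[k] R) (b j)) ⬝ᵥ ((Yi.map Algebra.TensorProduct.includeLeftRingHom *
      Yr.map (Algebra.TensorProduct.includeRight (R := k) (A := R) (B := R))) *ᵥ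
        fun j => gck Pl k (R ⊗[k] R) (y j)) = 0 →
      ∃ l ∈ GRel τ (Y *ᵥ fun j => algebraMap ℂ O (y j)), ∀ j, ev (l j) = b j := fun h => by
  obtain ⟨H, h1, h2⟩ := gm_proj τ ev (Y *ᵥ fun j => algebraMap ℂ O (y j))
  have cC : ∀ c : ℂ, ι (algebraMap ℂ O c) = gck Pl k L c := fun c => by rw [← τ.commutes, hc]; rfl
  have vC : ∀ c : ℂ, v (gck Pl k R c) = gck Pl k L c := fun c => v.commutes _
  have vY : ∀ (u : n → ℂ) j, v ((Yr *ᵥ fun j => gck Pl k R (u j)) j) =
      ι ((Y *ᵥ fun j => algebraMap ℂ O (u j)) j) := fun u j => by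
    simp only [mulVec, dotProduct, map_sum, map_mul, vC, cC]
    exact Finset.sum_congr rfl fun i _ => congrArg (· * _) (congrFun₂ hY j i)
  have key : ∀ u : n → ℂ, (∀ l ∈ GRel τ (Y *ᵥ fun j => algebraMap ℂ O (y j)), (fun j => ev (l j)) ⬝ᵥ u = 0) →
      b ⬝ᵥ u = 0 := fun u hu => by
    have a1 := V.gal_ext (k := k) v (a := (fun j => gck Pl k R (b j)) ᵥ* Yi)
      (y := Yr *ᵥ fun j => gck Pl k R (y j)) (z := fun j => ι ((Y *ᵥ fun j => algebraMap ℂ O (u j)) j)) ?_ ?_
    · have a2 : v (((fun j => gck Pl k R (b j)) ᵥ* Yi) ⬝ᵥ (Yr *ᵥ fun j => gck Pl k R (u j))) = 0 := by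
        rw [← a1, dotProduct, map_sum]
        exact Finset.sum_congr rfl fun j _ => by rw [map_mul, vY]
      rw [← dotProduct_mulVec, mulVec_mulVec, hi, one_mulVec] at a2
      refine (map_eq_zero_iff (gck Pl k L) (RingHom.injective _)).1 (Eq.trans ?_ a2)
      simp only [dotProduct, map_sum, map_mul, vC]
    · rw [← h, ← mulVec_mulVec, dotProduct_mulVec, dotProduct]
      refine Finset.sum_congr rfl fun j _ => ?_
      rw [← mul_one (((fun j => gck Pl k R (b j)) ᵥ* Yi) j), ← one_mul ((Yr *ᵥ _) j),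
        ← Algebra.TensorProduct.tmul_mul_tmul]
      congr 1
      · simp only [vecMul, dotProduct, TensorProduct.sum_tmul]
        refine Finset.sum_congr rfl fun i _ => ?_
        rw [← mul_one (1 : R), ← Algebra.TensorProduct.tmul_mul_tmul]
        rfl
      · simp only [mulVec, dotProduct, TensorProduct.tmul_sum]
        refine Finset.sum_congr rfl fun i _ => ?_
        rw [← mul_one (1 : R), ← Algebra.TensorProduct.tmul_mul_tmul]
        exact congrArg _ ((Algebra.TensorProduct.includeRight (R := k) (A := R) (B := R)).commutes _)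
    · intro l hl
      obtain ⟨d, hd⟩ := IsLocalization.exist_integer_multiples_of_finite
        (nonZeroDivisors Pl) l
      choose p hp using hd
      have a3 : ∀ z : n → O, ι ((fun j => τ (p j)) ⬝ᵥ z) =
          algebraMap _ k (d : Pl) • ∑ j, l j • ι (z j) := fun z => by
        simp only [dotProduct, map_sum, map_mul, hc, Finset.smul_sum, smul_smul]
        refine Finset.sum_congr rfl fun j _ => ?_
        rw [← Algebra.smul_def, ← hp, Algebra.smul_def]
        rfl
      have a4 : p ∈ GRel τ (Y *ᵥ fun j => algebraMap ℂ O (y j)) := hι (by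
        have := congrArg v hl
        simp only [map_sum, map_smul, vY] at this
        rw [a3, this, map_zero, map_zero, smul_zero])
      have a5 := a3 (Y *ᵥ fun j => algebraMap ℂ O (u j))
      rw [show _ ⬝ᵥ _ = _ from ht u hu p a4, map_zero, eq_comm, smul_eq_zero] at a5
      exact a5.resolve_left (IsFractionRing.to_map_ne_zero_of_mem_nonZeroDivisors d.2)
  have a6 : b ᵥ* (1 - H.map ev) = 0 := funext fun j => key
    (fun i => (1 - H.map ev) i j) fun l hl => by
      have := congrFun (vecMul_sub (1 : Matrix n n ℂ) (H.map ev)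
        fun j => ev (l j)) j
      rwa [h2 l hl, vecMul_one, sub_self] at this
  refine ⟨∑ i, b i • H i, Submodule.sum_mem _ fun i _ => Submodule.smul_mem _ _ (h1 i), fun j => ?_⟩
  rw [vecMul_sub, vecMul_one, sub_eq_zero] at a6
  rw [congrFun a6 j]
  simp [vecMul, dotProduct]

omit [IsFractionRing Pl k] [IsDomain L] in
theorem gm_conv [IsDomain (R ⊗[k] R)] (hι : Injective ι) (hv : Injective v)
    (hc : ∀ p : Pl, ι (τ p) = gpk Pl k L p)
    {cc : O →ₐ[ℂ] ℂ} (hev : ∀ p, cc (τ p) = ev p) (h0 : Y.map cc.toRingHom = 1)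
    {Yr Yi : Matrix n n R} (hY : Yr.map v = Y.map ι) (hi : Yi * Yr = 1) {y : n → ℂ}
    (ht : GTay τ ev Y y) :
    ∀ l ∈ GRel τ (Y *ᵥ fun j => algebraMap ℂ O (y j)), (fun j => gck Pl k (R ⊗[k] R) (ev (l j))) ⬝ᵥ
      ((Yi.map Algebra.TensorProduct.includeLeftRingHom *
        Yr.map (Algebra.TensorProduct.includeRight (R := k) (A := R) (B := R))) *ᵥ
          fun j => gck Pl k (R ⊗[k] R) (y j)) = 0 := fun l hl => by
  obtain ⟨H, h1, h2⟩ := gm_proj τ ev (Y *ᵥ fun j => algebraMap ℂ O (y j))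
  obtain ⟨E, hE⟩ : ∃ E, E = H.map ev := ⟨_, rfl⟩
  rw [← hE] at h2
  have cC : ∀ c : ℂ, ι (algebraMap ℂ O c) = gck Pl k L c := fun c => by rw [← τ.commutes, hc]; rfl
  have vC : ∀ c : ℂ, v (gck Pl k R c) = gck Pl k L c := fun c => v.commutes _
  have vP : ∀ p, v (gpk Pl k R p) = ι (τ p) := fun p => (v.commutes _).trans (hc p).symm
  have a1 : (1 - E) * E = 0 := by
    rw [Matrix.sub_mul, Matrix.one_mul, sub_eq_zero]
    ext i j
    have := congrFun (h2 _ (h1 i)) j
    rw [hE] at this ⊢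
    exact this.symm
  have a2 : H.map τ * Y * (1 - E).map (algebraMap ℂ O) = 0 := by
    ext1 i j
    rw [Matrix.mul_assoc]
    refine ht (fun i => (1 - E) i j) (fun l hl => ?_) _ (h1 i)
    have := congrFun (vecMul_sub (1 : Matrix n n ℂ) E fun j => ev (l j)) j
    rwa [h2 l hl, vecMul_one, sub_self] at this
  obtain ⟨Z, hZ⟩ : ∃ Z, Z = H.map τ * Y + (1 - E).map (algebraMap ℂ O) := ⟨_, rfl⟩
  have a3 : Z * E.map (algebraMap ℂ O) = H.map τ * Y := by
    rw [hZ, Matrix.add_mul, ← Matrix.map_mul, a1, Matrix.map_zero _ (map_zero _), add_zero]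
    rwa [Matrix.map_sub _ (map_sub _), Matrix.map_one _ (map_zero _) (map_one _), Matrix.mul_sub,
      Matrix.mul_one, sub_eq_zero, eq_comm] at a2
  have a4 : Z.det ≠ 0 := fun e => by
    have b1 : Z.map cc.toRingHom = 1 := by
      rw [hZ, Matrix.map_add _ (map_add _), Matrix.map_mul, h0, Matrix.mul_one]
      ext i j
      simp [hE, hev]
    have := (cc.toRingHom).map_det Z
    rw [e, map_zero, RingHom.mapMatrix_apply, b1, det_one] at this
    exact zero_ne_one this
  obtain ⟨W, hW⟩ : ∃ W, W = H.map (gpk Pl k R) * Yr + (1 - E).map (gck Pl k R) := ⟨_, rfl⟩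
  have a5 : (H.map (gpk Pl k R) * Yr).map v = (H.map τ * Y).map ι := by
    rw [Matrix.map_mul, Matrix.map_mul, hY]
    exact congrArg (· * _) (Matrix.ext fun i j => vP _)
  have a6 : ∀ M : Matrix n n ℂ, (M.map (gck Pl k R)).map v = (M.map (algebraMap ℂ O)).map ι := fun M =>
    Matrix.ext fun i j => (vC _).trans (cC _).symm
  have a7 : W.map v = Z.map ι := by
    rw [hW, hZ, Matrix.map_add _ (map_add _), Matrix.map_add _ (map_add _), a5, a6]
  have a8 : W * E.map (gck Pl k R) = H.map (gpk Pl k R) * Yr := Matrix.map_injective hv (by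
    change Matrix.map _ v = Matrix.map _ v
    rw [Matrix.map_mul, a7, a6, ← Matrix.map_mul, a3, a5])
  let il : R →+* R ⊗[k] R := Algebra.TensorProduct.includeLeftRingHom
  let ir : R →ₐ[k] R ⊗[k] R := Algebra.TensorProduct.includeRight
  have a9 : (W.map il).det ≠ 0 := fun e => a4 (hι (by
    have b1 := congrArg (Algebra.TensorProduct.lmul' k) ((il.map_det W).trans e)
    have b2 := v.toRingHom.map_det W
    rw [show Algebra.TensorProduct.lmul' k (il W.det) = W.det from mul_one _, map_zero] at b1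
    rw [b1, map_zero] at b2
    rw [ι.map_det, map_zero, b2]
    exact congrArg det a7.symm))
  have b3 : (H.map (gpk Pl k R) * Yr) *ᵥ (fun j => gck Pl k R (y j)) = 0 := funext fun i => hv (by
    rw [Pi.zero_apply, map_zero, ← map_zero ι, ← show _ ⬝ᵥ _ = _ from h1 i]
    have : ∀ i j, v (Yr i j) = ι (Y i j) := congrFun₂ hY
    simp only [mulVec, dotProduct, map_sum, map_mul, this, vC, cC, vP, mul_apply, map_apply,
      Finset.sum_mul, Finset.mul_sum, mul_assoc]
    exact Finset.sum_comm)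
  have b4 : E.map (gck Pl k (R ⊗[k] R)) *ᵥ ((Yi.map il * Yr.map ir) *ᵥ
      fun j => gck Pl k (R ⊗[k] R) (y j)) = 0 := eq_zero_of_mulVec_eq_zero a9 (by
    have c1 : E.map (gck Pl k (R ⊗[k] R)) = (E.map (gck Pl k R)).map il := rfl
    have c2 : (H.map (gpk Pl k R)).map il = (H.map (gpk Pl k R)).map ir :=
      Matrix.ext fun i j => (ir.commutes _).symm
    rw [mulVec_mulVec, mulVec_mulVec, c1, ← Matrix.map_mul, a8, Matrix.map_mul, Matrix.mul_assoc,
      ← Matrix.mul_assoc (Yr.map il), ← Matrix.map_mul, mul_eq_one_comm.1 hi,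
      Matrix.map_one _ (map_zero _) (map_one _), Matrix.one_mul, c2, ← Matrix.map_mul]
    ext1 i
    rw [Pi.zero_apply, ← map_zero ir, ← show _ = (0 : R) from congrFun b3 i]
    simp only [mulVec, dotProduct, map_sum, map_mul, map_apply]
    exact Finset.sum_congr rfl fun j _ => congrArg _ (ir.commutes _).symm)
  have b5 : (fun j => gck Pl k (R ⊗[k] R) (ev (l j))) ᵥ* E.map (gck Pl k (R ⊗[k] R)) =
      fun j => gck Pl k (R ⊗[k] R) (ev (l j)) := funext fun j => by
    rw [← congrFun (h2 l hl) j]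
    simp [vecMul, dotProduct]
  rw [← b5, ← dotProduct_mulVec, b4, dotProduct_zero]

end lift

end

end Pool.Agent.Lib.MP_5591bc_ag.M
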