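import Pool.Agent.Lib.MP_5591bc_ag.M.GalA

/-! The prime ideal of the generic point of the Galois group, over an abstract ring of functions. -/

namespace Pool.Agent.Lib.MP_5591bc_ag.M

open Matrix Function G R
open V (evm map_evm evm_C evm_X Xm Xm_map)
open scoped TensorProduct

noncomputable section

universe u v

variable {A : Type u} [Fintype A] [DecidableEq A]

/-- polynomial representations of the monoid of matrices -/
structure RepU {n : Type*} [Fintype n] [DecidableEq n]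
    (ρ : Matrix n n (MvPolynomial (A × A) ℂ)) : Prop where
  one : ρ.map (evm (RingHom.id ℂ) 1) = 1
  mul : ∀ (S : Type v) [CommRing S] (κ : ℂ →+* S) (X Y : Matrix A A S),
    ρ.map (evm κ (X * Y)) = ρ.map (evm κ X) * ρ.map (evm κ Y)

theorem repU_exg : RepU.{u, v} (exg 1 (Xm A)) :=
  ⟨by rw [exg_map _ (map_zero _), map_one, Xm_map, exg_one], fun _ _ _ _ _ => by
    simp only [exg_map _ (map_zero _), map_one, Xm_map, exg_mul, mul_one]⟩

theorem RepU.piM {n : Type*} [Fintype n] [DecidableEq n] {ρ : Matrix n n (MvPolynomial (A × A) ℂ)}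
    (h : RepU.{u, v} ρ) (L : Type) [Fintype L] [DecidableEq L] : RepU.{u, v} (piM fun _ : L => ρ) :=
  ⟨by rw [piM_map, h.one, piM_one], fun _ _ _ _ _ => by simp only [piM_map, h.mul, piM_mul]⟩

variable {Pl O : Type v} [CommRing Pl] [Algebra ℂ Pl] [CommRing O] [Algebra ℂ O]

/-- the ideal of the fibre of the closure of the graph of `G` -/
structure GGen (τ : Pl →ₐ[ℂ] O) (ev : Pl →ₐ[ℂ] ℂ) (G : Matrix A A O)
    (I : Ideal (MvPolynomial (A × A) ℂ)) : Prop where
  prime : I.IsPrime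
  one : ∀ p ∈ I, evm (RingHom.id ℂ) 1 p = 0
  swap : ∀ p ∈ I, ∀ (q : MvPolynomial (A × A) ℂ) (N : ℕ), (∀ (S : Type v) [CommRing S] (κ : ℂ →+* S)
    (X X' : Matrix A A S), X' * X = 1 → evm κ X q = X.det ^ N * evm κ X' p) → q ∈ I
  rep : ∀ (n : Type u) [Fintype n] [DecidableEq n] (ρ : Matrix n n (MvPolynomial (A × A) ℂ)),
    RepU.{u, v} ρ → ∀ y : n → ℂ, GTay τ ev (ρ.map (evm (algebraMap ℂ O) G)) y → ∀ b : n → ℂ,
      (fun j => MvPolynomial.C (b j)) ⬝ᵥ (ρ *ᵥ fun j => MvPolynomial.C (y j)) ∈ I ↔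
        ∃ l ∈ GRel τ (ρ.map (evm (algebraMap ℂ O) G) *ᵥ fun j => algebraMap ℂ O (y j)),
          ∀ j, ev (l j) = b j

variable {τ : Pl →ₐ[ℂ] O} {ev : Pl →ₐ[ℂ] ℂ} {cc : O →ₐ[ℂ] ℂ} {G : Matrix A A O}

theorem ggen_abs [IsDomain Pl] {k R L : Type v} [Field k] [Algebra Pl k]
    [IsFractionRing Pl k] [CommRing R] [Algebra k R] [CommRing L] [Algebra k L]
    [IsDomain L] [IsDomain (R ⊗[k] R)] {ι : O →+* L} {v : R →ₐ[k] L} (hι : Injective ι)
    (hv : Injective v) (hc : ∀ p : Pl, ι (τ p) = gpk Pl k L p) (hev : ∀ p, cc (τ p) = ev p)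
    (h0 : G.map cc.toRingHom = 1) {Gr Gi : Matrix A A R} (hG : Gr.map v = G.map ι)
    (hi : Gi * Gr = 1) : ∃ I, GGen τ ev G I := by
  let il : R →+* R ⊗[k] R := Algebra.TensorProduct.includeLeftRingHom
  let ir : R →ₐ[k] R ⊗[k] R := Algebra.TensorProduct.includeRight
  let μ : R ⊗[k] R →+* R := (Algebra.TensorProduct.lmul' k).toRingHom
  let σ : R ⊗[k] R →+* R ⊗[k] R := (Algebra.TensorProduct.comm k R R).toAlgHom.toRingHom
  have cl : il.comp (gck Pl k R) = gck Pl k (R ⊗[k] R) := rfl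
  have cr : ir.toRingHom.comp (gck Pl k R) = gck Pl k (R ⊗[k] R) :=
    RingHom.ext fun c => ir.commutes _
  have cv : v.toRingHom.comp (gck Pl k R) = ι.comp (algebraMap ℂ O) := RingHom.ext fun c =>
    (v.commutes _).trans ((hc _).symm.trans (congrArg ι (τ.commutes c)))
  have one : ∀ {S : Type v} [CommRing S] (κ : ℂ →+* S) (p : MvPolynomial (A × A) ℂ),
      evm κ 1 p = κ (evm (RingHom.id ℂ) 1 p) := fun κ p => by
    rw [map_evm, Matrix.map_one _ (map_zero _) (map_one _), RingHom.comp_id]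
  refine ⟨RingHom.ker (evm (gck Pl k (R ⊗[k] R)) (Gi.map il * Gr.map ir)), RingHom.ker_isPrime _,
    fun p hp => ?_, fun p hp q N hq => ?_, fun n _ _ ρ hρ y ht b => ?_⟩
  · have a1 := congrArg μ (RingHom.mem_ker.1 hp)
    have a2 : μ.comp (gck Pl k (R ⊗[k] R)) = gck Pl k R :=
      RingHom.ext fun c => (Algebra.TensorProduct.lmul' k).commutes _
    have a3 : (Gi.map il * Gr.map ir).map μ = 1 := by
      rw [Matrix.map_mul, ← hi]
      congr 1 <;> ext i j
      exacts [mul_one _, one_mul _]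
    have : Nontrivial R := v.toRingHom.domain_nontrivial
    rw [map_evm, a2, a3, one, map_zero] at a1
    exact (map_eq_zero_iff _ (RingHom.injective _)).1 a1
  · have a1 := congrArg σ (RingHom.mem_ker.1 hp)
    have a2 : σ.comp (gck Pl k (R ⊗[k] R)) = gck Pl k (R ⊗[k] R) :=
      RingHom.ext fun c => (Algebra.TensorProduct.comm k R R).commutes _
    have a3 : (Gi.map il * Gr.map ir).map σ = Gi.map ir * Gr.map il := by
      rw [Matrix.map_mul]
      rfl
    rw [map_evm, a2, a3, map_zero] at a1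
    rw [RingHom.mem_ker, hq _ _ _ (Gi.map ir * Gr.map il), a1, mul_zero]
    rw [Matrix.mul_assoc, ← Matrix.mul_assoc (Gr.map il), ← Matrix.map_mul, mul_eq_one_comm.1 hi,
      Matrix.map_one _ (map_zero _) (map_one _), Matrix.one_mul, ← Matrix.map_mul, hi,
      Matrix.map_one _ (map_zero _) (map_one _)]
  · have a1 : (ρ.map (evm (algebraMap ℂ O) G)).map cc.toRingHom = 1 := by
      rw [← hρ.one, ← h0]
      ext i j
      exact (map_evm cc.toRingHom _ G (ρ i j)).trans (by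
        rw [show cc.toRingHom.comp (algebraMap ℂ O) = RingHom.id ℂ from RingHom.ext cc.commutes]; rfl)
    have a2 : (ρ.map (evm (gck Pl k R) Gr)).map v = (ρ.map (evm (algebraMap ℂ O) G)).map ι := by
      ext i j
      refine (map_evm v.toRingHom _ _ _).trans (Eq.trans ?_ (map_evm ι _ _ _).symm)
      rw [cv, ← hG]
      rfl
    have a3 : ρ.map (evm (gck Pl k R) Gi) * ρ.map (evm (gck Pl k R) Gr) = 1 := by
      rw [← hρ.mul, hi]
      ext i j
      rw [map_apply, one, show evm _ 1 (ρ i j) = _ from congrFun₂ hρ.one i j]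
      exact congrFun₂ (Matrix.map_one (gck Pl k R) (map_zero _) (map_one _)) i j
    have a4 : ρ.map (evm (gck Pl k (R ⊗[k] R)) (Gi.map il * Gr.map ir)) =
        (ρ.map (evm (gck Pl k R) Gi)).map il * (ρ.map (evm (gck Pl k R) Gr)).map ir := by
      rw [hρ.mul]
      congr 1 <;> ext i j
      · exact (map_evm il (gck Pl k R) Gi (ρ i j)).symm
      · exact Eq.trans (by rw [cr]; rfl) (map_evm ir.toRingHom (gck Pl k R) Gr (ρ i j)).symm
    have a5 : evm (gck Pl k (R ⊗[k] R)) (Gi.map il * Gr.map ir)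
        ((fun j => MvPolynomial.C (b j)) ⬝ᵥ (ρ *ᵥ fun j => MvPolynomial.C (y j))) =
        (fun j => gck Pl k (R ⊗[k] R) (b j)) ⬝ᵥ (((ρ.map (evm (gck Pl k R) Gi)).map il *
          (ρ.map (evm (gck Pl k R) Gr)).map ir) *ᵥ fun j => gck Pl k (R ⊗[k] R) (y j)) := by
      rw [← a4]
      simp only [dotProduct, mulVec, map_sum, map_mul, evm_C, map_apply]
    rw [RingHom.mem_ker, a5]
    refine ⟨gm_lift hι hc a2 a3 ht b, ?_⟩
    rintro ⟨l, h1, h2⟩
    simpa only [h2] using gm_conv hι hv hc hev a1 a2 a3 ht l h1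

/-- substitution of functions for the entries -/
def gev (τ : Pl →ₐ[ℂ] O) (G : Matrix A A O) : MvPolynomial (A × A) Pl →+* O :=
  MvPolynomial.eval₂Hom τ.toRingHom fun a => G a.1 a.2

omit [Fintype A] [DecidableEq A] in
theorem gev_C (p : Pl) : gev τ G (MvPolynomial.C p) = τ p := MvPolynomial.eval₂Hom_C _ _ _

omit [Fintype A] [DecidableEq A] in
theorem gev_X (a : A × A) : gev τ G (MvPolynomial.X a) = G a.1 a.2 :=
  MvPolynomial.eval₂Hom_X' _ _ _

theorem ggen_fld [IsDomain Pl] (k L : Type v) [Field k] [Algebra Pl k] [IsFractionRing Pl k]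
    [Field L] [Algebra k L] {ι : O →+* L} (hι : Injective ι) (hτ : Injective τ)
    (hc : ∀ p : Pl, ι (τ p) = gpk Pl k L p) (hev : ∀ p, cc (τ p) = ev p)
    (h0 : G.map cc.toRingHom = 1)
    (h : ∀ (u v : MvPolynomial (A × A) Pl) (n : ℕ) (p : ℕ → Pl), gev τ G v ≠ 0 →
      (∃ j ≤ n, p j ≠ 0) →
      ∑ j ∈ Finset.range (n + 1), τ (p j) * gev τ G u ^ j * gev τ G v ^ (n - j) = 0 →
      ∃ a b : Pl, b ≠ 0 ∧ τ b * gev τ G u = τ a * gev τ G v) : ∃ I, GGen τ ev G I := by
  have hj : Injective (ι.comp τ.toRingHom) := hι.comp hτ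
  have : CharZero k := RingHom.charZero_iff (gck Pl k k).injective |>.1 inferInstance
  let E := IntermediateField.adjoin k (Set.range fun x : A × A => ι (G x.1 x.2))
  have a1 : ∀ r ∈ Algebra.adjoin k (Set.range fun x : A × A => ι (G x.1 x.2)),
      ∃ d : Pl, d ≠ 0 ∧ ∃ u, ι (gev τ G u) = ι (τ d) * r := fun r hr => by
    induction hr using Algebra.adjoin_induction with
    | mem x hx =>
      obtain ⟨x, rfl⟩ := hx
      exact ⟨1, one_ne_zero, MvPolynomial.X x, by simp [gev_X]⟩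
    | algebraMap r =>
      obtain ⟨a, d, hd, rfl⟩ := IsFractionRing.div_surjective (A := Pl) r
      refine ⟨d, nonZeroDivisors.ne_zero hd, MvPolynomial.C a, ?_⟩
      rw [gev_C, hc, hc, gpk, RingHom.comp_apply, RingHom.comp_apply, ← map_mul,
        mul_div_cancel₀ _ (IsFractionRing.to_map_ne_zero_of_mem_nonZeroDivisors hd)]
    | add x y _ _ hx hy =>
      obtain ⟨d, d0, u, e⟩ := hx
      obtain ⟨d', d0', u', e'⟩ := hy
      refine ⟨d * d', mul_ne_zero d0 d0', MvPolynomial.C d' * u + MvPolynomial.C d * u', ?_⟩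
      simp only [map_add, map_mul, e, e', gev_C]
      ring
    | mul x y _ _ hx hy =>
      obtain ⟨d, d0, u, e⟩ := hx
      obtain ⟨d', d0', u', e'⟩ := hy
      refine ⟨d * d', mul_ne_zero d0 d0', u * u', ?_⟩
      simp only [map_mul, e, e']
      ring
  have n0 : ∀ d : Pl, d ≠ 0 → ι (τ d) ≠ 0 := fun d d0 => (map_ne_zero_iff _ hj).2 d0
  have : IsDomain (E ⊗[k] E) := V.reg_field (L := E) (fun z hz => by
    obtain ⟨r, hr, s, hs, e⟩ := IntermediateField.mem_adjoin_iff_div.1 z.2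
    by_cases s0 : s = 0
    · exact ⟨0, Subtype.ext (by rw [e, s0, div_zero, map_zero]; rfl)⟩
    obtain ⟨d, d0, u, e3⟩ := a1 r hr
    obtain ⟨d', d0', u', e4⟩ := a1 s hs
    obtain ⟨q, q1, q2⟩ := hz.map E.val
    have q3 := IsLocalization.integerNormalization_eval₂_eq_zero (nonZeroDivisors Pl) _ q q2
    have q4 : IsLocalization.integerNormalization (nonZeroDivisors Pl) q ≠ 0 :=
      mt IsFractionRing.integerNormalization_eq_zero_iff.1 q1.ne_zero
    generalize IsLocalization.integerNormalization (nonZeroDivisors Pl) q = Q at q3 q4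
    have e5 : ι (gev τ G (MvPolynomial.C d * u')) ≠ 0 := by
      rw [map_mul, map_mul, e4, gev_C]
      exact mul_ne_zero (n0 d d0) (mul_ne_zero (n0 d' d0') s0)
    have e6 : ι (gev τ G (MvPolynomial.C d' * u)) = z * ι (gev τ G (MvPolynomial.C d * u')) := by
      simp only [map_mul, gev_C, e, e3, e4]
      field_simp
    obtain ⟨a, b, b0, hp⟩ := h (MvPolynomial.C d' * u) (MvPolynomial.C d * u') Q.natDegree Q.coeff
      (fun e7 => e5 (by rw [e7, map_zero])) ⟨_, le_rfl, Polynomial.leadingCoeff_ne_zero.2 q4⟩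
      (hι (by
        rw [Polynomial.eval₂_eq_sum_range] at q3
        rw [map_zero, ← zero_mul (ι (gev τ G (MvPolynomial.C d * u')) ^ Q.natDegree), ← q3,
          Finset.sum_mul, map_sum]
        refine Finset.sum_congr rfl fun j hj => ?_
        rw [map_mul, map_mul, map_pow, map_pow, e6, hc, mul_pow, mul_assoc, mul_assoc, mul_assoc,
          ← pow_add, Nat.add_sub_cancel' (Nat.lt_succ_iff.1 (Finset.mem_range.1 hj))]
        rfl))
    refine ⟨algebraMap _ _ a / algebraMap _ _ b, Subtype.ext ?_⟩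
    change algebraMap k L _ = _
    rw [map_div₀]
    change gpk Pl k L a / gpk Pl k L b = _
    replace hp := congrArg ι hp
    rw [map_mul, map_mul ι (τ a), e6, ← mul_assoc] at hp
    rw [← hc, ← hc, div_eq_iff (n0 _ b0), ← mul_right_cancel₀ e5 hp, mul_comm]) E
  let Gr : Matrix A A E := of fun i j =>
    ⟨ι (G i j), IntermediateField.subset_adjoin _ _ ⟨(i, j), rfl⟩⟩
  refine ggen_abs (v := E.val) hι Subtype.val_injective hc hev h0 (Gr := Gr) rfl
    (nonsing_inv_mul _ (Ne.isUnit fun e => ?_))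
  have b1 := E.val.toRingHom.map_det Gr
  have b2 := cc.toRingHom.map_det G
  rw [e, map_zero] at b1
  rw [hι ((ι.map_det G).trans (b1.symm.trans (map_zero ι).symm)), map_zero,
    RingHom.mapMatrix_apply, h0, det_one] at b2
  exact zero_ne_one b2

theorem ggen_frac [IsDomain Pl] (k L : Type v) [Field k] [Algebra Pl k] [IsFractionRing Pl k]
    [Field L] [Algebra O L] [IsFractionRing O L] (hτ : Injective τ) (hev : ∀ p, cc (τ p) = ev p)
    (h0 : G.map cc.toRingHom = 1)
    (h : ∀ (u v : MvPolynomial (A × A) Pl) (n : ℕ) (p : ℕ → Pl), gev τ G v ≠ 0 →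
      (∃ j ≤ n, p j ≠ 0) →
      ∑ j ∈ Finset.range (n + 1), τ (p j) * gev τ G u ^ j * gev τ G v ^ (n - j) = 0 →
      ∃ a b : Pl, b ≠ 0 ∧ τ b * gev τ G u = τ a * gev τ G v) : ∃ I, GGen τ ev G I := by
  have hι : Injective (algebraMap O L) := IsFractionRing.injective _ _
  have hj : Injective ((algebraMap O L).comp τ.toRingHom) := hι.comp hτ
  let _ : Algebra k L := (IsFractionRing.lift hj).toAlgebra
  exact ggen_fld k L hι hτ (fun p => (IsFractionRing.lift_algebraMap hj p).symm) hev h0 h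

theorem ggen_of [IsDomain Pl] [IsDomain O] (hτ : Injective τ) (hev : ∀ p, cc (τ p) = ev p)
    (h0 : G.map cc.toRingHom = 1)
    (h : ∀ (u v : MvPolynomial (A × A) Pl) (n : ℕ) (p : ℕ → Pl), gev τ G v ≠ 0 →
      (∃ j ≤ n, p j ≠ 0) →
      ∑ j ∈ Finset.range (n + 1), τ (p j) * gev τ G u ^ j * gev τ G v ^ (n - j) = 0 →
      ∃ a b : Pl, b ≠ 0 ∧ τ b * gev τ G u = τ a * gev τ G v) : ∃ I, GGen τ ev G I :=
  ggen_frac (FractionRing Pl) (FractionRing O) hτ hev h0 h

/-- the polynomials of degree at most `d` in the ideal are the values of the relations -/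
theorem GGen.mon {I : Ideal (MvPolynomial (A × A) ℂ)} (h : GGen τ ev G I) {d : ℕ}
    (ht : GTay τ ev (piM fun _ : Fin d => exg 1 G) (V.vk d 1)) (b : V.Mo A d → ℂ) :
    (fun μ => MvPolynomial.C (b μ)) ⬝ᵥ V.vk d (Xm A) ∈ I ↔
      ∃ l ∈ GRel τ (V.vk d G), ∀ j, ev (l j) = b j := by
  have e2 : (piM fun _ : Fin d => exg 1 (Xm A)).map (evm (algebraMap ℂ O) G) =
      piM fun _ => exg 1 G := by
    rw [piM_map, exg_map _ (map_zero _), map_one, Xm_map]
  have := h.rep _ _ (repU_exg.piM (Fin d)) (V.vk d 1) (e2 ▸ ht) b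
  rwa [e2, V.vk, V.gal_tens, V.gal_tens] at this

end

end Pool.Agent.Lib.MP_5591bc_ag.M
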