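import Pool.Agent.Lib.MP_5591bc_ag.M.Set
import Pool.Agent.Lib.MP_5591bc_ag.W.Ser

/-! Change of the field of coefficients. -/

namespace Pool.Agent.Lib.MP_5591bc_ag.M

open Matrix Filter Topology MvPowerSeries G R W Metric

noncomputable section

theorem map_iter {σ ν R S : Type*} [Fintype ν] [DecidableEq ν] [CommRing R] [CommRing S]
    (φ : R →+* S) (T : MvPolynomial σ R) (B : σ → Matrix ν ν (MvPolynomial σ R)) (w : List σ) :
    iterM (MvPolynomial.map φ T) (fun l => (B l).map (MvPolynomial.map φ)) w =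
      (iterM T B w).map (MvPolynomial.map φ) := by
  induction w with
  | nil => simp [iterM, Matrix.map_one]
  | cons l w ih =>
    ext1 i j
    simp [iterM, ih, Matrix.mul_apply, MvPolynomial.pderiv_map]

theorem map_eval {σ R S : Type*} [CommRing R] [CommRing S] (φ : R →+* S) (x : σ → R)
    (p : MvPolynomial σ R) :
    MvPolynomial.eval (fun l => φ (x l)) (MvPolynomial.map φ p) = φ (MvPolynomial.eval x p) := by
  induction p using MvPolynomial.induction_on with
  | C a => simp
  | add p q hp hq => simp [hp, hq]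
  | mul_X p i hp => simp [hp]

section

variable {σ K ν : Type*} [Fintype σ] [DecidableEq σ] [Field K] [Fintype ν] [DecidableEq ν]
  {T : MvPolynomial σ K} {B : σ → Matrix ν ν (MvPolynomial σ K)}

theorem GbM_map {L : Type*} [Field L] (φ : K →+* L) (x : σ → K) :
    GbM (MvPolynomial.map φ T) (fun l => (B l).map (MvPolynomial.map φ)) (fun l => φ (x l)) =
      (GbM T B x).map (MvPowerSeries.map φ) := by
  ext i j κ
  rw [map_apply, coeff_map]
  change _ / _ = φ (_ / _)
  simp only [map_iter, map_apply, map_eval, map_div₀, map_mul, map_pow, map_prod, map_natCast]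

end

variable {σ K0 K L ν : Type*} [Fintype σ] [DecidableEq σ] [Field K0] [Field K] [Field L]
  [Algebra K0 K] [Algebra K0 L] [Fintype ν] [DecidableEq ν]

theorem map_TM (T : MvPolynomial σ K0) (φ : K →ₐ[K0] L) :
    MvPolynomial.map (φ : K →+* L) (TM K T) = TM L T := by
  rw [MvPolynomial.map_map, φ.comp_algebraMap]

theorem eval_TM (T : MvPolynomial σ K0) (φ : K →ₐ[K0] L) (x : σ → K) :
    MvPolynomial.eval (fun l => φ (x l)) (TM L T) = φ (MvPolynomial.eval x (TM K T)) := by
  rw [← map_TM T φ]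
  exact map_eval (φ : K →+* L) x _

theorem LserM_map (T : MvPolynomial σ K0) (B : σ → Matrix ν ν (MvPolynomial σ K0))
    (φ : K →ₐ[K0] L) (δ : ℕ) (x : σ → K) (F : Mo δ ν → K) (μ : Mo δ ν) :
    LserM (TM L T) (BM L B) δ (fun l => φ (x l)) (fun η => φ (F η)) μ =
      MvPowerSeries.map (φ : K →+* L) (LserM (TM K T) (BM K B) δ x F μ) := by
  have e : BM L B = fun l => (BM K B l).map (MvPolynomial.map (φ : K →+* L)) := by
    ext1 l
    ext1 i j
    exact (map_TM _ φ).symm
  have := GbM_map (T := TM K T) (B := BM K B) (φ : K →+* L) x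
  rw [map_TM, ← e] at this
  simp only [RingHom.coe_coe] at this
  simp only [LserM, this, ← Adj_map, vecMul, dotProduct, map_apply, map_sum, map_mul, map_C,
    RingHom.coe_coe]

theorem aeval_pc [Algebra K ℂ] (T : MvPolynomial σ K) (x : σ → K) :
    MvPolynomial.aeval (pc x) T = algebraMap K ℂ (MvPolynomial.eval x T) := by
  rw [← map_eval, MvPolynomial.eval_map, MvPolynomial.aeval_def]

variable [Algebra K0 ℂ] [Algebra K ℂ] [IsScalarTower K0 K ℂ]

theorem aeval_TM (T : MvPolynomial σ K0) (t : σ → ℂ) :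
    MvPolynomial.aeval t (TM K T) = MvPolynomial.aeval t T := by
  exact MvPolynomial.aeval_map_algebraMap K t T

variable (K) in
theorem FundM.tm {T : MvPolynomial σ K0} {B : σ → Matrix ν ν (MvPolynomial σ K0)}
    {U : Set (σ → ℂ)} {P : (σ → ℂ) → Matrix ν ν ℂ} (h : FundM T B U P) :
    FundM (TM K T) (BM K B) U P := by
  refine fun t ht => ⟨(h t ht).1, fun i j => ⟨((h t ht).2 i j).1, fun l => ?_⟩⟩
  simp only [map_apply, aeval_TM]
  exact ((h t ht).2 i j).2 l

end

end Pool.Agent.Lib.MP_5591bc_ag.M
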