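import Pool.Agent.Lib.MP_5591bc_ag.M.TayB
import Pool.Agent.Lib.MP_5591bc_ag.M.SerP

/-! Taylor series of the horizontal covectors. -/

namespace Pool.Agent.Lib.MP_5591bc_ag.M

open Matrix Filter Topology MvPowerSeries G R W Metric

noncomputable section

variable {σ K ν : Type*} [Fintype σ] [DecidableEq σ] [Field K] [Algebra K ℂ] [Fintype ν]
  [DecidableEq ν] {T : MvPolynomial σ K} {B : σ → Matrix ν ν (MvPolynomial σ K)}
  {U : Set (σ → ℂ)} {P : (σ → ℂ) → Matrix ν ν ℂ}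

theorem LserM_zero (δ : ℕ) (x : σ → K) (F : Mo δ ν → K) (μ : Mo δ ν) :
    constantCoeff (LserM T B δ x F μ) = F μ := by
  have e := Adj_map (constantCoeff : MvPowerSeries σ K →+* K) δ (GbM T B x)
  rw [GbM_zero, Adj_one] at e
  have e1 : ∀ β, constantCoeff (Adj δ (GbM T B x) β μ) = (1 : Matrix _ _ K) β μ := fun β =>
    congrFun₂ e β μ
  simp [LserM, vecMul, dotProduct, e1, one_apply]

theorem lamM_an (hP : FundM T B U P) {δ : ℕ} (x : σ → K) (F : Mo δ ν → K) (μ : Mo δ ν) :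
    AnalyticOnNhd ℂ (fun t => lamM P δ x F t μ) U := by
  exact fun t ht => lamM_ana hP x F μ ht

theorem serM_mono {Y : (σ → ℂ) → Matrix ν ν ℂ} {p : σ → ℂ} (h : ∀ i j, AnalyticAt ℂ (Y · i j) p)
    (δ : ℕ) (μ : Mo δ ν) : AnalyticAt ℂ (fun t => mono δ (Y t) μ) p ∧
      tayM (fun t => mono δ (Y t) μ) p = mono δ (tayX Y p) μ := by
  have e : (mono δ (of fun i j => (⟨_, h i j⟩ : anaO p)) μ).1 = fun t => mono δ (Y t) μ :=
    funext fun t => mono_map ((Pi.evalRingHom (fun _ => ℂ) t).comp (anaO p).subtype) δ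
      (of fun i j => (⟨_, h i j⟩ : anaO p)) μ
  rw [← e]
  exact ⟨(mono δ (of fun i j => (⟨_, h i j⟩ : anaO p)) μ).2,
    mono_map (anaT p) δ (of fun i j => (⟨_, h i j⟩ : anaO p)) μ⟩

theorem mono_an (hP : FundM T B U P) (δ : ℕ) (μ : Mo δ ν) :
    AnalyticOnNhd ℂ (fun t => mono δ (P t) μ) U := by
  exact fun t ht => (serM_mono (fun i j => ((hP t ht).2 i j).1) δ μ).1

theorem tay_mono (hP : FundM T B U P) {s : σ → ℂ} (hs : s ∈ U) (δ : ℕ) (μ : Mo δ ν) :
    tayM (fun t => mono δ (P t) μ) s = mono δ (tayX P s) μ := by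
  exact (serM_mono (fun i j => ((hP s hs).2 i j).1) δ μ).2

theorem tay_selfM (ho : IsOpen U) (hP : FundM T B U P) {δ : ℕ} {x : σ → K} (hx : pc x ∈ U)
    (hT : MvPolynomial.eval x T ≠ 0) (F : Mo δ ν → K) (μ : Mo δ ν) :
    tayM (fun t => lamM P δ x F t μ) (pc x) = mpM K (LserM T B δ x F μ) := by
  exact tayM_self ho hP hx hT F μ

theorem tay_baseM (ho : IsOpen U) (hP : FundM T B U P) {δ : ℕ} {s : σ → K} (hs : pc s ∈ U)
    (hT : MvPolynomial.eval s T ≠ 0) (u : Mo δ ν → ℂ) (μ : Mo δ ν) :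
    tayM (fun t => (u ᵥ* Adj δ (P t * (P (pc s))⁻¹)) μ) (pc s) =
      ∑ β, C (u β) * mpM K (Adj δ (GbM T B s) β μ) := by
  exact tayM_base ho hP hs hT u μ

/-- the formal system of the covectors at any point -/
theorem lamM_ode (ho : IsOpen U) (hP : FundM T B U P) {δ : ℕ} {x : σ → K} (hx : pc x ∈ U)
    (F : Mo δ ν → K) {s : σ → ℂ} (hs : s ∈ U) : IsM (τm s) (TM ℂ T)
      (fun l => Bd δ (BM ℂ B l)) fun μ => tayM (fun t => lamM P δ x F t μ) s := by
  have hQ := hP.inv hx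
  have h := serM_adj (fun i j => ((hQ s hs).2 i j).1) δ
  have e : ∀ μ, tayM (fun t => lamM P δ x F t μ) s = ∑ β, C (algebraMap K ℂ (F β)) *
      Adj δ (tayX (fun t => P t * (P (pc x))⁻¹) s) β μ := fun μ =>
    (tayM_sum _ fun β _ => analyticAt_const.fun_mul (h β μ).1).trans
      (Finset.sum_congr rfl fun β _ => (tayM_cmul (h β μ).1 _).trans (by rw [(h β μ).2]))
  have hu : IsUnit (tayX (fun t => P t * (P (pc x))⁻¹) s).det := by
    rw [isUnit_iff_constantCoeff, RingHom.map_det, RingHom.mapMatrix_apply, tayX_const hQ hs]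
    exact (hQ s hs).1.isUnit
  intro l μ
  simp only [e, map_sum, Derivation.leibniz, pderiv_C, smul_eq_mul, mul_zero, add_zero,
    Finset.mul_sum]
  rw [Finset.sum_comm]
  refine Finset.sum_congr rfl fun α _ => ?_
  rw [mul_left_comm, adj_ode _ (FundM.ode ho hQ hs l) hu, ← Bd_map, Finset.mul_sum]
  exact Finset.sum_congr rfl fun _ _ => mul_left_comm _ _ _

end

end Pool.Agent.Lib.MP_5591bc_ag.M
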