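import Pool.Agent.Lib.MP_5591bc_ag.M.SymA
import Pool.Agent.Lib.MP_5591bc_ag.M.GF

/-! The constants of the adjoint tensors. -/

namespace Pool.Agent.Lib.MP_5591bc_ag.M

open Matrix Filter Topology MvPowerSeries G R W Metric

noncomputable section

variable {σ ν : Type*} [Fintype σ] [DecidableEq σ] [Fintype ν] [DecidableEq ν]

theorem gk_adjM {K₀ : Type*} [Field K₀] [NumberField K₀] {T : MvPolynomial σ K₀}
    {B : σ → Matrix ν ν (MvPolynomial σ K₀)} (h : GalM T B) : ∃ c : ℕ, ∀ (δ : ℕ) (K : Type)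
    [Field K] [NumberField K] [Algebra K₀ K] (n : ℕ) (x : σ → K), 0 < n → (∀ l, Hd (x l) (2 ^ n)) →
    MvPolynomial.eval x (TM K T) ≠ 0 → ∀ Λ, c * δ * n ≤ Λ →
      (GKm (2 ^ Λ) fun p : Mo δ ν × Mo δ ν => Adj δ (GbM (TM K T) (BM K B) x) p.1 p.2) ∧
      ∀ F : Mo δ ν → K, GKm (2 ^ Λ) (LserM (TM K T) (BM K B) δ x F) :=
  let ⟨c, hc⟩ := gf_gbM h
  ⟨(c + 1) * Fintype.card ν, fun _ K _ _ _ n x n0 hx T0 _ hΛ =>
    gk_adj_of n0 (hc K n x n0 hx T0).1 hΛ⟩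

end

end Pool.Agent.Lib.MP_5591bc_ag.M
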