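import Pool.Agent.Lib.MP_5591bc_ag.M.GK
import Pool.Agent.Lib.MP_5591bc_ag.W.Sym

set_option linter.unusedSectionVars false

/-! Symmetric covectors. -/

namespace Pool.Agent.Lib.MP_5591bc_ag.M

open Matrix Filter Topology MvPowerSeries G R W Metric Finset

noncomputable section

variable {σ K ν : Type*} [Fintype σ] [DecidableEq σ] [Field K] [Fintype ν] [DecidableEq ν] {δ : ℕ}

theorem sy_lser {F : Mo δ ν → K} (h : Sy F) (T : MvPolynomial σ K)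
    (B : σ → Matrix ν ν (MvPolynomial σ K)) (x : σ → K) : Sy (LserM T B δ x F) :=
  (h.comp _).adj _

theorem sy_lam [Algebra K ℂ] {F : Mo δ ν → K} (h : Sy F) (P : (σ → ℂ) → Matrix ν ν ℂ) (x : σ → K)
    (t : σ → ℂ) : Sy (lamM P δ x F t) :=
  (h.comp _).adj _

/-- a bad covector can be taken symmetric -/
theorem exists_syM [Algebra K ℂ] {U : Set (σ → ℂ)} {P : (σ → ℂ) → Matrix ν ν ℂ} {x : σ → K}
    {F : Mo δ ν → K} (hn : ¬ LGM U P δ x F) : ∃ F' : Mo δ ν → K, Sy F' ∧ ¬ LGM U P δ x F' ∧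
      ∀ Y : Matrix ν ν ℂ, (fun μ => algebraMap K ℂ (F' μ)) ⬝ᵥ mono δ Y =
        (fun μ => algebraMap K ℂ (F μ)) ⬝ᵥ mono δ Y := by
  have : CharZero K := (algebraMap K ℂ).charZero
  have n0 : (Fintype.card (Equiv.Perm (Fin δ)) : ℂ) ≠ 0 := Nat.cast_ne_zero.2 Fintype.card_ne_zero
  obtain ⟨F', hF⟩ : ∃ F' : Mo δ ν → K, F' = fun μ =>
    (Fintype.card (Equiv.Perm (Fin δ)) : K)⁻¹ * ∑ π : Equiv.Perm (Fin δ), F (μ ∘ π) := ⟨_, rfl⟩
  have e : ∀ Y : Matrix ν ν ℂ, (fun μ => algebraMap K ℂ (F' μ)) ⬝ᵥ mono δ Y =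
      (fun μ => algebraMap K ℂ (F μ)) ⬝ᵥ mono δ Y := fun Y => by
    simp only [hF, dotProduct, map_mul, map_inv₀, map_natCast, map_sum, mul_assoc, ← mul_sum,
      sum_mul]
    rw [sum_comm, inv_mul_eq_iff_eq_mul₀ n0, ← card_univ, ← nsmul_eq_mul, ← sum_const]
    refine sum_congr rfl fun π _ => ?_
    rw [← sy_sum π fun μ => algebraMap K ℂ (F μ) * mono δ Y μ]
    exact sum_congr rfl fun μ _ => congrArg _ (Equiv.prod_comp π fun l => hatg Y (μ l)).symm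
  refine ⟨F', fun π μ => ?_, fun ⟨h, h1, h2⟩ => hn ⟨fun μ => h μ + MvPolynomial.C (F μ - F' μ),
    fun μ => by simp [h1], fun t ht => ?_⟩, e⟩
  · simp only [hF]
    exact congrArg _ (Equiv.sum_comp (Equiv.mulLeft π) fun π => F (μ ∘ π))
  · have h3 := h2 t ht
    have h4 := e (P t)
    simp only [dotProduct, map_add, MvPolynomial.aeval_C, map_sub, add_mul, sub_mul,
      sum_add_distrib, sum_sub_distrib] at h3 h4 ⊢
    rw [h3, h4, sub_self, add_zero]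

/-- the adjoint tensors from the bound on the matrix -/
theorem gk_adj_of [NumberField K] {Y : Matrix ν ν (MvPowerSeries σ K)} {c n Λ : ℕ} (n0 : 0 < n)
    (hY : GKm (2 ^ (c * n)) fun p : ν × ν => Y p.1 p.2)
    (hΛ : (c + 1) * Fintype.card ν * δ * n ≤ Λ) :
    (GKm (2 ^ Λ) fun p : Mo δ ν × Mo δ ν => Adj δ Y p.1 p.2) ∧
      ∀ F : Mo δ ν → K, GKm (2 ^ Λ) ((fun μ => C (F μ)) ᵥ* Adj δ Y) := by
  have e : (2 * 2 ^ (c * n)) ^ (Fintype.card ν * δ) ≤ 2 ^ Λ := by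
    rw [← pow_succ', ← pow_mul]
    refine Nat.pow_le_pow_right two_pos (le_trans ?_ hΛ)
    calc _ ≤ (c + 1) * n * (Fintype.card ν * δ) := Nat.mul_le_mul_right _ (by rw [add_mul]; omega)
      _ = _ := by ring
  exact ⟨(hY.adj δ).1.mono e, fun F => ((hY.adj δ).2 F).mono e⟩

end

end Pool.Agent.Lib.MP_5591bc_ag.M
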