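import Pool.Agent.Lib.MP_5591bc_ag.M.UpB

/-! The analytic upper bound. -/

namespace Pool.Agent.Lib.MP_5591bc_ag.M

open Matrix Filter Topology MvPowerSeries G R W Metric

noncomputable section

variable {σ : Type*} [Fintype σ] [DecidableEq σ]

omit [DecidableEq σ] in
theorem Rad.mul8 {S S' ρ : ℝ} {s x : σ → ℂ} {W W' : MvPowerSeries σ ℂ}
    {g g' : (σ → ℂ) → ℂ} (h : Rad 16 S ρ s x W g) (h' : Rad 8 S' ρ s x W' g') :
    Rad 8 (2 * S * S') ρ s x (W * W') fun y => g y * g' y := by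
  refine ⟨h.an.fun_mul h'.an, fun y hy n => ?_, ?_⟩
  · rw [map_mul]
    exact upb_bd (h.bd y hy) (h'.bd y hy) n
  · filter_upwards [h.sum, h'.sum] with y h1 h2
    have s1 := summable_norm_iff.2 h1.summable
    have s2 := summable_norm_iff.2 h2.summable
    have := (summable_norm_sum_mul_antidiagonal_of_summable_norm s1 s2).of_norm.hasSum
    rw [← tsum_mul_tsum_eq_tsum_sum_antidiagonal_of_summable_norm s1 s2, h1.tsum_eq,
      h2.tsum_eq] at this
    simpa only [map_mul, PowerSeries.coeff_mul] using this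

omit [DecidableEq σ] in
theorem Rad.prod8 {S S' ρ : ℝ} {s x : σ → ℂ} {V : MvPowerSeries σ ℂ}
    {f : (σ → ℂ) → ℂ} (h0 : Rad 8 S' ρ s x V f) : ∀ {a : ℕ} {W : Fin a → MvPowerSeries σ ℂ}
    {g : Fin a → (σ → ℂ) → ℂ}, (∀ l, Rad 16 S ρ s x (W l) (g l)) →
    Rad 8 (S' * (2 * S) ^ a) ρ s x (V * ∏ l, W l) fun y => f y * ∏ l, g l y
  | 0, _, _, _ => by simpa using h0
  | a + 1, W, g, h => by
    have := (h 0).mul8 (Rad.prod8 h0 fun l => h l.succ)
    simp only [Fin.prod_univ_succ]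
    convert this using 1
    · ring
    · ring
    · ext; ring

/-- monomials in `t - s` times products of solutions -/
theorem Rad.mon {a : ℕ} {W : Fin a → MvPowerSeries σ ℂ} {g : Fin a → (σ → ℂ) → ℂ} {s x : σ → ℂ}
    {S ρ h : ℝ} (S0 : 0 ≤ S) (h1 : 1 ≤ h) (hρ : ρ ≤ h) (hx : ∀ l, ‖x l - s l‖ ≤ h)
    (H : ∀ i, Rad 16 S ρ s x (W i) (g i)) {e : σ → ℕ} {D : ℕ} (he : ∀ l, e l ≤ D) :
    Rad 8 ((16 * h) ^ (Fintype.card σ * D) * (2 * S) ^ a) ρ s x ((∏ l, X l ^ e l) * ∏ i, W i)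
      fun t => MvPolynomial.eval t (mns s e) * ∏ i, g i t := by
  have _ := S0
  have := (upb_mon (ρ := ρ) (h := 2 * h) (s := s) (x := x) (e := e) (D := Fintype.card σ * D)
    (by linarith) (fun l => by linarith [hx l])
    ((Finset.sum_le_card_nsmul _ _ D fun l _ => he l).trans_eq (by simp))).prod8 H
  rw [← mul_assoc, show (8 * 2 : ℝ) = 16 by norm_num] at this
  simpa only [mns, map_prod, map_pow, map_sub, MvPolynomial.eval_X, MvPolynomial.eval_C] using this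

end

end Pool.Agent.Lib.MP_5591bc_ag.M
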