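import Pool.Agent.Lib.MP_5591bc_ag.M.Set
import Pool.Agent.Lib.MP_5591bc_ag.M.Tor
import Pool.Agent.Lib.MP_5591bc_ag.W.UpA

/-! Upper bound for Taylor coefficients in several variables. -/

namespace Pool.Agent.Lib.MP_5591bc_ag.M

open Filter Topology MvPowerSeries G W Metric Finset

noncomputable section

variable {σ : Type*} [Fintype σ] [DecidableEq σ]

theorem upm_mem {n : ℕ} {κ : σ →₀ ℕ} : κ ∈ finsuppAntidiag univ n ↔ κ.degree = n := by
  rw [mem_finsuppAntidiag, Finsupp.degree_eq_sum]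
  simp

theorem upm_dir {R : Type*} [CommRing R] (v : σ → R) (F : MvPowerSeries σ R) (n : ℕ) :
    PowerSeries.coeff n (dir v F) =
      ∑ κ ∈ finsuppAntidiag univ n, (∏ l, v l ^ κ l) * coeff κ F := by
  change coeff (Finsupp.single () n) (rename (fun _ : σ => ()) (rescale v F)) = _
  rw [coeff_rename]
  refine sum_congr ?_ fun κ _ => ?_
  · ext κ
    rw [Set.Finite.mem_toFinset, Set.mem_preimage, Set.mem_singleton_iff, upm_mem]
    constructor
    · intro h
      rw [← Finsupp.degree_mapDomain (fun _ : σ => ()) κ, h, Finsupp.degree_single]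
    · intro h
      rw [← Finsupp.degree_mapDomain (fun _ : σ => ()) κ] at h
      rw [Finsupp.unique_single (Finsupp.mapDomain _ κ), ← h, Finsupp.degree_eq_sum]
      simp
  · rw [coeff_rescale, Finsupp.prod_fintype _ _ fun _ => pow_zero _]

/-- the sum of the series along the rays -/
def upG (s : σ → ℂ) (W : MvPowerSeries σ ℂ) (y : σ → ℂ) : ℂ :=
  ∑' n, PowerSeries.coeff n (dir (y - s) W)

theorem upm_sum {q S : ℝ} (q2 : 2 ≤ q) : Summable fun n : ℕ => S / q ^ n := by
  simp only [div_eq_mul_inv, ← inv_pow]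
  exact (summable_geometric_of_lt_one (by positivity)
    (inv_lt_one_of_one_lt₀ (by linarith))).mul_left S

omit [DecidableEq σ] in
theorem upm_ball {x η : σ → ℂ} (hη : ∀ l, ‖η l‖ = 1) {u : ℂ} {ρ : ℝ} (hu : ‖u‖ ≤ ρ) :
    ‖x + u • η - x‖ ≤ ρ := by
  rw [add_sub_cancel_left, norm_smul]
  exact (mul_le_of_le_one_right (norm_nonneg _)
    ((pi_norm_le_iff_of_nonneg zero_le_one).2 fun l => (hη l).le)).trans hu

/-- Cauchy estimate in one block of variables -/
theorem upm_one {α : Type*} [Fintype α] {q S ρ E : ℝ} (q2 : 2 ≤ q) (ρ0 : 0 < ρ) {s x : σ → ℂ}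
    {W Φ : α → MvPowerSeries σ ℂ} {g : α → (σ → ℂ) → ℂ} (h : ∀ a, Rad q S ρ s x (W a) (g a))
    (ht : ∀ a v, dir v (Φ a) = tay (fun u : ℂ => g a (x + u • v)) 0) (b : α → ℂ)
    (hE : ∀ y, ‖y - x‖ ≤ ρ → ‖∑ a, b a * upG s (W a) y‖ ≤ E) (j : σ →₀ ℕ) :
    ‖∑ a, b a * coeff j (Φ a)‖ ≤ E * (2 / ρ) ^ j.degree := by
  have key := tor (∑ κ ∈ finsuppAntidiag univ j.degree,
    MvPolynomial.monomial κ (∑ a, b a * coeff κ (Φ a))) (E * (2 / ρ) ^ j.degree) (fun η hη => by
      have d1 : ∀ a, DifferentiableOn ℂ (fun u : ℂ => upG s (W a) (x + u • η)) (ball 0 ρ) :=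
        fun a => Complex.differentiableOn_tsum_of_summable_norm (upm_sum (S := S) q2)
          (fun n => by
            simp only [upm_dir, Pi.sub_apply, Pi.add_apply, Pi.smul_apply, smul_eq_mul]
            fun_prop) isOpen_ball
          fun n u hu => (h a).bd _ (upm_ball hη (mem_ball_zero_iff.1 hu).le) n
      have an : ∀ a, AnalyticAt ℂ (fun u : ℂ => upG s (W a) (x + u • η)) 0 := fun a =>
        (d1 a).analyticAt (ball_mem_nhds 0 ρ0)
      have c := cauchy (g := fun u : ℂ => ∑ a, b a * upG s (W a) (x + u • η)) (p := 0)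
        (DifferentiableOn.fun_sum fun a _ => (d1 a).const_mul (b a)) (half_pos ρ0)
        (half_lt_self ρ0) (fun u hu => hE _ (upm_ball hη
          ((mem_sphere_zero_iff_norm.1 hu).le.trans (half_le_self ρ0.le)))) j.degree
      rw [tay_sum _ fun a _ => analyticAt_const.fun_mul (an a)] at c
      have e : ∀ a, tay (fun u : ℂ => b a * upG s (W a) (x + u • η)) 0 =
          PowerSeries.C (b a) * dir η (Φ a) := fun a => by
        rw [tay_cmul (an a), ht]
        refine congrArg _ (tay_congr ?_)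
        have : Tendsto (fun u : ℂ => x + u • η) (𝓝 0) (𝓝 x) :=
          (show Continuous fun u : ℂ => x + u • η by fun_prop).tendsto' _ _ (by simp)
        exact (this.eventually (h a).sum).mono fun u hu => hu.tsum_eq
      simp only [e, map_sum, PowerSeries.coeff_C_mul, upm_dir] at c
      refine le_trans (le_of_eq (congrArg _ ?_)) (c.trans_eq ?_)
      · simp only [map_sum, MvPolynomial.eval_monomial, mul_sum]
        rw [sum_comm]
        refine sum_congr rfl fun a _ => sum_congr rfl fun κ _ => ?_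
        rw [Finsupp.prod_fintype _ _ fun _ => pow_zero _]
        ring
      · rw [div_eq_mul_inv, ← inv_pow, inv_div]) j
  rwa [MvPolynomial.coeff_sum, sum_eq_single j
    (fun κ _ hκ => by rw [MvPolynomial.coeff_monomial, if_neg hκ])
    (fun h => absurd (upm_mem.2 rfl) h), MvPolynomial.coeff_monomial, if_pos rfl] at key

variable {ι α : Type*} [Fintype ι] [DecidableEq ι] [Fintype α]

/-- the values are small -/
theorem upm_val (c : (ι → α) → ℂ) {q ρ : ℝ} {S : ι → ℝ} (q2 : 2 ≤ q) (S0 : ∀ i, 0 ≤ S i)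
    {s : σ → ℂ} {x : ι → σ → ℂ} {W : ι → α → MvPowerSeries σ ℂ} {g : ι → α → (σ → ℂ) → ℂ}
    (h : ∀ i a, Rad q (S i) ρ s (x i) (W i a) (g i a)) {Y : ℕ}
    (hz : ∀ κ : ι → σ →₀ ℕ, ∑ i, (κ i).degree < Y →
      ∑ a, c a * ∏ i, coeff (κ i) (W i (a i)) = 0) (y : ι → σ → ℂ) (hy : ∀ i, ‖y i - x i‖ ≤ ρ) :
    ‖∑ a, c a * ∏ i, upG s (W i (a i)) (y i)‖ ≤ (∑ a, ‖c a‖) * (∏ i, 2 * S i) * (2 / q) ^ Y := by
  refine up_core c (fun i a n => PowerSeries.coeff n (dir (y i - s) (W i a))) (fun _ _ => 1)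
    (fun i a => upG s (W i a) (y i)) (fun i a => ?_) S0 (by positivity)
    ((div_le_one (by linarith)).2 q2) (fun i a n => ?_) fun n hn => ?_
  · simp only [mul_one]
    exact ((upm_sum (S := S i) q2).of_norm_bounded ((h i a).bd _ (hy i))).hasSum
  · rw [mul_one, div_div_cancel_left' (two_ne_zero), inv_pow, ← div_eq_mul_inv]
    exact (h i a).bd _ (hy i) n
  · simp only [upm_dir, prod_univ_sum, mul_sum]
    rw [sum_comm]
    refine sum_eq_zero fun κ hκ => ?_
    simp only [prod_mul_distrib, mul_left_comm (c _)]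
    rw [← mul_sum, hz κ, mul_zero]
    rwa [sum_congr rfl fun i _ => upm_mem.1 (Fintype.mem_piFinset.1 hκ i)]

/-- the estimate -/
theorem upm_main (c : (ι → α) → ℂ) {q ρ : ℝ} {S : ι → ℝ} (q2 : 2 ≤ q) (ρ0 : 0 < ρ)
    (S0 : ∀ i, 0 ≤ S i) {s : σ → ℂ} {x : ι → σ → ℂ} {W Φ : ι → α → MvPowerSeries σ ℂ}
    {g : ι → α → (σ → ℂ) → ℂ} (h : ∀ i a, Rad q (S i) ρ s (x i) (W i a) (g i a))
    (ht : ∀ i a v, dir v (Φ i a) = tay (fun u : ℂ => g i a (x i + u • v)) 0) {Y : ℕ}
    (hz : ∀ κ : ι → σ →₀ ℕ, ∑ i, (κ i).degree < Y →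
      ∑ a, c a * ∏ i, coeff (κ i) (W i (a i)) = 0) (j : ι → σ →₀ ℕ) :
    ‖∑ a, c a * ∏ i, coeff (j i) (Φ i (a i))‖ ≤
      (∑ a, ‖c a‖) * (∏ i, 2 * S i) * (2 / q) ^ Y * (2 / ρ) ^ ∑ i, (j i).degree := by
  have key : ∀ I : Finset ι, ∀ y : ι → σ → ℂ, (∀ i, ‖y i - x i‖ ≤ ρ) →
      ‖∑ a, c a * ∏ i, if i ∈ I then coeff (j i) (Φ i (a i)) else upG s (W i (a i)) (y i)‖ ≤
      (∑ a, ‖c a‖) * (∏ i, 2 * S i) * (2 / q) ^ Y * (2 / ρ) ^ ∑ i ∈ I, (j i).degree := by
    intro I
    induction I using Finset.induction_on with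
    | empty => simpa using upm_val c q2 S0 h hz
    | insert i0 I hi ih =>
      intro y hy
      have := upm_one q2 ρ0 (fun a : ι → α => h i0 (a i0)) (fun a => ht i0 (a i0))
        (fun a => c a * ∏ i ∈ univ.erase i0,
          if i ∈ I then coeff (j i) (Φ i (a i)) else upG s (W i (a i)) (y i)) (fun z hz' => by
          refine le_trans (le_of_eq (congrArg _ (sum_congr rfl fun a _ => ?_)))
            (ih (Function.update y i0 z) fun i => ?_)
          · rw [← prod_erase_mul _ _ (mem_univ i0), if_neg hi, Function.update_self, mul_assoc]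
            refine congrArg (c a * ·) (congrArg (· * _) (prod_congr rfl fun i h => ?_))
            rw [Function.update_of_ne (ne_of_mem_erase h)]
          · by_cases e : i = i0
            · subst e; rwa [Function.update_self]
            · rw [Function.update_of_ne e]; exact hy i) (j i0)
      rw [sum_insert hi, add_comm, pow_add, ← mul_assoc]
      refine le_trans (le_of_eq (congrArg _ (sum_congr rfl fun a _ => ?_))) this
      rw [← prod_erase_mul _ _ (mem_univ i0), if_pos (mem_insert_self _ _), mul_assoc]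
      refine congrArg (c a * ·) (congrArg (· * _) (prod_congr rfl fun i h => ?_))
      simp only [mem_insert, ne_of_mem_erase h, false_or]
  simpa using key univ x fun i => by simpa using ρ0.le

end

end Pool.Agent.Lib.MP_5591bc_ag.M
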