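import Pool.Agent.Lib.MP_5591bc_ag.M.Set
import Pool.Agent.Lib.MP_5591bc_ag.RBord

/-! The zero estimate in several variables. -/

namespace Pool.Agent.Lib.MP_5591bc_ag.M

open Matrix MvPowerSeries G R W

noncomputable section

variable {σ L ι : Type*}

theorem zm_mono [CommRing L] {n m : ℕ} {f : MvPowerSeries σ L} (h : On n f) (e : m ≤ n) : On m f :=
  fun κ hκ => h κ (hκ.trans_le e)

theorem zm_mul [CommRing L] {n : ℕ} {f : MvPowerSeries σ L} (h : On n f) (g : MvPowerSeries σ L) :
    On n (g * f) := fun κ hκ => by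
  classical
  rw [coeff_mul]
  refine Finset.sum_eq_zero fun p hp => ?_
  rw [h p.2 (lt_of_le_of_lt ?_ hκ), mul_zero]
  rw [← Finset.HasAntidiagonal.mem_antidiagonal.1 hp, map_add]
  exact Nat.le_add_left _ _

theorem zm_der [CommRing L] {n : ℕ} {f : MvPowerSeries σ L} (h : On n f) (l : σ) :
    On (n - 1) (pderiv L l f) := fun κ hκ => by
  rw [coeff_pderiv, h _ (by rw [map_add, Finsupp.degree_single]; omega), zero_mul]

theorem zm_fam [Field L] [CharZero L] {t : MvPowerSeries σ L} (ht : IsUnit t)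
    {F : Set (MvPowerSeries σ L)} (h0 : ∀ g ∈ F, ¬ IsUnit g)
    (hd : ∀ g ∈ F, ∀ l, t * pderiv L l g ∈ F) : ∀ g ∈ F, g = 0 := by
  have key : ∀ n, ∀ g ∈ F, On n g := fun n => by
    induction n with
    | zero => exact fun _ _ _ h => absurd h (Nat.not_lt_zero _)
    | succ n ih =>
      intro g hg κ hκ
      by_cases e : κ = 0
      · have := h0 g hg
        rw [isUnit_iff_constantCoeff, isUnit_iff_ne_zero, not_not] at this
        simpa [e] using this
      obtain ⟨l, hl⟩ := Finsupp.ne_iff.1 e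
      obtain ⟨κ', rfl⟩ : ∃ κ', κ = κ' + Finsupp.single l 1 :=
        ⟨κ - Finsupp.single l 1, (tsub_add_cancel_of_le
          (Finsupp.single_le_iff.2 (Nat.pos_of_ne_zero hl))).symm⟩
      obtain ⟨u, rfl⟩ := ht
      have := zm_mul (ih _ (hd g hg l)) (u⁻¹ : (MvPowerSeries σ L)ˣ) κ' (by
        rw [map_add, Finsupp.degree_single] at hκ
        omega)
      rw [Units.inv_mul_cancel_left, coeff_pderiv] at this
      exact (mul_eq_zero.1 this).resolve_right (Nat.cast_add_one_ne_zero _)
  exact fun g hg => MvPowerSeries.ext fun κ => key _ g hg κ (Nat.lt_succ_self _)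

theorem zm_tau [CommRing L] (x : σ → L) (p : MvPolynomial σ L) : τm x p =
    (MvPolynomial.aeval (fun l => MvPolynomial.X l + MvPolynomial.C (x l)) p :
      MvPolynomial σ L) := rfl

theorem zm_tau_der [CommRing L] (x : σ → L) (l : σ) (p : MvPolynomial σ L) :
    τm x (MvPolynomial.pderiv l p) = pderiv L l (τm x p) := by
  classical
  rw [zm_tau, zm_tau, pderiv_coe]
  congr 1
  induction p using MvPolynomial.induction_on with
  | C a => simp
  | add p q hp hq => simp only [map_add, hp, hq]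
  | mul_X p i hp =>
    simp only [Derivation.leibniz, smul_eq_mul, map_add, map_mul, hp, MvPolynomial.aeval_X,
      MvPolynomial.pderiv_C, add_zero, MvPolynomial.pderiv_X, Pi.single_apply]
    split_ifs <;> simp

theorem zm_unit [Field L] {x : σ → L} {p : MvPolynomial σ L} (h : MvPolynomial.eval x p ≠ 0) :
    IsUnit (τm x p) := by
  have : constantCoeff (τm x p) = MvPolynomial.eval x p := by
    clear h
    induction p using MvPolynomial.induction_on with
    | C a => simp [zm_tau]
    | add p q hp hq => simp only [map_add, hp, hq]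
    | mul_X p i hp =>
      rw [map_mul, map_mul, hp, map_mul]
      simp [zm_tau]
  rw [isUnit_iff_constantCoeff, this]
  exact h.isUnit

variable [Fintype ι]

theorem zm_prm [CommRing L] {T : MvPolynomial σ L} {B : σ → Matrix ι ι (MvPolynomial σ L)}
    {x : σ → L} {Φ : ι → MvPowerSeries σ L} (h : IsM (τm x) T B Φ) (l : σ)
    (φ : ι → MvPolynomial σ L) :
    prm (τm x) Φ (Dm T B l φ) = τm x T * pderiv L l (prm (τm x) Φ φ) := by
  simp only [prm, Dm, Pi.add_apply, Pi.smul_apply, smul_eq_mul, map_add, map_mul, zm_tau_der,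
    vecMul, dotProduct, map_sum, Derivation.leibniz, add_mul, Finset.sum_add_distrib, mul_add,
    Finset.mul_sum, Finset.sum_mul]
  rw [add_comm, Finset.sum_comm]
  refine congrArg₂ _ (Finset.sum_congr rfl fun i _ => ?_) (Finset.sum_congr rfl fun i _ => by ring)
  rw [mul_left_comm, h l i, Finset.mul_sum]
  exact Finset.sum_congr rfl fun _ _ => mul_assoc _ _ _

theorem zm_pdeg [CommRing L] (l : σ) (p : MvPolynomial σ L) :
    (MvPolynomial.pderiv l p).totalDegree ≤ p.totalDegree := by
  classical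
  refine Finset.sup_le fun κ hκ => ?_
  rw [MvPolynomial.mem_support_iff, MvPolynomial.coeff_pderiv] at hκ
  refine le_trans ?_ (MvPolynomial.le_totalDegree
    (MvPolynomial.mem_support_iff.2 (left_ne_zero_of_mul hκ)))
  rw [Finsupp.sum_add_index' (fun _ => rfl) fun _ _ _ => rfl]
  exact Nat.le_add_right _ _

theorem zm_deg [CommRing L] {T : MvPolynomial σ L} {B : σ → Matrix ι ι (MvPolynomial σ L)} {e D : ℕ}
    (hT : T.totalDegree ≤ e) (hB : ∀ l i j, (B l i j).totalDegree ≤ e) {φ : ι → MvPolynomial σ L}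
    (hφ : ∀ i, (φ i).totalDegree ≤ D) (l : σ) (i : ι) : (Dm T B l φ i).totalDegree ≤ D + e := by
  refine (MvPolynomial.totalDegree_add _ _).trans (max_le ?_ ?_)
  · exact (MvPolynomial.totalDegree_mul _ _).trans
      ((add_le_add hT ((zm_pdeg l _).trans (hφ i))).trans (add_comm _ _).le)
  · exact MvPolynomial.totalDegree_finsetSum_le fun j _ =>
      (MvPolynomial.totalDegree_mul _ _).trans (add_le_add (hφ j) (hB l j i))

omit [Fintype ι] in
theorem zm_mnr [CommRing L] {r D : ℕ} {v : Fin r → ι → MvPolynomial σ L}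
    (h : ∀ l i, (v l i).totalDegree ≤ D) (I : Fin r → ι) : (mnr v I).totalDegree ≤ r * D := by
  rw [mnr, det_apply]
  refine MvPolynomial.totalDegree_finsetSum_le fun π _ => ?_
  rw [Units.smul_def, ← Int.cast_smul_eq_zsmul L]
  exact (MvPolynomial.totalDegree_smul_le _ _).trans ((MvPolynomial.totalDegree_finsetProd _ _).trans
    ((Finset.sum_le_card_nsmul _ _ D fun l _ => h _ _).trans (by simp)))

/-- one polynomial vanishes to high order at all ordinary points where the form vanishes to high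
order without being zero -/
theorem zm_delta [Field L] [CharZero L] {T : MvPolynomial σ L}
    {B : σ → Matrix ι ι (MvPolynomial σ L)} {e D : ℕ} (hT : T.totalDegree ≤ e)
    (hB : ∀ l i j, (B l i j).totalDegree ≤ e) {φ : ι → MvPolynomial σ L}
    (hφ : ∀ i, (φ i).totalDegree ≤ D) : ∃ Δ : MvPolynomial σ L, Δ ≠ 0 ∧
      Δ.totalDegree ≤ Fintype.card ι * (D + Fintype.card ι * e) ∧
      ∀ (x : σ → L) (Φ : ι → MvPowerSeries σ L) (μ : ℕ), MvPolynomial.eval x T ≠ 0 →
        IsM (τm x) T B Φ → prm (τm x) Φ φ ≠ 0 → On μ (prm (τm x) Φ φ) →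
        On (μ - Fintype.card ι) (τm x Δ) := by
  obtain ⟨r, hr, v, I, a1, a2, a3⟩ := greedy fun j u =>
    ∃ w : List σ, w.length ≤ j ∧ u = w.foldr (Dm T B) φ
  have dg : ∀ (w : List σ) i, (w.foldr (Dm T B) φ i).totalDegree ≤ D + w.length * e := fun w => by
    induction w with
    | nil => simpa using hφ
    | cons l w ih =>
      rw [List.length_cons, Nat.succ_mul, ← add_assoc]
      exact zm_deg hT hB ih l
  have st : ∀ (w : List σ) β, bord v I (w.foldr (Dm T B) φ) β = 0 := fun w => by
    induction w with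
    | nil => exact a3 _ ⟨[], r.zero_le, rfl⟩
    | cons l w ih =>
      refine sat_closed a2 ⟨⟨Dm T B l, by ext1; simp [Dm]⟩, fun a b => ?_⟩
        (fun a => T * MvPolynomial.pderiv l a) (fun a u => ?_) (fun j => ?_) ih
      · ext1 i
        simp only [Dm, Pi.add_apply, Pi.smul_apply, smul_eq_mul, map_add, add_vecMul]
        ring
      · change Dm T B l _ = a • Dm T B l u + _
        ext1 i
        simp only [Dm, Pi.add_apply, Pi.smul_apply, smul_eq_mul, Derivation.leibniz, smul_vecMul]
        ring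
      · obtain ⟨w, h1, h2⟩ := a1 j
        exact a3 _ ⟨l :: w, h1.trans_lt j.rev.2, congrArg (Dm T B l) h2⟩
  refine ⟨mnr v I, a2, (zm_mnr (D := D + Fintype.card ι * e) (fun j i => ?_) I).trans (by gcongr),
    fun x Φ μ hx hS h0 hμ => ?_⟩
  · obtain ⟨w, h1, h2⟩ := a1 j
    rw [h2]
    have := (h1.trans j.rev.2.le).trans hr
    exact (dg w i).trans (by gcongr)
  have od : ∀ w : List σ, On (μ - w.length) (prm (τm x) Φ (w.foldr (Dm T B) φ)) := fun w => by
    induction w with
    | nil => exact hμ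
    | cons l w ih =>
      rw [List.foldr_cons, zm_prm hS]
      exact zm_mul (zm_der ih l) _
  obtain ⟨w, u, hu⟩ : ∃ w : List σ, IsUnit (prm (τm x) Φ (w.foldr (Dm T B) φ)) := by
    by_contra hc
    refine h0 (zm_fam (zm_unit hx) (F := Set.range fun w : List σ =>
      prm (τm x) Φ (w.foldr (Dm T B) φ)) ?_ ?_ _ ⟨[], rfl⟩)
    · rintro _ ⟨w, rfl⟩ h
      exact hc ⟨w, h⟩
    · rintro _ ⟨w, rfl⟩ l
      exact ⟨l :: w, zm_prm hS l _⟩
  obtain ⟨c, hc⟩ := sat_eq (st w)
  have e1 : τm x (mnr v I) = ∑ j, (u⁻¹ : (MvPowerSeries σ L)ˣ) * τm x (c j) *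
      prm (τm x) Φ (v j) := by
    have := congrArg (prm (τm x) Φ) hc
    simp only [prm, Pi.smul_apply, smul_eq_mul, map_mul, mul_assoc, ← Finset.mul_sum,
      Finset.sum_apply, map_sum, Finset.sum_mul] at this
    rw [Finset.sum_comm] at this
    simp only [prm, mul_assoc, ← Finset.mul_sum] at this hu ⊢
    rw [← this, ← hu, mul_comm (τm x _), Units.inv_mul_cancel_left]
  rw [e1]
  intro κ hκ
  rw [map_sum]
  refine Finset.sum_eq_zero fun j _ => zm_mul ?_ _ κ hκ
  obtain ⟨w, h1, h2⟩ := a1 j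
  have := (h1.trans j.rev.2.le).trans hr
  exact h2 ▸ zm_mono (od w) (by omega)

end

end Pool.Agent.Lib.MP_5591bc_ag.M
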